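import Pool.Agent.GTD.Stmts2

set_option autoImplicit false

namespace Pool.Agent.GTD

namespace TRSP

open Polynomial Matrix

/-- A nondegenerate form for which multiplication by polynomials is self-adjoint. -/
def HasForm (K V : Type) [Field K] [AddCommGroup V] [Module K[X] V] : Prop :=
  ∃ b : V → V → K, (∀ x x' y, b (x + x') y = b x y + b x' y) ∧
    (∀ x y y', b x (y + y') = b x y + b x y') ∧
    (∀ (c : K) x y, b ((C c : K[X]) • x) y = c * b x y) ∧
    (∀ (p : K[X]) x y, b (p • x) y = b x (p • y)) ∧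
    ∀ y, (∀ x, b x y = 0) → y = 0

lemma HasForm.of_equiv {K V W : Type} [Field K] [AddCommGroup V] [Module K[X] V]
    [AddCommGroup W] [Module K[X] W] (e : V ≃ₗ[K[X]] W) (h : HasForm K W) : HasForm K V := by
  obtain ⟨b, h1, h2, h3, h4, h5⟩ := h
  refine ⟨fun x y => b (e x) (e y), ?_, ?_, ?_, ?_, ?_⟩
  · intro x x' y
    beta_reduce
    rw [map_add, h1]
  · intro x y y'
    beta_reduce
    rw [map_add, h2]
  · intro c x y
    beta_reduce
    rw [map_smul, h3]
  · intro p x y
    beta_reduce
    rw [map_smul, map_smul, h4]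
  · intro y hy
    have h : e y = 0 := h5 _ fun x => by
      have := hy (e.symm x)
      beta_reduce at this
      rwa [e.apply_symm_apply] at this
    exact (map_eq_zero_iff e e.injective).1 h

lemma exists_functional {K : Type} [Field K] (q : K[X]) (hq : q ≠ 0) :
    ∃ l : K[X] →ₗ[K] K, (∀ g, q ∣ g → l g = 0) ∧ ∀ f, ¬ q ∣ f → ∃ g, l (g * f) ≠ 0 := by
  obtain ⟨m, hm, hqm, hmq⟩ : ∃ m : K[X], m.Monic ∧ q ∣ m ∧ m ∣ q := by
    have hl : q.leadingCoeff ≠ 0 := leadingCoeff_ne_zero.2 hq
    refine ⟨q * C q.leadingCoeff⁻¹, monic_mul_leadingCoeff_inv hq, Dvd.intro _ rfl, ?_⟩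
    refine ⟨C q.leadingCoeff, ?_⟩
    rw [mul_assoc, ← C_mul, inv_mul_cancel₀ hl, C_1, mul_one]
  refine ⟨(lcoeff K (m.natDegree - 1)).comp (modByMonicHom m), ?_, ?_⟩
  · intro g hg
    have h : g %ₘ m = 0 := (modByMonic_eq_zero_iff_dvd hm).2 (hmq.trans hg)
    rw [LinearMap.comp_apply, modByMonicHom_apply, h, map_zero]
  · intro f hf
    have hr : f %ₘ m ≠ 0 := fun h => hf (hqm.trans ((modByMonic_eq_zero_iff_dvd hm).1 h))
    have hm1 : m ≠ 1 := fun h => hf (hqm.trans (h ▸ one_dvd f))
    have hdeg : (f %ₘ m).natDegree < m.natDegree := natDegree_modByMonic_lt f hm hm1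
    refine ⟨Polynomial.X ^ (m.natDegree - 1 - (f %ₘ m).natDegree), ?_⟩
    rw [LinearMap.comp_apply, modByMonicHom_apply, lcoeff_apply]
    set r := f %ₘ m with hrdef
    set k := m.natDegree - 1 - r.natDegree with hk
    have h1 : (Polynomial.X ^ k * f) %ₘ m = Polynomial.X ^ k * r := by
      have h2 : (Polynomial.X ^ k * f) %ₘ m = (Polynomial.X ^ k * r) %ₘ m := by
        have h3 : (Polynomial.X ^ k * f - Polynomial.X ^ k * r) %ₘ m = 0 := by
          rw [modByMonic_eq_zero_iff_dvd hm, ← mul_sub]
          refine Dvd.dvd.mul_left ?_ _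
          refine ⟨f /ₘ m, ?_⟩
          have := modByMonic_add_div f m
          rw [← hrdef] at this
          linear_combination -this
        have h4 := sub_modByMonic (Polynomial.X ^ k * f) (Polynomial.X ^ k * r) (q := m)
        rw [h3] at h4
        exact (sub_eq_zero.1 h4.symm)
      rw [h2, modByMonic_eq_self_iff hm]
      have h5 : (Polynomial.X ^ k * r : K[X]) ≠ 0 := mul_ne_zero (pow_ne_zero _ Polynomial.X_ne_zero) hr
      rw [degree_eq_natDegree h5, degree_eq_natDegree hm.ne_zero, Nat.cast_lt,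
        natDegree_X_pow_mul k hr]
      omega
    rw [h1]
    have h6 : m.natDegree - 1 = r.natDegree + k := by omega
    rw [h6, coeff_X_pow_mul]
    exact leadingCoeff_ne_zero.2 hr

lemma hasForm_quot {K : Type} [Field K] (q : K[X]) (hq : q ≠ 0) :
    HasForm K (K[X] ⧸ Submodule.span K[X] {q}) := by
  obtain ⟨l, hl1, hl2⟩ := exists_functional q hq
  have hs : Function.Surjective (Submodule.Quotient.mk (p := Submodule.span K[X] {q})) :=
    Submodule.Quotient.mk_surjective _
  choose o ho using hs
  have key : ∀ a b : K[X], Submodule.Quotient.mk (p := Submodule.span K[X] {q}) a =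
      Submodule.Quotient.mk b → q ∣ a - b := by
    intro a b h
    rw [Submodule.Quotient.eq] at h
    exact Ideal.mem_span_singleton.1 h
  have kl : ∀ a b c : K[X], Submodule.Quotient.mk (p := Submodule.span K[X] {q}) a =
      Submodule.Quotient.mk b → l (a * c) = l (b * c) := by
    intro a b c h
    have h1 := hl1 ((a - b) * c) (Dvd.dvd.mul_right (key a b h) c)
    rw [sub_mul, map_sub, sub_eq_zero] at h1
    exact h1
  refine ⟨fun x y => l (o x * o y), ?_, ?_, ?_, ?_, ?_⟩
  · intro x x' y
    beta_reduce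
    rw [kl (o (x + x')) (o x + o x') (o y), add_mul, map_add]
    rw [ho, Submodule.Quotient.mk_add, ho, ho]
  · intro x y y'
    beta_reduce
    rw [mul_comm (o x), kl (o (y + y')) (o y + o y') (o x), add_mul, map_add, mul_comm (o y),
      mul_comm (o y')]
    rw [ho, Submodule.Quotient.mk_add, ho, ho]
  · intro c x y
    beta_reduce
    rw [kl (o ((C c : K[X]) • x)) (C c * o x) (o y), mul_assoc, ← smul_eq_C_mul, map_smul,
      smul_eq_mul]
    rw [ho, ← smul_eq_mul (C c), Submodule.Quotient.mk_smul, ho]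
  · intro p x y
    beta_reduce
    rw [kl (o (p • x)) (p * o x) (o y), mul_comm (o x), kl (o (p • y)) (p * o y) (o x)]
    · congr 1
      ring
    · rw [ho, ← smul_eq_mul, Submodule.Quotient.mk_smul, ho]
    · rw [ho, ← smul_eq_mul, Submodule.Quotient.mk_smul, ho]
  · intro y hy
    by_contra hne
    have hd : ¬ q ∣ o y := by
      intro h
      apply hne
      rw [← ho y, Submodule.Quotient.mk_eq_zero]
      exact Ideal.mem_span_singleton.2 h
    obtain ⟨g, hg⟩ := hl2 (o y) hd
    apply hg
    have h1 := hy (Submodule.Quotient.mk g)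
    rw [← h1]
    exact kl _ _ _ (ho _).symm

lemma hasForm_sum {K : Type} [Field K] {ι : Type} [Fintype ι] (V : ι → Type)
    [∀ i, AddCommGroup (V i)] [∀ i, Module K[X] (V i)] (h : ∀ i, HasForm K (V i)) :
    HasForm K (DirectSum ι V) := by
  classical
  choose b h1 h2 h3 h4 h5 using h
  refine ⟨fun x y => ∑ i, b i (x i) (y i), ?_, ?_, ?_, ?_, ?_⟩
  · intro x x' y
    beta_reduce
    rw [← Finset.sum_add_distrib]
    refine Finset.sum_congr rfl fun i _ => ?_
    rw [DirectSum.add_apply, h1]
  · intro x y y'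
    beta_reduce
    rw [← Finset.sum_add_distrib]
    refine Finset.sum_congr rfl fun i _ => ?_
    rw [DirectSum.add_apply, h2]
  · intro c x y
    beta_reduce
    rw [Finset.mul_sum]
    refine Finset.sum_congr rfl fun i _ => ?_
    rw [DirectSum.smul_apply, h3]
  · intro p x y
    refine Finset.sum_congr rfl fun i _ => ?_
    rw [DirectSum.smul_apply, DirectSum.smul_apply, h4]
  · intro y hy
    refine DFinsupp.ext fun i => ?_
    refine h5 i _ fun v => ?_
    have h := hy (DirectSum.of V i v)
    beta_reduce at h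
    rw [Finset.sum_eq_single i] at h
    · rwa [DirectSum.of_eq_same] at h
    · intro j _ hj
      rw [DirectSum.of_eq_of_ne _ _ _ hj]
      have h0 := h3 j 0 0 (y j)
      rw [smul_zero, zero_mul] at h0
      exact h0
    · intro hi
      exact absurd (Finset.mem_univ i) hi

lemma hasForm_matrix {K : Type} [Field K] {n : ℕ} (f : (Fin n → K) →ₗ[K] (Fin n → K)) :
    HasForm K (Module.AEval' f) := by
  have ht : Module.IsTorsion K[X] (Module.AEval' f) :=
    Module.AEval.isTorsion_of_finiteDimensional K (Fin n → K) f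
  obtain ⟨ι, _, p, hp, e, ⟨w⟩⟩ := Module.equiv_directSum_of_isTorsion ht
  exact HasForm.of_equiv w (hasForm_sum _ fun i =>
    hasForm_quot (p i ^ e i) (pow_ne_zero _ (hp i).ne_zero))

end TRSP

open TRSP Polynomial Matrix in
theorem thm_TRSP : Stmt_TRSP := by
  intro K _ n M
  obtain ⟨b, h1, h2, h3, h4, h5⟩ := hasForm_matrix (Matrix.toLin' M)
  set o := Module.AEval'.of (Matrix.toLin' M) with ho
  have h3' : ∀ (c : K) x y, b x ((C c : K[X]) • y) = c * b x y := by
    intro c x y
    rw [← h4, h3]
  have hC : ∀ (c : K) (v : Fin n → K), o (c • v) = (C c : K[X]) • o v := by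
    intro c v
    rw [map_smul, Module.AEval.C_smul]
  have hX : ∀ v : Fin n → K, (Polynomial.X : K[X]) • o v = o (M *ᵥ v) := by
    intro v
    rw [ho, Module.AEval'.X_smul_of, Matrix.toLin'_apply]
  let B : (Fin n → K) →ₗ[K] (Fin n → K) →ₗ[K] K :=
    LinearMap.mk₂ K (fun v w => b (o v) (o w))
      (fun v v' w => by rw [map_add, h1])
      (fun c v w => by rw [hC, h3, smul_eq_mul])
      (fun v w w' => by rw [map_add, h2])
      (fun c v w => by rw [hC, h3', smul_eq_mul])
  have hB : ∀ v w, B v w = b (o v) (o w) := fun v w => rfl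
  let e : Fin n → Fin n → K := fun i => fun j => if i = j then 1 else 0
  let P : Matrix (Fin n) (Fin n) K := fun i j => B (e i) (e j)
  have hR : ∀ v w, B v w = ∑ j, w j * B v (e j) := fun v w =>
    LinearMap.pi_apply_eq_sum_univ (B v) w
  have hL : ∀ v w, B v w = ∑ i, v i * B (e i) w := fun v w =>
    LinearMap.pi_apply_eq_sum_univ (B.flip w) v
  have hMe : ∀ j k, (M *ᵥ e j) k = M k j := by
    intro j k
    rw [Matrix.mulVec, dotProduct, Finset.sum_eq_single j]
    · simp [e]
    · intro l _ hl
      simp [e, hl.symm]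
    · intro h
      exact absurd (Finset.mem_univ j) h
  have hself : ∀ v w, B (M *ᵥ v) w = B v (M *ᵥ w) := by
    intro v w
    rw [hB, hB, ← hX, ← hX, h4]
  have hPM : P * M = Mᵀ * P := by
    ext i j
    rw [Matrix.mul_apply, Matrix.mul_apply]
    have a1 : B (e i) (M *ᵥ e j) = ∑ k, P i k * M k j := by
      rw [hR]
      refine Finset.sum_congr rfl fun k _ => ?_
      rw [hMe, mul_comm]
    have a2 : B (M *ᵥ e i) (e j) = ∑ k, Mᵀ i k * P k j := by
      rw [hL]
      refine Finset.sum_congr rfl fun k _ => ?_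
      rw [hMe, Matrix.transpose_apply]
    rw [← a1, ← a2, hself]
  have hinj : Function.Injective P.mulVec := by
    have hz : ∀ w, P *ᵥ w = 0 → w = 0 := by
      intro w hw
      have h0 : ∀ v, B v w = 0 := by
        intro v
        rw [hL]
        refine Finset.sum_eq_zero fun i _ => ?_
        have hi : B (e i) w = (P *ᵥ w) i := by
          rw [hR, Matrix.mulVec, dotProduct]
          refine Finset.sum_congr rfl fun k _ => ?_
          rw [mul_comm]
        rw [hi, hw, Pi.zero_apply, mul_zero]
      have h6 : o w = 0 := by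
        refine h5 _ fun x => ?_
        have := h0 (o.symm x)
        rwa [hB, o.apply_symm_apply] at this
      exact (map_eq_zero_iff o o.injective).1 h6
    intro w w' h
    have h7 : P *ᵥ (w - w') = 0 := by
      rw [Matrix.mulVec_sub, sub_eq_zero]
      exact h
    exact sub_eq_zero.1 (hz _ h7)
  obtain ⟨Q, hQ⟩ := Matrix.mulVec_injective_iff_isUnit.1 hinj
  refine ⟨Q, ?_⟩
  rw [hQ]
  exact hPM

end Pool.Agent.GTD
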