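import Pool.Agent.GTD.Stmts

set_option autoImplicit false

/-! # Module AFF: values at affine transformations with scalar linear part -/

namespace Pool.Agent.GTD

open Matrix

namespace AFF

variable {O : Type} [CommRing O]

/-- The affine group acts on the plane by permutations. -/
def perm : AG O →* Equiv.Perm (Fin 2 → O) where
  toFun a :=
    { toFun := fun w => a.g.1 *ᵥ w + a.t
      invFun := fun w => (a⁻¹).g.1 *ᵥ w + (a⁻¹).t
      left_inv := by
        intro w
        have h : (a.g⁻¹).1 * a.g.1 = 1 := by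
          rw [← Units.val_mul, inv_mul_cancel, Units.val_one]
        simp only [AG.inv_g, AG.inv_t, Matrix.mulVec_add, Matrix.mulVec_mulVec, h,
          Matrix.one_mulVec]
        abel
      right_inv := by
        intro w
        have h : a.g.1 * (a.g⁻¹).1 = 1 := by
          rw [← Units.val_mul, mul_inv_cancel, Units.val_one]
        simp only [AG.inv_g, AG.inv_t, Matrix.mulVec_add, Matrix.mulVec_mulVec, h,
          Matrix.one_mulVec, Matrix.mulVec_neg]
        abel }
  map_one' := by
    ext w i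
    simp
  map_mul' a b := by
    ext w i
    simp only [AG.mul_g, AG.mul_t, Units.val_mul, Equiv.coe_fn_mk, Equiv.Perm.coe_mul,
      Function.comp_apply, Matrix.mulVec_add, Matrix.mulVec_mulVec]
    rw [add_comm a.t, add_assoc]

lemma perm_apply (a : AG O) (w : Fin 2 → O) : perm a w = a.g.1 *ᵥ w + a.t := rfl

lemma sc_mulVec (s : Oˣ) (w : Fin 2 → O) : (sc s).1 *ᵥ w = (s : O) • w := by
  ext i
  fin_cases i <;> simp [sc, Matrix.mulVec, dotProduct, Fin.sum_univ_two]

lemma perm_aff (s : Oˣ) (t w : Fin 2 → O) : perm (aff s t) w = (s : O) • w + t := by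
  rw [perm_apply]
  show (sc s).1 *ᵥ w + t = _
  rw [sc_mulVec]

lemma sc_comm (s t : Oˣ) : sc s * sc t = sc t * sc s := by
  apply Units.ext
  show (sc s).1 * (sc t).1 = (sc t).1 * (sc s).1
  simp only [sc]
  rw [← map_mul, ← map_mul, mul_comm]

lemma map_aff {O' : Type} [CommRing O'] (φ : O →+* O') (s : Oˣ) :
    Matrix.GeneralLinearGroup.map φ (sc s) = sc (Units.map (φ : O →* O') s) := by
  apply Units.ext
  ext i j
  fin_cases i <;> fin_cases j <;> simp [sc]

/-- The homomorphism of affine groups induced by a homomorphism of rings. -/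
def mapAG {O' : Type} [CommRing O'] (φ : O →+* O') : AG O →* AG O' where
  toFun a := ⟨Matrix.GeneralLinearGroup.map φ a.g, φ ∘ a.t⟩
  map_one' := by
    ext1
    · simp
    · ext i
      simp
  map_mul' a b := by
    ext1
    · simp
    · ext i
      simp only [AG.mul_t, Function.comp_apply, Pi.add_apply, map_add, RingHom.map_mulVec]
      rfl

lemma mapAG_aff {O' : Type} [CommRing O'] (φ : O →+* O') (s : Oˣ) (t : Fin 2 → O) :
    mapAG φ (aff s t) = aff (Units.map (φ : O →* O') s) (φ ∘ t) := by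
  ext1
  · exact map_aff φ s
  · rfl

/-- A translation. -/
def tr (w : Fin 2 → O) : AG O := ⟨1, w⟩

lemma conj_aff (w : Fin 2 → O) (s : Oˣ) :
    tr w * aff s 0 * (tr w)⁻¹ = aff s ((1 - (s : O)) • w) := by
  have h1 : tr w * aff s 0 = aff s w := by
    ext1
    · simp [tr, aff]
    · simp [tr, aff]
  rw [h1]
  ext1
  · simp [tr, aff]
  · have h2 : (aff s w).g.1 = (sc s).1 := rfl
    have h3 : ((tr w)⁻¹).t = -w := by
      rw [AG.inv_t]
      simp [tr]
    rw [AG.mul_t, h2, h3, Matrix.mulVec_neg, sc_mulVec]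
    show w + -((s : O) • w) = (1 - (s : O)) • w
    rw [sub_smul, one_smul, sub_eq_add_neg]

end AFF

open AFF

/-- MODULE AFF. -/
theorem thm_AFF (h : Stmt_API) : Stmt_AFF := by
  obtain ⟨-, -, h3, h4⟩ := h
  intro f hf O _ _
  have hg : ∀ (s t : Oˣ) (w₁ w₂ : Fin 2 → O), (E f (aff s w₁) (aff t w₂)).g = 1 := by
    intro s t w₁ w₂
    have h5 := map_E (AG.lin (O := O)) f (aff s w₁) (aff t w₂)
    have h6 : AG.lin (E f (aff s w₁) (aff t w₂)) = 1 :=
      h5.trans (h3 _ f hf _ _ (sc_comm s t))
    exact h6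
  have main : ∀ (s t : Oˣ) (w₁ w₂ : Fin 2 → O),
      E f (aff s w₁) (aff t w₂) = ⟨1, Pf f s t • w₁ - Qf f s t • w₂⟩ := by
    intro s t w₁ w₂
    refine AG.ext (hg s t w₁ w₂) ?_
    let L : (Fin 2 → O) → (Fin 2 → O) := fun x => x 0 • w₁ + x 1 • w₂
    have hL1 : ∀ x, L (perm (aff s ![1, 0]) x) = perm (aff s w₁) (L x) := by
      intro x
      rw [perm_aff, perm_aff]
      ext i
      simp only [L, Pi.add_apply, Pi.smul_apply, smul_eq_mul, Matrix.cons_val_zero,
        Matrix.cons_val_one]
      ring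
    have hL2 : ∀ x, L (perm (aff t ![0, 1]) x) = perm (aff t w₂) (L x) := by
      intro x
      rw [perm_aff, perm_aff]
      ext i
      simp only [L, Pi.add_apply, Pi.smul_apply, smul_eq_mul, Matrix.cons_val_zero,
        Matrix.cons_val_one]
      ring
    have h5 := h4 _ _ L _ _ _ _ hL1 hL2 f 0
    rw [← map_E, ← map_E, perm_apply, perm_apply] at h5
    have hL0 : L 0 = 0 := by
      ext i
      simp [L]
    rw [hL0, Matrix.mulVec_zero, Matrix.mulVec_zero, zero_add, zero_add] at h5
    rw [← h5]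
    show (E f (aff s ![1, 0]) (aff t ![0, 1])).t 0 • w₁ +
      (E f (aff s ![1, 0]) (aff t ![0, 1])).t 1 • w₂ = _
    simp only [Pf, Qf, neg_smul, sub_neg_eq_add]
  refine ⟨main, ?_, ?_⟩
  · intro s t
    have h5 := map_E (MulAut.conj (tr (![1, 0] : Fin 2 → O))).toMonoidHom f (aff s 0) (aff t 0)
    have h6 : E f (aff s 0) (aff t 0) = (1 : AG O) := by
      rw [main]
      refine AG.ext rfl ?_
      simp
    simp only [MulEquiv.toMonoidHom_eq_coe, MonoidHom.coe_coe, MulAut.conj_apply] at h5
    rw [h6, conj_aff, conj_aff, main, mul_one, mul_inv_cancel] at h5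
    have h7 := congrFun (congrArg AG.t h5) 0
    simp at h7
    linear_combination -h7
  · intro O' _ _ φ s t
    have h5 := map_E (mapAG φ) f (aff s ![1, 0]) (aff t ![0, 1])
    rw [mapAG_aff, mapAG_aff] at h5
    have e0 : (φ ∘ (![1, 0] : Fin 2 → O)) = ![1, 0] := by
      ext i
      fin_cases i <;> simp
    have e1 : (φ ∘ (![0, 1] : Fin 2 → O)) = ![0, 1] := by
      ext i
      fin_cases i <;> simp
    rw [e0, e1] at h5
    have h7 := congrArg AG.t h5
    constructor
    · have h8 := congrFun h7 0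
      exact h8.symm
    · have h8 := congrFun h7 1
      show -_ = φ (-_)
      rw [map_neg, ← h8]
      rfl

end Pool.Agent.GTD
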