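import Pool.Agent.GTD.Stmts

set_option autoImplicit false

/-!
# The epsilon trick
-/

namespace Pool.Agent.GTD

open Polynomial

namespace ANN

variable {O : Type} [CommRing O] [Finite O]

/-- a polynomial with unit leading coefficient divides some `Polynomial.X^m (1 - Polynomial.X^n)` -/
theorem exists_dvd [Nontrivial O] (p : O[X]) (hp : IsUnit p.leadingCoeff) :
    ∃ m n : ℕ, 1 ≤ n ∧ p ∣ Polynomial.X ^ m * (1 - Polynomial.X ^ n) := by
  obtain ⟨u, hu⟩ := hp
  set q : O[X] := C ((u⁻¹ : Oˣ) : O) * p with hq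
  have hmon : q.Monic := by
    have h1 : q.leadingCoeff = 1 := by
      rw [hq, leadingCoeff_C_mul_of_isUnit (Units.isUnit _), ← hu, Units.inv_mul]
    exact h1
  have hfin : Module.Finite O (AdjoinRoot q) := hmon.finite_adjoinRoot
  have : Finite (AdjoinRoot q) := Module.finite_of_finite O
  obtain ⟨a, b, hab, h⟩ : ∃ a b : ℕ, a < b ∧ (AdjoinRoot.root q) ^ a = (AdjoinRoot.root q) ^ b := by
    obtain ⟨a, b, hne, h⟩ := Finite.exists_ne_map_eq_of_infinite
      (fun k : ℕ => (AdjoinRoot.root q) ^ k)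
    rcases Nat.lt_or_gt_of_ne hne with h1 | h1
    · exact ⟨a, b, h1, h⟩
    · exact ⟨b, a, h1, h.symm⟩
  refine ⟨a, b - a, by omega, ?_⟩
  have h1 : AdjoinRoot.mk q (Polynomial.X ^ a * (1 - Polynomial.X ^ (b - a))) = 0 := by
    have e : Polynomial.X ^ a * (1 - Polynomial.X ^ (b - a)) = (Polynomial.X ^ a - Polynomial.X ^ b : O[X]) := by
      rw [mul_sub, mul_one, ← pow_add]
      congr 2
      omega
    rw [e, map_sub, map_pow, map_pow, AdjoinRoot.mk_X, h, sub_self]
  rw [AdjoinRoot.mk_eq_zero] at h1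
  exact (Dvd.intro_left (C ((u⁻¹ : Oˣ) : O)) rfl).trans h1

end ANN

theorem thm_ANN : Stmt_ANN := by
  intro O _ _ p hp
  rcases subsingleton_or_nontrivial O with hO | hO
  · refine ⟨O, inferInstance, inferInstance, RingHom.id O, RingHom.id O, 0, fun x => rfl, rfl,
      fun y h => h, fun y _ => Subsingleton.elim _ _⟩
  · obtain ⟨m, n, hn, r, hr⟩ := ANN.exists_dvd p hp
    have hmon : (Polynomial.X ^ (m + 1) : O[X]).Monic := monic_X_pow (m + 1)
    have hfin : Module.Finite O (AdjoinRoot (Polynomial.X ^ (m + 1) : O[X])) := hmon.finite_adjoinRoot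
    have hF : Finite (AdjoinRoot (Polynomial.X ^ (m + 1) : O[X])) := Module.finite_of_finite O
    set g : O[X] := Polynomial.X ^ (m + 1) with hg
    have h0 : eval₂ (RingHom.id O) 0 g = 0 := by
      rw [hg, eval₂_X_pow, zero_pow (Nat.succ_ne_zero m)]
    set π : AdjoinRoot g →+* O := AdjoinRoot.lift (RingHom.id O) 0 h0 with hπ
    have hπmk : ∀ Y : O[X], π (AdjoinRoot.mk g Y) = Y.eval 0 := by
      intro Y
      rw [hπ, AdjoinRoot.lift_mk, eval₂_id]
    have hε : (AdjoinRoot.root g) ^ (m + 1) = 0 := by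
      rw [← AdjoinRoot.mk_X, ← map_pow]
      exact AdjoinRoot.mk_self
    refine ⟨AdjoinRoot g, inferInstance, hF, AdjoinRoot.of g, π, AdjoinRoot.root g, ?_, ?_, ?_, ?_⟩
    · intro x
      rw [hπ, AdjoinRoot.lift_of]
      rfl
    · rw [hπ, AdjoinRoot.lift_root]
    · intro y hy
      have hπi : π (AdjoinRoot.of g (π y)) = π y := by
        rw [hπ, AdjoinRoot.lift_of]
        rfl
      have hnil : IsNilpotent (y - AdjoinRoot.of g (π y)) := by
        obtain ⟨Z, hZ⟩ := AdjoinRoot.mk_surjective (y - AdjoinRoot.of g (π y))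
        have h1 : Z.eval 0 = 0 := by
          rw [← hπmk, hZ, map_sub, hπi, sub_self]
        have h2 : Polynomial.X ∣ Z := by
          rw [X_dvd_iff, coeff_zero_eq_eval_zero]
          exact h1
        obtain ⟨W, rfl⟩ := h2
        refine ⟨m + 1, ?_⟩
        rw [← hZ, map_mul, mul_pow, AdjoinRoot.mk_X, hε, zero_mul]
      have hu : IsUnit (AdjoinRoot.of g (π y)) := hy.map (AdjoinRoot.of g)
      have h3 := hnil.isUnit_add_left_of_commute hu (Commute.all _ _)
      rwa [add_sub_cancel] at h3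
    · intro y hy
      obtain ⟨Y, rfl⟩ := AdjoinRoot.mk_surjective y
      have h1 : eval₂ (AdjoinRoot.of g) (AdjoinRoot.root g) p = AdjoinRoot.mk g p := by
        rw [← AdjoinRoot.aeval_eq]
        rfl
      rw [h1, ← map_mul, AdjoinRoot.mk_eq_zero] at hy
      have h2 : g ∣ Polynomial.X ^ m * ((1 - Polynomial.X ^ n) * Y) := by
        have h3 : g ∣ p * Y * r := hy.mul_right r
        have h4 : p * Y * r = Polynomial.X ^ m * ((1 - Polynomial.X ^ n) * Y) := by
          rw [← mul_assoc (Polynomial.X ^ m), hr]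
          ring
        rwa [h4] at h3
      obtain ⟨Q, hQ⟩ := h2
      have h5 : Polynomial.X ^ m * ((1 - Polynomial.X ^ n) * Y) = Polynomial.X ^ m * (Polynomial.X * Q) := by
        rw [hQ, hg, pow_succ]
        ring
      have h6 : (1 - Polynomial.X ^ n) * Y = Polynomial.X * Q := (monic_X_pow m).isRegular.left h5
      have h7 := congrArg (eval 0) h6
      rw [eval_mul, eval_mul, eval_X, zero_mul, eval_sub, eval_one, eval_pow, eval_X,
        zero_pow (by omega), sub_zero, one_mul] at h7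
      rw [hπmk]
      exact h7

end Pool.Agent.GTD
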