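import Pool.Agent.GTD.Stmts

set_option autoImplicit false

/-!
# Project GTD (MP_6a6203_al): the module API
-/

namespace Pool.Agent.GTD

namespace API

/-- values at commuting elements -/
lemma val_comm {H : Type} [Group H] [Finite H] (hH : ∀ a b : H, a * b = b * a) (f : F2h)
    (hf : f ∈ closedComm (FreeGroup (Fin 2))) (a b : H) : E f a b = 1 := by
  have h1 : E f a b ∈ commutator H := ev_mem_commutator _ f hf
  have h2 : commutator H ≤ ⊥ := by
    rw [commutator_def, Subgroup.commutator_le]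
    intro x _ y _
    rw [Subgroup.mem_bot, commutatorElement_def, hH x y]
    group
  exact Subgroup.mem_bot.1 (h2 h1)

/-- the closure of two commuting elements -/
lemma closure_comm {H : Type} [Group H] (z z' : H) (h : z * z' = z' * z) :
    ∀ a b : Subgroup.closure ({z, z'} : Set H), a * b = b * a := by
  have h1 : ∀ w : H, z * w = w * z → z' * w = w * z' →
      ∀ a ∈ Subgroup.closure ({z, z'} : Set H), a * w = w * a := by
    intro w h2 h3 a ha
    have h4 : Subgroup.closure ({z, z'} : Set H) ≤ Subgroup.centralizer {w} := by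
      rw [Subgroup.closure_le]
      rintro x (rfl | hx)
      · exact Subgroup.mem_centralizer_singleton_iff.2 h2
      · rw [Set.mem_singleton_iff.1 hx]
        exact Subgroup.mem_centralizer_singleton_iff.2 h3
    exact Subgroup.mem_centralizer_singleton_iff.1 (h4 ha)
  rintro ⟨a, ha⟩ ⟨b, hb⟩
  apply Subtype.ext
  change a * b = b * a
  refine h1 b ?_ ?_ a ha
  · exact (h1 z rfl h.symm b hb).symm
  · exact (h1 z' h rfl b hb).symm

lemma val_comm2 {H : Type} [Group H] [Finite H] (f : F2h)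
    (hf : f ∈ closedComm (FreeGroup (Fin 2))) (a b : H) (hab : a * b = b * a) : E f a b = 1 := by
  have h1 := map_E (Subgroup.closure ({a, b} : Set H)).subtype f
    ⟨a, Subgroup.subset_closure (by simp)⟩ ⟨b, Subgroup.subset_closure (by simp)⟩
  rw [val_comm (closure_comm a b hab) f hf, map_one] at h1
  exact h1.symm

lemma commute_val {H : Type} [Group H] [Finite H] (f : F2h) (a b h : H) (ha : h * a = a * h)
    (hb : h * b = b * h) : h * E f a b = E f a b * h := by
  have h1 := map_E (MulAut.conj h).toMonoidHom f a b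
  have h2 : (MulAut.conj h).toMonoidHom a = a := by
    change h * a * h⁻¹ = a
    rw [ha]; group
  have h3 : (MulAut.conj h).toMonoidHom b = b := by
    change h * b * h⁻¹ = b
    rw [hb]; group
  rw [h2, h3] at h1
  have h4 : h * E f a b * h⁻¹ = E f a b := h1
  exact mul_inv_eq_iff_eq_mul.1 h4

lemma central_val {H : Type} [Group H] [Finite H] (f : F2h)
    (hf : f ∈ closedComm (FreeGroup (Fin 2))) (a b z z' : H) (hza : z * a = a * z)
    (hzb : z * b = b * z) (hza' : z' * a = a * z') (hzb' : z' * b = b * z')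
    (hzz : z * z' = z' * z) : E f (a * z) (b * z') = E f a b := by
  set C : Subgroup H := Subgroup.centralizer {z, z'} with hC
  have haC : a ∈ C := by
    rw [hC, Subgroup.mem_centralizer_iff]
    rintro x (rfl | hx)
    · exact hza
    · rw [Set.mem_singleton_iff.1 hx]; exact hza'
  have hbC : b ∈ C := by
    rw [hC, Subgroup.mem_centralizer_iff]
    rintro x (rfl | hx)
    · exact hzb
    · rw [Set.mem_singleton_iff.1 hx]; exact hzb'
  set Z : Subgroup H := Subgroup.closure {z, z'} with hZ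
  have hcz : ∀ (c : C) (w : Z), Commute (C.subtype c) (Z.subtype w) := by
    rintro ⟨c, hc⟩ ⟨w, hw⟩
    rw [hC, Subgroup.mem_centralizer_iff] at hc
    have h4 : Z ≤ Subgroup.centralizer {c} := by
      rw [hZ, Subgroup.closure_le]
      intro x hx
      exact Subgroup.mem_centralizer_singleton_iff.2 (hc x hx)
    have h5 : w * c = c * w := Subgroup.mem_centralizer_singleton_iff.1 (h4 hw)
    exact h5.symm
  set m : C × Z →* H := MonoidHom.noncommCoprod C.subtype Z.subtype hcz with hm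
  have hzZ : z ∈ Z := Subgroup.subset_closure (by simp)
  have hzZ' : z' ∈ Z := Subgroup.subset_closure (by simp)
  have h1 := map_E m f ((⟨a, haC⟩, ⟨z, hzZ⟩) : C × Z) (⟨b, hbC⟩, ⟨z', hzZ'⟩)
  have h2 : m ((⟨a, haC⟩, ⟨z, hzZ⟩) : C × Z) = a * z := rfl
  have h3 : m ((⟨b, hbC⟩, ⟨z', hzZ'⟩) : C × Z) = b * z' := rfl
  rw [h2, h3] at h1
  rw [← h1]
  have h4 := map_E (MonoidHom.fst C Z) f ((⟨a, haC⟩, ⟨z, hzZ⟩) : C × Z) (⟨b, hbC⟩, ⟨z', hzZ'⟩)
  have h5 := map_E (MonoidHom.snd C Z) f ((⟨a, haC⟩, ⟨z, hzZ⟩) : C × Z) (⟨b, hbC⟩, ⟨z', hzZ'⟩)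
  have h6 := map_E C.subtype f ⟨a, haC⟩ ⟨b, hbC⟩
  have h7 : E f (⟨z, hzZ⟩ : Z) ⟨z', hzZ'⟩ = 1 := val_comm (closure_comm z z' hzz) f hf _ _
  set w : C × Z := E f ((⟨a, haC⟩, ⟨z, hzZ⟩) : C × Z) (⟨b, hbC⟩, ⟨z', hzZ'⟩) with hw
  have h8 : w.1 = E f (⟨a, haC⟩ : C) ⟨b, hbC⟩ := h4
  have h9 : w.2 = 1 := by
    have h10 : w.2 = E f (⟨z, hzZ⟩ : Z) ⟨z', hzZ'⟩ := h5
    rw [h10, h7]
  have h11 : m w = (w.1 : H) * (w.2 : H) := rfl
  rw [h11, h8, h9, OneMemClass.coe_one, mul_one]
  exact h6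

/-- the pairs of permutations which are intertwined by `L` -/
def inter {A B : Type} (L : A → B) : Subgroup (Equiv.Perm A × Equiv.Perm B) where
  carrier := {u | ∀ x, L (u.1 x) = u.2 (L x)}
  mul_mem' := by
    intro u v hu hv x
    change L (u.1 (v.1 x)) = u.2 (v.2 (L x))
    rw [hu (v.1 x), hv x]
  one_mem' := by
    intro x
    rfl
  inv_mem' := by
    intro u hu x
    change L (u.1⁻¹ x) = u.2⁻¹ (L x)
    rw [Equiv.Perm.eq_inv_iff_eq, ← hu]
    exact congrArg L (Equiv.apply_symm_apply u.1 x)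

lemma intertwine {A B : Type} [Finite A] [Finite B] (L : A → B) (a b : Equiv.Perm A)
    (a' b' : Equiv.Perm B) (ha : ∀ x, L (a x) = a' (L x)) (hb : ∀ x, L (b x) = b' (L x))
    (f : F2h) (x : A) : L (E f a b x) = E f a' b' (L x) := by
  have h1 := map_E ((MonoidHom.fst (Equiv.Perm A) (Equiv.Perm B)).comp (inter L).subtype) f
    (⟨(a, a'), ha⟩ : inter L) ⟨(b, b'), hb⟩
  have h2 := map_E ((MonoidHom.snd (Equiv.Perm A) (Equiv.Perm B)).comp (inter L).subtype) f
    (⟨(a, a'), ha⟩ : inter L) ⟨(b, b'), hb⟩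
  set w : inter L := E f (⟨(a, a'), ha⟩ : inter L) ⟨(b, b'), hb⟩ with hw
  have h3 : w.1.1 = E f a b := h1
  have h4 : w.1.2 = E f a' b' := h2
  rw [← h3, ← h4]
  exact w.2 x

end API

theorem thm_API : Stmt_API :=
  ⟨fun _ _ _ f a b h ha hb => API.commute_val f a b h ha hb,
    fun _ _ _ f hf a b z z' h1 h2 h3 h4 h5 => API.central_val f hf a b z z' h1 h2 h3 h4 h5,
    fun _ _ _ f hf a b h => API.val_comm2 f hf a b h,
    fun _ _ _ _ L a b a' b' ha hb f x => API.intertwine L a b a' b' ha hb f x⟩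

end Pool.Agent.GTD
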