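import Pool.Agent.GTD.Stmts

set_option autoImplicit false

/-!
# Project GTD, module BBC
-/

namespace Pool.Agent.GTD

open Matrix

namespace BBC

variable {O : Type} [CommRing O]

theorem sc_mulVec (s : Oˣ) (w : Fin 2 → O) : (sc s).1 *ᵥ w = (s : O) • w := by
  change Matrix.scalar (Fin 2) (s : O) *ᵥ w = (s : O) • w
  funext i
  fin_cases i <;> simp [Matrix.mulVec, dotProduct, Matrix.scalar]

theorem sc_inv (s : Oˣ) : (sc s)⁻¹ = sc s⁻¹ := by
  rw [inv_eq_iff_mul_eq_one]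
  apply Units.ext
  change Matrix.scalar (Fin 2) (s : O) * Matrix.scalar (Fin 2) ((s⁻¹ : Oˣ) : O) = 1
  rw [← map_mul, Units.mul_inv, map_one]

theorem aff_inv (s : Oˣ) (w : Fin 2 → O) :
    (aff s w)⁻¹ = aff s⁻¹ (-(((s⁻¹ : Oˣ) : O) • w)) := by
  apply AG.ext
  · rw [AG.inv_g]
    exact sc_inv s
  · rw [AG.inv_t]
    change -((sc s)⁻¹.1 *ᵥ w) = -(((s⁻¹ : Oˣ) : O) • w)
    rw [sc_inv, sc_mulVec]

theorem cj_mem {f : F2h} (hf : f ∈ closedComm (FreeGroup (Fin 2))) :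
    cj f ∈ closedComm (FreeGroup (Fin 2)) := fun _ => ev_mem_commutator _ f hf

section
variable [Finite O]

theorem bf_symm (hA : Stmt_AFF) (hP : Stmt_PREL) {f : F2h} (hf : IsGT1 f) (s t : Oˣ) :
    bf f s t = bf f t s := by
  have h1 := (hA f hf.comm O).2.1 s t
  have h2 := (hP f hf O).1 s t
  unfold bf
  rw [h1, h2]

theorem bf_rot (hP : Stmt_PREL) {f : F2h} (hf : IsGT1 f) (r s t : Oˣ) (h : r * s * t = 1) :
    bf f r s = bf f r t := by
  unfold bf
  rw [(hP f hf O).2 r s t h]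

theorem bf_one (f : F2h) (s : Oˣ) : bf f 1 s = 1 := by
  unfold bf
  rw [Units.val_one, sub_self, zero_mul, add_zero]

theorem bf_bf (hI : Stmt_API) (hA : Stmt_AFF) (hP : Stmt_PREL) (hT : Stmt_PENT) {f : F2h}
    (hf : IsGT1 f) (s t : Oˣ) : bf f s t * bf f s⁻¹ t⁻¹ = 1 := by
  have hd : (E f (gu s t) (gv s t t⁻¹)).1.det = 1 := by
    have h1 := map_E (Matrix.GeneralLinearGroup.det : GL (Fin 2) O →* Oˣ) f (gu s t) (gv s t t⁻¹)
    have h2 := hI.2.2.1 Oˣ f hf.comm (Matrix.GeneralLinearGroup.det (gu s t))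
      (Matrix.GeneralLinearGroup.det (gv s t t⁻¹)) (mul_comm _ _)
    rw [h2] at h1
    have h3 := congrArg (fun u : Oˣ => (u : O)) h1
    exact h3
  have h := congrArg Matrix.det (hT f hf O s t t⁻¹)
  rw [Matrix.det_mul, hd, one_mul] at h
  unfold Rm Sm at h
  rw [Matrix.det_fin_two_of, Matrix.det_fin_two_of, mul_inv_cancel_right, mul_inv_cancel,
    inv_one, bf_one, zero_mul, mul_zero, sub_zero, sub_zero, mul_one] at h
  have e1 : bf f s (s * t)⁻¹ = bf f s t := bf_rot hP hf _ _ _ (by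
    rw [mul_right_comm, _root_.mul_inv_cancel])
  have e2 : bf f t⁻¹ s⁻¹ = bf f s⁻¹ t⁻¹ := bf_symm hA hP hf _ _
  have e3 : bf f s⁻¹ s = 1 := by
    rw [bf_rot hP hf s⁻¹ s 1 (by group), bf_symm hA hP hf, bf_one]
  rw [e1, e2, e3] at h
  exact h

theorem Pf_cj (hA : Stmt_AFF) {f : F2h} (hf : IsGT1 f) (s t : Oˣ) :
    Pf (cj f) s t = -(((s⁻¹ : Oˣ) : O) * Pf f s⁻¹ t⁻¹) := by
  have h1 : Pf (cj f) s t = (E f (aff s ![1, 0])⁻¹ (aff t ![0, 1])⁻¹).t 0 := by
    unfold Pf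
    rw [E_cj]
  rw [h1, aff_inv, aff_inv, (hA f hf.comm O).1]
  simp
  ring

theorem bf_cj (hA : Stmt_AFF) {f : F2h} (hf : IsGT1 f) (s t : Oˣ) :
    bf (cj f) s t = bf f s⁻¹ t⁻¹ := by
  unfold bf
  rw [Pf_cj hA hf]
  have h : (s : O) * ((s⁻¹ : Oˣ) : O) = 1 := Units.mul_inv s
  linear_combination (Pf f s⁻¹ t⁻¹) * h

end

end BBC

open BBC in
theorem thm_BBC (hI : Stmt_API) (hA : Stmt_AFF) (hP : Stmt_PREL) (hC : Stmt_CANC)
    (hT : Stmt_PENT) : Stmt_BBC := by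
  intro f hf O _ _ s t
  refine ⟨bf_bf hI hA hP hT hf s t, Pf_cj hA hf s t, bf_cj hA hf s t, ?_⟩
  have key := (hC (fun (O : Type) (_ : CommRing O) (_ : Finite O) (s t : Oˣ) =>
      Pf (cj f) s t + bf (cj f) s t * Pf f s t) (by
    intro O O' _ _ _ _ φ s t
    have h1 := ((hA f hf.comm O).2.2 O' φ s t).1
    have h2 := ((hA (cj f) (cj_mem hf.comm) O).2.2 O' φ s t).1
    change Pf (cj f) (Units.map (φ : O →* O') s) (Units.map (φ : O →* O') t) +
      bf (cj f) (Units.map (φ : O →* O') s) (Units.map (φ : O →* O') t) *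
        Pf f (Units.map (φ : O →* O') s) (Units.map (φ : O →* O') t) =
      φ (Pf (cj f) s t + bf (cj f) s t * Pf f s t)
    unfold bf
    rw [h1, h2, Units.coe_map]
    simp)).1 (by
    intro O _ _ s t
    have h1 := bf_bf hI hA hP hT hf s t
    rw [← bf_cj hA hf] at h1
    have h2 : (1 - (s : O)) * Pf (cj f) s t = bf (cj f) s t - 1 := by
      unfold bf
      ring
    have h3 : (1 - (s : O)) * Pf f s t = bf f s t - 1 := by
      unfold bf
      ring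
    linear_combination h2 + (bf (cj f) s t) * h3 + h1) O s t
  exact eq_neg_of_add_eq_zero_left key

end Pool.Agent.GTD
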