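import Pool.Agent.GTD.Stmts

set_option autoImplicit false

/-!
# Module CANC: cancellation of `1 - s`
-/

namespace Pool.Agent.GTD

namespace CANC

open Polynomial

/-- the polynomial `1 - s (1 + X)` -/
noncomputable def pol {O : Type} [CommRing O] (s : Oˣ) : O[X] :=
  C (-(s : O)) * (Polynomial.X : O[X]) + C (1 - (s : O))

theorem lead {O : Type} [CommRing O] (s : Oˣ) : IsUnit (pol s).leadingCoeff := by
  rcases subsingleton_or_nontrivial O with h | h
  · exact isUnit_of_subsingleton _
  · have hs : (-(s : O)) ≠ 0 := by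
      rw [Ne, neg_eq_zero]
      exact s.ne_zero
    unfold pol
    rw [leadingCoeff_linear hs]
    exact s.isUnit.neg

theorem eval_pol {O O' : Type} [CommRing O] [CommRing O'] (i : O →+* O') (ε : O') (s : Oˣ) :
    eval₂ i ε (pol s) = 1 - i s * (1 + ε) := by
  unfold pol
  rw [eval₂_add, eval₂_mul, eval₂_C, eval₂_C, eval₂_X, map_neg, map_sub, map_one]
  ring

theorem lift {O O' : Type} [CommRing O] [CommRing O'] (i : O →+* O') (π : O' →+* O) (ε : O')
    (h1 : ∀ x, π (i x) = x) (h2 : π ε = 0) (h3 : ∀ y : O', IsUnit (π y) → IsUnit y) (s : Oˣ) :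
    ∃ s' : O'ˣ, (s' : O') = i s * (1 + ε) ∧ Units.map (π : O' →* O) s' = s := by
  have h : π (i s * (1 + ε)) = s := by
    rw [map_mul, map_add, h1, h2, map_one, add_zero, mul_one]
  obtain ⟨s', hs'⟩ := h3 (i s * (1 + ε)) (by rw [h]; exact s.isUnit)
  refine ⟨s', hs', ?_⟩
  apply Units.ext
  rw [Units.coe_map]
  change π (s' : O') = s
  rw [hs', h]

theorem mapmap {O O' : Type} [CommRing O] [CommRing O'] (i : O →+* O') (π : O' →+* O)
    (h1 : ∀ x, π (i x) = x) (s : Oˣ) :
    Units.map (π : O' →* O) (Units.map (i : O →* O') s) = s := by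
  apply Units.ext
  rw [Units.coe_map, Units.coe_map]
  exact h1 _

end CANC

open CANC

theorem thm_CANC (hA : Stmt_ANN) : Stmt_CANC := by
  intro D hD
  constructor
  · intro hs O _ _ s t
    obtain ⟨O', _, _, i, π, ε, h1, h2, h3, h4⟩ := hA O (pol s) (lead s)
    obtain ⟨s', hs', hm⟩ := CANC.lift i π ε h1 h2 h3 s
    have h5 := hs O' s' (Units.map (i : O →* O') t)
    rw [hs', ← eval_pol] at h5
    have h6 := h4 _ h5
    have h7 := hD O' O π s' (Units.map (i : O →* O') t)
    rw [hm, mapmap i π h1 t, h6] at h7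
    exact h7
  · intro hs O _ _ s t
    obtain ⟨O', _, _, i, π, ε, h1, h2, h3, h4⟩ := hA O (pol t) (lead t)
    obtain ⟨t', ht', hm⟩ := CANC.lift i π ε h1 h2 h3 t
    have h5 := hs O' (Units.map (i : O →* O') s) t'
    rw [ht', ← eval_pol] at h5
    have h6 := h4 _ h5
    have h7 := hD O' O π (Units.map (i : O →* O') s) t'
    rw [hm, mapmap i π h1 s, h6] at h7
    exact h7

end Pool.Agent.GTD
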