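import Pool.Agent.GTD.Stmts

set_option autoImplicit false

/-!
# Complex conjugation
-/

namespace Pool.Agent.GTD

namespace CONJ

theorem rel5 (H : Type) [Group H] (a b c d e : H) (h : Rel5 a b c d e) :
    Rel5 a⁻¹ b⁻¹ c⁻¹ d⁻¹ e⁻¹ := by
  have hac : Commute a c := h.ac
  have hbd : Commute b d := h.bd
  have hce : Commute c e := h.ce
  have hda : Commute d a := h.da
  have heb : Commute e b := h.eb
  refine ⟨hac.inv_inv, hbd.inv_inv, hce.inv_inv, hda.inv_inv, heb.inv_inv, ?_⟩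
  have hlong := h.long
  -- `q = a⁻¹ c`
  have hq : a * c⁻¹ = (a⁻¹ * c)⁻¹ := by
    rw [mul_inv_rev, inv_inv]
    exact hac.inv_right.eq
  have h1 : b⁻¹ * (a⁻¹ * c) * b = d⁻¹ * e⁻¹ * (a⁻¹ * c) * d * e := by
    have h2 : e * b⁻¹ * (a * c⁻¹) * b * d⁻¹ * c * e⁻¹ * d * a⁻¹ = 1 := by
      rw [← hlong]; group
    rw [hq] at h2
    have h3 : b⁻¹ * (a⁻¹ * c) * b = d⁻¹ * (c * e⁻¹) * (d * a⁻¹) * e := by
      have h4 : (b⁻¹ * (a⁻¹ * c)⁻¹ * b)⁻¹ = (e⁻¹ * (d⁻¹ * c * e⁻¹ * d * a⁻¹)⁻¹)⁻¹ := by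
        congr 1
        have h5 : e * (b⁻¹ * (a⁻¹ * c)⁻¹ * b) * (d⁻¹ * c * e⁻¹ * d * a⁻¹) = 1 := by
          rw [← h2]; group
        have h6 := eq_inv_of_mul_eq_one_left h5
        rw [← h6]
        group
      have h7 : (b⁻¹ * (a⁻¹ * c)⁻¹ * b)⁻¹ = b⁻¹ * (a⁻¹ * c) * b := by group
      rw [h7] at h4
      rw [h4]
      group
    rw [h3, hce.inv_right.eq, hda.inv_right.eq]
    have h8 : a⁻¹ * c = c * a⁻¹ := hac.inv_left.eq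
    rw [h8]
    group
  -- `b q b⁻¹ = e d q e⁻¹ d⁻¹`
  have h2 : b * (a⁻¹ * c) * b⁻¹ = e * d * (a⁻¹ * c) * e⁻¹ * d⁻¹ := by
    have hb1 : Commute b (e * d) := heb.symm.mul_right hbd
    have hb2 : Commute b (d * e) := hbd.mul_right heb.symm
    have h3 : a⁻¹ * c = b * (d⁻¹ * e⁻¹ * (a⁻¹ * c) * d * e) * b⁻¹ := by
      rw [← h1]; group
    have h4 : b * (d⁻¹ * e⁻¹ * (a⁻¹ * c) * d * e) * b⁻¹ =
        (b * (e * d)⁻¹) * (a⁻¹ * c) * ((d * e) * b⁻¹) := by group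
    rw [h4, hb1.inv_right.eq, hb2.symm.inv_right.eq] at h3
    have h5 : (e * d) * (a⁻¹ * c) * (d * e)⁻¹ = b * (a⁻¹ * c) * b⁻¹ := by
      conv_lhs => rw [h3]
      group
    rw [← h5]
    group
  have h3 : e⁻¹ * b * a⁻¹ * c * b⁻¹ * d * c⁻¹ * e * d⁻¹ * a = 1 := by
    have h4 : e⁻¹ * b * a⁻¹ * c * b⁻¹ * d * c⁻¹ * e * d⁻¹ * a =
        e⁻¹ * (b * (a⁻¹ * c) * b⁻¹) * d * c⁻¹ * e * d⁻¹ * a := by group
    rw [h4, h2]
    have h5 : e⁻¹ * (e * d * (a⁻¹ * c) * e⁻¹ * d⁻¹) * d * c⁻¹ * e * d⁻¹ * a =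
        d * (a⁻¹ * c) * e⁻¹ * (c⁻¹ * e) * d⁻¹ * a := by group
    rw [h5, hce.inv_left.eq]
    have h6 : d * (a⁻¹ * c) * e⁻¹ * (e * c⁻¹) * d⁻¹ * a = (d * a⁻¹) * d⁻¹ * a := by group
    rw [h6, hda.inv_right.eq]
    group
  rw [← h3]
  group

theorem inv_val {f : F2h} (h : IsGT1 f) {H : Type} [Group H] [Finite H] (a b : H) :
    (E f a b)⁻¹ = E f b a := inv_eq_of_mul_eq_one_right (h.I H a b)

theorem gt1 (f : F2h) (h : IsGT1 f) : IsGT1 (cj f) := by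
  refine ⟨fun N => ev_mem_commutator _ f h.comm, ?_, ?_, ?_⟩
  · intro H _ _ a b
    rw [E_cj, E_cj]
    exact h.I H _ _
  · intro H _ _ a b
    rw [E_cj, E_cj, E_cj]
    have h1 := h.II H b⁻¹ a⁻¹
    have e1 : (b⁻¹ * a⁻¹)⁻¹ = a * b := by group
    rw [e1] at h1
    rw [inv_inv]
    have h2 : (E f (a * b) b⁻¹ * E f a⁻¹ (a * b) * E f b⁻¹ a⁻¹)⁻¹ = 1 := by rw [h1, inv_one]
    rw [mul_inv_rev, mul_inv_rev, inv_val h, inv_val h, inv_val h] at h2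
    have h3 : E f (a * b) a⁻¹ * E f b⁻¹ (a * b) * E f a⁻¹ b⁻¹ =
        (E f a⁻¹ b⁻¹)⁻¹ * (E f a⁻¹ b⁻¹ * (E f (a * b) a⁻¹ * E f b⁻¹ (a * b))) * E f a⁻¹ b⁻¹ := by
      group
    rw [h3, h2]
    group
  · intro H _ _ a b c d e hr
    rw [E_cj, E_cj, E_cj, E_cj, E_cj]
    exact h.III H _ _ _ _ _ (rel5 H a b c d e hr)

end CONJ

/-- Complex conjugation. -/
theorem thm_CONJ : Stmt_CONJ := ⟨CONJ.rel5, CONJ.gt1⟩

end Pool.Agent.GTD
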