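import Pool.Agent.GTD.Stmts

set_option autoImplicit false

/-!
# Deformation, first step

Eigenvalues of two invertible `2 × 2` matrices exist in finite extensions of the base ring; after
scaling, the pair becomes a pair of pseudo-reflections and INTG and DETC apply.
-/

namespace Pool.Agent.GTD

namespace DEF1

variable {O : Type} [CommRing O]

lemma sc_val (s : Oˣ) : (sc s).1 = (s : O) • (1 : Matrix (Fin 2) (Fin 2) O) := by
  change Matrix.scalar (Fin 2) (s : O) = _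
  rw [Matrix.smul_one_eq_diagonal]
  rfl

lemma sc_comm (s : Oˣ) (g : GL (Fin 2) O) : sc s * g = g * sc s := by
  apply Units.ext
  change (sc s).1 * g.1 = g.1 * (sc s).1
  rw [sc_val]
  simp

lemma mul_sc_val (s : Oˣ) (g : GL (Fin 2) O) : (g * sc s).1 = (s : O) • g.1 := by
  change g.1 * (sc s).1 = _
  rw [sc_val]
  simp

lemma det_sub_one (A : Matrix (Fin 2) (Fin 2) O) (e : Oˣ)
    (h : (e : O) * e - A.trace * e + A.det = 0) :
    (((e⁻¹ : Oˣ) : O) • A - 1).det = 0 := by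
  have hx : ((e⁻¹ : Oˣ) : O) * (e : O) = 1 := e.inv_mul
  rw [Matrix.trace_fin_two, Matrix.det_fin_two] at h
  rw [Matrix.det_fin_two]
  simp only [Matrix.sub_apply, Matrix.smul_apply, smul_eq_mul, Matrix.one_apply_eq]
  rw [Matrix.one_apply_ne (by decide : (0 : Fin 2) ≠ 1),
    Matrix.one_apply_ne (by decide : (1 : Fin 2) ≠ 0)]
  set x : O := ((e⁻¹ : Oˣ) : O) with hxd
  linear_combination x ^ 2 * h - (x * e + 1) * hx + (A 0 0 + A 1 1) * x * hx

lemma det_comm_smul (A B : Matrix (Fin 2) (Fin 2) O) (x y : O) :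
    ((x • A) * (y • B) - (y • B) * (x • A)).det = (x * y) ^ 2 * (A * B - B * A).det := by
  have h1 : (x • A) * (y • B) - (y • B) * (x • A) = (x * y) • (A * B - B * A) := by
    rw [smul_mul_assoc, mul_smul_comm, smul_mul_assoc, mul_smul_comm, smul_smul, smul_smul,
      mul_comm y x, smul_sub]
  rw [h1, Matrix.det_smul]
  simp

/-- The statement when the eigenvalues exist in the ring. -/
lemma key [Finite O] (h1 : Stmt_API) (h3 : Stmt_INTG) (h4 : Stmt_DETC) (w₀ : F2h)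
    (hw : w₀ ∈ closedComm (FreeGroup (Fin 2)))
    (ht : ∀ (O : Type) [CommRing O] [Finite O] (T₁ T₂ T₃ : Oˣ),
      E w₀ (gu T₁ T₂) (gv T₁ T₂ T₃) = 1)
    (u v : GL (Fin 2) O) (e e' c : Oˣ)
    (he : (e : O) * e - u.1.trace * e + u.1.det = 0)
    (he' : (e' : O) * e' - v.1.trace * e' + v.1.det = 0)
    (hc : (c : O) * c - ((((e⁻¹ : Oˣ) : O) • u.1) * (((e'⁻¹ : Oˣ) : O) • v.1)).trace * c +
      (((e⁻¹ : Oˣ) : O) • u.1).det * (((e'⁻¹ : Oˣ) : O) • v.1).det = 0) :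
    (u.1 * v.1 - v.1 * u.1).det ^ 2 • ((E w₀ u v).1 - 1) = 0 := by
  have hE : E w₀ (u * sc e⁻¹) (v * sc e'⁻¹) = E w₀ u v :=
    h1.2.1 (GL (Fin 2) O) w₀ hw u v (sc e⁻¹) (sc e'⁻¹) (sc_comm _ _) (sc_comm _ _)
      (sc_comm _ _) (sc_comm _ _) (sc_comm _ _)
  set u' : GL (Fin 2) O := u * sc e⁻¹ with hu'
  set v' : GL (Fin 2) O := v * sc e'⁻¹ with hv'
  have hu1 : u'.1 = ((e⁻¹ : Oˣ) : O) • u.1 := mul_sc_val _ _
  have hv1 : v'.1 = ((e'⁻¹ : Oˣ) : O) • v.1 := mul_sc_val _ _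
  set a : Oˣ := Matrix.GeneralLinearGroup.det u' with ha
  set b : Oˣ := Matrix.GeneralLinearGroup.det v' with hb
  have ha1 : (a : O) = u'.1.det := Matrix.GeneralLinearGroup.val_det_apply u'
  have hb1 : (b : O) = v'.1.det := Matrix.GeneralLinearGroup.val_det_apply v'
  have hdu : (u'.1 - 1).det = 0 := by
    rw [hu1]
    exact det_sub_one u.1 e he
  have hdv : (v'.1 - 1).det = 0 := by
    rw [hv1]
    exact det_sub_one v.1 e' he'
  have hcc : (c : O) * c - (u'.1 * v'.1).trace * c + a * b = 0 := by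
    rw [ha1, hb1, hu1, hv1]
    exact hc
  obtain ⟨hI1, hI2⟩ := h3 w₀ ht O u' v' a b c ha1 hb1 hdu hdv hcc
  have hD := h4 O u'.1 v'.1 ((E w₀ u' v').1 - 1) a b c ha1 hb1 hdu hdv hcc hI1 hI2
  rw [hE, hu1, hv1, det_comm_smul] at hD
  have hx : ((e⁻¹ : Oˣ) : O) * (e : O) = 1 := e.inv_mul
  have hy : ((e'⁻¹ : Oˣ) : O) * (e' : O) = 1 := e'.inv_mul
  have hxy : ((e : O) * e') ^ 4 * (((e⁻¹ : Oˣ) : O) * ((e'⁻¹ : Oˣ) : O)) ^ 4 = 1 := by
    rw [← mul_pow]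
    have : (e : O) * e' * (((e⁻¹ : Oˣ) : O) * ((e'⁻¹ : Oˣ) : O)) = 1 := by
      calc (e : O) * e' * (((e⁻¹ : Oˣ) : O) * ((e'⁻¹ : Oˣ) : O))
          = (((e⁻¹ : Oˣ) : O) * (e : O)) * (((e'⁻¹ : Oˣ) : O) * (e' : O)) := by ring
        _ = 1 := by rw [hx, hy, mul_one]
    rw [this, one_pow]
  have h5 : (u.1 * v.1 - v.1 * u.1).det ^ 2 =
      ((e : O) * e') ^ 4 *
        ((((e⁻¹ : Oˣ) : O) * ((e'⁻¹ : Oˣ) : O)) ^ 2 * (u.1 * v.1 - v.1 * u.1).det) ^ 2 := by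
    calc (u.1 * v.1 - v.1 * u.1).det ^ 2
        = (((e : O) * e') ^ 4 * (((e⁻¹ : Oˣ) : O) * ((e'⁻¹ : Oˣ) : O)) ^ 4) *
            (u.1 * v.1 - v.1 * u.1).det ^ 2 := by rw [hxy, one_mul]
      _ = _ := by ring
  rw [h5, mul_smul, hD, smul_zero]

lemma map_val {O' : Type} [CommRing O'] (i : O →+* O') (g : GL (Fin 2) O) :
    (Matrix.GeneralLinearGroup.map i g).1 = g.1.map i := rfl

/-- The statement descends along injective homomorphisms. -/
lemma descend {O' : Type} [CommRing O'] [Finite O] [Finite O'] (i : O →+* O')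
    (hi : Function.Injective i) (w₀ : F2h) (u v : GL (Fin 2) O)
    (h : ((Matrix.GeneralLinearGroup.map i u).1 * (Matrix.GeneralLinearGroup.map i v).1 -
      (Matrix.GeneralLinearGroup.map i v).1 * (Matrix.GeneralLinearGroup.map i u).1).det ^ 2 •
        ((E w₀ (Matrix.GeneralLinearGroup.map i u) (Matrix.GeneralLinearGroup.map i v)).1 - 1)
          = 0) :
    (u.1 * v.1 - v.1 * u.1).det ^ 2 • ((E w₀ u v).1 - 1) = 0 := by
  rw [← map_E, map_val, map_val, map_val] at h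
  have h1 : (u.1.map i * v.1.map i - v.1.map i * u.1.map i) = (u.1 * v.1 - v.1 * u.1).map i := by
    rw [Matrix.map_sub i (map_sub i), Matrix.map_mul, Matrix.map_mul]
  have h2 : ((u.1 * v.1 - v.1 * u.1).map i).det = i (u.1 * v.1 - v.1 * u.1).det :=
    (RingHom.map_det i _).symm
  have h3 : (E w₀ u v).1.map i - 1 = ((E w₀ u v).1 - 1).map i := by
    rw [Matrix.map_sub i (map_sub i), Matrix.map_one i (map_zero i) (map_one i)]
  rw [h1, h2, h3] at h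
  ext x y
  apply hi
  have h4 := congrFun (congrFun h x) y
  simp only [Matrix.smul_apply, smul_eq_mul, Matrix.map_apply, Matrix.zero_apply] at h4
  simp only [Matrix.smul_apply, smul_eq_mul, map_mul, map_pow, Matrix.zero_apply, map_zero]
  exact h4

lemma trace_map {O' : Type} [CommRing O'] (i : O →+* O') (A : Matrix (Fin 2) (Fin 2) O) :
    (A.map i).trace = i A.trace := by
  rw [Matrix.trace_fin_two, Matrix.trace_fin_two]
  simp

lemma det_map {O' : Type} [CommRing O'] (i : O →+* O') (A : Matrix (Fin 2) (Fin 2) O) :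
    (A.map i).det = i A.det := (RingHom.map_det i A).symm

end DEF1

open DEF1 in
theorem thm_DEF1 (h1 : Stmt_API) (h2 : Stmt_SPLIT) (h3 : Stmt_INTG) (h4 : Stmt_DETC) :
    Stmt_DEF1 := by
  intro w₀ hw ht O _ _ u v
  have hunit : ∀ {R : Type} [CommRing R] (g : GL (Fin 2) R), IsUnit g.1.det := fun g => by
    rw [← Matrix.GeneralLinearGroup.val_det_apply]
    exact Units.isUnit _
  -- an eigenvalue of `u`
  obtain ⟨O₁, _, _, i₁, e₁, hi₁, he₁⟩ := h2 O u.1.trace u.1.det (hunit u)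
  apply descend i₁ hi₁
  set u₁ : GL (Fin 2) O₁ := Matrix.GeneralLinearGroup.map i₁ u with hu₁
  set v₁ : GL (Fin 2) O₁ := Matrix.GeneralLinearGroup.map i₁ v with hv₁
  have he₁' : (e₁ : O₁) * e₁ - u₁.1.trace * e₁ + u₁.1.det = 0 := by
    rw [hu₁, map_val, trace_map, det_map]
    exact he₁
  -- an eigenvalue of `v`
  obtain ⟨O₂, _, _, i₂, e₂, hi₂, he₂⟩ := h2 O₁ v₁.1.trace v₁.1.det (hunit v₁)
  apply descend i₂ hi₂
  set u₂ : GL (Fin 2) O₂ := Matrix.GeneralLinearGroup.map i₂ u₁ with hu₂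
  set v₂ : GL (Fin 2) O₂ := Matrix.GeneralLinearGroup.map i₂ v₁ with hv₂
  set f₂ : O₂ˣ := Units.map (i₂ : O₁ →* O₂) e₁ with hf₂
  have hf₂' : (f₂ : O₂) = i₂ (e₁ : O₁) := rfl
  have he₂' : (e₂ : O₂) * e₂ - v₂.1.trace * e₂ + v₂.1.det = 0 := by
    rw [hv₂, map_val, trace_map, det_map]
    exact he₂
  have hf₂e : (f₂ : O₂) * f₂ - u₂.1.trace * f₂ + u₂.1.det = 0 := by
    rw [hu₂, map_val, trace_map, det_map, hf₂', ← map_mul, ← map_mul, ← map_sub, ← map_add,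
      he₁', map_zero]
  -- an eigenvalue of the product
  obtain ⟨O₃, _, _, i₃, c, hi₃, hc⟩ := h2 O₂
    ((((f₂⁻¹ : O₂ˣ) : O₂) • u₂.1) * (((e₂⁻¹ : O₂ˣ) : O₂) • v₂.1)).trace
    ((((f₂⁻¹ : O₂ˣ) : O₂) • u₂.1).det * (((e₂⁻¹ : O₂ˣ) : O₂) • v₂.1).det) (by
      rw [Matrix.det_smul, Matrix.det_smul]
      exact ((Units.isUnit f₂⁻¹).pow _ |>.mul (hunit u₂)).mul
        ((Units.isUnit e₂⁻¹).pow _ |>.mul (hunit v₂)))
  apply descend i₃ hi₃
  set f₃ : O₃ˣ := Units.map (i₃ : O₂ →* O₃) f₂ with hf₃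
  set e₃ : O₃ˣ := Units.map (i₃ : O₂ →* O₃) e₂ with he₃
  have hf₃' : (f₃ : O₃) = i₃ (f₂ : O₂) := rfl
  have he₃' : (e₃ : O₃) = i₃ (e₂ : O₂) := rfl
  have hf₃i : ((f₃⁻¹ : O₃ˣ) : O₃) = i₃ ((f₂⁻¹ : O₂ˣ) : O₂) := rfl
  have he₃i : ((e₃⁻¹ : O₃ˣ) : O₃) = i₃ ((e₂⁻¹ : O₂ˣ) : O₂) := rfl
  have hsm : ∀ (x : O₂) (A : Matrix (Fin 2) (Fin 2) O₂), (i₃ x) • A.map i₃ = (x • A).map i₃ := by
    intro x A
    ext p q
    simp
  apply key h1 h3 h4 w₀ hw ht _ _ f₃ e₃ c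
  · rw [map_val, trace_map, det_map, hf₃', ← map_mul, ← map_mul, ← map_sub, ← map_add,
      hf₂e, map_zero]
  · rw [map_val, trace_map, det_map, he₃', ← map_mul, ← map_mul, ← map_sub, ← map_add,
      he₂', map_zero]
  · rw [map_val i₃ u₂, map_val i₃ v₂, hf₃i, he₃i, hsm, hsm, ← Matrix.map_mul, trace_map, det_map, det_map,
      ← map_mul]
    exact hc

end Pool.Agent.GTD
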