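import Pool.Agent.GTD.Stmts

set_option autoImplicit false

/-!
# Project GTD (MP_6a6203_al): module DETC, algebra of `2 × 2` matrices
-/

namespace Pool.Agent.GTD

open Matrix

namespace DETC

/-- the determinant of a commutator of `2 × 2` matrices -/
lemma det_comm {O : Type} [CommRing O] (u v : Matrix (Fin 2) (Fin 2) O) :
    (u * v - v * u).det = -(u.trace ^ 2 * v.det + v.trace ^ 2 * u.det + (u * v).trace ^ 2
      - u.trace * v.trace * (u * v).trace - 4 * (u.det * v.det)) := by
  simp only [Matrix.det_fin_two, Matrix.trace_fin_two, Matrix.sub_apply, Matrix.mul_apply,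
    Fin.sum_univ_two]
  ring

lemma trace_eq {O : Type} [CommRing O] (u : Matrix (Fin 2) (Fin 2) O) (h : (u - 1).det = 0) :
    u.trace = 1 + u.det := by
  simp only [Matrix.det_fin_two, Matrix.trace_fin_two, Matrix.sub_apply, Matrix.one_apply_eq,
    Matrix.one_apply_ne (zero_ne_one), Matrix.one_apply_ne (one_ne_zero), sub_zero] at h ⊢
  linear_combination (-1 : O) * h

end DETC

theorem thm_DETC : Stmt_DETC := by
  intro O _ u v M a b c ha hb hu hv hc h1 h2
  set k : O := 1 - ((c * a⁻¹ : Oˣ) : O) with hk
  set D : O := (u * v - v * u).det with hD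
  -- `k M (u v - v u) = 0`
  have e1 : k • (M * (v - (b : O) • 1)) = 0 := by
    rw [← Matrix.mul_smul]
    exact h1
  have e2 : M * (u * (v - (b : O) • 1)) = (a : O) • (M * (v - (b : O) • 1)) := by
    have : M * ((u - (a : O) • 1) * (v - (b : O) • 1)) =
        M * (u * (v - (b : O) • 1)) - (a : O) • (M * (v - (b : O) • 1)) := by
      rw [sub_mul, mul_sub, Matrix.smul_mul, Matrix.one_mul, Matrix.mul_smul]
    rw [h2] at this
    exact (sub_eq_zero.1 this.symm)
  have e3 : k • (M * (u * v - v * u)) = 0 := by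
    have h3 : u * v - v * u = u * (v - (b : O) • 1) - (v - (b : O) • 1) * u := by
      rw [mul_sub, sub_mul, Matrix.mul_smul, Matrix.smul_mul, Matrix.mul_one, Matrix.one_mul]
      abel
    rw [h3, mul_sub, smul_sub, e2, smul_comm, e1, smul_zero, zero_sub, ← Matrix.mul_assoc,
      ← Matrix.smul_mul, e1, Matrix.zero_mul, neg_zero]
  have e4 : (k * D) • M = 0 := by
    have h4 : (k • (M * (u * v - v * u))) * (u * v - v * u).adjugate = (k * D) • M := by
      rw [Matrix.smul_mul, Matrix.mul_assoc, Matrix.mul_adjugate, Matrix.mul_smul, Matrix.mul_one,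
        smul_smul]
    rw [← h4, e3, Matrix.zero_mul]
  -- `k` divides the determinant
  have hT := DETC.trace_eq u hu
  have hS := DETC.trace_eq v hv
  have h5 : D = -((1 + (a : O) * b - (u * v).trace) * ((a : O) + b - (u * v).trace)) := by
    rw [hD, DETC.det_comm, hT, hS, ← ha, ← hb]
    ring
  have h6 : (a : O) * k = a - c := by
    rw [hk, Units.val_mul]
    have : (a : O) * ((a⁻¹ : Oˣ) : O) = 1 := Units.mul_inv a
    linear_combination (-(c : O)) * this
  have h7 : (c : O) * ((a : O) + b - (u * v).trace) = (a - c) * (c - b) := by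
    linear_combination (1 : O) * hc
  have h8 : (c : O) * D = -((1 + (a : O) * b - (u * v).trace) * (a * (c - b))) * k := by
    have : (c : O) * D = -((1 + (a : O) * b - (u * v).trace) *
        ((c : O) * ((a : O) + b - (u * v).trace))) := by
      rw [h5]; ring
    rw [this, h7, ← h6]
    ring
  have h9 : (c : O) * D ^ 2 = -((1 + (a : O) * b - (u * v).trace) * (a * (c - b))) * (k * D) := by
    have : (c : O) * D ^ 2 = ((c : O) * D) * D := by ring
    rw [this, h8]
    ring
  have h10 : (c : O) • (D ^ 2 • M) = 0 := by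
    rw [smul_smul, h9, mul_smul, e4, smul_zero]
  have h11 : ((c⁻¹ : Oˣ) : O) • ((c : O) • (D ^ 2 • M)) = D ^ 2 • M := by
    rw [smul_smul, Units.inv_mul, one_smul]
  rw [← h11, h10, smul_zero]

end Pool.Agent.GTD
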