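import Pool.Agent.GTD.Stmts

set_option autoImplicit false

/-!
# Module GASS: the values at the Gassner matrices
-/

namespace Pool.Agent.GTD

open Matrix

namespace GASS

variable {O : Type} [CommRing O] [Finite O]

/-- the unit `R_f` -/
noncomputable def Ru (f : F2h) (T₁ T₂ T₃ : Oˣ)
    (h : Rm f T₁ T₂ T₃ * Rm (cj f) T₁ T₂ T₃ = 1) : GL (Fin 2) O :=
  ⟨Rm f T₁ T₂ T₃, Rm (cj f) T₁ T₂ T₃, h, mul_eq_one_comm.1 h⟩

/-- the unit `S_f` -/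
noncomputable def Su (f : F2h) (T₁ T₂ T₃ : Oˣ)
    (h : Sm f T₁ T₂ T₃ * Sm (cj f) T₁ T₂ T₃ = 1) : GL (Fin 2) O :=
  ⟨Sm f T₁ T₂ T₃, Sm (cj f) T₁ T₂ T₃, h, mul_eq_one_comm.1 h⟩

/-- The composition in a group: `G_f = S R⁻¹`, `G_g = S' R'⁻¹`. -/
theorem comp {H : Type} [Group H] [Finite H] (f g : F2h) (u v R S R' S' : H)
    (hf : E f u v = S * R⁻¹) (hg : E g u v = S' * R'⁻¹) (h1 : u * R = R * u)
    (h2 : v * S = S * v) : E (f * F1 f g) u v = (S * S') * (R * R')⁻¹ := by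
  have e1 : (MulAut.conj R).toMonoidHom u = u := by
    change R * u * R⁻¹ = u
    rw [← h1, mul_inv_cancel_right]
  have e2 : (E f u v)⁻¹ * v * E f u v = (MulAut.conj R).toMonoidHom v := by
    change _ = R * v * R⁻¹
    rw [hf]
    have h3 : (S * R⁻¹)⁻¹ * v * (S * R⁻¹) = R * (S⁻¹ * (v * S)) * R⁻¹ := by group
    rw [h3, h2]
    group
  have e3 : E g u ((E f u v)⁻¹ * v * E f u v) = R * (S' * R'⁻¹) * R⁻¹ := by
    rw [e2]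
    conv_lhs => rw [← e1]
    rw [← map_E, hg]
    rfl
  rw [E_mul, E_F1, e3, hf]
  group

end GASS

theorem thm_GASS (hCONJ : Stmt_CONJ) (hPREL : Stmt_PREL) (hPENT : Stmt_PENT) (hRS : Stmt_RS) :
    Stmt_GASS := by
  intro O _ _ T₁ T₂ T₃
  obtain ⟨hA, hB⟩ := hRS O T₁ T₂ T₃
  have hG : ∀ (f : F2h) (hf : IsGT1 f), E f (gu T₁ T₂) (gv T₁ T₂ T₃) =
      GASS.Su f T₁ T₂ T₃ (hA f hf).2.2.2 * (GASS.Ru f T₁ T₂ T₃ (hA f hf).2.2.1)⁻¹ := by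
    intro f hf
    rw [eq_mul_inv_iff_mul_eq]
    apply Units.ext
    exact hPENT f hf O T₁ T₂ T₃
  have hu : ∀ (f : F2h) (hf : IsGT1 f), gu T₁ T₂ * GASS.Ru f T₁ T₂ T₃ (hA f hf).2.2.1 =
      GASS.Ru f T₁ T₂ T₃ (hA f hf).2.2.1 * gu T₁ T₂ := by
    intro f hf
    apply Units.ext
    exact (hA f hf).1
  have hv : ∀ (f : F2h) (hf : IsGT1 f), gv T₁ T₂ T₃ * GASS.Su f T₁ T₂ T₃ (hA f hf).2.2.2 =
      GASS.Su f T₁ T₂ T₃ (hA f hf).2.2.2 * gv T₁ T₂ T₃ := by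
    intro f hf
    apply Units.ext
    exact (hA f hf).2.1
  have key : ∀ (f g : F2h) (hf : IsGT1 f) (hg : IsGT1 g),
      E (f * F1 f g) (gu T₁ T₂) (gv T₁ T₂ T₃) =
      (GASS.Su f T₁ T₂ T₃ (hA f hf).2.2.2 * GASS.Su g T₁ T₂ T₃ (hA g hg).2.2.2) *
      (GASS.Ru f T₁ T₂ T₃ (hA f hf).2.2.1 * GASS.Ru g T₁ T₂ T₃ (hA g hg).2.2.1)⁻¹ := by
    intro f g hf hg
    exact GASS.comp f g _ _ _ _ _ _ (hG f hf) (hG g hg) (hu f hf) (hv f hf)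
  refine ⟨?_, ?_, ?_⟩
  · intro f hf
    have hg : IsGT1 (cj f) := hCONJ.2 f hf
    rw [key f (cj f) hf hg]
    have h1 : GASS.Su f T₁ T₂ T₃ (hA f hf).2.2.2 * GASS.Su (cj f) T₁ T₂ T₃ (hA _ hg).2.2.2 = 1 := by
      apply Units.ext
      exact (hA f hf).2.2.2
    have h2 : GASS.Ru f T₁ T₂ T₃ (hA f hf).2.2.1 * GASS.Ru (cj f) T₁ T₂ T₃ (hA _ hg).2.2.1 = 1 := by
      apply Units.ext
      exact (hA f hf).2.2.1
    rw [h1, h2, inv_one, one_mul]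
  · intro f g hf hg
    rw [key f g hf hg, key g f hg hf]
    have h1 : GASS.Su f T₁ T₂ T₃ (hA f hf).2.2.2 * GASS.Su g T₁ T₂ T₃ (hA g hg).2.2.2 =
        GASS.Su g T₁ T₂ T₃ (hA g hg).2.2.2 * GASS.Su f T₁ T₂ T₃ (hA f hf).2.2.2 := by
      apply Units.ext
      exact (hB f g hf hg).2
    have h2 : GASS.Ru f T₁ T₂ T₃ (hA f hf).2.2.1 * GASS.Ru g T₁ T₂ T₃ (hA g hg).2.2.1 =
        GASS.Ru g T₁ T₂ T₃ (hA g hg).2.2.1 * GASS.Ru f T₁ T₂ T₃ (hA f hf).2.2.1 := by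
      apply Units.ext
      exact (hB f g hf hg).1
    rw [h1, h2]
  · intro f hf hP
    have hQ : ∀ s t : Oˣ, Qf f s t = 0 := fun s t => by rw [(hPREL f hf O).1, hP]
    have hb : ∀ s t : Oˣ, bf f s t = 1 := fun s t => by rw [bf, hP, mul_zero, add_zero]
    have hR : Rm f T₁ T₂ T₃ = 1 := by
      rw [Rm, hb, hb, hP, hQ, mul_zero, add_zero, mul_zero, neg_zero, Matrix.one_fin_two]
    have hS : Sm f T₁ T₂ T₃ = 1 := by
      rw [Sm, hb, hb, hP, hQ, mul_zero, mul_zero, add_zero, mul_zero, neg_zero,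
        Matrix.one_fin_two]
    apply Units.ext
    have h := hPENT f hf O T₁ T₂ T₃
    rw [hR, hS, mul_one] at h
    exact h

end Pool.Agent.GTD
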