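import Pool.Agent.GTD.Stmts

set_option autoImplicit false
set_option linter.unusedSectionVars false

/-!
# Project GTD: the relations of the Gassner matrices
-/

namespace Pool.Agent.GTD

open Matrix

namespace GREL

variable {O : Type} [CommRing O]

lemma conj_of (x n L : AG O) (h : L * (x * n) = n * (L * x)) :
    x * n * x⁻¹ = L⁻¹ * n * L := by
  have h1 : x * n = L⁻¹ * (n * (L * x)) := by
    rw [← h]
    group
  rw [h1]
  group

lemma sc_val (s : Oˣ) : (sc s).1 = !![(s : O), 0; 0, (s : O)] := by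
  have h : (sc s).1 = Matrix.scalar (Fin 2) (s : O) := rfl
  rw [h]
  ext i j
  fin_cases i <;> fin_cases j <;> simp

lemma gu_val (T₁ T₂ : Oˣ) :
    (gu T₁ T₂).1 = !![((T₁⁻¹ : Oˣ) : O) * ((T₂⁻¹ : Oˣ) : O), 0; 1 - (T₁ : O), 1] := by
  have h : (gu T₁ T₂).1 = !![(((T₁ * T₂)⁻¹ : Oˣ) : O), 0; 1 - (T₁ : O), 1] := rfl
  rw [h, mul_inv, Units.val_mul]

lemma gv_val (T₁ T₂ T₃ : Oˣ) :
    (gv T₁ T₂ T₃).1 = !![1, (1 - (T₃ : O)) * (((T₁⁻¹ : Oˣ) : O) * ((T₂⁻¹ : Oˣ) : O) *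
      ((T₃⁻¹ : Oˣ) : O)); 0, ((T₂⁻¹ : Oˣ) : O) * ((T₃⁻¹ : Oˣ) : O)] := by
  have h : (gv T₁ T₂ T₃).1 = !![1, (1 - (T₃ : O)) * (((T₁ * T₂ * T₃)⁻¹ : Oˣ) : O);
    0, (((T₂ * T₃)⁻¹ : Oˣ) : O)] := rfl
  rw [h, mul_inv, mul_inv, mul_inv, Units.val_mul, Units.val_mul, Units.val_mul]

lemma ext_AG {a b : AG O} (h1 : a.g.1 = b.g.1) (h2 : a.t = b.t) : a = b :=
  AG.ext (Units.ext h1) h2

lemma mulVec_two (a b c d x y : O) :
    (!![a, b; c, d] : Matrix (Fin 2) (Fin 2) O) *ᵥ ![x, y] =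
      ![a * x + b * y, c * x + d * y] := by
  ext i
  fin_cases i <;> simp [Matrix.mulVec, dotProduct]

lemma va2 (a b c d : O) : (![a, b] : Fin 2 → O) + ![c, d] = ![a + c, b + d] := by
  ext i
  fin_cases i <;> simp

lemma vz2 : (0 : Fin 2 → O) = ![0, 0] := by
  ext i
  fin_cases i <;> simp

lemma me2 {a b c d a' b' c' d' : O} (h1 : a = a') (h2 : b = b') (h3 : c = c') (h4 : d = d') :
    (!![a, b; c, d] : Matrix (Fin 2) (Fin 2) O) = !![a', b'; c', d'] := by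
  rw [h1, h2, h3, h4]

lemma ve2 {a b a' b' : O} (h1 : a = a') (h2 : b = b') :
    (![a, b] : Fin 2 → O) = ![a', b'] := by
  rw [h1, h2]

end GREL

open GREL in
theorem thm_GREL : Stmt_GREL := by
  intro O _ T₁ T₂ T₃
  intro x y n₁ n₂ n₃ n₄
  obtain ⟨t₁, i₁, h₁, h₁'⟩ := T₁
  obtain ⟨t₂, i₂, h₂, h₂'⟩ := T₂
  obtain ⟨t₃, i₃, h₃, h₃'⟩ := T₃
  refine ⟨?_, conj_of _ _ _ ?_, conj_of _ _ _ ?_, ?_, ?_, ?_, conj_of _ _ _ ?_, conj_of _ _ _ ?_, ?_⟩
  all_goals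
    apply ext_AG
    · simp only [x, y, n₁, n₂, n₃, n₄, en1, en2, en3, en4, aff, AG.mul_g, AG.one_g, Units.val_mul,
        sc_val, gu_val, gv_val, Matrix.mul_fin_two, Units.inv_mk, Units.val_one,
        Matrix.one_fin_two, mul_inv]
      apply me2 <;> first
        | ring1
        | linear_combination (t₂ * i₂ * t₃ * i₃) * h₁ + (t₃ * i₃) * h₂ + h₃
    · simp only [x, y, n₁, n₂, n₃, n₄, en1, en2, en3, en4, aff, AG.mul_g, AG.one_g, Units.val_mul,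
        sc_val, gu_val, gv_val, Matrix.mul_fin_two, Units.inv_mk, Units.val_one, mul_inv,
        AG.mul_t, AG.one_t, vz2, mulVec_two, va2]
      apply ve2 <;> first
        | ring1
        | linear_combination -h₁
        | linear_combination (t₁ * i₁) * h₂ + t₁ * h₁
        | linear_combination -h₁ - i₁ * t₂ * i₂ * h₁ - i₁ * h₂ + t₂ * h₁
        | linear_combination (t₁ * t₂ - t₂) * h₁
        | linear_combination (-t₂ * i₁ * (1 - t₃) * t₃ * i₃) * h₂ - t₂ * i₁ * (1 - t₃) * h₃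
        | linear_combination (-t₂ * t₃ * i₃) * h₂ - t₂ * h₃
        | linear_combination ((1 - t₃) * i₁ * t₃ * i₃) * h₂ + (1 - t₃) * i₁ * h₃
        | linear_combination (t₃ * i₃) * h₂ + h₃

end Pool.Agent.GTD
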