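import Pool.Agent.GTD.Stmts

/-!
# The two tuples with the relations of `K(0,5)`
-/

namespace Pool.Agent.GTD

namespace GRP

variable {H : Type} [Group H]

/-- if `x` conjugates `a`, `b` as `(a b)⁻¹` does, it commutes with `a b` -/
theorem comm_prod {x a b : H} (ha : x * a * x⁻¹ = (a * b)⁻¹ * a * (a * b))
    (hb : x * b * x⁻¹ = (a * b)⁻¹ * b * (a * b)) : Commute x (a * b) := by
  have h : x * (a * b) * x⁻¹ = a * b := by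
    calc x * (a * b) * x⁻¹ = (x * a * x⁻¹) * (x * b * x⁻¹) := by group
      _ = a * b := by rw [ha, hb]; group
  exact mul_inv_eq_iff_eq_mul.1 h

/-- if `x` conjugates `a` as `l⁻¹` does and commutes with `l`, then `x l` commutes with `a` -/
theorem comm_mul {x a l : H} (ha : x * a * x⁻¹ = l⁻¹ * a * l) (hl : Commute x l) :
    Commute (x * l) a := by
  have h1 : x * a = l⁻¹ * a * l * x := mul_inv_eq_iff_eq_mul.1 ha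
  have h2 : l * x * a = a * (l * x) := by
    calc l * x * a = l * (x * a) := by group
      _ = a * (l * x) := by rw [h1]; group
  have h3 : l * x = x * l := hl.eq.symm
  rw [h3] at h2
  exact h2

end GRP

open GRP in
theorem thm_GRP : Stmt_GRP := by
  intro H _ x y n₁ n₂ n₃ n₄ h0 hx1 hx2 hx3 hx4 hy1 hy2 hy3 hy4
  have cxL : Commute x (n₁ * n₂) := comm_prod hx1 hx2
  have cyM : Commute y (n₂ * n₃) := comm_prod hy2 hy3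
  have cx1 : Commute (x * (n₁ * n₂)) n₁ := comm_mul hx1 cxL
  have cy3 : Commute (y * (n₂ * n₃)) n₃ := comm_mul hy3 cyM
  have hx3' : Commute x n₃ := hx3
  have hx4' : Commute x n₄ := hx4
  have hy1' : Commute y n₁ := hy1
  have hy4' : Commute y n₄ := hy4
  have hM : n₂ * n₃ = n₁⁻¹ * n₄⁻¹ := by
    calc n₂ * n₃ = n₁⁻¹ * (n₁ * n₂ * n₃ * n₄) * n₄⁻¹ := by group
      _ = n₁⁻¹ * n₄⁻¹ := by rw [h0, mul_one]
  have hL : n₁ * n₂ = n₄⁻¹ * n₃⁻¹ := by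
    calc n₁ * n₂ = (n₁ * n₂ * n₃ * n₄) * n₄⁻¹ * n₃⁻¹ := by group
      _ = n₄⁻¹ * n₃⁻¹ := by rw [h0, one_mul]
  constructor
  · refine ⟨?_, hy4, cx1.eq, hx4.symm, hy1.symm, ?_⟩
    · rw [mul_assoc x (n₁ * n₂) x, ← cxL.eq]
    · -- `y⁻¹ L y = n₄⁻¹ n₁⁻¹ L n₄ n₁`
      have k1 : y⁻¹ * (n₁ * n₂) * y = n₄⁻¹ * n₂ * n₄ * n₁ := by
        have k2 : y * (n₄⁻¹ * n₂ * n₄ * n₁) * y⁻¹ = n₁ * n₂ := by
          calc y * (n₄⁻¹ * n₂ * n₄ * n₁) * y⁻¹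
              = (y * n₄⁻¹) * n₂ * n₄ * (n₁ * y⁻¹) := by group
            _ = (n₄⁻¹ * y) * n₂ * n₄ * (y⁻¹ * n₁) := by
                rw [hy4'.inv_right.eq, hy1'.inv_left.eq]
            _ = n₄⁻¹ * y * n₂ * (n₄ * y⁻¹) * n₁ := by group
            _ = n₄⁻¹ * y * n₂ * (y⁻¹ * n₄) * n₁ := by rw [hy4'.inv_left.eq]
            _ = n₄⁻¹ * (y * n₂ * y⁻¹) * n₄ * n₁ := by group
            _ = n₁ * n₂ := by rw [hy2, hM]; group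
        rw [← k2]
        group
      have k3 : x * (x * (n₁ * n₂))⁻¹ = (n₁ * n₂)⁻¹ := by
        rw [mul_inv_rev, ← mul_assoc, cxL.inv_right.eq, mul_assoc, mul_inv_cancel, mul_one]
      have k4 : x * (n₁ * n₂) * n₁⁻¹ = n₁⁻¹ * (x * (n₁ * n₂)) := cx1.inv_right.eq
      have k5 : n₄ * x⁻¹ = x⁻¹ * n₄ := hx4'.inv_left.eq.symm
      calc n₁ * y⁻¹ * x * (x * (n₁ * n₂))⁻¹ * y * n₄⁻¹ * (x * (n₁ * n₂)) * n₁⁻¹ * n₄ * x⁻¹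
          = n₁ * y⁻¹ * (x * (x * (n₁ * n₂))⁻¹) * y * n₄⁻¹ * (x * (n₁ * n₂) * n₁⁻¹) *
              (n₄ * x⁻¹) := by group
        _ = n₁ * y⁻¹ * (n₁ * n₂)⁻¹ * y * n₄⁻¹ * (n₁⁻¹ * (x * (n₁ * n₂))) * (x⁻¹ * n₄) := by
            rw [k3, k4, k5]
        _ = n₁ * (y⁻¹ * (n₁ * n₂) * y)⁻¹ * n₄⁻¹ * n₁⁻¹ * (x * (n₁ * n₂)) * x⁻¹ * n₄ := by group
        _ = 1 := by rw [k1, cxL.eq]; group
  · refine ⟨hx3, hy4, cy3.eq.symm, hx4.symm, ?_, ?_⟩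
    · rw [mul_assoc y (n₂ * n₃) y, ← cyM.eq]
    · have k1 : y * (n₂ * n₃) * y⁻¹ = n₂ * n₃ := by
        rw [cyM.eq, mul_assoc, mul_inv_cancel, mul_one]
      have k2 : n₃ * (y * (n₂ * n₃))⁻¹ = (y * (n₂ * n₃))⁻¹ * n₃ := cy3.inv_left.eq.symm
      have k3 : y * n₄⁻¹ = n₄⁻¹ * y := hy4'.inv_right.eq
      have k4 : n₃ * n₄ * x⁻¹ = x⁻¹ * (n₃ * n₄) := (hx3'.mul_right hx4').inv_left.eq.symm
      have k5 : x * (n₃⁻¹ * n₄⁻¹) = n₃⁻¹ * n₄⁻¹ * x :=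
        (hx3'.inv_right.mul_right hx4'.inv_right).eq
      have k6 : x * (n₂ * n₃) * x⁻¹ = (n₁ * n₂)⁻¹ * n₂ * (n₁ * n₂) * n₃ := by
        calc x * (n₂ * n₃) * x⁻¹ = (x * n₂ * x⁻¹) * (x * n₃ * x⁻¹) := by group
          _ = (n₁ * n₂)⁻¹ * n₂ * (n₁ * n₂) * n₃ := by
              rw [hx2, hx3, mul_assoc n₃ x x⁻¹, mul_inv_cancel, mul_one]
      have k7 : y * (y * (n₂ * n₃))⁻¹ = (n₂ * n₃)⁻¹ := by
        rw [mul_inv_rev, ← mul_assoc, cyM.inv_right.eq, mul_assoc, mul_inv_cancel, mul_one]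
      calc y * (n₂ * n₃) * y⁻¹ * x * n₃⁻¹ * y * n₄⁻¹ * n₃ * (y * (n₂ * n₃))⁻¹ * n₄ * x⁻¹
          = (y * (n₂ * n₃) * y⁻¹) * x * n₃⁻¹ * (y * n₄⁻¹) * (n₃ * (y * (n₂ * n₃))⁻¹) *
              n₄ * x⁻¹ := by group
        _ = (n₂ * n₃) * x * n₃⁻¹ * (n₄⁻¹ * y) * ((y * (n₂ * n₃))⁻¹ * n₃) * n₄ * x⁻¹ := by
            rw [k1, k2, k3]
        _ = (n₂ * n₃) * (x * (n₃⁻¹ * n₄⁻¹)) * (y * (y * (n₂ * n₃))⁻¹) * (n₃ * n₄ * x⁻¹) := by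
            group
        _ = (n₂ * n₃) * (n₃⁻¹ * n₄⁻¹ * x) * (n₂ * n₃)⁻¹ * (x⁻¹ * (n₃ * n₄)) := by
            rw [k4, k5, k7]
        _ = (n₂ * n₃) * (n₃⁻¹ * n₄⁻¹) * (x * (n₂ * n₃) * x⁻¹)⁻¹ * (n₃ * n₄) := by group
        _ = 1 := by rw [k6, hL]; group

end Pool.Agent.GTD
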