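import Pool.Agent.GTD.Stmts

set_option autoImplicit false

/-!
# Module GT1: from the relations in the profinite completions to finite groups
-/

namespace Pool.Agent.GTD

namespace GT1

/-- `ZHat` has no `2`-torsion -/
theorem eq_zero_of_two_mul (m : ZHat) (h : 2 * m = 0) : m = 0 := by
  apply Subtype.ext
  funext n
  have h1 : (2 : ZMod ((2 * n : ℕ+) : ℕ)) * m.1 (2 * n) = 0 := by
    have h2 := congrArg (fun z : ZHat => z.1 (2 * n)) h
    exact h2
  have hd : (n : ℕ) ∣ ((2 * n : ℕ+) : ℕ) := ⟨2, by rw [PNat.mul_coe]; exact mul_comm _ _⟩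
  have h3 := m.2 n (2 * n) hd
  rw [← ZMod.natCast_zmod_val (m.1 (2 * n))] at h1 h3
  rw [map_natCast] at h3
  rw [← h3]
  change (((m.1 (2 * n)).val : ℕ) : ZMod (n : ℕ)) = 0
  rw [ZMod.natCast_eq_zero_iff]
  have h4 : ((2 * (m.1 (2 * n)).val : ℕ) : ZMod ((2 * n : ℕ+) : ℕ)) = 0 := by
    rw [Nat.cast_mul, Nat.cast_ofNat]
    exact h1
  rw [ZMod.natCast_eq_zero_iff] at h4
  obtain ⟨k, hk⟩ := h4
  refine ⟨k, ?_⟩
  generalize (m.1 (2 * n)).val = v at hk
  have h5 : ((2 * n : ℕ+) : ℕ) = 2 * (n : ℕ) := PNat.mul_coe 2 n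
  rw [h5, mul_assoc] at hk
  exact Nat.eq_of_mul_eq_mul_left two_pos hk

variable {H : Type} [Group H]

/-- the tuple satisfies the relations of `K(0,5)` -/
theorem rels_ok {a b c d e : H} (h : Rel5 a b c d e) :
    ∀ r ∈ K05rels, FreeGroup.lift ![a, b, c, d, e] r = 1 := by
  have key : ∀ x y : H, x * y = y * x → x * y * x⁻¹ * y⁻¹ = 1 := by
    intro x y hxy
    rw [hxy]
    group
  intro r hr
  simp only [K05rels, Set.mem_insert_iff, Set.mem_singleton_iff] at hr
  rcases hr with rfl | rfl | rfl | rfl | rfl | rfl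
  · simpa [cm5, x5] using key a c h.ac
  · simpa [cm5, x5] using key b d h.bd
  · simpa [cm5, x5] using key c e h.ce
  · simpa [cm5, x5] using key d a h.da
  · simpa [cm5, x5] using key e b h.eb
  · simpa [x5] using h.long

/-- the homomorphism from `K(0,5)` -/
def hom {a b c d e : H} (h : Rel5 a b c d e) : K05 →* H := PresentedGroup.toGroup (rels_ok h)

theorem hom_of {a b c d e : H} (h : Rel5 a b c d e) (i : Fin 5) :
    hom h (PresentedGroup.of i) = ![a, b, c, d, e] i := PresentedGroup.toGroup.of (rels_ok h)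

theorem ev_gen5 [Finite H] {a b c d e : H} (h : Rel5 a b c d e) (i : Fin 5) :
    ev (hom h) (gen5 i) = ![a, b, c, d, e] i := by
  rw [gen5, ev_eta, hom_of]

end GT1

open GT1 in
theorem thm_GT1 : Stmt_GT1 := by
  intro Φ hΦ hlam
  obtain ⟨h1, h2, h3, -⟩ := hΦ
  refine ⟨Φ.hf, ?_, ?_, ?_⟩
  · intro H _ _ a b
    have h := congrArg (fun w => E w a b) h1
    simpa using h
  · obtain ⟨m, hm, h⟩ := h2
    have hm0 : m = 0 := by
      apply eq_zero_of_two_mul
      rw [hlam, Units.val_one] at hm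
      simpa using hm
    subst hm0
    intro H _ _ a b
    have h' := congrArg (fun w => E w a b) h
    simpa using h'
  · intro H _ _ a b c d e hr
    have h := congrArg (ev (hom hr)) h3
    simp only [map_mul, map_one, ev_subst, ev_gen5] at h
    exact h

end Pool.Agent.GTD
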