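import Pool.Agent.GTD.Stmts

set_option autoImplicit false

namespace Pool.Agent.GTD

open Matrix

namespace INTG

variable {O : Type} [CommRing O]

/-- the action of the general linear group on vectors -/
def P : GL (Fin 2) O →* Equiv.Perm (Fin 2 → O) where
  toFun g :=
    { toFun := fun x => g.1 *ᵥ x
      invFun := fun x => (g⁻¹).1 *ᵥ x
      left_inv := fun x => by
        change (g⁻¹).1 *ᵥ (g.1 *ᵥ x) = x
        rw [mulVec_mulVec, ← Units.val_mul, inv_mul_cancel, Units.val_one, one_mulVec]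
      right_inv := fun x => by
        change g.1 *ᵥ ((g⁻¹).1 *ᵥ x) = x
        rw [mulVec_mulVec, ← Units.val_mul, mul_inv_cancel, Units.val_one, one_mulVec] }
  map_one' := by
    ext x : 1
    change (1 : GL (Fin 2) O).1 *ᵥ x = x
    rw [Units.val_one, one_mulVec]
  map_mul' g h := by
    ext x : 1
    change (g * h).1 *ᵥ x = g.1 *ᵥ (h.1 *ᵥ x)
    rw [mulVec_mulVec, ← Units.val_mul]

lemma P_apply (g : GL (Fin 2) O) (x : Fin 2 → O) : P g x = g.1 *ᵥ x := rfl

lemma det_sub_one (u : Matrix (Fin 2) (Fin 2) O) (a : O) (h1 : a = u.det)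
    (h2 : (u - 1).det = 0) : u 0 0 + u 1 1 = 1 + a := by
  rw [det_fin_two] at h1 h2
  simp only [Matrix.sub_apply, one_apply_eq, one_apply_ne (Fin.zero_ne_one),
    one_apply_ne (Fin.zero_ne_one).symm, sub_zero] at h2
  linear_combination -h1 - h2

lemma ch (u : Matrix (Fin 2) (Fin 2) O) (a : O) (h1 : a = u 0 0 * u 1 1 - u 0 1 * u 1 0)
    (h2 : u 0 0 + u 1 1 = 1 + a) : u * (u - a • 1) = u - a • 1 := by
  ext i j
  fin_cases i <;> fin_cases j <;> simp [mul_apply, Fin.sum_univ_two]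
  · linear_combination u 0 0 * h2 + h1
  · linear_combination u 0 1 * h2
  · linear_combination u 1 0 * h2
  · linear_combination u 1 1 * h2 + h1

lemma nmn (u v : Matrix (Fin 2) (Fin 2) O) (a b κ : O)
    (hu : u 0 0 + u 1 1 = 1 + a)
    (h1 : b = v 0 0 * v 1 1 - v 0 1 * v 1 0) (h2 : v 0 0 + v 1 1 = 1 + b)
    (hκ : κ = u 0 0 * v 0 0 + u 0 1 * v 1 0 + (u 1 0 * v 0 1 + u 1 1 * v 1 1) - a - b) :
    (v - b • 1) * (u - a • 1) * (v - b • 1) = κ • (v - b • 1) := by
  have hd : (v 0 0 - b) * (v 1 1 - b) - v 0 1 * v 1 0 = 0 := by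
    linear_combination -h1 - b * h2
  have ht : κ = (u 0 0 - a) * (v 0 0 - b) + u 0 1 * v 1 0 + (u 1 0 * v 0 1 +
      (u 1 1 - a) * (v 1 1 - b)) := by
    linear_combination hκ + b * hu + a * h2
  rw [ht]
  ext i j
  fin_cases i <;> fin_cases j <;> simp [mul_apply, Fin.sum_univ_two]
  · linear_combination -(u 1 1 - a) * hd
  · linear_combination u 0 1 * hd
  · linear_combination u 1 0 * hd
  · linear_combination -(u 0 0 - a) * hd

lemma zero_of_mulVec {M : Matrix (Fin 2) (Fin 2) O} (h : ∀ w : Fin 2 → O, M *ᵥ w = 0) :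
    M = 0 := by
  ext i j
  have h1 := congrFun (h (Pi.single j 1)) i
  rw [mulVec_single_one] at h1
  exact h1

end INTG

open INTG in
theorem thm_INTG (hAPI : Stmt_API) : Stmt_INTG := by
  intro w₀ hw₀ O _ _ u v a b c hau hbv hu1 hv1 hc
  have htu := det_sub_one u.1 a hau hu1
  have htv := det_sub_one v.1 b hbv hv1
  rw [det_fin_two] at hau hbv
  have htr : (u.1 * v.1).trace = u.1 0 0 * v.1 0 0 + u.1 0 1 * v.1 1 0 +
      (u.1 1 0 * v.1 0 1 + u.1 1 1 * v.1 1 1) := by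
    rw [trace_fin_two]
    simp only [mul_apply, Fin.sum_univ_two]
  rw [htr] at hc
  have key : ∀ w : Fin 2 → O,
      (E w₀ u v).1 *ᵥ ((1 - ((c * a⁻¹ : Oˣ) : O)) • ((v.1 - (b : O) • 1) *ᵥ w)) =
        (1 - ((c * a⁻¹ : Oˣ) : O)) • ((v.1 - (b : O) • 1) *ᵥ w) ∧
      (E w₀ u v).1 *ᵥ ((u.1 - (a : O) • 1) *ᵥ ((v.1 - (b : O) • 1) *ᵥ w)) =
        (u.1 - (a : O) • 1) *ᵥ ((v.1 - (b : O) • 1) *ᵥ w) := by
    intro w
    set y : Fin 2 → O := (v.1 - (b : O) • 1) *ᵥ w with hy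
    set k : O := 1 - ((c * a⁻¹ : Oˣ) : O) with hk
    set v1 : Fin 2 → O := k • y with hv1'
    set v3 : Fin 2 → O := (u.1 - (a : O) • 1) *ᵥ y with hv3'
    set κ : O := (1 - ((c * b⁻¹ : Oˣ) : O)) * (((a * b * c⁻¹ : Oˣ)) : O) * k with hκdef
    have hκ : κ = u.1 0 0 * v.1 0 0 + u.1 0 1 * v.1 1 0 +
        (u.1 1 0 * v.1 0 1 + u.1 1 1 * v.1 1 1) - a - b := by
      have haa : (a : O) * ((a⁻¹ : Oˣ) : O) = 1 := Units.mul_inv a
      have hbb : (b : O) * ((b⁻¹ : Oˣ) : O) = 1 := Units.mul_inv b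
      have hcc : (c : O) * ((c⁻¹ : Oˣ) : O) = 1 := Units.mul_inv c
      have e1 : k * a = a - c := by
        rw [hk, Units.val_mul]
        linear_combination -(c : O) * haa
      have e2 : (1 - ((c * b⁻¹ : Oˣ) : O)) * b = b - c := by
        rw [Units.val_mul]
        linear_combination -(c : O) * hbb
      have e3 : (c : O) * κ = (a - c) * (b - c) := by
        rw [hκdef, Units.val_mul (a * b) c⁻¹, Units.val_mul a b]
        calc (c : O) * ((1 - ((c * b⁻¹ : Oˣ) : O)) * (a * b * ((c⁻¹ : Oˣ) : O)) * k)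
            = ((c : O) * ((c⁻¹ : Oˣ) : O)) * ((k * a) * ((1 - ((c * b⁻¹ : Oˣ) : O)) * b)) := by ring
          _ = _ := by rw [hcc, e1, e2, one_mul]
      have e4 : (c : O) * (κ - (u.1 0 0 * v.1 0 0 + u.1 0 1 * v.1 1 0 +
        (u.1 1 0 * v.1 0 1 + u.1 1 1 * v.1 1 1) - a - b)) = 0 := by
        linear_combination e3 + hc
      exact sub_eq_zero.1 ((c.isUnit.mul_right_eq_zero).1 e4)
    have f1 : u.1 *ᵥ v3 = v3 := by
      rw [hv3', mulVec_mulVec, ch u.1 a hau htu]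
    have f2 : u.1 *ᵥ v1 = (a : O) • v1 + k • v3 := by
      rw [hv1', hv3', mulVec_smul, sub_mulVec, smul_mulVec, one_mulVec, smul_sub,
        smul_comm (a : O) k y]
      abel
    have f3 : v.1 *ᵥ v1 = v1 := by
      rw [hv1', mulVec_smul, hy, mulVec_mulVec, ch v.1 b hbv htv]
    have f4 : v.1 *ᵥ v3 = (b : O) • v3 +
        ((1 - ((c * b⁻¹ : Oˣ) : O)) * (((a * b * c⁻¹ : Oˣ)) : O)) • v1 := by
      have g1 : v.1 *ᵥ v3 = (b : O) • v3 + (v.1 - (b : O) • 1) *ᵥ v3 := by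
        rw [sub_mulVec, smul_mulVec, one_mulVec]
        abel
      rw [g1]
      congr 1
      rw [hv3', hy, mulVec_mulVec, mulVec_mulVec,
        nmn u.1 v.1 a b κ htu hbv htv hκ, smul_mulVec, hv1', hy, smul_smul]
    clear_value v1 v3
    set L : (Fin 2 → O) → (Fin 2 → O) := fun x => x 0 • v1 + x 1 • v3 with hL
    set T₁ : Oˣ := c * a⁻¹ with hT1
    set T₂ : Oˣ := c⁻¹ with hT2
    set T₃ : Oˣ := c * b⁻¹ with hT3
    have t12 : (T₁ * T₂)⁻¹ = a := by
      rw [hT1, hT2, mul_comm c a⁻¹, mul_assoc, mul_inv_cancel, mul_one, inv_inv]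
    have t23 : (T₂ * T₃)⁻¹ = b := by
      rw [hT2, hT3, ← mul_assoc, inv_mul_cancel, one_mul, inv_inv]
    have t123 : (T₁ * T₂ * T₃)⁻¹ = a * b * c⁻¹ := by
      rw [mul_assoc, mul_inv, t23, hT1, mul_inv, inv_inv, mul_comm c⁻¹ a, mul_assoc,
        mul_comm c⁻¹ b, mul_assoc]
    have i1 : ∀ x, L (P (gu T₁ T₂) x) = P u (L x) := by
      intro x
      have j0 : (P (gu T₁ T₂) x) 0 = a * x 0 := by
        rw [P_apply]
        simp only [gu, mulVec, dotProduct, Fin.sum_univ_two, t12]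
        simp
      have j1 : (P (gu T₁ T₂) x) 1 = k * x 0 + x 1 := by
        rw [P_apply]
        simp only [gu, mulVec, dotProduct, Fin.sum_univ_two, t12]
        simp [hk]
      simp only [hL]
      rw [j0, j1, P_apply u, mulVec_add, mulVec_smul, mulVec_smul, f1, f2]
      module
    have i2 : ∀ x, L (P (gv T₁ T₂ T₃) x) = P v (L x) := by
      intro x
      have j0 : (P (gv T₁ T₂ T₃) x) 0 =
          x 0 + ((1 - (T₃ : O)) * ((a * b * c⁻¹ : Oˣ) : O)) * x 1 := by
        rw [P_apply]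
        simp only [gv, mulVec, dotProduct, Fin.sum_univ_two, t123]
        simp
      have j1 : (P (gv T₁ T₂ T₃) x) 1 = b * x 1 := by
        rw [P_apply]
        simp only [gv, mulVec, dotProduct, Fin.sum_univ_two, t23]
        simp
      simp only [hL]
      rw [j0, j1, P_apply v, mulVec_add, mulVec_smul, mulVec_smul, f3, f4]
      module
    have key : ∀ x, (E w₀ u v).1 *ᵥ (L x) = L x := by
      intro x
      have := hAPI.2.2.2 _ _ L (P (gu T₁ T₂)) (P (gv T₁ T₂ T₃)) (P u) (P v) i1 i2 w₀ x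
      rw [← map_E, ← map_E, hw₀, map_one, P_apply] at this
      exact this.symm
    have l0 : L (Pi.single 0 1) = v1 := by
      simp [hL]
    have l1 : L (Pi.single 1 1) = v3 := by
      simp [hL]
    have k0 := key (Pi.single 0 1)
    have k1 := key (Pi.single 1 1)
    rw [l0] at k0
    rw [l1] at k1
    exact ⟨k0, k1⟩
  constructor
  · apply zero_of_mulVec
    intro w
    rw [← mulVec_mulVec, smul_mulVec, sub_mulVec, one_mulVec, (key w).1, sub_self]
  · apply zero_of_mulVec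
    intro w
    rw [← mulVec_mulVec, ← mulVec_mulVec, sub_mulVec, one_mulVec, (key w).2, sub_self]

end Pool.Agent.GTD
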