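import Pool.Agent.GTD.Stmts

set_option autoImplicit false

/-!
# Module META: two-step soluble groups
-/

namespace Pool.Agent.GTD

open Matrix

namespace META

variable {O : Type} [CommRing O]

lemma sc_mul (s t : Oˣ) : (sc s : GL (Fin 2) O) * sc t = sc (s * t) := by
  apply Units.ext
  change Matrix.scalar (Fin 2) (s : O) * Matrix.scalar (Fin 2) (t : O) =
    Matrix.scalar (Fin 2) ((s * t : Oˣ) : O)
  rw [← map_mul, Units.val_mul]

lemma sc_one : (sc (1 : Oˣ) : GL (Fin 2) O) = 1 := by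
  apply Units.ext
  change Matrix.scalar (Fin 2) ((1 : Oˣ) : O) = 1
  rw [Units.val_one, map_one]

lemma sc_inv (s : Oˣ) : (sc s : GL (Fin 2) O)⁻¹ = sc s⁻¹ := by
  rw [inv_eq_iff_mul_eq_one, sc_mul, mul_inv_cancel, sc_one]

lemma sc_comm (s t : Oˣ) : (sc s : GL (Fin 2) O) * sc t = sc t * sc s := by
  rw [sc_mul, sc_mul, mul_comm]

/-- the affine transformations with scalar linear part -/
def Hs (O : Type) [CommRing O] : Subgroup (AG O) where
  carrier := {a | ∃ s : Oˣ, a.g = sc s}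
  mul_mem' := by
    rintro a b ⟨s, hs⟩ ⟨t, ht⟩
    exact ⟨s * t, by rw [AG.mul_g, hs, ht, sc_mul]⟩
  one_mem' := ⟨1, by rw [AG.one_g, sc_one]⟩
  inv_mem' := by
    rintro a ⟨s, hs⟩
    exact ⟨s⁻¹, by rw [AG.inv_g, hs, sc_inv]⟩

/-- the translations in this group -/
def Ts (O : Type) [CommRing O] : Subgroup (Hs O) := (AG.lin.comp (Hs O).subtype).ker

lemma mem_Ts (a : Hs O) : a ∈ Ts O ↔ a.1.g = 1 := Iff.rfl

lemma der1 : ⁅(⊤ : Subgroup (Hs O)), (⊤ : Subgroup (Hs O))⁆ ≤ Ts O := by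
  rw [Subgroup.commutator_le]
  intro a _ b _
  rw [mem_Ts]
  obtain ⟨s, hs⟩ := a.2
  obtain ⟨t, ht⟩ := b.2
  change (a.1 * b.1 * a.1⁻¹ * b.1⁻¹).g = 1
  rw [AG.mul_g, AG.mul_g, AG.mul_g, AG.inv_g, AG.inv_g, hs, ht, sc_comm s t]
  group

lemma der2 : ⁅Ts O, Ts O⁆ ≤ ⊥ := by
  rw [Subgroup.commutator_le]
  intro a ha b hb
  rw [mem_Ts] at ha hb
  rw [Subgroup.mem_bot, commutatorElement_eq_one_iff_mul_comm]
  apply Subtype.ext
  apply AG.ext
  · change a.1.g * b.1.g = b.1.g * a.1.g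
    rw [ha, hb]
  · change a.1.t + a.1.g.1 *ᵥ b.1.t = b.1.t + b.1.g.1 *ᵥ a.1.t
    rw [ha, hb]
    simp [add_comm]

lemma solv2 : derivedSeries (Hs O) 2 = ⊥ := by
  rw [eq_bot_iff]
  rw [derivedSeries_succ, derivedSeries_succ, derivedSeries_zero]
  exact (Subgroup.commutator_mono der1 der1).trans der2

end META

open META in
theorem thm_META (h1 : Stmt_AFF) (h2 : Stmt_CANC) : Stmt_META := by
  intro Φ hlam hT
  refine (h2 (fun O _ _ s t => Pf Φ.f s t) ?_).2 ?_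
  · intro O O' _ _ _ _ φ s t
    exact ((h1 Φ.f Φ.hf O).2.2 O' φ s t).1
  · intro O _ _ s t
    let a : Hs O := ⟨aff s ![1, 0], s, rfl⟩
    let b : Hs O := ⟨aff t 0, t, rfl⟩
    have e1 := hT (Hs O) solv2 a b Y
    rw [Pair.E_F, E_Y, E_Y, hlam] at e1
    simp only [Units.val_one, fpow_one] at e1
    have e2 : b * E Φ.f a b = E Φ.f a b * b := by
      calc b * E Φ.f a b = E Φ.f a b * ((E Φ.f a b)⁻¹ * b * E Φ.f a b) := by group
        _ = E Φ.f a b * b := by rw [e1]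
    have e3 := congrArg (Hs O).subtype e2
    rw [map_mul, map_mul, map_E] at e3
    have e4 : E Φ.f ((Hs O).subtype a) ((Hs O).subtype b) =
        ⟨1, Pf Φ.f s t • ![1, 0] - Qf Φ.f s t • (0 : Fin 2 → O)⟩ :=
      (h1 Φ.f Φ.hf O).1 s t ![1, 0] 0
    rw [e4] at e3
    have e5 := congrFun (congrArg AG.t e3) 0
    have hb : (Hs O).subtype b = aff t 0 := rfl
    rw [hb] at e5
    simp only [aff, sc, AG.mul_t] at e5
    simp [Matrix.scalar_apply] at e5
    linear_combination -e5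

end Pool.Agent.GTD
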