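import Pool.Agent.GTD.Stmts

set_option autoImplicit false

/-!
# Module PENT: the pentagon in the affine group
-/

namespace Pool.Agent.GTD

open Matrix

namespace PENT

variable {O : Type} [CommRing O]

/-- the linear transformations in the affine group -/
def inc : GL (Fin 2) O →* AG O where
  toFun g := ⟨g, 0⟩
  map_one' := rfl
  map_mul' a b := by
    apply AG.ext
    · rfl
    · simp

lemma E_inc [Finite O] (f : F2h) (u v : GL (Fin 2) O) :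
    E f (⟨u, 0⟩ : AG O) ⟨v, 0⟩ = ⟨E f u v, 0⟩ := (map_E inc f u v).symm

lemma sc_mulVec (s : Oˣ) (w : Fin 2 → O) : (sc s).1 *ᵥ w = (s : O) • w := by
  have h : (sc s).1 = Matrix.scalar (Fin 2) (s : O) := rfl
  rw [h]
  ext i
  simp [Matrix.scalar_apply, Matrix.mulVec_diagonal]

lemma sc_mul (s t : Oˣ) : sc (s * t) = sc s * sc t := by
  apply Units.ext
  have h : (sc (s * t)).1 = Matrix.scalar (Fin 2) ((s * t : Oˣ) : O) := rfl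
  rw [h, Units.val_mul, map_mul]
  rfl

lemma sc_inv (s : Oˣ) : (sc s)⁻¹ = sc s⁻¹ := by
  apply Units.ext
  rfl

lemma sc_comm (s : Oˣ) (g : GL (Fin 2) O) : sc s * g = g * sc s := by
  apply Units.ext
  have h : (sc s).1 = Matrix.scalar (Fin 2) (s : O) := rfl
  rw [Units.val_mul, Units.val_mul, h]
  exact Matrix.scalar_commute (s : O) (fun r' => mul_comm _ _) g.1

lemma aff_mul (s t : Oˣ) (v w : Fin 2 → O) :
    aff s v * aff t w = aff (s * t) (v + (s : O) • w) := by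
  apply AG.ext
  · exact (sc_mul s t).symm
  · change v + (sc s).1 *ᵥ w = v + (s : O) • w
    rw [sc_mulVec]

lemma aff_inv (s : Oˣ) (v : Fin 2 → O) : (aff s v)⁻¹ = aff s⁻¹ (-(((s⁻¹ : Oˣ) : O) • v)) := by
  apply AG.ext
  · exact sc_inv s
  · change -((sc s)⁻¹.1 *ᵥ v) = -(((s⁻¹ : Oˣ) : O) • v)
    rw [sc_inv, sc_mulVec]

/-- an affine transformation which commutes with `(s, w)` -/
lemma fix_t {s : Oˣ} {w : Fin 2 → O} {Z : AG O} (h : aff s w * Z = Z * aff s w) :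
    (1 - (s : O)) • Z.t = w - Z.g.1 *ᵥ w := by
  have h1 := congrArg AG.t h
  rw [AG.mul_t, AG.mul_t] at h1
  change w + (sc s).1 *ᵥ Z.t = Z.t + Z.g.1 *ᵥ w at h1
  rw [sc_mulVec] at h1
  rw [sub_smul, one_smul, sub_eq_sub_iff_add_eq_add, ← h1, add_comm]

lemma rel1 {g : GL (Fin 2) O} {A B D : Fin 2 → O} {Z : AG O} (hZ : Z.g = g⁻¹)
    (h : (⟨g, 0⟩ : AG O) * ⟨1, A⟩ * ⟨1, B⟩ * Z * ⟨1, D⟩ = 1) :
    g.1 *ᵥ (A + B + Z.t) + D = 0 := by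
  have h1 := congrArg AG.t h
  simp only [AG.mul_t, AG.mul_g, AG.one_t, hZ, mul_one, mul_inv_cancel, zero_add] at h1
  rw [Units.val_one, Matrix.one_mulVec] at h1
  rw [Matrix.mulVec_add, Matrix.mulVec_add]
  exact h1

lemma rel2 {g : GL (Fin 2) O} {A B D : Fin 2 → O} {Z : AG O} (hZ : Z.g = g⁻¹)
    (h : (⟨g, 0⟩ : AG O) * ⟨1, A⟩ * Z * ⟨1, B⟩ * ⟨1, D⟩ = 1) :
    g.1 *ᵥ (A + Z.t) + B + D = 0 := by
  have h1 := congrArg AG.t h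
  simp only [AG.mul_t, AG.mul_g, AG.one_t, hZ, mul_one, mul_inv_cancel, zero_add] at h1
  rw [Units.val_one, Matrix.one_mulVec, Matrix.one_mulVec] at h1
  rw [Matrix.mulVec_add]
  exact h1

lemma col {g : GL (Fin 2) O} {r : O} {A D w Zt : Fin 2 → O}
    (h : g.1 *ᵥ (A + Zt) + D = 0) (hz : r • Zt = w - (g⁻¹).1 *ᵥ w) :
    g.1 *ᵥ (r • A + w) = w - r • D := by
  have h1 : r • (g.1 *ᵥ (A + Zt) + D) = 0 := by rw [h, smul_zero]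
  rw [smul_add, ← Matrix.mulVec_smul, smul_add, hz, Matrix.mulVec_add, Matrix.mulVec_sub,
    Matrix.mulVec_mulVec, ← Units.val_mul, mul_inv_cancel, Units.val_one, Matrix.one_mulVec] at h1
  rw [Matrix.mulVec_add, eq_sub_iff_add_eq]
  have h2 : g.1 *ᵥ (r • A) + g.1 *ᵥ w + r • D =
      (g.1 *ᵥ (r • A) + (g.1 *ᵥ w - w) + r • D) + w := by abel
  rw [h2, h1, zero_add]

lemma cols {G : Matrix (Fin 2) (Fin 2) O} {a b c d a' b' c' d' : O}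
    (h1 : G *ᵥ ![a, b] = ![c, d]) (h2 : G *ᵥ ![a', b'] = ![c', d']) :
    G * !![a, a'; b, b'] = !![c, c'; d, d'] := by
  have e0 := congrFun h1 0
  have e1 := congrFun h1 1
  have f0 := congrFun h2 0
  have f1 := congrFun h2 1
  simp only [Matrix.mulVec, dotProduct, Fin.sum_univ_two, Matrix.cons_val_zero,
    Matrix.cons_val_one] at e0 e1 f0 f1
  ext i j
  rw [Matrix.mul_apply, Fin.sum_univ_two]
  fin_cases i <;> fin_cases j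
  · exact e0
  · exact f0
  · exact e1
  · exact f1

lemma grp {H : Type} [Group H] {x a b : H} (h1 : x * a * x⁻¹ = (a * b)⁻¹ * a * (a * b))
    (h2 : x * b * x⁻¹ = (a * b)⁻¹ * b * (a * b)) :
    x * (a * b) = a * b * x ∧ x * (a * b) * a = a * (x * (a * b)) ∧
      x * (a * b) * b = b * (x * (a * b)) := by
  have h3 : x * (a * b) * x⁻¹ = a * b := by
    calc x * (a * b) * x⁻¹ = (x * a * x⁻¹) * (x * b * x⁻¹) := by group
      _ = a * b := by rw [h1, h2]; group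
  have h4 : x * (a * b) = a * b * x := mul_inv_eq_iff_eq_mul.1 h3
  have h5 : x * a = (a * b)⁻¹ * a * (a * b) * x := mul_inv_eq_iff_eq_mul.1 h1
  have h6 : x * b = (a * b)⁻¹ * b * (a * b) * x := mul_inv_eq_iff_eq_mul.1 h2
  refine ⟨h4, ?_, ?_⟩
  · rw [h4, mul_assoc (a * b) x a, h5]
    group
  · rw [h4, mul_assoc (a * b) x b, h6]
    group

end PENT

open PENT

theorem thm_PENT (hA : Stmt_API) (hF : Stmt_AFF) (hG : Stmt_GRP) (hR : Stmt_GREL) :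
    Stmt_PENT := by
  obtain ⟨hcom, hcen, -, -⟩ := hA
  intro f hf O _ _ T₁ T₂ T₃
  obtain ⟨hval, hPQ, -⟩ := hF f hf.comm O
  have hcomm := hf.comm
  set x : AG O := ⟨gu T₁ T₂, 0⟩ with hx
  set y : AG O := ⟨gv T₁ T₂ T₃, 0⟩ with hy
  obtain ⟨r0, r1, r2, r3, r4, r5, r6, r7, r8⟩ := hR O T₁ T₂ T₃
  obtain ⟨R1, R2⟩ := hG (AG O) x y (en1 T₁) (en2 T₁ T₂) (en3 T₃) (en4 T₁ T₂ T₃)
    r0 r1 r2 r3 r4 r5 r6 r7 r8
  set g := E f (gu T₁ T₂) (gv T₁ T₂ T₃) with hg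
  have hg' : E f (gv T₁ T₂ T₃) (gu T₁ T₂) = g⁻¹ := by
    rw [hg, eq_inv_iff_mul_eq_one]
    exact hf.I _ _ _
  have hxy : E f x y = ⟨g, 0⟩ := E_inc f _ _
  -- the products
  have hL : en1 T₁ * en2 T₁ T₂ = aff (T₁ * T₂) ![0, -((T₁ * T₂ : Oˣ) : O)] := by
    rw [en1, en2, aff_mul]
    congr 1
    ext i
    fin_cases i <;> simp
  have hM : en2 T₁ T₂ * en3 T₃ = aff (T₂ * T₃) ![-((T₁⁻¹ : Oˣ) : O), 0] := by
    rw [en2, en3, aff_mul]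
    congr 1
    ext i
    fin_cases i <;> simp
  have hLi : (en1 T₁ * en2 T₁ T₂)⁻¹ = aff (T₁ * T₂)⁻¹ ![0, 1] := by
    rw [hL, aff_inv]
    congr 1
    ext i
    fin_cases i
    · simp
    · change -((((T₁ * T₂)⁻¹ : Oˣ) : O) * -((T₁ * T₂ : Oˣ) : O)) = 1
      rw [mul_neg, neg_neg, Units.inv_mul]
  have hMi : (en2 T₁ T₂ * en3 T₃)⁻¹ =
      aff (T₂ * T₃)⁻¹ ![(((T₁ * T₂ * T₃)⁻¹ : Oˣ) : O), 0] := by
    rw [hM, aff_inv]
    congr 1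
    ext i
    fin_cases i
    · change -((((T₂ * T₃)⁻¹ : Oˣ) : O) * -((T₁⁻¹ : Oˣ) : O)) = (((T₁ * T₂ * T₃)⁻¹ : Oˣ) : O)
      rw [mul_neg, neg_neg, ← Units.val_mul, ← mul_inv]
      congr 2
      rw [mul_comm (T₂ * T₃) T₁, mul_assoc]
    · simp
  obtain ⟨cL, cL1, -⟩ := grp (x := x) r1 r2
  obtain ⟨cM, -, cM3⟩ := grp (x := y) r6 r7
  have e1 := hf.III (AG O) _ _ _ _ _ R1
  have e2 := hf.III (AG O) _ _ _ _ _ R2
  -- first tuple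
  have a1 : E f (x * (en1 T₁ * en2 T₁ T₂)) (en4 T₁ T₂ T₃) =
      ⟨1, Pf f (T₁ * T₂) (T₁ * T₂ * T₃)⁻¹ • ![0, -((T₁ * T₂ : Oˣ) : O)]⟩ := by
    have h := hcen (AG O) f hcomm (en1 T₁ * en2 T₁ T₂) (en4 T₁ T₂ T₃) x 1 cL r4
      (by rw [one_mul, mul_one]) (by rw [one_mul, mul_one]) (by rw [one_mul, mul_one])
    rw [mul_one, ← cL] at h
    rw [h, hL, en4, hval, smul_zero, sub_zero]
  have a2 : E f (en1 T₁) x = ⟨1, Pf f T₁ (T₁ * T₂)⁻¹ • ![1, 0] - Qf f T₁ (T₁ * T₂)⁻¹ • ![0, 1]⟩ := by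
    have hc : (en1 T₁ * en2 T₁ T₂)⁻¹ * (x * (en1 T₁ * en2 T₁ T₂)) = x := by
      rw [cL]; group
    have h := hcen (AG O) f hcomm (en1 T₁) (en1 T₁ * en2 T₁ T₂)⁻¹ 1
      (x * (en1 T₁ * en2 T₁ T₂)) (by rw [one_mul, mul_one]) (by rw [one_mul, mul_one])
      cL1 (by rw [hc]; group) (by rw [one_mul, mul_one])
    rw [mul_one, hc] at h
    rw [h, hLi, en1, hval]
  have a3 : E f (en4 T₁ T₂ T₃) (en1 T₁) = ⟨1, -(Qf f (T₁ * T₂ * T₃)⁻¹ T₁ • ![1, 0])⟩ := by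
    rw [en4, en1, hval, smul_zero, zero_sub]
  have a4 : (E f y (x * (en1 T₁ * en2 T₁ T₂))).g = g⁻¹ := by
    change AG.lin (E f y (x * (en1 T₁ * en2 T₁ T₂))) = g⁻¹
    rw [map_E]
    change E f (gv T₁ T₂ T₃) (gu T₁ T₂ * (sc T₁ * sc T₂)) = g⁻¹
    rw [← sc_mul]
    have h := hcen (GL (Fin 2) O) f hcomm (gv T₁ T₂ T₃) (gu T₁ T₂) 1 (sc (T₁ * T₂))
      (by rw [one_mul, mul_one]) (by rw [one_mul, mul_one]) (sc_comm _ _) (sc_comm _ _)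
      (by rw [one_mul, mul_one])
    rw [mul_one] at h
    rw [h, hg']
  have a5 := fix_t (hcom (AG O) f y (x * (en1 T₁ * en2 T₁ T₂)) (en1 T₁) r5.symm cL1.symm)
  rw [a4] at a5
  rw [hxy, a1, a2, a3] at e1
  have c1 := col (rel1 a4 e1) a5
  -- second tuple
  have b1 : E f (en3 T₃) (en4 T₁ T₂ T₃) = ⟨1, Pf f T₃ (T₁ * T₂ * T₃)⁻¹ • ![0, 1]⟩ := by
    rw [en3, en4, hval, smul_zero, sub_zero]
  have b2 : E f y (en3 T₃) = ⟨1, Pf f (T₂ * T₃)⁻¹ T₃ • ![(((T₁ * T₂ * T₃)⁻¹ : Oˣ) : O), 0] -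
      Qf f (T₂ * T₃)⁻¹ T₃ • ![0, 1]⟩ := by
    have hc : (en2 T₁ T₂ * en3 T₃)⁻¹ * (y * (en2 T₁ T₂ * en3 T₃)) = y := by
      rw [cM]; group
    have h := hcen (AG O) f hcomm (en2 T₁ T₂ * en3 T₃)⁻¹ (en3 T₃)
      (y * (en2 T₁ T₂ * en3 T₃)) 1 (by rw [hc]; group) cM3
      (by rw [one_mul, mul_one]) (by rw [one_mul, mul_one]) (by rw [one_mul, mul_one])
    rw [mul_one, hc] at h
    rw [h, hMi, en3, hval]
  have b3 : E f (en4 T₁ T₂ T₃) (y * (en2 T₁ T₂ * en3 T₃)) =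
      ⟨1, -(Qf f (T₁ * T₂ * T₃)⁻¹ (T₂ * T₃) • ![-((T₁⁻¹ : Oˣ) : O), 0])⟩ := by
    have h := hcen (AG O) f hcomm (en4 T₁ T₂ T₃) (en2 T₁ T₂ * en3 T₃) 1 y
      (by rw [one_mul, mul_one]) (by rw [one_mul, mul_one]) r8 cM (by rw [one_mul, mul_one])
    rw [mul_one, ← cM] at h
    rw [h, hM, en4, hval, smul_zero, zero_sub]
  have b4 : (E f (y * (en2 T₁ T₂ * en3 T₃)) x).g = g⁻¹ := by
    change AG.lin (E f (y * (en2 T₁ T₂ * en3 T₃)) x) = g⁻¹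
    rw [map_E]
    change E f (gv T₁ T₂ T₃ * (sc T₂ * sc T₃)) (gu T₁ T₂) = g⁻¹
    rw [← sc_mul]
    have h := hcen (GL (Fin 2) O) f hcomm (gv T₁ T₂ T₃) (gu T₁ T₂) (sc (T₂ * T₃)) 1
      (sc_comm _ _) (sc_comm _ _) (by rw [one_mul, mul_one]) (by rw [one_mul, mul_one])
      (by rw [one_mul, mul_one])
    rw [mul_one] at h
    rw [h, hg']
  have b5 := fix_t (hcom (AG O) f (y * (en2 T₁ T₂ * en3 T₃)) x (en3 T₃) cM3.symm r3.symm)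
  rw [b4] at b5
  rw [hxy, b1, b2, b3] at e2
  have h2 := rel2 b4 e2
  rw [add_assoc] at h2
  have c2 := col h2 b5
  -- the two columns
  rw [Rm, Sm]
  refine cols ?_ ?_
  · have hu : (1 - (T₁ : O)) • (Pf f (T₁ * T₂) (T₁ * T₂ * T₃)⁻¹ • ![0, -((T₁ * T₂ : Oˣ) : O)] +
        (Pf f T₁ (T₁ * T₂)⁻¹ • ![1, 0] - Qf f T₁ (T₁ * T₂)⁻¹ • ![0, 1])) + ![1, 0] =
        ![bf f T₁ (T₁ * T₂)⁻¹, -((1 - (T₁ : O)) * (Qf f T₁ (T₁ * T₂)⁻¹ +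
          ((T₁ * T₂ : Oˣ) : O) * Pf f (T₁ * T₂) (T₁ * T₂ * T₃)⁻¹))] := by
      ext i
      fin_cases i
      · simp [bf]
        ring
      · simp
        ring
    have hv : (![1, 0] : Fin 2 → O) - (1 - (T₁ : O)) • -(Qf f (T₁ * T₂ * T₃)⁻¹ T₁ • ![1, 0]) =
        ![bf f (T₁ * T₂ * T₃)⁻¹ T₁, 0] := by
      ext i
      fin_cases i
      · rw [bf, hPQ]
        simp
      · simp
    rw [← hu, ← hv]
    exact c1
  · have hu : (1 - (T₃ : O)) • (Pf f T₃ (T₁ * T₂ * T₃)⁻¹ • ![0, 1]) + ![0, 1] =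
        ![0, bf f T₃ (T₁ * T₂ * T₃)⁻¹] := by
      ext i
      fin_cases i
      · simp
      · simp [bf]
        ring
    have hv : (![0, 1] : Fin 2 → O) - (1 - (T₃ : O)) •
        (Pf f (T₂ * T₃)⁻¹ T₃ • ![(((T₁ * T₂ * T₃)⁻¹ : Oˣ) : O), 0] -
          Qf f (T₂ * T₃)⁻¹ T₃ • ![0, 1] +
          -(Qf f (T₁ * T₂ * T₃)⁻¹ (T₂ * T₃) • ![-((T₁⁻¹ : Oˣ) : O), 0])) =
        ![-((1 - (T₃ : O)) * ((((T₁ * T₂ * T₃)⁻¹ : Oˣ) : O) * Pf f (T₂ * T₃)⁻¹ T₃ +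
          ((T₁⁻¹ : Oˣ) : O) * Qf f (T₁ * T₂ * T₃)⁻¹ (T₂ * T₃))), bf f (T₂ * T₃)⁻¹ T₃] := by
      ext i
      fin_cases i
      · simp
        ring
      · rw [bf, hPQ]
        simp
    rw [← hu, ← hv]
    exact c2

end Pool.Agent.GTD
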