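import Pool.Agent.GTD.Stmts

set_option autoImplicit false

/-!
# MP_6a6203_al, module PREL
-/

namespace Pool.Agent.GTD

open Matrix

namespace PREL

section basics

variable {O : Type} [CommRing O]

lemma sc_mulVec (s : Oˣ) (w : Fin 2 → O) : (sc s).1 *ᵥ w = (s : O) • w := by
  change (Matrix.scalar (Fin 2) (s : O)) *ᵥ w = (s : O) • w
  funext i
  rw [Matrix.scalar_apply, Matrix.mulVec_diagonal]
  rfl

lemma sc_mul (s t : Oˣ) : sc s * sc t = sc (s * t) := by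
  apply Units.ext
  change (Matrix.scalar (Fin 2) (s : O)) * (Matrix.scalar (Fin 2) (t : O)) =
    Matrix.scalar (Fin 2) ((s * t : Oˣ) : O)
  rw [← map_mul, Units.val_mul]

lemma sc_inv (s : Oˣ) : (sc s)⁻¹ = sc s⁻¹ := by
  rw [inv_eq_iff_mul_eq_one, sc_mul, mul_inv_cancel]
  apply Units.ext
  change Matrix.scalar (Fin 2) ((1 : Oˣ) : O) = 1
  rw [Units.val_one, map_one]

lemma aff_mul (s t : Oˣ) (v w : Fin 2 → O) :
    aff s v * aff t w = aff (s * t) (v + (s : O) • w) := by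
  ext1
  · exact sc_mul s t
  · change v + (sc s).1 *ᵥ w = v + (s : O) • w
    rw [sc_mulVec]

lemma aff_inv (s : Oˣ) (v : Fin 2 → O) :
    (aff s v)⁻¹ = aff s⁻¹ (-(((s⁻¹ : Oˣ) : O) • v)) := by
  ext1
  · exact sc_inv s
  · change -((sc s)⁻¹.1 *ᵥ v) = -(((s⁻¹ : Oˣ) : O) • v)
    rw [sc_inv, sc_mulVec]

lemma tr_mul (v w : Fin 2 → O) : (⟨1, v⟩ : AG O) * ⟨1, w⟩ = ⟨1, v + w⟩ := by
  ext1
  · simp
  · simp

lemma tr_one (v : Fin 2 → O) (h : (⟨1, v⟩ : AG O) = 1) : v = 0 := congrArg AG.t h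

end basics

variable (hA : Stmt_AFF) {f : F2h} (hf : IsGT1 f) {O : Type} [CommRing O] [Finite O]

include hA hf

lemma qf (s t : Oˣ) : Qf f s t = Pf f t s := by
  have h1 := (hA f hf.comm O).1
  have h2 := hf.I (AG O) (aff s ![1, 0]) (aff t ![0, 1])
  rw [h1, h1, tr_mul] at h2
  have h3 := congrFun (tr_one _ h2) 1
  simp at h3
  linear_combination -h3

lemma two (s t : Oˣ) (w₁ w₂ w₃ : Fin 2 → O)
    (hw : w₃ = -((((s * t)⁻¹ : Oˣ) : O) • (w₁ + (s : O) • w₂))) :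
    (Pf f (s * t)⁻¹ s - Pf f (s * t)⁻¹ t) • w₃ + (Pf f s t - Pf f s (s * t)⁻¹) • w₁ +
      (Pf f t (s * t)⁻¹ - Pf f t s) • w₂ = 0 := by
  have h1 := (hA f hf.comm O).1
  have h2 := hf.II (AG O) (aff s w₁) (aff t w₂)
  rw [aff_mul, aff_inv, ← hw, h1, h1, h1, tr_mul, tr_mul] at h2
  have h3 := tr_one _ h2
  rw [qf hA hf, qf hA hf, qf hA hf] at h3
  rw [← h3]
  module

lemma key (s t : Oˣ) :
    (1 - (t : O)) * (Pf f (s * t)⁻¹ s - Pf f (s * t)⁻¹ t) = 0 := by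
  have h1 := congrFun (two hA hf s t ![1, 0] ![0, 1] _ rfl) 0
  have h2 := congrFun (two hA hf t s ![0, 1] ![1, 0] _ rfl) 0
  rw [mul_comm t s] at h2
  simp at h1 h2
  have h3 : (((s * t)⁻¹ : Oˣ) : O) * ((s * t : Oˣ) : O) = 1 := Units.inv_mul _
  have h4 : (((s * t)⁻¹ : Oˣ) : O) * ((1 - (t : O)) * (Pf f (s * t)⁻¹ s - Pf f (s * t)⁻¹ t)) = 0 := by
    rw [_root_.mul_inv_rev, Units.val_mul]
    linear_combination -h1 - h2
  have h5 : ((1 - (t : O)) * (Pf f (s * t)⁻¹ s - Pf f (s * t)⁻¹ t)) =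
      ((s * t : Oˣ) : O) *
        ((((s * t)⁻¹ : Oˣ) : O) * ((1 - (t : O)) * (Pf f (s * t)⁻¹ s - Pf f (s * t)⁻¹ t))) := by
    rw [← mul_assoc, mul_comm ((s * t : Oˣ) : O), h3, one_mul]
  rw [h5, h4, mul_zero]

omit hA hf [Finite O] in
lemma linpoly (t : Oˣ) : IsUnit (Polynomial.C (-(t : O)) * Polynomial.X +
    Polynomial.C (1 - (t : O))).leadingCoeff := by
  rcases subsingleton_or_nontrivial O with h | h
  · exact isUnit_of_subsingleton _
  · rw [Polynomial.leadingCoeff_linear (neg_ne_zero.2 t.ne_zero)]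
    exact t.isUnit.neg

lemma fin (hN : Stmt_ANN) (s t : Oˣ) : Pf f (s * t)⁻¹ s = Pf f (s * t)⁻¹ t := by
  obtain ⟨O', _, _, i, π, ε, hπi, hπε, hun, hann⟩ := hN O _ (linpoly t)
  have hu : IsUnit (i t * (1 + ε)) := by
    apply hun
    rw [map_mul, hπi, map_add, map_one, hπε, add_zero, mul_one]
    exact t.isUnit
  obtain ⟨t', ht'⟩ := hu
  let s' : O'ˣ := Units.map (i : O →* O') s
  have hs' : Units.map (π : O' →* O) s' = s := by
    apply Units.ext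
    exact hπi s
  have hpt : Units.map (π : O' →* O) t' = t := by
    apply Units.ext
    change π (t' : O') = t
    rw [ht', map_mul, hπi, map_add, map_one, hπε, add_zero, mul_one]
  have h1 := key hA hf s' t'
  have h2 := hann (Pf f (s' * t')⁻¹ s' - Pf f (s' * t')⁻¹ t') (by
    rw [← h1, ht']
    congr 1
    simp
    ring)
  rw [map_sub, sub_eq_zero] at h2
  have h3 := (hA f hf.comm O').2.2 O π
  have h4 := (h3 (s' * t')⁻¹ s').1
  have h5 := (h3 (s' * t')⁻¹ t').1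
  rw [← h4, ← h5] at h2
  rw [map_inv, map_mul, hs', hpt] at h2
  exact h2

end PREL

theorem thm_PREL (hA : Stmt_AFF) (hN : Stmt_ANN) : Stmt_PREL := by
  intro f hf O _ _
  refine ⟨fun s t => PREL.qf hA hf s t, ?_⟩
  intro r s t h
  have hr : r = (s * t)⁻¹ := by
    rw [eq_inv_iff_mul_eq_one, ← mul_assoc]
    exact h
  rw [hr]
  exact PREL.fin hA hf hN s t

end Pool.Agent.GTD
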