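import Pool.Agent.GTD.Stmts

set_option autoImplicit false

/-!
# Project GTD (MP_6a6203_al): module RS, the algebra of the matrices `R` and `S`
-/

namespace Pool.Agent.GTD

open Matrix

namespace RS

section Abs

variable {O : Type} [CommRing O]

/-- the normal form of `R` -/
def Rn (t V W p q : O) : Matrix (Fin 2) (Fin 2) O :=
  !![1 + (1 - V) * q, 0; -((1 - t) * (q + W * p)), 1 + (1 - W) * p]

/-- the normal form of `S` -/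
def Sn (t t4 i V W p q : O) : Matrix (Fin 2) (Fin 2) O :=
  !![1 + (1 - W) * q, -((1 - t) * (t4 * p + i * q)); 0, 1 + (1 - V) * p]

omit [CommRing O] in
theorem mat_eq {a b c d a' b' c' d' : O} (h1 : a = a') (h2 : b = b') (h3 : c = c') (h4 : d = d') :
    !![a, b; c, d] = !![a', b'; c', d'] := by
  rw [h1, h2, h3, h4]

theorem Rn_gu (t V W p q : O) (h : W * V = 1) :
    !![V, 0; 1 - t, 1] * Rn t V W p q = Rn t V W p q * !![V, 0; 1 - t, 1] := by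
  rw [Rn, Matrix.mul_fin_two, Matrix.mul_fin_two]
  apply mat_eq
  · ring
  · ring
  · linear_combination (1 - t) * p * h
  · ring

theorem Sn_gv (t t4 i V W p q : O) (h : W * V = 1) (h' : t4 * W = i) :
    !![1, (1 - t) * t4; 0, V] * Sn t t4 i V W p q =
      Sn t t4 i V W p q * !![1, (1 - t) * t4; 0, V] := by
  rw [Sn, Matrix.mul_fin_two, Matrix.mul_fin_two]
  subst h'
  apply mat_eq
  · ring
  · linear_combination (1 - t) * t4 * q * h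
  · ring
  · ring

theorem Rn_comm (t V W p q p' q' : O) (h : W * V = 1) :
    Rn t V W p q * Rn t V W p' q' = Rn t V W p' q' * Rn t V W p q := by
  rw [Rn, Rn, Matrix.mul_fin_two, Matrix.mul_fin_two]
  apply mat_eq
  · ring
  · ring
  · linear_combination (1 - t) * (p * q' - p' * q) * h
  · ring

theorem Sn_comm (t t4 i V W p q p' q' : O) (h : W * V = 1) (h' : t4 * W = i) :
    Sn t t4 i V W p q * Sn t t4 i V W p' q' = Sn t t4 i V W p' q' * Sn t t4 i V W p q := by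
  rw [Sn, Sn, Matrix.mul_fin_two, Matrix.mul_fin_two]
  subst h'
  apply mat_eq
  · ring
  · linear_combination (1 - t) * t4 * (q * p' - q' * p) * h
  · ring
  · ring

theorem Rn_inv (t V W p q p' q' : O) (h : W * V = 1) (hp : p + p' + (1 - W) * p * p' = 0)
    (hq : q + q' + (1 - V) * q * q' = 0) : Rn t V W p q * Rn t V W p' q' = 1 := by
  rw [Rn, Rn, Matrix.mul_fin_two, Matrix.one_fin_two]
  apply mat_eq
  · linear_combination (1 - V) * hq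
  · ring
  · linear_combination -(1 - t) * hq - (1 - t) * W * hp + (1 - t) * p * q' * h
  · linear_combination (1 - W) * hp

theorem Sn_inv (t t4 i V W p q p' q' : O) (h : W * V = 1) (h' : t4 * W = i)
    (hp : p + p' + (1 - V) * p * p' = 0) (hq : q + q' + (1 - W) * q * q' = 0) :
    Sn t t4 i V W p q * Sn t t4 i V W p' q' = 1 := by
  rw [Sn, Sn, Matrix.mul_fin_two, Matrix.one_fin_two]
  subst h'
  apply mat_eq
  · linear_combination (1 - W) * hq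
  · linear_combination -(1 - t) * t4 * W * hq - (1 - t) * t4 * hp + (1 - t) * t4 * q * p' * h
  · ring
  · linear_combination (1 - V) * hp

end Abs

section Norm

variable {O : Type} [CommRing O] [Finite O]

/-- `b` is symmetric -/
theorem bf_eq (h1 : Stmt_AFF) (h2 : Stmt_PREL) {f : F2h} (hf : IsGT1 f) (s t : Oˣ) :
    bf f s t = 1 + (1 - (t : O)) * Qf f s t ∧ bf f s t = bf f t s := by
  have e1 := (h1 f hf.comm O).2.1 s t
  have e2 := (h2 f hf O).1 s t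
  refine ⟨by rw [bf, e1], ?_⟩
  rw [bf, bf, e1, e2]

theorem bf_rot (h2 : Stmt_PREL) {f : F2h} (hf : IsGT1 f) (r s t : Oˣ)
    (h : r * s * t = 1) : bf f r s = bf f r t := by
  rw [bf, bf, (h2 f hf O).2 r s t h]

theorem Rm_eq (h1 : Stmt_AFF) (h2 : Stmt_PREL) {f : F2h} (hf : IsGT1 f) (T₁ T₂ T₃ : Oˣ) :
    Rm f T₁ T₂ T₃ = Rn (T₁ : O) (((T₁ * T₂)⁻¹ : Oˣ) : O) ((T₁ * T₂ : Oˣ) : O)
      (Pf f (T₁ * T₂) (T₁ * T₂ * T₃)⁻¹) (Qf f T₁ (T₁ * T₂)⁻¹) := by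
  rw [Rm, Rn]
  apply mat_eq
  · exact (bf_eq h1 h2 hf _ _).1
  · rfl
  · rfl
  · rw [(bf_eq h1 h2 hf T₃ _).2, bf_rot h2 hf (T₁ * T₂ * T₃)⁻¹ T₃ (T₁ * T₂)
        (by rw [mul_assoc, mul_comm T₃, inv_mul_cancel]),
      (bf_eq h1 h2 hf _ (T₁ * T₂)).2, bf]

theorem Sm_eq (h1 : Stmt_AFF) (h2 : Stmt_PREL) {f : F2h} (hf : IsGT1 f) (T₁ T₂ T₃ : Oˣ) :
    Sm f T₁ T₂ T₃ = Sn (T₃ : O) (((T₁ * T₂ * T₃)⁻¹ : Oˣ) : O) ((T₁⁻¹ : Oˣ) : O)
      (((T₂ * T₃)⁻¹ : Oˣ) : O) ((T₂ * T₃ : Oˣ) : O)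
      (Pf f (T₂ * T₃)⁻¹ T₃) (Qf f (T₁ * T₂ * T₃)⁻¹ (T₂ * T₃)) := by
  rw [Sm, Sn]
  apply mat_eq
  · rw [bf_rot h2 hf (T₁ * T₂ * T₃)⁻¹ T₁ (T₂ * T₃) (by group)]
    exact (bf_eq h1 h2 hf _ _).1
  · rfl
  · rfl
  · rfl

/-- the relation between `P(f)` and `P(cj f)` -/
theorem P_rel (h4 : Stmt_BBC) {f : F2h} (hf : IsGT1 f) (s t : Oˣ) :
    Pf f s t + Pf (cj f) s t + (1 - (s : O)) * Pf f s t * Pf (cj f) s t = 0 := by
  have e := (h4 f hf O s t).2.2.2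
  rw [bf] at e
  linear_combination e

theorem Q_rel (h2 : Stmt_PREL) (h3 : Stmt_CONJ) (h4 : Stmt_BBC) {f : F2h} (hf : IsGT1 f)
    (s t : Oˣ) : Qf f s t + Qf (cj f) s t + (1 - (t : O)) * Qf f s t * Qf (cj f) s t = 0 := by
  rw [(h2 f hf O).1 s t, (h2 (cj f) (h3.2 f hf) O).1 s t]
  exact P_rel h4 hf t s

end Norm

end RS

/-- Module RS. -/
theorem thm_RS (h1 : Stmt_AFF) (h2 : Stmt_PREL) (h3 : Stmt_CONJ) (h4 : Stmt_BBC) : Stmt_RS := by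
  intro O _ _ T₁ T₂ T₃
  have hW : ((T₁ * T₂ : Oˣ) : O) * (((T₁ * T₂)⁻¹ : Oˣ) : O) = 1 := Units.mul_inv _
  have hW1 : ((T₂ * T₃ : Oˣ) : O) * (((T₂ * T₃)⁻¹ : Oˣ) : O) = 1 := Units.mul_inv _
  have hT : (((T₁ * T₂ * T₃)⁻¹ : Oˣ) : O) * ((T₂ * T₃ : Oˣ) : O) = ((T₁⁻¹ : Oˣ) : O) := by
    rw [← Units.val_mul]
    congr 1
    rw [mul_assoc T₁, mul_inv T₁, mul_assoc, inv_mul_cancel, mul_one]
  refine ⟨fun f hf => ⟨?_, ?_, ?_, ?_⟩, fun f g hf hg => ⟨?_, ?_⟩⟩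
  · rw [RS.Rm_eq h1 h2 hf]
    exact RS.Rn_gu _ _ _ _ _ hW
  · rw [RS.Sm_eq h1 h2 hf]
    exact RS.Sn_gv _ _ _ _ _ _ _ hW1 hT
  · rw [RS.Rm_eq h1 h2 hf, RS.Rm_eq h1 h2 (h3.2 f hf)]
    exact RS.Rn_inv _ _ _ _ _ _ _ hW (RS.P_rel h4 hf _ _) (RS.Q_rel h2 h3 h4 hf _ _)
  · rw [RS.Sm_eq h1 h2 hf, RS.Sm_eq h1 h2 (h3.2 f hf)]
    exact RS.Sn_inv _ _ _ _ _ _ _ _ _ hW1 hT (RS.P_rel h4 hf _ _) (RS.Q_rel h2 h3 h4 hf _ _)
  · rw [RS.Rm_eq h1 h2 hf, RS.Rm_eq h1 h2 hg]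
    exact RS.Rn_comm _ _ _ _ _ _ _ hW
  · rw [RS.Sm_eq h1 h2 hf, RS.Sm_eq h1 h2 hg]
    exact RS.Sn_comm _ _ _ _ _ _ _ _ _ hW1 hT

end Pool.Agent.GTD
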