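import Pool.Agent.GTD.Stmts

set_option autoImplicit false

/-!
# A quadratic extension with a root of `X² - τ X + δ`
-/

namespace Pool.Agent.GTD

open Polynomial

theorem thm_SPLIT : Stmt_SPLIT := by
  intro O _ _ τ δ hδ
  rcases subsingleton_or_nontrivial O with hO | hO
  · exact ⟨O, inferInstance, inferInstance, RingHom.id O, 1, Function.injective_id,
      Subsingleton.elim _ _⟩
  have hdeg : (C τ * Polynomial.X - C δ : O[X]).degree < ((2 : ℕ) : WithBot ℕ) := by
    refine lt_of_le_of_lt (degree_sub_le _ _) (max_lt ?_ ?_)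
    · refine lt_of_le_of_lt (degree_C_mul_X_le τ) ?_
      exact WithBot.coe_lt_coe.2 (by norm_num)
    · refine lt_of_le_of_lt degree_C_le ?_
      exact WithBot.coe_lt_coe.2 (by norm_num)
  have hm : (Polynomial.X ^ 2 - (C τ * Polynomial.X - C δ) : O[X]).Monic := monic_X_pow_sub hdeg
  have hd : (Polynomial.X ^ 2 - (C τ * Polynomial.X - C δ) : O[X]).degree = ((2 : ℕ) : WithBot ℕ) := by
    rw [degree_sub_eq_left_of_degree_lt (by rw [degree_X_pow]; exact hdeg), degree_X_pow]
  set p : O[X] := Polynomial.X ^ 2 - (C τ * Polynomial.X - C δ) with hp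
  have := hm.finite_adjoinRoot
  have hroot : (AdjoinRoot.root p) ^ 2 - (AdjoinRoot.of p τ * AdjoinRoot.root p -
      AdjoinRoot.of p δ) = 0 := by
    have h := AdjoinRoot.eval₂_root p
    rw [hp] at h
    simpa only [eval₂_sub, eval₂_mul, eval₂_pow, eval₂_X, eval₂_C] using h
  have hunit : IsUnit (AdjoinRoot.root p) := by
    have h1 : AdjoinRoot.root p * (AdjoinRoot.of p τ - AdjoinRoot.root p) =
        AdjoinRoot.of p δ := by
      linear_combination -hroot
    have h2 : IsUnit (AdjoinRoot.root p * (AdjoinRoot.of p τ - AdjoinRoot.root p)) := by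
      rw [h1]
      exact hδ.map _
    exact isUnit_of_mul_isUnit_left h2
  refine ⟨AdjoinRoot p, inferInstance, Module.finite_of_finite O, AdjoinRoot.of p, hunit.unit,
    ?_, ?_⟩
  · rw [injective_iff_map_eq_zero]
    intro x hx
    by_contra hx0
    have h1 : p ∣ C x := by
      have : AdjoinRoot.mk p (C x) = 0 := hx
      exact AdjoinRoot.mk_eq_zero.1 this
    refine hm.not_dvd_of_degree_lt (by simpa using hx0) ?_ h1
    rw [hd]
    refine lt_of_le_of_lt degree_C_le ?_
    exact WithBot.coe_lt_coe.2 (by norm_num)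
  · rw [IsUnit.unit_spec]
    linear_combination hroot

end Pool.Agent.GTD
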