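import Pool.Agent.GTD.Stmts

set_option autoImplicit false

namespace Pool.Agent.GTD

namespace UNIT

/-- An element of the free profinite group with trivial values in all finite abelian groups lies
in the closed commutator subgroup. -/
lemma mem_closedComm_of (w : F2h)
    (h : ∀ (A : Type) [CommGroup A] [Finite A] (a b : A), E w a b = 1) :
    w ∈ closedComm (FreeGroup (Fin 2)) := by
  intro N
  obtain ⟨g, hg⟩ := QuotientGroup.mk_surjective (w.1 N)
  have hfin : Finite (Abelianization (FreeGroup (Fin 2) ⧸ N.toSubgroup)) := inferInstance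
  have h1 := h (Abelianization (FreeGroup (Fin 2) ⧸ N.toSubgroup))
    (Abelianization.of (QuotientGroup.mk (FreeGroup.of 0)))
    (Abelianization.of (QuotientGroup.mk (FreeGroup.of 1)))
  rw [← map_E] at h1
  have h2 : lift2 (QuotientGroup.mk (FreeGroup.of 0) : FreeGroup (Fin 2) ⧸ N.toSubgroup)
      (QuotientGroup.mk (FreeGroup.of 1)) = QuotientGroup.mk' N.toSubgroup :=
    (lift2_unique (QuotientGroup.mk' N.toSubgroup)).symm
  rw [E, h2, ev_eq (QuotientGroup.mk' N.toSubgroup) w N (by rw [QuotientGroup.ker_mk']) g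
    hg.symm] at h1
  rw [← hg]
  rw [← Abelianization.ker_of]
  exact h1

/-- Values in abelian groups of elements of the closed commutator subgroup are trivial. -/
lemma E_abelian (w : F2h) (hw : w ∈ closedComm (FreeGroup (Fin 2))) (A : Type) [CommGroup A]
    [Finite A] (a b : A) : E w a b = 1 := by
  have h1 : E w a b ∈ commutator A := ev_mem_commutator _ w hw
  have h2 : commutator A = ⊥ := by
    rw [commutator_def, Subgroup.commutator_eq_bot_iff_le_centralizer]
    intro x _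
    rw [Subgroup.mem_centralizer_iff]
    intro y _
    exact mul_comm _ _
  rw [h2, Subgroup.mem_bot] at h1
  exact h1

lemma mem_of_F_mem (Φ : Pair) (w : F2h) (hw : Φ.F w ∈ closedComm (FreeGroup (Fin 2))) :
    w ∈ closedComm (FreeGroup (Fin 2)) := by
  apply mem_closedComm_of
  intro A _ _ a b
  have h1 := E_abelian _ hw A (fpow a ((Φ.lam⁻¹ : ZHatˣ) : ZHat))
    (fpow b ((Φ.lam⁻¹ : ZHatˣ) : ZHat))
  rw [Pair.E_F, E_abelian Φ.f Φ.hf A] at h1
  have e : ∀ x : A, fpow (fpow x ((Φ.lam⁻¹ : ZHatˣ) : ZHat)) (Φ.lam : ZHat) = x := by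
    intro x
    rw [← fpow_mul, Units.inv_mul, fpow_one]
  simpa [e] using h1

lemma isUnit_of_bijective (Φ : Pair) (hb : Function.Bijective Φ.F) : IsUnit Φ := by
  obtain ⟨g, hg⟩ := hb.2 Φ.f⁻¹
  have hgm : g ∈ closedComm (FreeGroup (Fin 2)) := by
    apply mem_of_F_mem Φ
    rw [hg]
    exact inv_mem Φ.hf
  set Ψ : Pair := ⟨Φ.lam⁻¹, g, hgm⟩ with hΨ
  have h1 : Φ * Ψ = 1 := by
    ext1
    · simp [hΨ]
    · rw [Pair.mul_f]
      change Φ.f * Φ.F g = 1
      rw [hg, mul_inv_cancel]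
  have h2 : ∀ w, Φ.F (Ψ.F w) = w := by
    intro w
    rw [← Pair.F_mul, h1, Pair.F_one]
  have h3 : ∀ w, Ψ.F (Φ.F w) = w := by
    intro w
    apply hb.1
    rw [h2]
  have h4 : Ψ * Φ = 1 := by
    ext1
    · simp [hΨ]
    · rw [Pair.mul_f]
      change g * Ψ.F Φ.f = 1
      have : Ψ.F Φ.f = g⁻¹ := by
        have h5 := h3 g
        rw [hg, map_inv] at h5
        rw [← h5, inv_inv]
      rw [this, mul_inv_cancel]
  exact ⟨⟨Φ, Ψ, h1, h4⟩, rfl⟩

lemma ccp_F (w : F2h) : ccp.F w = cj w := by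
  apply ext_E
  intro H _ _ a b
  rw [Pair.E_F, E_cj]
  simp [ccp]

lemma ccp_mul : ccp * ccp = 1 := by
  ext1
  · simp [ccp]
  · rw [Pair.mul_f, ccp_F]
    change (1 : F2h) * cj 1 = 1
    simp [cj]

lemma ccp_mem : ccp ∈ GT := by
  refine ⟨?_, ⟨-1, ?_, ?_⟩, ?_, ?_⟩
  · change subst X Y 1 * subst Y X 1 = 1
    simp
  · change (2 : ZHat) * (-1) + 1 = ((-1 : ZHatˣ) : ZHat)
    rw [Units.val_neg, Units.val_one]
    ring
  · change subst (X * Y)⁻¹ X 1 * cpow (X * Y)⁻¹ (-1) * subst Y (X * Y)⁻¹ 1 * cpow Y (-1) *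
      subst X Y 1 * cpow X (-1) = 1
    apply ext_E
    intro H _ _ a b
    simp [mul_assoc]
  · change subst (gen5 0) (gen5 1) 1 * subst (gen5 2) (gen5 3) 1 * subst (gen5 4) (gen5 0) 1 *
      subst (gen5 1) (gen5 2) 1 * subst (gen5 3) (gen5 4) 1 = 1
    simp
  · have h : ∀ w, ccp.F (ccp.F w) = w := by
      intro w
      rw [← Pair.F_mul, ccp_mul, Pair.F_one]
    exact ⟨fun a b hab => by rw [← h a, ← h b, hab], fun b => ⟨ccp.F b, h b⟩⟩

end UNIT

open UNIT in
theorem thm_UNIT : Stmt_UNIT := by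
  refine ⟨fun Φ hΦ => isUnit_of_bijective Φ hΦ.2.2.2, ccp_mem, ccp_mul, ?_, ?_⟩
  · intro Φ hl
    refine ⟨?_, ?_⟩
    · simp [ccp, hl]
    · apply ext_E
      intro H _ _ a b
      rw [Pair.mul_f, Pair.mul_f]
      change E (1 * ccp.F Φ.f * (ccp * Φ).F 1) a b = _
      rw [map_one, ccp_F]
      simp
  · intro Φ hl
    ext1 w
    apply ext_E
    intro H _ _ a b
    rw [Pair.E_F, E_F1, hl]
    simp

end Pool.Agent.GTD
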