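import Pool.Agent.GTD.FIN
import Pool.Agent.GTD.GT1
import Pool.Agent.GTD.CONJ
import Pool.Agent.GTD.API
import Pool.Agent.GTD.AFF
import Pool.Agent.GTD.ANN
import Pool.Agent.GTD.PREL
import Pool.Agent.GTD.CANC
import Pool.Agent.GTD.GRP
import Pool.Agent.GTD.GREL
import Pool.Agent.GTD.PENT
import Pool.Agent.GTD.BBC
import Pool.Agent.GTD.RS
import Pool.Agent.GTD.GASS
import Pool.Agent.GTD.SPLIT
import Pool.Agent.GTD.INTG
import Pool.Agent.GTD.DETC
import Pool.Agent.GTD.DEF1
import Pool.Agent.GTD.DEFO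
import Pool.Agent.GTD.META
import Pool.Agent.GTD.UNIT

set_option autoImplicit false

namespace Pool.Agent.GTD

theorem all_AFF : Stmt_AFF := thm_AFF thm_API
theorem all_PREL : Stmt_PREL := thm_PREL all_AFF thm_ANN
theorem all_CANC : Stmt_CANC := thm_CANC thm_ANN
theorem all_PENT : Stmt_PENT := thm_PENT thm_API all_AFF thm_GRP thm_GREL
theorem all_BBC : Stmt_BBC := thm_BBC thm_API all_AFF all_PREL all_CANC all_PENT
theorem all_RS : Stmt_RS := thm_RS all_AFF all_PREL thm_CONJ all_BBC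
theorem all_GASS : Stmt_GASS := thm_GASS thm_CONJ all_PREL all_PENT all_RS
theorem all_INTG : Stmt_INTG := thm_INTG thm_API
theorem all_DEF1 : Stmt_DEF1 := thm_DEF1 thm_API thm_SPLIT all_INTG thm_DETC
theorem all_DEFO : Stmt_DEFO := thm_DEFO thm_ANN all_DEF1
theorem all_META : Stmt_META := thm_META all_AFF all_CANC
theorem all_final : Stmt_final :=
  thm_FIN thm_GT1 thm_CONJ all_GASS all_DEFO all_META thm_UNIT

end Pool.Agent.GTD
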