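import Pool.Agent.GTD.Stmts2

set_option autoImplicit false

namespace Pool.Agent.GTD

namespace RIG

/-- Values at conjugated arguments. -/
lemma E_conj {H : Type} [Group H] [Finite H] (f : F2h) (a b h : H) :
    E f (h * a * h⁻¹) (h * b * h⁻¹) = h * E f a b * h⁻¹ := by
  have := map_E (MulAut.conj h).toMonoidHom f a b
  simpa using this.symm

/-- `u · G⁻¹ v G` is conjugate to `u v`. -/
lemma conj_prod (f : F2h) (hf : IsGT1 f) (H : Type) [Group H] [Finite H] (x y : H) :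
    IsConj (x * y) (x * ((E f x y)⁻¹ * y * E f x y)) := by
  -- `x' = (y x)⁻¹`, `x * x' * y = 1`
  set x' : H := (y * x)⁻¹ with hx'
  have e1 : (x' * x)⁻¹ = x⁻¹ * y * x := by rw [hx']; group
  have e2 : x⁻¹ * y * x = x' * y * x'⁻¹ := by rw [hx']; group
  have e3 : (x * x')⁻¹ = y := by rw [hx']; group
  have h1 := hf.II H x' x
  rw [e1] at h1
  have h2 : E f x (x⁻¹ * y * x) = x⁻¹ * E f x y * x := by
    have := E_conj f x y x⁻¹
    simpa using this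
  have h3 : E f (x⁻¹ * y * x) x' = x' * E f y x' * x'⁻¹ := by
    have := E_conj f y x' x'
    rw [e2]
    simpa using this
  rw [h2, h3] at h1
  have h4 := hf.II H x x'
  rw [e3] at h4
  have h5 : E f y x = (E f x y)⁻¹ := eq_inv_of_mul_eq_one_left (hf.I H y x)
  have h6 : E f y x' = (E f x' y)⁻¹ := eq_inv_of_mul_eq_one_left (hf.I H y x')
  have h7 : E f x x' = (E f x' x)⁻¹ := eq_inv_of_mul_eq_one_left (hf.I H x x')
  rw [h5, h7] at h4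
  rw [h6] at h1
  set p := E f x y with hp
  set q := E f x' y with hq
  set r := E f x' x with hr
  -- h4 : p⁻¹ * q * r⁻¹ = 1, h1 : x' * q⁻¹ * x'⁻¹ * (x⁻¹ * p * x) * r = 1
  have h8 : r = p⁻¹ * q := (mul_inv_eq_one.1 h4).symm
  rw [h8] at h1
  rw [isConj_iff]
  refine ⟨x * p⁻¹ * q * x⁻¹, ?_⟩
  have e4 : x' = x⁻¹ * y⁻¹ := by rw [hx']; group
  rw [e4] at h1
  have h9 : y * p * x * p⁻¹ * q = q * y * x := by
    have h10 : x⁻¹ * y⁻¹ * q⁻¹ * (x⁻¹ * y⁻¹)⁻¹ * (x⁻¹ * p * x) * (p⁻¹ * q) =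
        x⁻¹ * y⁻¹ * q⁻¹ * (y * p * x * p⁻¹ * q) := by group
    rw [h10] at h1
    have h11 := eq_inv_of_mul_eq_one_right h1
    rw [h11]
    group
  have h12 : x * (p⁻¹ * y * p) * (x * p⁻¹ * q) = x * p⁻¹ * (y * p * x * p⁻¹ * q) := by group
  have h13 : x * (p⁻¹ * y * p) * (x * p⁻¹ * q) = x * p⁻¹ * q * (y * x) := by
    rw [h12, h9]; group
  have h14 : x * (p⁻¹ * y * p) = x * p⁻¹ * q * (y * x) * (x * p⁻¹ * q)⁻¹ :=
    eq_mul_inv_of_mul_eq h13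
  rw [h14]
  group

end RIG

open RIG in
theorem thm_RIG : Stmt_RIG := by
  intro f hf H _ _ u v hr
  have h1 : ∃ A : H, A * u = u * A ∧ (E f u v)⁻¹ * v * E f u v = A * v * A⁻¹ := by
    obtain ⟨g, hg1, hg2⟩ := hr u ((E f u v)⁻¹ * v * E f u v) (IsConj.refl u)
      (isConj_iff.2 ⟨(E f u v)⁻¹, by group⟩) (conj_prod f hf H u v)
    exact ⟨g, (eq_mul_inv_iff_mul_eq.1 hg1).symm, hg2⟩
  refine ⟨h1, ?_⟩
  rintro ⟨-, ι, hu, hv, hι⟩
  obtain ⟨A, hA1, hA2⟩ := h1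
  set G : H := E f u v with hG
  have hιA : ι A = A⁻¹ := hι A hA1
  have hGc : E (cj f) u v = ι G := by
    rw [E_cj, hG, map_E, hu, hv]
  have hvi : ι v⁻¹ = v := by rw [map_inv, hv, inv_inv]
  have hc : (ι G)⁻¹ * v * ι G = A⁻¹ * v * A := by
    have e1 : (ι G)⁻¹ * v * ι G = ι (G⁻¹ * v * G)⁻¹ := by
      have : (G⁻¹ * v * G)⁻¹ = G⁻¹ * v⁻¹ * G := by group
      rw [this, map_mul, map_mul, map_inv, hvi]
    rw [e1, hA2]
    have : (A * v * A⁻¹)⁻¹ = A * v⁻¹ * A⁻¹ := by group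
    rw [this, map_mul, map_mul, hvi, map_inv, hιA, inv_inv]
  have hA' : A⁻¹ * u * A = u := by
    rw [mul_assoc, ← hA1, inv_mul_cancel_left]
  have hκ : E (cj f * F1 (cj f) f) u v = ι G * (A⁻¹ * G * A) := by
    rw [E_mul, E_F1, hGc, hc]
    congr 1
    have := E_conj f u v A⁻¹
    rw [inv_inv, hA'] at this
    exact this
  rw [hκ]
  have e2 : (ι G * (A⁻¹ * G * A))⁻¹ * v * (ι G * (A⁻¹ * G * A)) =
      A⁻¹ * G⁻¹ * A * ((ι G)⁻¹ * v * ι G) * (A⁻¹ * G * A) := by group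
  rw [e2, hc]
  have e3 : A⁻¹ * G⁻¹ * A * (A⁻¹ * v * A) * (A⁻¹ * G * A) = A⁻¹ * (G⁻¹ * v * G) * A := by group
  rw [e3, hA2]
  group

end Pool.Agent.GTD
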