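import Pool.Agent.GTD.Stmts2

set_option autoImplicit false

/-!
# Project GTD (MP_6a6203_al), third part: representations with `y` a reflection, over rings
-/

namespace Pool.Agent.GTD

open Matrix

/-- The matrix with columns `r, u r, …, u^(n-1) r`. -/
def kcol {R : Type} [CommRing R] {n : ℕ} (u : Matrix (Fin n) (Fin n) R) (r : Fin n → R) :
    Matrix (Fin n) (Fin n) R := Matrix.of fun i j => ((u ^ (j : ℕ)) *ᵥ r) i

/-- The matrix with rows `φ, φ u, …, φ u^(n-1)`. -/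
def krow {R : Type} [CommRing R] {n : ℕ} (u : Matrix (Fin n) (Fin n) R) (φ : Fin n → R) :
    Matrix (Fin n) (Fin n) R := Matrix.of fun i j => (φ ᵥ* (u ^ (i : ℕ))) j

/-- MODULE MOM.  Moments.  PROOF.  Over `R⟦T⟧` the matrix `1 - T u` has the inverse
`W = ∑ u^k T^k` (entries `PowerSeries.mk fun k => (u^k) i j`).  With `Matrix.det_one_add_mul_comm`
(or `det_one_sub_mul_comm`) `det (1 - T (u + s φ)) = det (1 - T u) · (1 - T φ W s)`, and `φ W s` has the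
coefficients `φ ⬝ᵥ (u^k *ᵥ s)`.  `det (1 - T u)` is a unit (constant coefficient `1`), and
`det (1 - T (u + s φ)) = det (1 - T (u + s' φ'))` since the two matrices are conjugate by `D`. -/
def Stmt_MOM : Prop :=
  ∀ (R : Type) [CommRing R] (n : ℕ) (u D D' : Matrix (Fin n) (Fin n) R) (s φ s' φ' : Fin n → R),
    D * D' = 1 → D * (u + vecMulVec s φ) * D' = u + vecMulVec s' φ' →
    ∀ k : ℕ, φ ⬝ᵥ ((u ^ k) *ᵥ s) = φ' ⬝ᵥ ((u ^ k) *ᵥ s')

/-- MODULE INTM (needs API).  Intertwining matrices.  PROOF.  API (4) for the finite set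
`Fin n → R`, the permutations `mulVec` of `u, v, u', v'` and `L = A.mulVec`; the value of `f` at the
permutations is the permutation of the value (`map_E` for `GL (Fin n) R → Equiv.Perm (Fin n → R)`). -/
def Stmt_INTM : Prop :=
  ∀ (f : F2h) (R : Type) [CommRing R] [Finite R] (n : ℕ) (u v u' v' : GL (Fin n) R)
    (A : Matrix (Fin n) (Fin n) R), A * u.1 = u'.1 * A → A * v.1 = v'.1 * A →
    A * (E f u v).1 = (E f u' v').1 * A

/-- Proved in `RIG.lean` as `RIG.conj_prod`. -/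
def Stmt_CZ : Prop :=
  ∀ f : F2h, IsGT1 f → ∀ (H : Type) [Group H] [Finite H] (u v : H),
    IsConj (u * v) (u * ((E f u v)⁻¹ * v * E f u v))

/-- MODULE RCORE (needs MOM, INTM, CZ).  PROOF.  Write `G = f(u,v)`, `r' = G⁻¹ r`, `φ' = φ G`,
`v' = G⁻¹ v G = 1 + r' φ'`, `K = kcol u r`, `C = krow u φ`, `K' = kcol u r'`, `C' = krow u φ'`,
`d = det K`, `e = det C`, `d' = det K'`, `e' = det C'`.
(1) `φ u^m r = φ' u^m r'` for all `m`: `m = 0` is clear; `uv = u + (ur) φ`, `uv' = u + (ur') φ'` are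
conjugate (CZ), so MOM.  Hence `C K = C' K'` and `e d = e' d'`.
(2) Let `α = adj(K) r'`, `p(u) = ∑ α_j u^j`; `p(u) r = K α = d r'`, so `p(u) K = d K'`;
`φ' p(u) u^j r = d φ' u^j r' = d φ u^j r` for all `j`, so `(φ' p(u) - d φ) K = 0`, so
`d (φ' p(u) - d φ) = 0`.  `A := d p(u)`: `A u = u A`, `A r = d² r'`, `φ' A = d² φ`, so `A v = v' A`.
`A K = d² K'`, so `det A · d = d^(2n) d'`.
(3) `B₀ := K adj(Cᵀ)`, `B₀ Cᵀ = e K`; `B₀ φᵀ = e r`, `φ B₀ = e rᵀ` (as `φ K = rᵀ Cᵀ`), so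
`B₀ vᵀ = v B₀`.  By Cayley-Hamilton `u K = K N`, `uᵀ Cᵀ = Cᵀ N` with the same companion matrix `N`, so
`(u B₀ - B₀ uᵀ) Cᵀ = 0`, `e (u B₀ - B₀ uᵀ) = 0`.  `B := e B₀`: `B uᵀ = u B`, `B vᵀ = v B`,
`B Cᵀ = e² K`, `det B · e = e^(2n) d`.
(4) INTM: `B f(uᵀ,vᵀ) = G B`, and `f(uᵀ,vᵀ) = (Gcᵀ)⁻¹` for `Gc = f(u⁻¹,v⁻¹) = (cj f)(u,v)` (`map_E` for
the automorphism `M ↦ (Mᵀ)⁻¹`).  Transpose: `Gc⁻¹ Bᵀ = Bᵀ Gᵀ`.  Put `v'' = Gc⁻¹ v Gc`:
`v'' Bᵀ Gᵀ = Gc⁻¹ v Bᵀ = Gc⁻¹ Bᵀ vᵀ = Bᵀ Gᵀ vᵀ`, so `v'' Bᵀ = Bᵀ v'ᵀ`.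
(5) `A v'' Bᵀ = A Bᵀ v'ᵀ = Bᵀ Aᵀ v'ᵀ = Bᵀ vᵀ Aᵀ = v Bᵀ Aᵀ = v A Bᵀ` (`Bᵀ Aᵀ = A Bᵀ` as `A` is a
polynomial in `u` and `Bᵀ uᵀ = u Bᵀ`), so `det B (A v'' - v A) = 0`.  `A₁ := det B · A`:
`A₁ u = u A₁`, `A₁ v'' = v A₁`, `A₁ v = v' A₁`.
(6) INTM: `A₁ f(u,v'') = G A₁`.  `κ = Gc f(u,v'')`, `v Gc = Gc v''`.  `A₁ v'' F = v A₁ F = v G A₁
= G v' A₁ = G A₁ v = A₁ F v` for `F = f(u,v'')`, so `det A₁ (v'' F - F v) = 0`, so
`det A₁ (v κ - κ v) = 0`.
(7) `det A₁ = (det B)^n det A`; multiply by `e^n d e'`: `(e^(2n) d)^n d^(2n) (d e)` kills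
`v κ - κ v`; so `(d e)^M` does for `M = 2n² + 3n + 1`. -/
def Stmt_RCORE : Prop :=
  ∀ n : ℕ, ∃ M : ℕ, ∀ f : F2h, IsGT1 f → ∀ (R : Type) [CommRing R] [Finite R]
    (u v : GL (Fin n) R) (r φ : Fin n → R), v.1 = 1 + vecMulVec r φ →
    ((kcol u.1 r).det * (krow u.1 φ).det) ^ M •
      (v.1 * (E (cj f * F1 (cj f) f) u v).1 - (E (cj f * F1 (cj f) f) u v).1 * v.1) = 0

/-- MODULE LEAD.  Generic deformation.  PROOF.  Take `S = ∑ E_{j,j+1}` (`S i j = 1` if `j = i+1`),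
`φ₀ = e_0`, `r₀ = e_{n-1}`.  Row `i` of `krow (u + X S) (φ + X φ₀)` has entries of degree `≤ i+1` with
`X^(i+1)`-coefficient `e_0 S^i = e_i`; so the coefficient of `X^(∑ (i+1))` of the determinant is
`det 1 = 1` and the degree is at most `∑ (i+1)`.  Column `j` of `kcol (u + X S) (r + X r₀)` has degree
`≤ j+1` and `X^(j+1)`-coefficient `S^j e_{n-1} = e_{n-1-j}`, so the coefficient of the determinant is
the determinant of the reversal permutation, `± 1`.  (`Matrix.det_apply`, coefficients of products of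
polynomials of bounded degree.) -/
def Stmt_LEAD : Prop :=
  ∀ (O : Type) [CommRing O] (n : ℕ) (u : Matrix (Fin n) (Fin n) O) (r φ : Fin n → O),
    ∃ (S : Matrix (Fin n) (Fin n) O) (r₀ φ₀ : Fin n → O),
      IsUnit (((kcol (u.map Polynomial.C + (Polynomial.X : Polynomial O) • S.map Polynomial.C)
          (fun i => Polynomial.C (r i) + Polynomial.X * Polynomial.C (r₀ i))).det *
        (krow (u.map Polynomial.C + (Polynomial.X : Polynomial O) • S.map Polynomial.C)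
          (fun i => Polynomial.C (φ i) + Polynomial.X * Polynomial.C (φ₀ i))).det).leadingCoeff)

/-- MODULE RDEF (needs ANN, RCORE, LEAD).  PROOF.  Let `δ(X)` be the polynomial of LEAD and apply
ANN to `p = δ^M` (`M` from RCORE; its leading coefficient is a unit), getting `O'`, `i`, `π`, `ε`.  Over
`O'` put `u' = i(u) + ε i(S)`, `r' = i(r) + ε i(r₀)`, `φ' = i(φ) + ε i(φ₀)`, `v' = 1 + r' φ'`; `π` maps
them to `u`, `r`, `φ`, `v`, so `u'`, `v'` are invertible (their determinants are units mod the kernel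
of `π`).  `δ(ε) = det (kcol u' r') det (krow u' φ')`.  RCORE and ANN: every entry of
`v' κ' - κ' v'` is mapped to `0` by `π`, and `π` maps it to the entry of `v κ - κ v` (`map_E`). -/
def Stmt_RDEF : Prop :=
  ∀ f : F2h, IsGT1 f → ∀ (O : Type) [CommRing O] [Finite O] (n : ℕ)
    (u v : GL (Fin n) O) (r φ : Fin n → O), v.1 = 1 + vecMulVec r φ →
    (E (cj f * F1 (cj f) f) u v)⁻¹ * v * E (cj f * F1 (cj f) f) u v = v

end Pool.Agent.GTD
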