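import Pool.Agent.GTD.FIN2
import Pool.Agent.GTD.RIG
import Pool.Agent.GTD.Stmts3

set_option autoImplicit false

namespace Pool.Agent.GTD

open Matrix

/-- The main theorem. -/
def Stmt_main : Prop :=
  ∀ Φ : Pair, Φ ∈ GT → Φ.lam = 1 →
    ∃ U c k : Pairˣ, (U : Pair) = Φ ∧ (c : Pair) ∈ GT ∧ (c : Pair).lam = -1 ∧
      (c : Pair).f = 1 ∧ k ∈ genGT ∧ (k : Pair).lam = 1 ∧
      U ^ 2 = (U * c * U⁻¹ * c⁻¹) * k ∧
      (∀ (O : Type) [CommRing O] [Finite O] (u v : GL (Fin 2) O), TrivAt (k : Pair) u v) ∧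
      (∀ (O : Type) [CommRing O] [Finite O] (n : ℕ) (u v : GL (Fin n) O) (s : Oˣ)
        (r φ : Fin n → O), v.1 = (s : O) • (1 + Matrix.vecMulVec r φ) ∨
          u.1 * v.1 = (s : O) • (1 + Matrix.vecMulVec r φ) →
        TrivAt (k : Pair) u v) ∧
      (∀ (H : Type) [Group H] [Finite H] (u v : H), InvPair u v →
        GoodAt U (U * c * U⁻¹ * c⁻¹) k u v) ∧
      (∀ (K : Type) [Field K] [Finite K] (n : ℕ) (u v : GL (Fin n) K),
        (RigidPair u v ∧ Nonderog u.1) ∨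
          ((v.1 - 1).rank = 1 ∧ IsCoprime u.1.charpoly (u.1 * v.1).charpoly) →
        GoodAt U (U * c * U⁻¹ * c⁻¹) k u v)

namespace FIN3

/-- The action of `g` on the second component of a pair. -/
noncomputable def T {H : Type} [Group H] [Finite H] (g : F2h) (u v : H) : H :=
  (E g u v)⁻¹ * v * E g u v

/-- `T g` commutes with `v ↦ u⁻¹ v⁻¹`. -/
lemma T_theta (f : F2h) (hf : IsGT1 f) (H : Type) [Group H] [Finite H] (x y : H) :
    T f x (x⁻¹ * y⁻¹) = x⁻¹ * (T f x y)⁻¹ := by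
  set x' : H := x⁻¹ * y⁻¹ with hx'
  have e1 : (x' * x)⁻¹ = x⁻¹ * y * x := by rw [hx']; group
  have e2 : x⁻¹ * y * x = x' * y * x'⁻¹ := by rw [hx']; group
  have e3 : (x * x')⁻¹ = y := by rw [hx']; group
  have h1 := hf.II H x' x
  rw [e1] at h1
  have h2 : E f x (x⁻¹ * y * x) = x⁻¹ * E f x y * x := by
    have := RIG.E_conj f x y x⁻¹
    simpa using this
  have h3 : E f (x⁻¹ * y * x) x' = x' * E f y x' * x'⁻¹ := by
    have := RIG.E_conj f y x' x'
    rw [e2]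
    simpa using this
  rw [h2, h3] at h1
  have h4 := hf.II H x x'
  rw [e3] at h4
  have h5 : E f y x = (E f x y)⁻¹ := eq_inv_of_mul_eq_one_left (hf.I H y x)
  have h6 : E f y x' = (E f x' y)⁻¹ := eq_inv_of_mul_eq_one_left (hf.I H y x')
  have h7 : E f x x' = (E f x' x)⁻¹ := eq_inv_of_mul_eq_one_left (hf.I H x x')
  unfold T
  rw [h7]
  rw [h5, h7] at h4
  rw [h6] at h1
  set p := E f x y with hp
  set q := E f x' y with hq
  set r := E f x' x with hr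
  have h8 : r = p⁻¹ * q := (mul_inv_eq_one.1 h4).symm
  rw [h8] at h1 ⊢
  rw [hx'] at h1
  have h9 : y * p * x * p⁻¹ * q = q * y * x := by
    have h10 : x⁻¹ * y⁻¹ * q⁻¹ * (x⁻¹ * y⁻¹)⁻¹ * (x⁻¹ * p * x) * (p⁻¹ * q) =
        x⁻¹ * y⁻¹ * q⁻¹ * (y * p * x * p⁻¹ * q) := by group
    rw [h10] at h1
    have h11 := eq_inv_of_mul_eq_one_right h1
    rw [h11]
    group
  have h12 : q * (y * x) * q⁻¹ = y * p * x * p⁻¹ := by
    rw [← mul_assoc, ← h9]
    group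
  have h13 : q * x' * q⁻¹ = (q * (y * x) * q⁻¹)⁻¹ := by rw [hx']; group
  have h14 : (p⁻¹ * q)⁻¹⁻¹ * x' * (p⁻¹ * q)⁻¹ = p⁻¹ * (q * x' * q⁻¹) * p := by group
  rw [h14, h13, h12]
  group

lemma T_comp (f g : F2h) (H : Type) [Group H] [Finite H] (u v : H) :
    (E (g * F1 g f) u v)⁻¹ * v * E (g * F1 g f) u v = T f u (T g u v) := by
  unfold T
  rw [E_mul, E_F1]
  group

end FIN3

open FIN3 in
theorem thm_FIN3 (hA : Stmt_API) (h1 : Stmt_GT1) (h6 : Stmt_UNIT) (hf : Stmt_final)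
    (hC : Stmt_CONJ) (hR : Stmt_RIG) (hL : Stmt_RIGL) (hH : Stmt_HYP) (hD : Stmt_RDEF) :
    Stmt_main := by
  intro Φ hΦ hl
  obtain ⟨hL', hH', hmain⟩ := thm_FIN2 hA h1 h6 hf hR hL hH
  obtain ⟨U, c, k, hU, hc, hcl, hcf, hk, hkl, hUk, ha, hb, hodd⟩ := hmain Φ hΦ hl
  have hgood : ∀ (H : Type) [Group H] [Finite H] (u v : H), InvPair u v →
      GoodAt U (U * c * U⁻¹ * c⁻¹) k u v := by
    intro H _ _ u v hp
    refine ⟨hb H u v hp, ?_⟩
    intro N hN hcen w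
    have := hodd N hN H u v hp hcen w
    rw [hU]
    exact this
  -- the value of `k`
  have hccp : (c : Pair) = ccp := by
    ext1
    · exact hcl
    · exact hcf
  obtain ⟨-, -, hcc, hcf', hF⟩ := h6
  have hci : ((c⁻¹ : Pairˣ) : Pair) = ccp := by
    have e1 : (c : Pair) * ((c⁻¹ : Pairˣ) : Pair) = 1 := c.mul_inv
    rw [hccp] at e1
    calc ((c⁻¹ : Pairˣ) : Pair) = ccp * ccp * ((c⁻¹ : Pairˣ) : Pair) := by rw [hcc, one_mul]
      _ = ccp := by rw [mul_assoc, e1, mul_one]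
  have hkeq : k = c * U * c⁻¹ * U := by
    have e1 : k = (U * c * U⁻¹ * c⁻¹)⁻¹ * U ^ 2 := by rw [hUk]; group
    rw [e1, sq]
    group
  have hkval : (k : Pair) = (ccp * Φ * ccp) * Φ := by
    rw [hkeq]
    simp [hccp, hci, hU]
  have hl1 := (hcf' Φ hl).1
  have hf1 := (hcf' Φ hl).2
  have hkf : (k : Pair).f = cj Φ.f * F1 (cj Φ.f) Φ.f := by
    rw [hkval, Pair.mul_f, hf1, hF _ hl1, hf1]
  have hg := h1 Φ hΦ hl
  have hrefl : ∀ (O : Type) [CommRing O] [Finite O] (n : ℕ) (u v : GL (Fin n) O) (s : Oˣ)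
      (r φ : Fin n → O), v.1 = (s : O) • (1 + Matrix.vecMulVec r φ) →
      (E (cj Φ.f * F1 (cj Φ.f) Φ.f) u v)⁻¹ * v * E (cj Φ.f * F1 (cj Φ.f) Φ.f) u v = v := by
    intro O _ _ n u v s r φ hv
    -- `v = s v₁`, `v₁` a reflection
    have hdet : IsUnit (1 + Matrix.vecMulVec r φ : Matrix (Fin n) (Fin n) O) := by
      have e1 : (1 + Matrix.vecMulVec r φ : Matrix (Fin n) (Fin n) O) =
          ((s⁻¹ : Oˣ) : O) • v.1 := by
        rw [hv, smul_smul, Units.inv_mul, one_smul]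
      rw [e1]
      have e3 : ((s⁻¹ : Oˣ) : O) • v.1 = (((s⁻¹ : Oˣ) : O) • (1 : Matrix (Fin n) (Fin n) O)) * v.1 := by
        rw [smul_mul_assoc, one_mul]
      rw [e3]
      refine IsUnit.mul ⟨⟨((s⁻¹ : Oˣ) : O) • 1, (s : O) • 1, ?_, ?_⟩, rfl⟩ v.isUnit
      · rw [smul_mul_smul_comm, Units.inv_mul, one_smul, one_mul]
      · rw [smul_mul_smul_comm, Units.mul_inv, one_smul, one_mul]
    obtain ⟨v₁, hv₁⟩ := hdet
    set S : GL (Fin n) O := ⟨(s : O) • 1, ((s⁻¹ : Oˣ) : O) • 1, by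
      rw [smul_mul_smul_comm, Units.mul_inv, one_smul, one_mul], by
      rw [smul_mul_smul_comm, Units.inv_mul, one_smul, one_mul]⟩ with hS
    have hvS : v = v₁ * S := by
      apply Units.ext
      rw [Units.val_mul, hv₁, hv]
      change _ = (1 + Matrix.vecMulVec r φ) * ((s : O) • 1)
      rw [mul_smul_comm, mul_one]
    have hSc : ∀ g : GL (Fin n) O, S * g = g * S := by
      intro g
      apply Units.ext
      rw [Units.val_mul, Units.val_mul]
      change ((s : O) • 1) * g.1 = g.1 * ((s : O) • 1)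
      rw [smul_mul_assoc, one_mul, mul_smul_comm, mul_one]
    have hκm : cj Φ.f * F1 (cj Φ.f) Φ.f ∈ closedComm (FreeGroup (Fin 2)) := by
      have := (k : Pair).hf
      rwa [hkf] at this
    have hκ : E (cj Φ.f * F1 (cj Φ.f) Φ.f) u v = E (cj Φ.f * F1 (cj Φ.f) Φ.f) u v₁ := by
      have := hA.2.1 (GL (Fin n) O) _ hκm u v₁ 1 S (by simp) (by simp) (hSc u) (hSc v₁)
        (by simp)
      rw [mul_one, ← hvS] at this
      exact this
    have hcomm := hD Φ.f hg O n u v₁ r φ hv₁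
    rw [hκ]
    rw [hvS]
    have e2 : (E (cj Φ.f * F1 (cj Φ.f) Φ.f) u v₁)⁻¹ * (v₁ * S) *
        E (cj Φ.f * F1 (cj Φ.f) Φ.f) u v₁ =
        ((E (cj Φ.f * F1 (cj Φ.f) Φ.f) u v₁)⁻¹ * v₁ *
        E (cj Φ.f * F1 (cj Φ.f) Φ.f) u v₁) * S := by
      rw [mul_assoc, mul_assoc, mul_assoc, hSc, ← mul_assoc, ← mul_assoc]
    rw [e2, hcomm]
  have htriv : ∀ (H : Type) [Group H] [Finite H] (u v : H),
      (E (cj Φ.f * F1 (cj Φ.f) Φ.f) u v)⁻¹ * v * E (cj Φ.f * F1 (cj Φ.f) Φ.f) u v = v →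
      TrivAt (k : Pair) u v := by
    intro H _ _ u v h w
    rw [Pair.E_F, hkl, Units.val_one, fpow_one, fpow_one, hkf, h]
  refine ⟨U, c, k, hU, hc, hcl, hcf, hk, hkl, hUk, ha, ?_, hgood, ?_⟩
  · rintro O _ _ n u v s r φ (hv | hv)
    · exact htriv _ u v (hrefl O n u v s r φ hv)
    · apply htriv
      -- replace `v` by `u⁻¹ v⁻¹`
      have key : T Φ.f u (T (cj Φ.f) u (u⁻¹ * v⁻¹)) = u⁻¹ * v⁻¹ := by
        rw [← T_comp]
        have hM : IsUnit (1 + Matrix.vecMulVec r φ : Matrix (Fin n) (Fin n) O) := by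
          have e1 : (1 + Matrix.vecMulVec r φ : Matrix (Fin n) (Fin n) O) =
              (((s⁻¹ : Oˣ) : O) • (1 : Matrix (Fin n) (Fin n) O)) * (u * v).1 := by
            rw [Units.val_mul, hv, smul_mul_assoc, one_mul, smul_smul, Units.inv_mul, one_smul]
          rw [e1]
          refine IsUnit.mul ⟨⟨((s⁻¹ : Oˣ) : O) • 1, (s : O) • 1, ?_, ?_⟩, rfl⟩ (u * v).isUnit
          · rw [smul_mul_smul_comm, Units.inv_mul, one_smul, one_mul]
          · rw [smul_mul_smul_comm, Units.mul_inv, one_smul, one_mul]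
        obtain ⟨M, hMv⟩ := hM
        have hMi : (M⁻¹).1 = 1 - Matrix.vecMulVec ((M⁻¹).1 *ᵥ r) φ := by
          have e2 : (M⁻¹).1 * M.1 = 1 := by
            rw [← Units.val_mul, inv_mul_cancel, Units.val_one]
          rw [hMv, mul_add, mul_one, Matrix.mul_vecMulVec] at e2
          exact eq_sub_of_add_eq e2
        have huv : (u * v)⁻¹.1 = ((s⁻¹ : Oˣ) : O) • (M⁻¹).1 := by
          have e3 : (u * v).1 * (((s⁻¹ : Oˣ) : O) • (M⁻¹).1) = 1 := by
            rw [Units.val_mul, hv, ← hMv, smul_mul_smul_comm, Units.mul_inv, one_smul,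
              ← Units.val_mul, mul_inv_cancel, Units.val_one]
          exact Units.inv_eq_of_mul_eq_one_right e3
        refine hrefl O n u (u⁻¹ * v⁻¹) s⁻¹ (-(u⁻¹.1 *ᵥ ((M⁻¹).1 *ᵥ r))) (φ ᵥ* u.1) ?_
        have e4 : u⁻¹ * v⁻¹ = u⁻¹ * (u * v)⁻¹ * u := by group
        rw [e4, Units.val_mul, Units.val_mul, huv]
        conv_lhs => rw [hMi]
        have e5 : (u⁻¹).1 * u.1 = 1 := by
          rw [← Units.val_mul, inv_mul_cancel, Units.val_one]
        rw [mul_smul_comm, smul_mul_assoc, mul_sub, mul_one, sub_mul, e5,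
          Matrix.mul_vecMulVec, Matrix.vecMulVec_mul, Matrix.neg_vecMulVec, ← sub_eq_add_neg]
      have hgc := hC.2 _ hg
      rw [T_theta _ hgc, T_theta _ hg] at key
      have e6 := mul_left_cancel key
      rw [T_comp]
      exact inv_injective e6
  · rintro K _ _ n u v (⟨h2, h3⟩ | ⟨h2, h3⟩)
    · exact hgood _ u v (hL' K n u v h2 h3)
    · exact hgood _ u v (hH' K n u v h2 h3)

end Pool.Agent.GTD
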