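import Pool.Agent.GTD.Stmts2

set_option autoImplicit false

/-!
# Project GTD, module HYP: hypergeometric pairs (Levelt)
-/

namespace Pool.Agent.GTD

open Matrix

namespace HYP

open Polynomial Module

section lin

variable {K V : Type} [Field K] [AddCommGroup V] [Module K V]

theorem exists_e [FiniteDimensional K V] {n : ℕ} (hn : finrank K V = n + 1) (f h : End K V)
    (hr : finrank K (LinearMap.range (h - f)) = 1) :
    ∃ e : V, e ≠ 0 ∧ ∀ j < n, (h - f) ((f ^ j) e) = 0 := by
  let L : V →ₗ[K] (Fin n → LinearMap.range (h - f)) :=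
    LinearMap.pi (fun j => (h - f).rangeRestrict ∘ₗ (f ^ j.1))
  have h1 : finrank K (Fin n → LinearMap.range (h - f)) < finrank K V := by
    rw [Module.finrank_pi_fintype]
    simp only [hr, hn]
    simp
  have h2 : LinearMap.ker L ≠ ⊥ := LinearMap.ker_ne_bot_of_finrank_lt h1
  obtain ⟨e, he, he0⟩ := Submodule.exists_mem_ne_zero_of_ne_bot h2
  refine ⟨e, he0, fun j hj => ?_⟩
  have h3 := congrFun (LinearMap.mem_ker.1 he) ⟨j, hj⟩
  exact congrArg Subtype.val h3

theorem pow_eq {n : ℕ} {f h : End K V} {e : V} (he : ∀ j < n, (h - f) ((f ^ j) e) = 0) :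
    ∀ j ≤ n, (h ^ j) e = (f ^ j) e := by
  intro j
  induction j with
  | zero => intro _; rfl
  | succ j ih =>
    intro hj
    have h1 := ih (by omega)
    have h2 := he j (by omega)
    rw [LinearMap.sub_apply, sub_eq_zero] at h2
    rw [pow_succ', pow_succ', Module.End.mul_apply, Module.End.mul_apply, h1, h2]

theorem aeval_eq {n : ℕ} {f h : End K V} {e : V} (he : ∀ j ≤ n, (h ^ j) e = (f ^ j) e)
    (p : K[X]) (hp : p.natDegree ≤ n) : (aeval h p) e = (aeval f p) e := by
  rw [aeval_eq_sum_range, aeval_eq_sum_range, LinearMap.sum_apply, LinearMap.sum_apply]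
  refine Finset.sum_congr rfl fun i hi => ?_
  rw [Finset.mem_range] at hi
  rw [LinearMap.smul_apply, LinearMap.smul_apply, he i (by omega)]

theorem mul_e (f : End K V) (p q : K[X]) (e : V) :
    (aeval f (p * q)) e = (aeval f p) ((aeval f q) e) := by
  rw [map_mul, Module.End.mul_apply]

/-- a polynomial of degree at most `n` which kills `e`, from a linear relation -/
theorem exists_poly {n : ℕ} {f : End K V} {e : V}
    (hli : ¬ LinearIndependent K (fun j : Fin (n + 1) => (f ^ j.1) e)) :
    ∃ p : K[X], p ≠ 0 ∧ p.natDegree ≤ n ∧ (aeval f p) e = 0 := by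
  rw [Fintype.not_linearIndependent_iff] at hli
  obtain ⟨g, hg, i, hi⟩ := hli
  refine ⟨∑ j : Fin (n + 1), Polynomial.C (g j) * Polynomial.X ^ j.1, ?_, ?_, ?_⟩
  · intro h0
    apply hi
    have h1 := congrArg (fun p : K[X] => p.coeff i.1) h0
    simp only [finsetSum_coeff, coeff_C_mul, coeff_X_pow, coeff_zero] at h1
    rw [Finset.sum_eq_single i] at h1
    · simpa using h1
    · intro b _ hb
      have hb' : i.1 ≠ b.1 := fun h => hb (Fin.ext h.symm)
      rw [if_neg hb', mul_zero]
    · intro h
      exact absurd (Finset.mem_univ i) h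
  · refine natDegree_sum_le_of_forall_le _ _ fun j _ => ?_
    refine (natDegree_C_mul_X_pow_le _ _).trans ?_
    have := j.2
    omega
  · rw [map_sum, LinearMap.sum_apply, ← hg]
    refine Finset.sum_congr rfl fun j _ => ?_
    rw [map_mul, aeval_C, map_pow, aeval_X]
    rw [Module.End.mul_apply, Module.algebraMap_end_apply]

theorem linInd [FiniteDimensional K V] {n : ℕ} {f h : End K V} {e : V} (he0 : e ≠ 0)
    (he : ∀ j ≤ n, (h ^ j) e = (f ^ j) e) (hcop : IsCoprime f.charpoly h.charpoly) :
    LinearIndependent K (fun j : Fin (n + 1) => (f ^ j.1) e) := by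
  by_contra hli
  classical
  have hex : ∃ m : ℕ, ∃ p : K[X], p ≠ 0 ∧ p.natDegree = m ∧ m ≤ n ∧ (aeval f p) e = 0 := by
    obtain ⟨p, h1, h2, h3⟩ := exists_poly hli
    exact ⟨p.natDegree, p, h1, rfl, h2, h3⟩
  obtain ⟨p, hp0, hpm, hmn, hpe⟩ := Nat.find_spec hex
  have hmin : ∀ r : K[X], r.degree < p.degree → (aeval f r) e = 0 → r = 0 := by
    intro r hr hre
    by_contra hr0
    have h1 : r.natDegree < p.natDegree := natDegree_lt_natDegree hr0 hr
    rw [hpm] at h1
    exact Nat.find_min hex h1 ⟨r, hr0, rfl, by omega, hre⟩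
  have hpe' : (aeval h p) e = 0 := by
    rw [aeval_eq he p (by omega)]
    exact hpe
  have hdiv : ∀ q : K[X], ((aeval f q) e = 0 ∨ (aeval h q) e = 0) → p ∣ q := by
    intro q hq
    have h1 : q % p + p * (q / p) = q := EuclideanDomain.mod_add_div q p
    have h2 : (q % p).degree < p.degree := EuclideanDomain.mod_lt q hp0
    have h3 : (q % p).natDegree ≤ n := by
      have := natDegree_le_natDegree h2.le
      omega
    have h4 : (aeval f (q % p)) e = 0 := by
      rcases hq with hq | hq
      · rw [← h1, map_add, LinearMap.add_apply, mul_comm p, mul_e, hpe, map_zero, add_zero] at hq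
        exact hq
      · rw [← h1, map_add, LinearMap.add_apply, mul_comm p, mul_e, hpe', map_zero, add_zero] at hq
        rw [← aeval_eq he _ h3]
        exact hq
    have h5 := hmin _ h2 h4
    rw [h5, zero_add] at h1
    exact ⟨_, h1.symm⟩
  have hu : IsUnit p := by
    refine hcop.isUnit_of_dvd' (hdiv _ (Or.inl ?_)) (hdiv _ (Or.inr ?_))
    · rw [LinearMap.aeval_self_charpoly]
      rfl
    · rw [LinearMap.aeval_self_charpoly]
      rfl
  obtain ⟨q, hq⟩ := hu.exists_left_inv
  apply he0
  have h6 : (aeval f (q * p)) e = 0 := by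
    rw [mul_e, hpe, map_zero]
  rw [hq, map_one, Module.End.one_apply] at h6
  exact h6

/-- the basis `f ^ j e` -/
noncomputable def bas [FiniteDimensional K V] {n : ℕ} (hn : finrank K V = n + 1) {f : End K V}
    {e : V} (hli : LinearIndependent K (fun j : Fin (n + 1) => (f ^ j.1) e)) :
    Basis (Fin (n + 1)) K V :=
  basisOfLinearIndependentOfCardEqFinrank hli (by rw [hn, Fintype.card_fin])

theorem bas_apply [FiniteDimensional K V] {n : ℕ} (hn : finrank K V = n + 1) {f : End K V}
    {e : V} (hli : LinearIndependent K (fun j : Fin (n + 1) => (f ^ j.1) e)) (j : Fin (n + 1)) :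
    bas hn hli j = (f ^ j.1) e := by
  unfold bas
  rw [coe_basisOfLinearIndependentOfCardEqFinrank]

/-- every vector is `p(f) e` -/
theorem exists_aeval [FiniteDimensional K V] {n : ℕ} (hn : finrank K V = n + 1) {f : End K V}
    {e : V} (hli : LinearIndependent K (fun j : Fin (n + 1) => (f ^ j.1) e)) (x : V) :
    ∃ p : K[X], p.natDegree ≤ n ∧ (aeval f p) e = x := by
  refine ⟨∑ j : Fin (n + 1), Polynomial.C ((bas hn hli).repr x j) * Polynomial.X ^ j.1, ?_, ?_⟩
  · refine natDegree_sum_le_of_forall_le _ _ fun j _ => ?_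
    refine (natDegree_C_mul_X_pow_le _ _).trans ?_
    have := j.2
    omega
  · conv_rhs => rw [← (bas hn hli).sum_repr x]
    rw [map_sum, LinearMap.sum_apply]
    refine Finset.sum_congr rfl fun j _ => ?_
    rw [map_mul, aeval_C, map_pow, aeval_X, bas_apply]
    rw [Module.End.mul_apply, Module.algebraMap_end_apply]

/-- the isomorphism of two cyclic data -/
theorem exists_equiv [FiniteDimensional K V] {n : ℕ} (hn : finrank K V = n + 1)
    {f h f' h' : End K V} {e e' : V}
    (hli : LinearIndependent K (fun j : Fin (n + 1) => (f ^ j.1) e))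
    (hli' : LinearIndependent K (fun j : Fin (n + 1) => (f' ^ j.1) e'))
    (he : ∀ j ≤ n, (h ^ j) e = (f ^ j) e) (he' : ∀ j ≤ n, (h' ^ j) e' = (f' ^ j) e')
    (hf : f'.charpoly = f.charpoly) (hh : h'.charpoly = h.charpoly) :
    ∃ g : V ≃ₗ[K] V, (∀ x, g (f x) = f' (g x)) ∧ ∀ x, g (h x) = h' (g x) := by
  let g : V ≃ₗ[K] V := (bas hn hli).equiv (bas hn hli') (Equiv.refl _)
  have hg : ∀ j ≤ n, g ((f ^ j) e) = (f' ^ j) e' := by
    intro j hj
    have h1 := (bas hn hli).equiv_apply ⟨j, by omega⟩ (bas hn hli') (Equiv.refl _)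
    rw [bas_apply, Equiv.refl_apply, bas_apply] at h1
    exact h1
  have hgp : ∀ p : K[X], p.natDegree ≤ n → g ((aeval f p) e) = (aeval f' p) e' := by
    intro p hp
    rw [aeval_eq_sum_range, aeval_eq_sum_range, LinearMap.sum_apply, LinearMap.sum_apply, map_sum]
    refine Finset.sum_congr rfl fun i hi => ?_
    rw [Finset.mem_range] at hi
    rw [LinearMap.smul_apply, LinearMap.smul_apply, map_smul, hg i (by omega)]
  -- reduction modulo the characteristic polynomials
  have hred : ∀ (a : End K V) (p : K[X]) (x : V),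
      (aeval a p) x = (aeval a (p %ₘ a.charpoly)) x := by
    intro a p x
    have h1 := modByMonic_add_div p a.charpoly
    conv_lhs => rw [← h1]
    rw [map_add, map_mul, LinearMap.aeval_self_charpoly, zero_mul, add_zero]
  have hdeg : ∀ (a : End K V) (p : K[X]), (p %ₘ a.charpoly).natDegree ≤ n := by
    intro a p
    have h1 : a.charpoly.natDegree = n + 1 := by rw [LinearMap.charpoly_natDegree, hn]
    have h2 : a.charpoly ≠ 1 := by
      intro h3
      rw [h3, natDegree_one] at h1
      omega
    have h3 := natDegree_modByMonic_lt p a.charpoly_monic h2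
    omega
  have hgp1 : ∀ p : K[X], g ((aeval f p) e) = (aeval f' p) e' := by
    intro p
    rw [hred f p e, hred f' p e', hf]
    exact hgp _ (hdeg f p)
  have hgp2 : ∀ p : K[X], g ((aeval h p) e) = (aeval h' p) e' := by
    intro p
    rw [hred h p e, hred h' p e', hh, aeval_eq he _ (hdeg h p), aeval_eq he' _ (hdeg h p)]
    exact hgp _ (hdeg h p)
  refine ⟨g, fun x => ?_, fun x => ?_⟩
  · obtain ⟨p, _, rfl⟩ := exists_aeval hn hli x
    have h1 := hgp1 (Polynomial.X * p)
    rw [mul_e, mul_e, aeval_X, aeval_X] at h1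
    rw [h1, hgp1]
  · obtain ⟨p, hp, rfl⟩ := exists_aeval hn hli x
    rw [← aeval_eq he p hp]
    have h1 := hgp2 (Polynomial.X * p)
    rw [mul_e, mul_e, aeval_X, aeval_X] at h1
    rw [h1, hgp2]

/-- a linear map which commutes with `f` is a polynomial in `f` -/
theorem commute_eq [FiniteDimensional K V] {n : ℕ} (hn : finrank K V = n + 1) {f M : End K V}
    {e : V} (hli : LinearIndependent K (fun j : Fin (n + 1) => (f ^ j.1) e))
    (hM : M * f = f * M) : ∃ p : K[X], M = aeval f p := by
  obtain ⟨p, _, hp⟩ := exists_aeval hn hli (M e)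
  refine ⟨p, LinearMap.ext fun x => ?_⟩
  obtain ⟨q, _, rfl⟩ := exists_aeval hn hli x
  have h1 : Commute M f := hM
  have h2' : ∀ q : K[X], Commute M (aeval f q) := by
    intro q
    induction q using Polynomial.induction_on' with
    | add a b ha hb => rw [map_add]; exact ha.add_right hb
    | monomial k c =>
      rw [aeval_monomial]
      have h4 : Commute M (algebraMap K (End K V) c) := (Algebra.commutes c M).symm
      exact h4.mul_right (h1.pow_right k)
  have h2 := h2' q
  have h3 : M ((aeval f q) e) = (aeval f q) (M e) := by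
    have h4 := congrArg (fun a : End K V => a e) h2.eq
    exact h4
  rw [h3, ← hp, ← mul_e, ← mul_e, mul_comm]

end lin

/-- a cyclic vector for the pair of matrices -/
theorem exists_cyc {K : Type} [Field K] {n : ℕ} (u v : GL (Fin (n + 1)) K)
    (hv : (v.1 - 1).rank = 1) (hcop : IsCoprime u.1.charpoly (u.1 * v.1).charpoly) :
    ∃ e : Fin (n + 1) → K,
      LinearIndependent K (fun j : Fin (n + 1) => ((Matrix.toLin' u.1) ^ j.1) e) ∧
      ∀ j ≤ n, ((Matrix.toLin' (u.1 * v.1)) ^ j) e = ((Matrix.toLin' u.1) ^ j) e := by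
  have hr : finrank K (LinearMap.range (Matrix.toLin' (u.1 * v.1) - Matrix.toLin' u.1)) = 1 := by
    have h1 : Matrix.toLin' (u.1 * v.1) - Matrix.toLin' u.1 = Matrix.toLin' (u.1 * (v.1 - 1)) := by
      rw [mul_sub, mul_one, map_sub]
    rw [h1]
    have h2 : (u.1 * (v.1 - 1)).rank = 1 := by
      rw [Matrix.rank_mul_eq_right_of_isUnit_det _ _ ((Matrix.isUnit_iff_isUnit_det _).1 u.isUnit)]
      exact hv
    exact h2
  obtain ⟨e, he0, he⟩ := exists_e (n := n) (by simp) _ _ hr
  have he' := pow_eq he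
  refine ⟨e, linInd he0 he' ?_, he'⟩
  rw [Matrix.charpoly_toLin', Matrix.charpoly_toLin']
  exact hcop

end HYP

theorem thm_HYP : Stmt_HYP := by
  intro K _ n u v hv hcop
  obtain ⟨m, rfl⟩ : ∃ m, n = m + 1 := by
    cases n with
    | zero =>
      have h1 := Matrix.rank_le_card_height (v.1 - 1)
      rw [hv, Fintype.card_fin] at h1
      omega
    | succ m => exact ⟨m, rfl⟩
  obtain ⟨e, hli, he⟩ := HYP.exists_cyc u v hv hcop
  refine ⟨?_, ?_⟩
  · intro u' v' hu hv' huv
    have hcu : u'.1.charpoly = u.1.charpoly := by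
      obtain ⟨c, rfl⟩ := isConj_iff.1 hu
      have h1 := Matrix.charpoly_units_conj c u.1
      rw [← Matrix.coe_units_inv] at h1
      exact h1
    have hcw : (u'.1 * v'.1).charpoly = (u.1 * v.1).charpoly := by
      obtain ⟨c, hc⟩ := isConj_iff.1 huv
      have h1 := congrArg (fun a : GL (Fin (m + 1)) K => a.1) hc
      have h2 : c.1 * (u.1 * v.1) * c⁻¹.1 = u'.1 * v'.1 := h1
      rw [← h2]
      have h3 := Matrix.charpoly_units_conj c (u.1 * v.1)
      rw [← Matrix.coe_units_inv] at h3
      exact h3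
    have hrv : (v'.1 - 1).rank = 1 := by
      obtain ⟨c, rfl⟩ := isConj_iff.1 hv'
      have h1 : (c * v * c⁻¹ : GL (Fin (m + 1)) K).1 - 1 = c.1 * (v.1 - 1) * c⁻¹.1 := by
        rw [mul_sub, sub_mul, mul_one, Units.val_mul, Units.val_mul, Units.mul_inv]
      rw [h1, Matrix.rank_mul_eq_left_of_isUnit_det _ _
        ((Matrix.isUnit_iff_isUnit_det _).1 c⁻¹.isUnit),
        Matrix.rank_mul_eq_right_of_isUnit_det _ _ ((Matrix.isUnit_iff_isUnit_det _).1 c.isUnit)]
      exact hv
    obtain ⟨e', hli', he'⟩ := HYP.exists_cyc u' v' hrv (by rw [hcu, hcw]; exact hcop)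
    obtain ⟨g, hg1, hg2⟩ := HYP.exists_equiv (by simp) hli hli' he he'
      (by rw [Matrix.charpoly_toLin', Matrix.charpoly_toLin', hcu])
      (by rw [Matrix.charpoly_toLin', Matrix.charpoly_toLin', hcw])
    let G : GL (Fin (m + 1)) K :=
      ⟨LinearMap.toMatrix' g.toLinearMap, LinearMap.toMatrix' g.symm.toLinearMap,
        by
          rw [← LinearMap.toMatrix'_comp, LinearEquiv.comp_symm, LinearMap.toMatrix'_id],
        by
          rw [← LinearMap.toMatrix'_comp, LinearEquiv.symm_comp, LinearMap.toMatrix'_id]⟩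
    have key : ∀ a a' : GL (Fin (m + 1)) K,
        (∀ x, g (Matrix.toLin' a.1 x) = Matrix.toLin' a'.1 (g x)) → a' = G * a * G⁻¹ := by
      intro a a' h
      rw [eq_mul_inv_iff_mul_eq]
      apply Units.ext
      change a'.1 * LinearMap.toMatrix' g.toLinearMap = LinearMap.toMatrix' g.toLinearMap * a.1
      apply Matrix.toLin'.injective
      rw [Matrix.toLin'_mul, Matrix.toLin'_mul, Matrix.toLin'_toMatrix']
      exact LinearMap.ext fun x => (h x).symm
    have h1 := key u u' hg1
    have h2 := key (u * v) (u' * v') hg2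
    refine ⟨G, h1, ?_⟩
    have h3 : v' = u'⁻¹ * (u' * v') := by group
    rw [h3, h2, h1]
    group
  · intro M hM
    have hM' : (Matrix.toLin' M : Module.End K (Fin (m + 1) → K)) * Matrix.toLin' u.1 =
        Matrix.toLin' u.1 * Matrix.toLin' M := by
      have h1 := congrArg Matrix.toLin' hM
      rw [Matrix.toLin'_mul, Matrix.toLin'_mul] at h1
      exact h1
    obtain ⟨p, hp⟩ := HYP.commute_eq (by simp) hli hM'
    refine ⟨p, ?_⟩
    apply Matrix.toLin'.injective
    rw [hp]
    have h2 := Polynomial.aeval_algHom_apply (Matrix.toLinAlgEquiv' (R := K) (n := Fin (m + 1)))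
      u.1 p
    exact h2

end Pool.Agent.GTD
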