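import Pool.Agent.GTD.Stmts3

set_option autoImplicit false

/-!
# Project GTD, module INTM: intertwining matrices
-/

namespace Pool.Agent.GTD

open Matrix

namespace INTM

variable {O : Type} [CommRing O] {n : ℕ}

/-- the action of the general linear group on vectors -/
def P : GL (Fin n) O →* Equiv.Perm (Fin n → O) where
  toFun g :=
    { toFun := fun x => g.1 *ᵥ x
      invFun := fun x => (g⁻¹).1 *ᵥ x
      left_inv := fun x => by
        change (g⁻¹).1 *ᵥ (g.1 *ᵥ x) = x
        rw [mulVec_mulVec, ← Units.val_mul, inv_mul_cancel, Units.val_one, one_mulVec]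
      right_inv := fun x => by
        change g.1 *ᵥ ((g⁻¹).1 *ᵥ x) = x
        rw [mulVec_mulVec, ← Units.val_mul, mul_inv_cancel, Units.val_one, one_mulVec] }
  map_one' := by
    ext x : 1
    change (1 : GL (Fin n) O).1 *ᵥ x = x
    rw [Units.val_one, one_mulVec]
  map_mul' g h := by
    ext x : 1
    change (g * h).1 *ᵥ x = g.1 *ᵥ (h.1 *ᵥ x)
    rw [mulVec_mulVec, ← Units.val_mul]

lemma P_apply (g : GL (Fin n) O) (x : Fin n → O) : P g x = g.1 *ᵥ x := rfl

lemma ext_mulVec {M N : Matrix (Fin n) (Fin n) O} (h : ∀ w : Fin n → O, M *ᵥ w = N *ᵥ w) :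
    M = N := by
  ext i j
  have h1 := congrFun (h (Pi.single j 1)) i
  rw [mulVec_single_one, mulVec_single_one] at h1
  exact h1

end INTM

open INTM in
theorem thm_INTM (hAPI : Stmt_API) : Stmt_INTM := by
  intro f R _ _ n u v u' v' A hu hv
  have h1 := hAPI.2.2.2 (Fin n → R) (Fin n → R) (fun x => A *ᵥ x) (P u) (P v) (P u') (P v')
    (fun x => by
      change A *ᵥ (P u x) = P u' (A *ᵥ x)
      rw [P_apply, P_apply, mulVec_mulVec, mulVec_mulVec, hu])
    (fun x => by
      change A *ᵥ (P v x) = P v' (A *ᵥ x)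
      rw [P_apply, P_apply, mulVec_mulVec, mulVec_mulVec, hv]) f
  apply ext_mulVec
  intro w
  have h2 : A *ᵥ (E f (P u) (P v) w) = E f (P u') (P v') (A *ᵥ w) := h1 w
  rw [← map_E, ← map_E, P_apply, P_apply] at h2
  rw [← mulVec_mulVec, ← mulVec_mulVec]
  exact h2

end Pool.Agent.GTD
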