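import Pool.Agent.GTD.Stmts3

set_option autoImplicit false

/-!
# Project GTD, module LEAD: generic deformation
-/

namespace Pool.Agent.GTD

open Matrix

namespace LEAD

open Polynomial

variable {O : Type} [CommRing O] {n : ℕ}

lemma prod_bound {ι : Type} (s : Finset ι) (f : ι → O[X]) (d : ι → ℕ)
    (h : ∀ i ∈ s, (f i).natDegree ≤ d i) :
    (∏ i ∈ s, f i).natDegree ≤ ∑ i ∈ s, d i ∧
      (∏ i ∈ s, f i).coeff (∑ i ∈ s, d i) = ∏ i ∈ s, (f i).coeff (d i) := by
  classical
  induction s using Finset.induction_on with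
  | empty => simp
  | insert a s ha ih =>
    obtain ⟨h1, h2⟩ := ih (fun i hi => h i (Finset.mem_insert_of_mem hi))
    have h3 := h a (Finset.mem_insert_self a s)
    rw [Finset.prod_insert ha, Finset.sum_insert ha, Finset.prod_insert ha]
    refine ⟨natDegree_mul_le_of_le h3 h1, ?_⟩
    rw [coeff_mul_add_eq_of_natDegree_le h3 h1, h2]

/-- top coefficient of a determinant with columns of bounded degree -/
lemma det_bound (A : Matrix (Fin n) (Fin n) O[X]) (d : Fin n → ℕ)
    (h : ∀ i j, (A i j).natDegree ≤ d j) :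
    A.det.natDegree ≤ ∑ j, d j ∧
      A.det.coeff (∑ j, d j) = (Matrix.of fun i j => (A i j).coeff (d j)).det := by
  rw [Matrix.det_apply', Matrix.det_apply']
  have key := fun σ : Equiv.Perm (Fin n) => prod_bound Finset.univ (fun i => A (σ i) i) d
    (fun i _ => h (σ i) i)
  have e : ∀ σ : Equiv.Perm (Fin n), ((Equiv.Perm.sign σ : ℤ) : O[X]) =
      C ((Equiv.Perm.sign σ : ℤ) : O) := fun σ => (map_intCast (C : O →+* O[X]) _).symm
  constructor
  · refine natDegree_sum_le_of_forall_le _ _ (fun σ _ => ?_)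
    rw [e σ]
    exact (natDegree_C_mul_le _ _).trans (key σ).1
  · rw [finsetSum_coeff]
    refine Finset.sum_congr rfl (fun σ _ => ?_)
    rw [e σ, coeff_C_mul, (key σ).2]
    rfl

/-- a vector of polynomials of degree at most `d` with the coefficients `c` of index `d` -/
def B (w : Fin n → O[X]) (d : ℕ) (c : Fin n → O) : Prop :=
  ∀ i, (w i).natDegree ≤ d ∧ (w i).coeff d = c i

lemma lin_bound (a b : O) : (C a + Polynomial.X * C b : O[X]).natDegree ≤ 1 ∧
    (C a + Polynomial.X * C b : O[X]).coeff 1 = b := by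
  constructor
  · refine natDegree_add_le_of_degree_le ?_ ?_
    · rw [natDegree_C]
      exact Nat.zero_le _
    · exact (natDegree_mul_C_le _ _).trans natDegree_X_le
  · rw [coeff_add, coeff_C_of_ne_zero one_ne_zero, zero_add, coeff_mul_C, coeff_X_one, one_mul]

lemma step_col (u S : Matrix (Fin n) (Fin n) O) {w : Fin n → O[X]} {d : ℕ} {c : Fin n → O}
    (h : B w d c) :
    B ((u.map C + (Polynomial.X : O[X]) • S.map C) *ᵥ w) (d + 1) (S *ᵥ c) := by
  intro i
  have e : ((u.map C + (Polynomial.X : O[X]) • S.map C) *ᵥ w) i =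
      ∑ j, (C (u i j) + Polynomial.X * C (S i j)) * w j := rfl
  have e' : (S *ᵥ c) i = ∑ j, S i j * c j := rfl
  rw [e, e', add_comm d 1]
  constructor
  · refine natDegree_sum_le_of_forall_le _ _ (fun j _ => ?_)
    exact natDegree_mul_le_of_le (lin_bound _ _).1 (h j).1
  · rw [finsetSum_coeff]
    refine Finset.sum_congr rfl (fun j _ => ?_)
    rw [coeff_mul_add_eq_of_natDegree_le (lin_bound _ _).1 (h j).1,
      (lin_bound _ _).2, (h j).2]

lemma step_row (u S : Matrix (Fin n) (Fin n) O) {w : Fin n → O[X]} {d : ℕ} {c : Fin n → O}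
    (h : B w d c) :
    B (w ᵥ* (u.map C + (Polynomial.X : O[X]) • S.map C)) (d + 1) (c ᵥ* S) := by
  intro i
  have e : (w ᵥ* (u.map C + (Polynomial.X : O[X]) • S.map C)) i =
      ∑ j, w j * (C (u j i) + Polynomial.X * C (S j i)) := rfl
  have e' : (c ᵥ* S) i = ∑ j, c j * S j i := rfl
  rw [e, e']
  constructor
  · refine natDegree_sum_le_of_forall_le _ _ (fun j _ => ?_)
    exact natDegree_mul_le_of_le (h j).1 (lin_bound _ _).1
  · rw [finsetSum_coeff]
    refine Finset.sum_congr rfl (fun j _ => ?_)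
    rw [coeff_mul_add_eq_of_natDegree_le (h j).1 (lin_bound _ _).1,
      (lin_bound _ _).2, (h j).2]

lemma colB (u S : Matrix (Fin n) (Fin n) O) (r r₀ : Fin n → O) (k : ℕ) :
    B ((u.map C + (Polynomial.X : O[X]) • S.map C) ^ k *ᵥ
      fun i => C (r i) + Polynomial.X * C (r₀ i)) (k + 1) (S ^ k *ᵥ r₀) := by
  induction k with
  | zero =>
    rw [pow_zero, pow_zero, one_mulVec, one_mulVec]
    exact fun i => lin_bound _ _
  | succ k ih =>
    rw [pow_succ', pow_succ', ← mulVec_mulVec, ← mulVec_mulVec]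
    exact step_col u S ih

lemma rowB (u S : Matrix (Fin n) (Fin n) O) (r r₀ : Fin n → O) (k : ℕ) :
    B ((fun i => C (r i) + Polynomial.X * C (r₀ i)) ᵥ*
      (u.map C + (Polynomial.X : O[X]) • S.map C) ^ k) (k + 1) (r₀ ᵥ* S ^ k) := by
  induction k with
  | zero =>
    rw [pow_zero, pow_zero, vecMul_one, vecMul_one]
    exact fun i => lin_bound _ _
  | succ k ih =>
    rw [pow_succ, pow_succ, ← vecMul_vecMul, ← vecMul_vecMul]
    exact step_row u S ih

/-- the shift -/
def Sh (O : Type) [CommRing O] (n : ℕ) : Matrix (Fin n) (Fin n) O :=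
  Matrix.of fun i j => if (j : ℕ) = i + 1 then 1 else 0

/-- the last basis vector, and its images -/
def el (O : Type) [CommRing O] (n : ℕ) (k : ℕ) : Fin n → O :=
  fun i => if (i : ℕ) + 1 + k = n then 1 else 0

/-- the first basis vector, and its images -/
def ef (O : Type) [CommRing O] (n : ℕ) (k : ℕ) : Fin n → O :=
  fun i => if (i : ℕ) = k then 1 else 0

lemma sh_el (k : ℕ) : Sh O n *ᵥ el O n k = el O n (k + 1) := by
  funext i
  unfold Matrix.mulVec dotProduct Sh el
  simp only [Matrix.of_apply, mul_ite, mul_one, mul_zero]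
  by_cases h : (i : ℕ) + 1 + (k + 1) = n
  · rw [if_pos h]
    have hlt : (i : ℕ) + 1 < n := by omega
    rw [Finset.sum_eq_single (⟨(i : ℕ) + 1, hlt⟩ : Fin n)]
    · rw [if_pos (by simp only; omega), if_pos rfl]
    · intro j _ hj
      by_cases h1 : (j : ℕ) + 1 + k = n
      · exact absurd (Fin.ext (by simp only; omega)) hj
      · rw [if_neg h1]
    · intro h1
      exact absurd (Finset.mem_univ _) h1
  · rw [if_neg h]
    refine Finset.sum_eq_zero (fun j _ => ?_)
    by_cases h1 : (j : ℕ) + 1 + k = n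
    · rw [if_pos h1, if_neg (by omega)]
    · rw [if_neg h1]

lemma sh_ef (k : ℕ) : ef O n k ᵥ* Sh O n = ef O n (k + 1) := by
  funext i
  unfold Matrix.vecMul dotProduct Sh ef
  simp only [Matrix.of_apply, mul_ite, mul_one, mul_zero]
  by_cases h : (i : ℕ) = k + 1
  · rw [if_pos h]
    have hlt : k < n := by
      have := i.2
      omega
    rw [Finset.sum_eq_single (⟨k, hlt⟩ : Fin n)]
    · rw [if_pos h, if_pos rfl]
    · intro j _ hj
      by_cases h1 : (j : ℕ) = k
      · exact absurd (Fin.ext h1) hj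
      · rw [if_neg h1, ite_self]
    · intro h1
      exact absurd (Finset.mem_univ _) h1
  · rw [if_neg h]
    refine Finset.sum_eq_zero (fun j _ => ?_)
    by_cases h1 : (i : ℕ) = (j : ℕ) + 1
    · rw [if_pos h1, if_neg (by omega)]
    · rw [if_neg h1]

lemma pow_el (k : ℕ) : Sh O n ^ k *ᵥ el O n 0 = el O n k := by
  induction k with
  | zero => rw [pow_zero, one_mulVec]
  | succ k ih => rw [pow_succ', ← mulVec_mulVec, ih, sh_el]

lemma pow_ef (k : ℕ) : ef O n 0 ᵥ* Sh O n ^ k = ef O n k := by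
  induction k with
  | zero => rw [pow_zero, vecMul_one]
  | succ k ih => rw [pow_succ, ← vecMul_vecMul, ih, sh_ef]

lemma det_ef : (Matrix.of fun i j : Fin n => ef O n (j : ℕ) i).det = 1 := by
  have e : (Matrix.of fun i j : Fin n => ef O n (j : ℕ) i) = 1 := by
    ext i j
    rw [Matrix.of_apply, Matrix.one_apply]
    unfold ef
    simp only [Fin.ext_iff]
  rw [e, det_one]

lemma det_el : IsUnit (Matrix.of fun i j : Fin n => el O n (j : ℕ) i).det := by
  have e : (Matrix.of fun i j : Fin n => el O n (j : ℕ) i) =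
      (1 : Matrix (Fin n) (Fin n) O).submatrix (Fin.revPerm : Equiv.Perm (Fin n)) id := by
    ext i j
    rw [Matrix.of_apply, Matrix.submatrix_apply, Matrix.one_apply]
    unfold el
    congr 1
    rw [eq_iff_iff, Fin.ext_iff, Fin.revPerm_apply, Fin.val_rev, id]
    have hi := i.2
    have hj := j.2
    omega
  rw [e, det_permute, det_one, mul_one]
  rcases Int.units_eq_one_or (Equiv.Perm.sign (Fin.revPerm : Equiv.Perm (Fin n))) with h | h
  · rw [h]
    simp
  · rw [h]
    simp

lemma unit_lead {p : O[X]} {N : ℕ} (h1 : p.natDegree ≤ N) (h2 : IsUnit (p.coeff N)) :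
    IsUnit p.leadingCoeff := by
  rcases subsingleton_or_nontrivial O with hs | hs
  · exact isUnit_of_subsingleton _
  · have h3 : N = p.natDegree := by
      refine le_antisymm ?_ h1
      exact le_natDegree_of_ne_zero h2.ne_zero
    rw [leadingCoeff, ← h3]
    exact h2

end LEAD

open LEAD in
/-- generic deformation -/
theorem thm_LEAD : Stmt_LEAD := by
  intro O _ n u r φ
  refine ⟨Sh O n, el O n 0, ef O n 0, ?_⟩
  have hcol := det_bound (kcol (u.map Polynomial.C + (Polynomial.X : Polynomial O) •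
      (Sh O n).map Polynomial.C)
    (fun i => Polynomial.C (r i) + Polynomial.X * Polynomial.C (el O n 0 i)))
    (fun j => (j : ℕ) + 1) (fun i j => (colB u (Sh O n) r (el O n 0) (j : ℕ) i).1)
  have hrow := det_bound ((krow (u.map Polynomial.C + (Polynomial.X : Polynomial O) •
      (Sh O n).map Polynomial.C)
    (fun i => Polynomial.C (φ i) + Polynomial.X * Polynomial.C (ef O n 0 i)))ᵀ)
    (fun j => (j : ℕ) + 1) (fun i j => (rowB u (Sh O n) φ (ef O n 0) (j : ℕ) i).1)
  rw [det_transpose] at hrow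
  have e1 : (Matrix.of fun i j : Fin n => (kcol (u.map Polynomial.C +
      (Polynomial.X : Polynomial O) • (Sh O n).map Polynomial.C)
      (fun i => Polynomial.C (r i) + Polynomial.X * Polynomial.C (el O n 0 i)) i j).coeff
        ((j : ℕ) + 1)) = Matrix.of fun i j : Fin n => el O n (j : ℕ) i := by
    ext i j
    rw [Matrix.of_apply, Matrix.of_apply]
    exact (colB u (Sh O n) r (el O n 0) (j : ℕ) i).2.trans (congrFun (pow_el (j : ℕ)) i)
  have e2 : (Matrix.of fun i j : Fin n => ((krow (u.map Polynomial.C +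
      (Polynomial.X : Polynomial O) • (Sh O n).map Polynomial.C)
      (fun i => Polynomial.C (φ i) + Polynomial.X * Polynomial.C (ef O n 0 i)))ᵀ i j).coeff
        ((j : ℕ) + 1)) = Matrix.of fun i j : Fin n => ef O n (j : ℕ) i := by
    ext i j
    rw [Matrix.of_apply, Matrix.of_apply]
    exact (rowB u (Sh O n) φ (ef O n 0) (j : ℕ) i).2.trans (congrFun (pow_ef (j : ℕ)) i)
  rw [e1] at hcol
  rw [e2, det_ef] at hrow
  refine unit_lead (Polynomial.natDegree_mul_le_of_le hcol.1 hrow.1) ?_
  rw [Polynomial.coeff_mul_add_eq_of_natDegree_le hcol.1 hrow.1, hcol.2, hrow.2, mul_one]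
  exact det_el

end Pool.Agent.GTD
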