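import Pool.Agent.GTD.Stmts3

set_option autoImplicit false

namespace Pool.Agent.GTD

open Matrix

namespace MOMx

variable {R : Type} [CommRing R] {n : ℕ}

/-- The resolvent. -/
noncomputable def W (u : Matrix (Fin n) (Fin n) R) : Matrix (Fin n) (Fin n) (PowerSeries R) :=
  Matrix.of fun i j => PowerSeries.mk fun k => (u ^ k) i j

/-- Constant matrices. -/
noncomputable def cm (u : Matrix (Fin n) (Fin n) R) : Matrix (Fin n) (Fin n) (PowerSeries R) :=
  u.map (PowerSeries.C)

lemma mulW (u : Matrix (Fin n) (Fin n) R) :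
    (1 - (PowerSeries.X : PowerSeries R) • cm u) * W u = 1 := by
  rw [sub_mul, one_mul, smul_mul_assoc]
  ext i j k
  have h1 : (cm u * W u) i j = PowerSeries.mk fun k => (u ^ (k + 1)) i j := by
    ext k
    rw [Matrix.mul_apply, map_sum, PowerSeries.coeff_mk, pow_succ', Matrix.mul_apply]
    apply Finset.sum_congr rfl
    intro l _
    simp [cm, W, PowerSeries.coeff_C_mul]
  rw [Matrix.sub_apply, Matrix.smul_apply, h1, smul_eq_mul]
  rcases k with _ | k
  · by_cases hij : i = j
    · subst hij
      simp [W]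
    · simp [W, hij]
  · by_cases hij : i = j
    · subst hij
      simp [W, PowerSeries.coeff_succ_X_mul, PowerSeries.coeff_one]
    · simp [W, PowerSeries.coeff_succ_X_mul, hij]

/-- The generating series of the moments. -/
noncomputable def ser (u : Matrix (Fin n) (Fin n) R) (s φ : Fin n → R) : PowerSeries R :=
  (fun i => PowerSeries.C (φ i)) ⬝ᵥ (W u *ᵥ fun i => PowerSeries.C (s i))

lemma coeff_ser (u : Matrix (Fin n) (Fin n) R) (s φ : Fin n → R) (k : ℕ) :
    PowerSeries.coeff k (ser u s φ) = φ ⬝ᵥ ((u ^ k) *ᵥ s) := by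
  unfold ser dotProduct Matrix.mulVec dotProduct
  rw [map_sum]
  apply Finset.sum_congr rfl
  intro i _
  rw [PowerSeries.coeff_C_mul, map_sum]
  congr 1
  apply Finset.sum_congr rfl
  intro j _
  rw [mul_comm, PowerSeries.coeff_C_mul, mul_comm]
  simp [W]

lemma det_formula (u : Matrix (Fin n) (Fin n) R) (s φ : Fin n → R) :
    (1 - (PowerSeries.X : PowerSeries R) • cm (u + vecMulVec s φ)).det =
      (1 - (PowerSeries.X : PowerSeries R) • cm u).det *
        (1 - PowerSeries.X * ser u s φ) := by
  have h1 : cm (u + vecMulVec s φ) = cm u +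
      vecMulVec (fun i => PowerSeries.C (s i)) (fun i => PowerSeries.C (φ i)) := by
    ext1 i j
    simp [cm, vecMulVec_apply]
  have h2 : 1 - (PowerSeries.X : PowerSeries R) • cm (u + vecMulVec s φ) =
      (1 - (PowerSeries.X : PowerSeries R) • cm u) *
        (1 + vecMulVec (-(PowerSeries.X : PowerSeries R) • (W u *ᵥ fun i => PowerSeries.C (s i)))
          (fun i => PowerSeries.C (φ i))) := by
    rw [mul_add, mul_one, Matrix.smul_vecMulVec, mul_smul_comm, ← Matrix.mul_vecMulVec,
      ← mul_assoc, mulW, one_mul, h1, smul_add, neg_smul]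
    abel
  rw [h2, Matrix.det_mul]
  congr 1
  rw [Matrix.vecMulVec_eq Unit, Matrix.det_one_add_replicateCol_mul_replicateRow, dotProduct_smul]
  simp [ser, sub_eq_add_neg]

lemma isUnit_det (u : Matrix (Fin n) (Fin n) R) :
    IsUnit (1 - (PowerSeries.X : PowerSeries R) • cm u).det := by
  refine IsUnit.of_mul_eq_one (W u).det ?_
  rw [← Matrix.det_mul, mulW, Matrix.det_one]

lemma cm_mul (a b : Matrix (Fin n) (Fin n) R) : cm (a * b) = cm a * cm b := by
  unfold cm
  rw [Matrix.map_mul]

lemma det_conj (D D' A : Matrix (Fin n) (Fin n) R) (h : D * D' = 1) :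
    (1 - (PowerSeries.X : PowerSeries R) • cm (D * A * D')).det =
      (1 - (PowerSeries.X : PowerSeries R) • cm A).det := by
  have h1 : cm D * cm D' = 1 := by
    rw [← cm_mul, h]
    ext1 i j
    by_cases hij : i = j
    · subst hij; simp [cm]
    · simp [cm, hij]
  have h2 : 1 - (PowerSeries.X : PowerSeries R) • cm (D * A * D') =
      cm D * (1 - (PowerSeries.X : PowerSeries R) • cm A) * cm D' := by
    rw [mul_sub, sub_mul, mul_one, h1, cm_mul, cm_mul, mul_smul_comm, smul_mul_assoc]
  rw [h2, Matrix.det_mul, Matrix.det_mul, mul_comm (cm D).det, mul_assoc, ← Matrix.det_mul, h1,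
    Matrix.det_one, mul_one]

end MOMx

open MOMx in
theorem thm_MOMx : Stmt_MOM := by
  intro R _ n u D D' s φ s' φ' hD hc k
  rw [← coeff_ser, ← coeff_ser]
  congr 1
  have h1 := det_formula u s φ
  have h2 := det_formula u s' φ'
  rw [← hc, det_conj _ _ _ hD, h1] at h2
  have h3 := (isUnit_det u).mul_left_cancel h2
  have h4 : (PowerSeries.X : PowerSeries R) * ser u s φ = PowerSeries.X * ser u s' φ' :=
    sub_right_injective h3
  ext m
  have := congrArg (PowerSeries.coeff (m + 1)) h4
  rwa [PowerSeries.coeff_succ_X_mul, PowerSeries.coeff_succ_X_mul] at this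

end Pool.Agent.GTD
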