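import Pool.Agent.GTD.Stmts3

set_option autoImplicit false

/-!
# Project GTD (MP_6a6203_al), module RCORE
-/

namespace Pool.Agent.GTD

open Matrix

namespace RCORE

section Alg

variable {R : Type} [CommRing R] {n : ℕ}

/-- `p(u) = ∑ α_j u^j`. -/
def pu (u : Matrix (Fin n) (Fin n) R) (α : Fin n → R) : Matrix (Fin n) (Fin n) R :=
  ∑ j : Fin n, α j • u ^ (j : ℕ)

lemma kcol_mulVec (u : Matrix (Fin n) (Fin n) R) (r α : Fin n → R) :
    kcol u r *ᵥ α = pu u α *ᵥ r := by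
  rw [pu, Matrix.sum_mulVec]
  ext i
  simp only [kcol, Matrix.mulVec, dotProduct, Matrix.of_apply, Finset.sum_apply,
    Matrix.smul_apply, smul_eq_mul]
  refine Finset.sum_congr rfl fun j _ => ?_
  rw [Finset.sum_mul]
  refine Finset.sum_congr rfl fun k _ => ?_
  ring

lemma pu_comm (u : Matrix (Fin n) (Fin n) R) (α : Fin n → R) : pu u α * u = u * pu u α := by
  rw [pu, Finset.sum_mul, Finset.mul_sum]
  refine Finset.sum_congr rfl fun j _ => ?_
  rw [Matrix.smul_mul, Matrix.mul_smul, ← pow_succ, ← pow_succ']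

lemma pu_comm_pow (u : Matrix (Fin n) (Fin n) R) (α : Fin n → R) (k : ℕ) :
    pu u α * u ^ k = u ^ k * pu u α :=
  (Commute.pow_right (pu_comm u α : Commute _ _) k).eq

/-- Column `j` of a product with `kcol`. -/
lemma mul_kcol (M u : Matrix (Fin n) (Fin n) R) (r : Fin n → R) (i j : Fin n) :
    (M * kcol u r) i j = (M *ᵥ ((u ^ (j : ℕ)) *ᵥ r)) i := by
  rw [Matrix.mul_apply]
  rfl

/-- Two matrices which agree on the columns. -/
lemma mul_kcol_eq {M N u w : Matrix (Fin n) (Fin n) R} {r s : Fin n → R}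
    (h : ∀ j : ℕ, M *ᵥ ((u ^ j) *ᵥ r) = N *ᵥ ((w ^ j) *ᵥ s)) :
    M * kcol u r = N * kcol w s := by
  ext i j
  rw [mul_kcol, mul_kcol, h]

lemma vecMul_kcol (x : Fin n → R) (u : Matrix (Fin n) (Fin n) R) (r : Fin n → R) (j : Fin n) :
    (x ᵥ* kcol u r) j = x ⬝ᵥ ((u ^ (j : ℕ)) *ᵥ r) := rfl

/-- Multiply by the adjugate on the right. -/
lemma cancel_right {M K : Matrix (Fin n) (Fin n) R} (h : M * K = 0) : K.det • M = 0 := by
  have h1 : M * K * K.adjugate = 0 := by rw [h, Matrix.zero_mul]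
  rw [Matrix.mul_assoc, Matrix.mul_adjugate, Matrix.mul_smul, Matrix.mul_one] at h1
  exact h1

/-- Multiply by the adjugate on the left. -/
lemma cancel_left {M K : Matrix (Fin n) (Fin n) R} (h : K * M = 0) : K.det • M = 0 := by
  have h1 : K.adjugate * (K * M) = 0 := by rw [h, Matrix.mul_zero]
  rw [← Matrix.mul_assoc, Matrix.adjugate_mul, Matrix.smul_mul, Matrix.one_mul] at h1
  exact h1

lemma cancel_vec {x : Fin n → R} {K : Matrix (Fin n) (Fin n) R} (h : x ᵥ* K = 0) :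
    K.det • x = 0 := by
  have h1 : (x ᵥ* K) ᵥ* K.adjugate = 0 := by rw [h, Matrix.zero_vecMul]
  rw [Matrix.vecMul_vecMul, Matrix.mul_adjugate, Matrix.vecMul_smul, Matrix.vecMul_one] at h1
  exact h1

/-- Cayley–Hamilton. -/
lemma ch (u : Matrix (Fin n) (Fin n) R) (k : ℕ) : ∃ c : Fin n → R, u ^ k = pu u c := by
  rcases Nat.eq_zero_or_pos n with hn | hn
  · subst hn
    exact ⟨fun _ => 0, Subsingleton.elim _ _⟩
  · cases subsingleton_or_nontrivial R with
    | inl hs => exact ⟨fun _ => 0, Subsingleton.elim _ _⟩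
    | inr hs =>
      have hdeg : (Polynomial.X ^ k %ₘ u.charpoly).natDegree < n := by
        have h1 : u.charpoly.natDegree = n := by
          rw [Matrix.charpoly_natDegree_eq_dim, Fintype.card_fin]
        have h2 : u.charpoly ≠ 1 := by
          intro h
          rw [h, Polynomial.natDegree_one] at h1
          omega
        have h3 := Polynomial.natDegree_modByMonic_lt (Polynomial.X ^ k)
          (Matrix.charpoly_monic u) h2
        rwa [h1] at h3
      refine ⟨fun i => (Polynomial.X ^ k %ₘ u.charpoly).coeff i, ?_⟩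
      rw [Matrix.pow_eq_aeval_mod_charpoly, Polynomial.aeval_eq_sum_range' hdeg, pu,
        Finset.sum_range]

lemma pu_transpose (u : Matrix (Fin n) (Fin n) R) (c : Fin n → R) :
    (pu u c)ᵀ = pu uᵀ c := by
  rw [pu, pu, Matrix.transpose_sum]
  refine Finset.sum_congr rfl fun j _ => ?_
  rw [Matrix.transpose_smul, Matrix.transpose_pow]

lemma krow_transpose (u : Matrix (Fin n) (Fin n) R) (φ : Fin n → R) :
    (krow u φ)ᵀ = kcol uᵀ φ := by
  ext i j
  simp only [krow, kcol, Matrix.transpose_apply, Matrix.of_apply]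
  rw [← Matrix.transpose_pow, Matrix.mulVec_transpose]

/-- Step (2). -/
lemma step2 (u v v' : Matrix (Fin n) (Fin n) R) (r φ r' φ' : Fin n → R)
    (hv : v = 1 + vecMulVec r φ) (hv' : v' = 1 + vecMulVec r' φ')
    (hm : ∀ k : ℕ, φ ⬝ᵥ ((u ^ k) *ᵥ r) = φ' ⬝ᵥ ((u ^ k) *ᵥ r')) :
    ∃ (A : Matrix (Fin n) (Fin n) R) (c : Fin n → R), A = pu u c ∧
      A * v = v' * A ∧
      A.det * (kcol u r).det = (kcol u r).det ^ (2 * n) * (kcol u r').det := by
  set K := kcol u r with hK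
  set d := K.det with hd
  set α := K.adjugate *ᵥ r' with hα
  have h1 : pu u α *ᵥ r = d • r' := by
    rw [← kcol_mulVec, ← hK, hα, Matrix.mulVec_mulVec, Matrix.mul_adjugate, Matrix.smul_mulVec,
      Matrix.one_mulVec]
  have h2 : ∀ j : ℕ, pu u α *ᵥ ((u ^ j) *ᵥ r) = d • ((u ^ j) *ᵥ r') := by
    intro j
    rw [Matrix.mulVec_mulVec, pu_comm_pow, ← Matrix.mulVec_mulVec, h1, Matrix.mulVec_smul]
  have h3 : (φ' ᵥ* pu u α - d • φ) ᵥ* K = 0 := by
    ext j
    rw [hK, vecMul_kcol, sub_dotProduct, ← Matrix.dotProduct_mulVec, h2, dotProduct_smul,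
      smul_dotProduct, hm, sub_self]
    rfl
  have h4 := cancel_vec h3
  rw [← hd] at h4
  refine ⟨d • pu u α, d • α, ?_, ?_, ?_⟩
  · rw [pu, pu, Finset.smul_sum]
    refine Finset.sum_congr rfl fun j _ => ?_
    rw [Pi.smul_apply, smul_assoc]
  · have h5 : (d • pu u α) *ᵥ r = (d * d) • r' := by
      rw [Matrix.smul_mulVec, h1, smul_smul]
    have h6 : φ' ᵥ* (d • pu u α) = (d * d) • φ := by
      rw [Matrix.vecMul_smul, ← smul_smul]
      rw [smul_sub] at h4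
      exact sub_eq_zero.1 h4
    rw [hv, hv', Matrix.mul_add, Matrix.add_mul, Matrix.mul_one, Matrix.one_mul,
      Matrix.mul_vecMulVec, Matrix.vecMulVec_mul, h5, h6, Matrix.smul_vecMulVec,
      Matrix.vecMulVec_smul]
  · have h7 : (d • pu u α) * K = (d * d) • kcol u r' := by
      ext i j
      rw [hK, mul_kcol, Matrix.smul_mulVec, h2, smul_smul]
      rfl
    have h8 := congrArg Matrix.det h7
    rw [Matrix.det_mul, Matrix.det_smul (kcol u r'), Fintype.card_fin] at h8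
    rw [h8]
    ring

/-- Step (3). -/
lemma step3 (u v : Matrix (Fin n) (Fin n) R) (r φ : Fin n → R)
    (hv : v = 1 + vecMulVec r φ) :
    ∃ B : Matrix (Fin n) (Fin n) R, B * uᵀ = u * B ∧ B * vᵀ = v * B ∧
      B.det * (krow u φ).det = (krow u φ).det ^ (2 * n) * (kcol u r).det := by
  set K := kcol u r with hK
  set C := kcol uᵀ φ with hC
  set e := (krow u φ).det with he
  have heC : C.det = e := by rw [hC, ← krow_transpose, Matrix.det_transpose]
  set B₀ := K * C.adjugate with hB₀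
  have h1 : B₀ * C = e • K := by
    rw [hB₀, Matrix.mul_assoc, Matrix.adjugate_mul, heC, Matrix.mul_smul, Matrix.mul_one]
  -- the columns
  have h2 : ∀ j : Fin n, B₀ *ᵥ ((uᵀ ^ (j : ℕ)) *ᵥ φ) = e • ((u ^ (j : ℕ)) *ᵥ r) := by
    intro j
    ext i
    rw [← mul_kcol, ← hC, h1]
    rfl
  have h3 : ∀ k : ℕ, B₀ *ᵥ ((uᵀ ^ k) *ᵥ φ) = e • ((u ^ k) *ᵥ r) := by
    intro k
    obtain ⟨c, hc⟩ := ch u k
    have hc' : uᵀ ^ k = pu uᵀ c := by rw [← Matrix.transpose_pow, hc, pu_transpose]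
    rw [hc, hc', pu, pu, Matrix.sum_mulVec, Matrix.sum_mulVec, Matrix.mulVec_sum,
      Finset.smul_sum]
    refine Finset.sum_congr rfl fun j _ => ?_
    rw [Matrix.smul_mulVec, Matrix.smul_mulVec, Matrix.mulVec_smul, h2, smul_comm]
  have h4 : (u * B₀ - B₀ * uᵀ) * C = 0 := by
    rw [Matrix.sub_mul, sub_eq_zero, hC]
    ext i j
    rw [mul_kcol, mul_kcol, ← Matrix.mulVec_mulVec, h3, ← Matrix.mulVec_mulVec,
      Matrix.mulVec_mulVec _ uᵀ, ← pow_succ', h3, Matrix.mulVec_smul, Matrix.mulVec_mulVec,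
      ← pow_succ']
  have h5 := cancel_right h4
  rw [heC] at h5
  have h6 : B₀ *ᵥ φ = e • r := by
    have := h3 0
    simpa using this
  have h7 : φ ᵥ* B₀ = e • r := by
    have h8 : φ ᵥ* K = r ᵥ* C := by
      ext j
      rw [hK, hC, vecMul_kcol, vecMul_kcol, Matrix.dotProduct_mulVec, ← Matrix.transpose_pow,
        Matrix.mulVec_transpose, dotProduct_comm]
    rw [hB₀, ← Matrix.vecMul_vecMul, h8, Matrix.vecMul_vecMul, Matrix.mul_adjugate, heC,
      Matrix.vecMul_smul, Matrix.vecMul_one]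
  have h8 : B₀ * vᵀ = v * B₀ := by
    rw [hv, Matrix.transpose_add, Matrix.transpose_one, Matrix.transpose_vecMulVec,
      Matrix.mul_add, Matrix.add_mul, Matrix.mul_one, Matrix.one_mul, Matrix.mul_vecMulVec,
      Matrix.vecMulVec_mul, h6, h7, Matrix.smul_vecMulVec, Matrix.vecMulVec_smul]
  refine ⟨e • B₀, ?_, ?_, ?_⟩
  · rw [Matrix.smul_mul, Matrix.mul_smul]
    rw [smul_sub] at h5
    exact (sub_eq_zero.1 h5).symm
  · rw [Matrix.smul_mul, Matrix.mul_smul, h8]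
  · have h9 : (e • B₀) * C = (e * e) • K := by
      rw [Matrix.smul_mul, h1, smul_smul]
    have h10 := congrArg Matrix.det h9
    rw [Matrix.det_mul, Matrix.det_smul K, Fintype.card_fin, heC] at h10
    rw [h10]
    ring

/-- Steps (5), (6), (7): pure algebra. -/
lemma step5 (u v v' v'' A B G Gi Gc Gci : Matrix (Fin n) (Fin n) R)
    (c : Fin n → R) (hA : A = pu u c) (hAv : A * v = v' * A)
    (hBu : B * uᵀ = u * B) (hBv : B * vᵀ = v * B)
    (hG : G * Gi = 1) (hv' : v' = Gi * v * G)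
    (hGc : Gc * Gci = 1) (hv'' : v'' = Gci * v * Gc)
    (hB : B * Gciᵀ = G * B) :
    B.det • (A * v'' - v * A) = 0 := by
  have hGi : Gi * G = 1 := mul_eq_one_comm.1 hG
  have t1 : u * Bᵀ = Bᵀ * uᵀ := by
    have := congrArg Matrix.transpose hBu
    rwa [Matrix.transpose_mul, Matrix.transpose_mul, Matrix.transpose_transpose] at this
  have t2 : v * Bᵀ = Bᵀ * vᵀ := by
    have := congrArg Matrix.transpose hBv
    rwa [Matrix.transpose_mul, Matrix.transpose_mul, Matrix.transpose_transpose] at this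
  have t3 : Gci * Bᵀ = Bᵀ * Gᵀ := by
    have := congrArg Matrix.transpose hB
    rwa [Matrix.transpose_mul, Matrix.transpose_mul, Matrix.transpose_transpose] at this
  have t4 : A * Bᵀ = Bᵀ * Aᵀ := by
    have hp : ∀ j : ℕ, u ^ j * Bᵀ = Bᵀ * uᵀ ^ j := by
      intro j
      induction j with
      | zero => simp
      | succ j ih => rw [pow_succ, Matrix.mul_assoc, t1, ← Matrix.mul_assoc, ih,
          Matrix.mul_assoc, ← pow_succ]
    rw [hA, pu_transpose, pu, pu, Finset.sum_mul, Finset.mul_sum]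
    refine Finset.sum_congr rfl fun j _ => ?_
    rw [Matrix.smul_mul, Matrix.mul_smul, hp]
  -- v'' Bᵀ = Bᵀ v'ᵀ
  have t5 : v'' * Bᵀ = Bᵀ * v'ᵀ := by
    have e1 : v'' * Bᵀ * Gᵀ = Bᵀ * v'ᵀ * Gᵀ := by
      calc v'' * Bᵀ * Gᵀ = Gci * v * (Gc * (Gci * Bᵀ)) := by
            rw [t3, hv'']; simp only [Matrix.mul_assoc]
        _ = Gci * (v * Bᵀ) := by
            rw [← Matrix.mul_assoc Gc, hGc, Matrix.one_mul, Matrix.mul_assoc]
        _ = (Gci * Bᵀ) * vᵀ := by rw [t2, Matrix.mul_assoc]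
        _ = Bᵀ * (Gᵀ * vᵀ) := by rw [t3, Matrix.mul_assoc]
        _ = Bᵀ * v'ᵀ * Gᵀ := by
            rw [hv', Matrix.transpose_mul, Matrix.transpose_mul]
            have e2 : Giᵀ * Gᵀ = 1 := by
              rw [← Matrix.transpose_mul, hG, Matrix.transpose_one]
            simp only [Matrix.mul_assoc]
            rw [e2, Matrix.mul_one]
    have e3 : Gᵀ * Giᵀ = 1 := by rw [← Matrix.transpose_mul, hGi, Matrix.transpose_one]
    have e4 := congrArg (fun M => M * Giᵀ) e1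
    simp only [Matrix.mul_assoc, e3, Matrix.mul_one] at e4
    exact e4
  have t6 : (A * v'' - v * A) * Bᵀ = 0 := by
    rw [Matrix.sub_mul, sub_eq_zero]
    calc A * v'' * Bᵀ = A * Bᵀ * v'ᵀ := by rw [Matrix.mul_assoc, t5, Matrix.mul_assoc]
      _ = Bᵀ * (v' * A)ᵀ := by rw [t4, Matrix.transpose_mul, Matrix.mul_assoc]
      _ = Bᵀ * vᵀ * Aᵀ := by rw [← hAv, Matrix.transpose_mul, Matrix.mul_assoc]
      _ = v * (Bᵀ * Aᵀ) := by rw [← t2, Matrix.mul_assoc]
      _ = v * A * Bᵀ := by rw [← t4, Matrix.mul_assoc]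
  have t7 := cancel_right t6
  rwa [Matrix.det_transpose] at t7

lemma step6 (v v' v'' A₁ G Gi Gc Gci F : Matrix (Fin n) (Fin n) R)
    (h1 : A₁ * v'' = v * A₁) (h2 : A₁ * v = v' * A₁)
    (hG : G * Gi = 1) (hv' : v' = Gi * v * G)
    (hGc : Gc * Gci = 1) (hv'' : v'' = Gci * v * Gc)
    (hF : A₁ * F = G * A₁) :
    A₁.det • (v * (Gc * F) - Gc * F * v) = 0 := by
  have e1 : A₁ * (v'' * F - F * v) = 0 := by
    rw [Matrix.mul_sub, sub_eq_zero]
    calc A₁ * (v'' * F) = v * (A₁ * F) := by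
          rw [← Matrix.mul_assoc, h1, Matrix.mul_assoc]
      _ = G * v' * A₁ := by
          rw [hF, hv', ← Matrix.mul_assoc, ← Matrix.mul_assoc, ← Matrix.mul_assoc, hG,
            Matrix.one_mul]
      _ = (G * A₁) * v := by rw [Matrix.mul_assoc, ← h2, Matrix.mul_assoc]
      _ = A₁ * (F * v) := by rw [← hF, Matrix.mul_assoc]
  have e2 := cancel_left e1
  have e3 : v * Gc = Gc * v'' := by
    rw [hv'', ← Matrix.mul_assoc, ← Matrix.mul_assoc, hGc, Matrix.one_mul]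
  have e4 : v * (Gc * F) - Gc * F * v = Gc * (v'' * F - F * v) := by
    rw [← Matrix.mul_assoc, e3, Matrix.mul_sub]
    simp only [Matrix.mul_assoc]
  rw [e4, ← Matrix.mul_smul, e2, Matrix.mul_zero]

/-- Moments give the determinants. -/
lemma dets (u : Matrix (Fin n) (Fin n) R) (r φ r' φ' : Fin n → R)
    (hm : ∀ k : ℕ, φ ⬝ᵥ ((u ^ k) *ᵥ r) = φ' ⬝ᵥ ((u ^ k) *ᵥ r')) :
    (krow u φ).det * (kcol u r).det = (krow u φ').det * (kcol u r').det := by
  rw [← Matrix.det_mul, ← Matrix.det_mul]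
  congr 1
  ext i j
  have h : ∀ (ψ s : Fin n → R), (krow u ψ * kcol u s) i j = ψ ⬝ᵥ ((u ^ ((i : ℕ) + (j : ℕ))) *ᵥ s) := by
    intro ψ s
    rw [mul_kcol]
    change (ψ ᵥ* (u ^ (i : ℕ))) ⬝ᵥ ((u ^ (j : ℕ)) *ᵥ s) = _
    rw [← Matrix.dotProduct_mulVec, Matrix.mulVec_mulVec, ← pow_add]
  rw [h, h, hm]

end Alg

/-- The automorphism `M ↦ (M⁻¹)ᵀ`. -/
def tinv {R : Type} [CommRing R] {n : ℕ} : GL (Fin n) R →* GL (Fin n) R where
  toFun g := ⟨(g⁻¹).1ᵀ, g.1ᵀ, by
    rw [← Matrix.transpose_mul, ← Units.val_mul, mul_inv_cancel, Units.val_one,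
      Matrix.transpose_one], by
    rw [← Matrix.transpose_mul, ← Units.val_mul, inv_mul_cancel, Units.val_one,
      Matrix.transpose_one]⟩
  map_one' := by
    ext1
    simp
  map_mul' a b := by
    ext1
    change ((a * b)⁻¹).1ᵀ = (a⁻¹).1ᵀ * (b⁻¹).1ᵀ
    rw [_root_.mul_inv_rev, Units.val_mul, Matrix.transpose_mul]

end RCORE

theorem thm_RCORE (hMOM : Stmt_MOM) (hINTM : Stmt_INTM) (hCZ : Stmt_CZ) : Stmt_RCORE := by
  intro n
  refine ⟨2 * n * n + 3 * n + 1, ?_⟩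
  intro f hf R _ _ u v r φ hv
  set G := E f u v with hG
  set Gc := E (cj f) u v with hGc
  set v' := G⁻¹ * v * G with hv'
  set v'' := Gc⁻¹ * v * Gc with hv''
  set F := E f u v'' with hF
  set r' := (G⁻¹).1 *ᵥ r with hr'
  set φ' := φ ᵥ* G.1 with hφ'
  have g1 : G.1 * (G⁻¹).1 = 1 := by rw [← Units.val_mul, mul_inv_cancel, Units.val_one]
  have g2 : (G⁻¹).1 * G.1 = 1 := by rw [← Units.val_mul, inv_mul_cancel, Units.val_one]
  have g3 : Gc.1 * (Gc⁻¹).1 = 1 := by rw [← Units.val_mul, mul_inv_cancel, Units.val_one]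
  have hv1 : v'.1 = (G⁻¹).1 * v.1 * G.1 := by rw [hv']; simp only [Units.val_mul]
  have hv2 : v''.1 = (Gc⁻¹).1 * v.1 * Gc.1 := by rw [hv'']; simp only [Units.val_mul]
  have hv'1 : v'.1 = 1 + vecMulVec r' φ' := by
    rw [hv1, hv, Matrix.mul_add, Matrix.add_mul, Matrix.mul_one, g2, Matrix.mul_vecMulVec,
      Matrix.vecMulVec_mul]
  -- (1) moments
  have hm : ∀ k : ℕ, φ ⬝ᵥ ((u.1 ^ k) *ᵥ r) = φ' ⬝ᵥ ((u.1 ^ k) *ᵥ r') := by
    intro k
    cases k with
    | zero =>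
      rw [pow_zero, Matrix.one_mulVec, Matrix.one_mulVec, hr', hφ', ← Matrix.dotProduct_mulVec,
        Matrix.mulVec_mulVec, g1, Matrix.one_mulVec]
    | succ k =>
      obtain ⟨D, hD⟩ := isConj_iff.1 (hCZ f hf _ u v)
      rw [← hG, ← hv'] at hD
      have hD1 : D.1 * (D⁻¹).1 = 1 := by rw [← Units.val_mul, mul_inv_cancel, Units.val_one]
      have hD2 : D.1 * (u.1 + vecMulVec (u.1 *ᵥ r) φ) * (D⁻¹).1 =
          u.1 + vecMulVec (u.1 *ᵥ r') φ' := by
        have e1 := congrArg Units.val hD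
        simp only [Units.val_mul] at e1
        have e0 : u.1 * v.1 = u.1 + vecMulVec (u.1 *ᵥ r) φ := by
          rw [hv, Matrix.mul_add, Matrix.mul_one, Matrix.mul_vecMulVec]
        have e0' : u.1 * v'.1 = u.1 + vecMulVec (u.1 *ᵥ r') φ' := by
          rw [hv'1, Matrix.mul_add, Matrix.mul_one, Matrix.mul_vecMulVec]
        rw [e0, e0'] at e1
        exact e1
      have e2 := hMOM R n u.1 D.1 (D⁻¹).1 (u.1 *ᵥ r) φ (u.1 *ᵥ r') φ' hD1 hD2 k
      rw [Matrix.mulVec_mulVec, Matrix.mulVec_mulVec, ← pow_succ] at e2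
      exact e2
  obtain ⟨A, c, hA, hAv, hAd⟩ := RCORE.step2 u.1 v.1 v'.1 r φ r' φ' hv hv'1 hm
  obtain ⟨B, hBu, hBv, hBd⟩ := RCORE.step3 u.1 v.1 r φ hv
  have hdet := RCORE.dets u.1 r φ r' φ' hm
  -- (4)
  have hB : B * ((Gc⁻¹).1)ᵀ = G.1 * B := by
    have e1 : ∀ g : GL (Fin n) R, (RCORE.tinv g⁻¹).1 = g.1ᵀ := by
      intro g
      change ((g⁻¹)⁻¹).1ᵀ = g.1ᵀ
      rw [inv_inv]
    have e2 := hINTM f R n (RCORE.tinv u⁻¹) (RCORE.tinv v⁻¹) u v B (by rw [e1, hBu])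
      (by rw [e1, hBv])
    have e3 : E f (RCORE.tinv u⁻¹) (RCORE.tinv v⁻¹) = RCORE.tinv Gc := by
      rw [← map_E, hGc, E_cj]
    rw [e3] at e2
    exact e2
  have h5 := RCORE.step5 u.1 v.1 v'.1 v''.1 A B G.1 (G⁻¹).1 Gc.1 (Gc⁻¹).1 c hA hAv hBu hBv g1
    hv1 g3 hv2 hB
  -- (6)
  have hAu : A * u.1 = u.1 * A := by rw [hA, RCORE.pu_comm]
  have hA1u : (B.det • A) * u.1 = u.1 * (B.det • A) := by
    rw [Matrix.smul_mul, Matrix.mul_smul, hAu]
  have hA1v'' : (B.det • A) * v''.1 = v.1 * (B.det • A) := by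
    rw [Matrix.smul_mul, Matrix.mul_smul]
    rw [smul_sub] at h5
    exact sub_eq_zero.1 h5
  have hA1v : (B.det • A) * v.1 = v'.1 * (B.det • A) := by
    rw [Matrix.smul_mul, Matrix.mul_smul, hAv]
  have hF1 : (B.det • A) * F.1 = G.1 * (B.det • A) := by
    rw [hF, hG]
    exact hINTM f R n u v'' u v (B.det • A) hA1u hA1v''
  have h6 := RCORE.step6 v.1 v'.1 v''.1 (B.det • A) G.1 (G⁻¹).1 Gc.1 (Gc⁻¹).1 F.1 hA1v'' hA1v g1
    hv1 g3 hv2 hF1
  have hκ : (E (cj f * F1 (cj f) f) u v).1 = Gc.1 * F.1 := by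
    rw [E_mul, E_F1, ← hGc, ← hv'', ← hF, Units.val_mul]
  rw [hκ]
  set Z := v.1 * (Gc.1 * F.1) - Gc.1 * F.1 * v.1 with hZ
  rw [Matrix.det_smul, Fintype.card_fin] at h6
  set d := (kcol u.1 r).det with hd
  set e := (krow u.1 φ).det with he
  set d' := (kcol u.1 r').det with hd'
  set e' := (krow u.1 φ').det with he'
  -- hBd : B.det * e = e ^ (2n) * d, hAd : A.det * d = d ^ (2n) * d', hdet : e * d = e' * d'
  have e5 : (d * e) ^ (2 * n * n + 3 * n + 1) =
      (e ^ (3 * n) * d ^ (2 * n * n) * (e ^ n * d * e')) * (B.det ^ n * A.det) := by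
    have e6 : e ^ n * B.det ^ n = (e ^ (2 * n) * d) ^ n := by
      rw [← mul_pow, mul_comm e, hBd]
    calc (d * e) ^ (2 * n * n + 3 * n + 1)
        = e ^ (3 * n) * d ^ (2 * n * n) * ((e ^ (2 * n) * d) ^ n * d ^ (2 * n) * (e * d)) := by
          ring
      _ = e ^ (3 * n) * d ^ (2 * n * n) * ((e ^ n * B.det ^ n) * (d ^ (2 * n) * d') * e') := by
          rw [e6, hdet]; ring
      _ = (e ^ (3 * n) * d ^ (2 * n * n) * (e ^ n * d * e')) * (B.det ^ n * A.det) := by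
          rw [← hAd]; ring
  rw [e5, ← smul_smul, h6, smul_zero]

end Pool.Agent.GTD
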