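import Pool.Agent.GTD.Stmts3

set_option autoImplicit false

/-!
# Project GTD, module RDEF: the deformation argument for reflections
-/

namespace Pool.Agent.GTD

open Matrix

namespace RDEF

open Polynomial

variable {R R' : Type} [CommRing R] [CommRing R']

lemma kcol_map (ψ : R →+* R') {n : ℕ} (u : Matrix (Fin n) (Fin n) R) (r : Fin n → R) :
    (kcol u r).map ψ = kcol (u.map ψ) (fun j => ψ (r j)) := by
  ext i j
  change ψ ((u ^ (j : ℕ) *ᵥ r) i) = ((u.map ψ) ^ (j : ℕ) *ᵥ fun j => ψ (r j)) i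
  rw [RingHom.map_mulVec, ← RingHom.mapMatrix_apply, map_pow]
  rfl

lemma krow_map (ψ : R →+* R') {n : ℕ} (u : Matrix (Fin n) (Fin n) R) (φ : Fin n → R) :
    (krow u φ).map ψ = krow (u.map ψ) (fun j => ψ (φ j)) := by
  ext i j
  change ψ ((φ ᵥ* u ^ (i : ℕ)) j) = ((fun j => ψ (φ j)) ᵥ* (u.map ψ) ^ (i : ℕ)) j
  rw [RingHom.map_vecMul, ← RingHom.mapMatrix_apply, map_pow]
  rfl

lemma kcol_det_map (ψ : R →+* R') {n : ℕ} (u : Matrix (Fin n) (Fin n) R) (r : Fin n → R) :
    ψ (kcol u r).det = (kcol (u.map ψ) (fun j => ψ (r j))).det := by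
  rw [RingHom.map_det, ← kcol_map]
  rfl

lemma krow_det_map (ψ : R →+* R') {n : ℕ} (u : Matrix (Fin n) (Fin n) R) (φ : Fin n → R) :
    ψ (krow u φ).det = (krow (u.map ψ) (fun j => ψ (φ j))).det := by
  rw [RingHom.map_det, ← krow_map]
  rfl

/-- The unit given by a matrix with invertible determinant. -/
noncomputable def mk {n : ℕ} (A : Matrix (Fin n) (Fin n) R) (h : IsUnit A.det) : GL (Fin n) R :=
  Matrix.nonsingInvUnit A h

lemma mk_val {n : ℕ} (A : Matrix (Fin n) (Fin n) R) (h : IsUnit A.det) : (mk A h).1 = A := rfl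

end RDEF

open RDEF Polynomial in
theorem thm_RDEF (h1 : Stmt_ANN) (h2 : Stmt_RCORE) (h3 : Stmt_LEAD) : Stmt_RDEF := by
  intro f hf O _ _ n u v r φ hv
  rcases subsingleton_or_nontrivial O with hO | hO
  · apply Units.ext
    ext a b
    exact Subsingleton.elim _ _
  obtain ⟨M, hM⟩ := h2 n
  obtain ⟨S, r₀, φ₀, hlead⟩ := h3 O n u.1 r φ
  set U : Matrix (Fin n) (Fin n) O[X] :=
    u.1.map Polynomial.C + (Polynomial.X : Polynomial O) • S.map Polynomial.C with hU
  set Rr : Fin n → O[X] := fun i => Polynomial.C (r i) + Polynomial.X * Polynomial.C (r₀ i) with hRr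
  set Ff : Fin n → O[X] := fun i => Polynomial.C (φ i) + Polynomial.X * Polynomial.C (φ₀ i) with hFf
  set δ : O[X] := (kcol U Rr).det * (krow U Ff).det with hδ
  have hp : IsUnit (δ ^ M).leadingCoeff := by
    have h5 : δ.leadingCoeff ^ M ≠ 0 := (hlead.pow M).ne_zero
    rw [Polynomial.leadingCoeff_pow' h5]
    exact hlead.pow M
  obtain ⟨O', _, _, i, π, ε, hπi, hπε, hunit, hann⟩ := h1 O (δ ^ M) hp
  set ψ : O[X] →+* O' := Polynomial.eval₂RingHom i ε with hψ
  have hψC : ∀ x : O, ψ (Polynomial.C x) = i x := fun x => Polynomial.eval₂_C i ε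
  have hψX : ψ (Polynomial.X : O[X]) = ε := Polynomial.eval₂_X i ε
  have hUπ : (U.map ψ).map π = u.1 := by
    ext a b
    change π (ψ (U a b)) = u.1 a b
    rw [hU, Matrix.add_apply, Matrix.smul_apply, Matrix.map_apply, Matrix.map_apply, smul_eq_mul,
      map_add, map_mul, hψC, hψC, hψX, map_add, map_mul, hπi, hπε, zero_mul, add_zero]
  have hRπ : ∀ j, π (ψ (Rr j)) = r j := by
    intro j
    rw [hRr]
    change π (ψ (Polynomial.C (r j) + Polynomial.X * Polynomial.C (r₀ j))) = r j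
    rw [map_add, map_mul, hψC, hψC, hψX, map_add, map_mul, hπi, hπε, zero_mul, add_zero]
  have hFπ : ∀ j, π (ψ (Ff j)) = φ j := by
    intro j
    rw [hFf]
    change π (ψ (Polynomial.C (φ j) + Polynomial.X * Polynomial.C (φ₀ j))) = φ j
    rw [map_add, map_mul, hψC, hψC, hψX, map_add, map_mul, hπi, hπε, zero_mul, add_zero]
  set V : Matrix (Fin n) (Fin n) O' := 1 + vecMulVec (fun j => ψ (Rr j)) (fun j => ψ (Ff j)) with hV
  have hVπ : V.map π = v.1 := by
    rw [hv]
    ext a b
    change π (V a b) = _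
    rw [hV, Matrix.add_apply, Matrix.add_apply, Matrix.vecMulVec_apply, Matrix.vecMulVec_apply,
      map_add, map_mul, hRπ, hFπ]
    congr 1
    rw [Matrix.one_apply, Matrix.one_apply]
    split_ifs
    · exact map_one π
    · exact map_zero π
  have hUu : IsUnit (U.map ψ).det := by
    apply hunit
    rw [RingHom.map_det]
    change IsUnit ((U.map ψ).map π).det
    rw [hUπ]
    exact (Matrix.isUnit_iff_isUnit_det _).1 u.isUnit
  have hVu : IsUnit V.det := by
    apply hunit
    rw [RingHom.map_det]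
    change IsUnit (V.map π).det
    rw [hVπ]
    exact (Matrix.isUnit_iff_isUnit_det _).1 v.isUnit
  set u' : GL (Fin n) O' := RDEF.mk (U.map ψ) hUu with hu'
  set v' : GL (Fin n) O' := RDEF.mk V hVu with hv'
  have key := hM f hf O' u' v' (fun j => ψ (Rr j)) (fun j => ψ (Ff j)) (by rw [hv', mk_val])
  set κ' : GL (Fin n) O' := E (cj f * F1 (cj f) f) u' v' with hκ'
  have e1 : (kcol u'.1 (fun j => ψ (Rr j))).det * (krow u'.1 (fun j => ψ (Ff j))).det = ψ δ := by
    rw [hδ, map_mul, kcol_det_map, krow_det_map]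
    rfl
  rw [e1, ← map_pow] at key
  have e2 : ∀ a b, π ((v'.1 * κ'.1 - κ'.1 * v'.1) a b) = 0 := by
    intro a b
    apply hann
    have := congrFun (congrFun key a) b
    rw [Matrix.smul_apply, smul_eq_mul] at this
    exact this
  have e3 : Matrix.GeneralLinearGroup.map π u' = u := by
    apply Units.ext
    exact hUπ
  have e4 : Matrix.GeneralLinearGroup.map π v' = v := by
    apply Units.ext
    exact hVπ
  have e5 := map_E (Matrix.GeneralLinearGroup.map (n := Fin n) π) (cj f * F1 (cj f) f) u' v'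
  rw [e3, e4] at e5
  have e6 : v * E (cj f * F1 (cj f) f) u v = E (cj f * F1 (cj f) f) u v * v := by
    rw [← e5, ← e4, ← map_mul, ← map_mul]
    apply Units.ext
    ext a b
    change π ((v'.1 * κ'.1) a b) = π ((κ'.1 * v'.1) a b)
    have e7 := e2 a b
    rw [Matrix.sub_apply, map_sub, sub_eq_zero] at e7
    exact e7
  rw [mul_assoc, e6, inv_mul_cancel_left]

end Pool.Agent.GTD
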