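import Pool.Agent.GTD.Stmts2

set_option autoImplicit false

/-!
# Module RIGL: linearly rigid pairs
-/

namespace Pool.Agent.GTD

open Matrix

namespace RIGL

variable {K : Type} [Field K] {n : ℕ}

/-- transpose of an invertible matrix -/
def tr (M : GL (Fin n) K) : GL (Fin n) K where
  val := M.1ᵀ
  inv := (M⁻¹).1ᵀ
  val_inv := by
    rw [← transpose_mul]
    have : (M⁻¹).1 * M.1 = 1 := by rw [← Units.val_mul, inv_mul_cancel]; rfl
    rw [this, transpose_one]
  inv_val := by
    rw [← transpose_mul]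
    have : M.1 * (M⁻¹).1 = 1 := by rw [← Units.val_mul, mul_inv_cancel]; rfl
    rw [this, transpose_one]

theorem tr_mul (M N : GL (Fin n) K) : tr (M * N) = tr N * tr M := by
  apply Units.ext
  change (M.1 * N.1)ᵀ = N.1ᵀ * M.1ᵀ
  rw [transpose_mul]

theorem tr_one : tr (1 : GL (Fin n) K) = 1 := by
  apply Units.ext
  change (1 : Matrix (Fin n) (Fin n) K)ᵀ = 1
  rw [transpose_one]

theorem tr_inv (M : GL (Fin n) K) : tr M⁻¹ = (tr M)⁻¹ := by
  apply eq_inv_of_mul_eq_one_left
  rw [← tr_mul, mul_inv_cancel, tr_one]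

theorem conj_tr (h : Stmt_TRSP) (M : GL (Fin n) K) : IsConj M (tr M) := by
  obtain ⟨P, hP⟩ := h K n M.1
  rw [isConj_iff]
  refine ⟨P, ?_⟩
  have h1 : P * M = tr M * P := Units.ext hP
  rw [h1, mul_inv_cancel_right]

theorem aeval_transpose (u : Matrix (Fin n) (Fin n) K) (p : Polynomial K) :
    (Polynomial.aeval u p)ᵀ = Polynomial.aeval uᵀ p := by
  induction p using Polynomial.induction_on' with
  | add p q hp hq => rw [map_add, map_add, transpose_add, hp, hq]
  | monomial m a =>
    rw [Polynomial.aeval_monomial, Polynomial.aeval_monomial, transpose_mul, transpose_pow,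
      Algebra.algebraMap_eq_smul_one, transpose_smul, transpose_one]
    rw [Matrix.mul_smul, Matrix.smul_mul, Matrix.one_mul, Matrix.mul_one]

theorem aeval_conj (g : GL (Fin n) K) (u : Matrix (Fin n) (Fin n) K) (p : Polynomial K) :
    Polynomial.aeval (g.1 * u * (g⁻¹).1) p = g.1 * Polynomial.aeval u p * (g⁻¹).1 := by
  induction p using Polynomial.induction_on' with
  | add p q hp hq => rw [map_add, map_add, hp, hq, Matrix.mul_add, Matrix.add_mul]
  | monomial m a =>
    have h1 : (g.1 * u * (g⁻¹).1) ^ m = g.1 * u ^ m * (g⁻¹).1 := Units.conj_pow g u m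
    rw [Polynomial.aeval_monomial, Polynomial.aeval_monomial, h1,
      Algebra.algebraMap_eq_smul_one, Matrix.smul_mul, Matrix.one_mul, Matrix.smul_mul,
      Matrix.one_mul, Matrix.mul_smul, Matrix.smul_mul]

end RIGL

open RIGL in
theorem thm_RIGL (hT : Stmt_TRSP) : Stmt_RIGL := by
  intro K _ n u v hr hn
  refine ⟨hr, ?_⟩
  have huv : IsConj (u * v) (tr u * tr v) := by
    rw [← tr_mul]
    refine IsConj.trans ?_ (conj_tr hT (v * u))
    rw [isConj_iff]
    exact ⟨v, by group⟩
  obtain ⟨g, hgu, hgv⟩ := hr (tr u) (tr v) (conj_tr hT u) (conj_tr hT v) huv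
  let ι : GL (Fin n) K →* GL (Fin n) K :=
    { toFun := fun M => g⁻¹ * tr M⁻¹ * g
      map_one' := by
        rw [inv_one, tr_one]
        group
      map_mul' := by
        intro M N
        rw [_root_.mul_inv_rev, tr_mul]
        group }
  have hι : ∀ M, ι M = g⁻¹ * tr M⁻¹ * g := fun _ => rfl
  have key : ∀ M : GL (Fin n) K, tr M = g * M * g⁻¹ → ι M = M⁻¹ := by
    intro M hM
    rw [hι, tr_inv, hM]
    group
  refine ⟨ι, key u hgu, key v hgv, fun a ha => key a ?_⟩
  have ha' : a.1 * u.1 = u.1 * a.1 := congrArg Units.val ha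
  obtain ⟨p, hp⟩ := hn a.1 ha'
  apply Units.ext
  change a.1ᵀ = g.1 * a.1 * (g⁻¹).1
  have hu' : u.1ᵀ = g.1 * u.1 * (g⁻¹).1 := congrArg Units.val hgu
  rw [hp, aeval_transpose, hu', aeval_conj]

end Pool.Agent.GTD
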