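import Pool.Agent.GTD.All
import Pool.Agent.GTD.FIN3
import Pool.Agent.GTD.RIG
import Pool.Agent.GTD.TRSP
import Pool.Agent.GTD.HYP
import Pool.Agent.GTD.RIGL
import Pool.Agent.GTD.MOMx
import Pool.Agent.GTD.INTM
import Pool.Agent.GTD.RCORE
import Pool.Agent.GTD.LEAD
import Pool.Agent.GTD.RDEF

set_option autoImplicit false

namespace Pool.Agent.GTD

theorem all_CZ : Stmt_CZ := fun f hf H _ _ u v => RIG.conj_prod f hf H u v
theorem all_INTM : Stmt_INTM := thm_INTM thm_API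
theorem all_RCORE : Stmt_RCORE := thm_RCORE thm_MOMx all_INTM all_CZ
theorem all_RDEF : Stmt_RDEF := thm_RDEF thm_ANN all_RCORE thm_LEAD
theorem all_RIGL : Stmt_RIGL := thm_RIGL thm_TRSP
theorem all_main : Stmt_main :=
  thm_FIN3 thm_API thm_GT1 thm_UNIT all_final thm_CONJ thm_RIG all_RIGL thm_HYP all_RDEF
theorem all_B : Stmt_B := thm_FINB thm_GT1 all_GASS all_DEFO all_META

end Pool.Agent.GTD
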