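import Pool.Agent.GTD.Stmts

set_option autoImplicit false

/-!
# Project GTD, module DEFO: the deformation argument
-/

namespace Pool.Agent.GTD

open Matrix

namespace DEFO

open Polynomial

/-- minus the determinant of the commutator of `u + X E₁₂` and `v + X E₂₁` -/
noncomputable def q4 {O : Type} [CommRing O] (u v : Matrix (Fin 2) (Fin 2) O) : O[X] :=
  (Polynomial.X ^ 2 + (C (u 0 1 + v 1 0) * Polynomial.X + C (u 0 1 * v 1 0 - v 0 1 * u 1 0))) ^ 2 +
    (C (v 1 1 - v 0 0) * Polynomial.X + C (u 0 0 * v 0 1 + u 0 1 * v 1 1 - v 0 0 * u 0 1 - v 0 1 * u 1 1)) *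
    (C (u 1 1 - u 0 0) * Polynomial.X + C (u 1 0 * v 0 0 + u 1 1 * v 1 0 - v 1 0 * u 0 0 - v 1 1 * u 1 0))

theorem q4_monic {O : Type} [CommRing O] [Nontrivial O] (u v : Matrix (Fin 2) (Fin 2) O) :
    (q4 u v).Monic := by
  have h1 : ∀ a b : O, (C a * Polynomial.X + C b : O[X]).degree ≤ 1 := fun a b => degree_linear_le
  have h2 : ∀ a b : O, (Polynomial.X ^ 2 + (C a * Polynomial.X + C b) : O[X]).Monic := by
    intro a b
    apply monic_X_pow_add
    exact (h1 a b).trans_lt (by norm_num)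
  have h3 : ∀ a b : O, (Polynomial.X ^ 2 + (C a * Polynomial.X + C b) : O[X]).degree = 2 := by
    intro a b
    rw [degree_add_eq_left_of_degree_lt, degree_X_pow]
    · rfl
    · rw [degree_X_pow]
      exact (h1 a b).trans_lt (by norm_num)
  have h4 : ∀ a b : O, ((Polynomial.X ^ 2 + (C a * Polynomial.X + C b) : O[X]) ^ 2).degree = 4 := by
    intro a b
    rw [sq (Polynomial.X ^ 2 + (C a * Polynomial.X + C b) : O[X]), (h2 a b).degree_mul, h3]
    norm_num
  apply Monic.add_of_left ((h2 _ _).pow 2)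
  rw [h4]
  refine (degree_mul_le _ _).trans_lt ?_
  refine (add_le_add (h1 _ _) (h1 _ _)).trans_lt ?_
  norm_num

theorem det_eq {O : Type} [CommRing O] {O' : Type} [CommRing O'] (i : O →+* O') (ε : O')
    (u v : Matrix (Fin 2) (Fin 2) O) :
    (!![i (u 0 0), i (u 0 1) + ε; i (u 1 0), i (u 1 1)] *
        !![i (v 0 0), i (v 0 1); i (v 1 0) + ε, i (v 1 1)] -
      !![i (v 0 0), i (v 0 1); i (v 1 0) + ε, i (v 1 1)] *
        !![i (u 0 0), i (u 0 1) + ε; i (u 1 0), i (u 1 1)]).det ^ 2 =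
      eval₂ i ε (q4 u v ^ 2) := by
  have e : ∀ a b c d a' b' c' d' : O', (!![a, b; c, d] - !![a', b'; c', d']).det =
      (a - a') * (d - d') - (b - b') * (c - c') := by
    intro a b c d a' b' c' d'
    rw [Matrix.det_fin_two]
    rfl
  rw [Matrix.mul_fin_two, Matrix.mul_fin_two, e, eval₂_pow, q4, eval₂_add, eval₂_pow, eval₂_mul,
    eval₂_add, eval₂_add, eval₂_add, eval₂_add, eval₂_pow, eval₂_mul, eval₂_mul, eval₂_mul, eval₂_X,
    eval₂_C, eval₂_C, eval₂_C, eval₂_C, eval₂_C, eval₂_C]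
  simp only [map_add, map_mul, map_sub]
  ring

end DEFO

open DEFO

theorem thm_DEFO (h1 : Stmt_ANN) (h2 : Stmt_DEF1) : Stmt_DEFO := by
  intro w₀ hw hG O _ _ u v
  rcases subsingleton_or_nontrivial O with hO | hO
  · apply Units.ext
    ext a b
    exact Subsingleton.elim _ _
  have hm := (q4_monic u.1 v.1).pow 2
  obtain ⟨O', _, _, i, π, ε, hπi, hπε, hunit, hann⟩ := h1 O (q4 u.1 v.1 ^ 2) (by
    rw [hm.leadingCoeff]; exact isUnit_one)
  let A : Matrix (Fin 2) (Fin 2) O' := !![i (u.1 0 0), i (u.1 0 1) + ε; i (u.1 1 0), i (u.1 1 1)]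
  let B : Matrix (Fin 2) (Fin 2) O' := !![i (v.1 0 0), i (v.1 0 1); i (v.1 1 0) + ε, i (v.1 1 1)]
  have hA : IsUnit A.det := by
    apply hunit
    have e1 : π A.det = u.1.det := by
      rw [Matrix.det_fin_two_of, Matrix.det_fin_two, map_sub, map_mul, map_mul, map_add, hπε,
        hπi, hπi, hπi, hπi, add_zero]
    rw [e1]
    exact (Matrix.isUnit_iff_isUnit_det _).1 u.isUnit
  have hB : IsUnit B.det := by
    apply hunit
    have e1 : π B.det = v.1.det := by
      rw [Matrix.det_fin_two_of, Matrix.det_fin_two, map_sub, map_mul, map_mul, map_add, hπε,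
        hπi, hπi, hπi, hπi, add_zero]
    rw [e1]
    exact (Matrix.isUnit_iff_isUnit_det _).1 v.isUnit
  let u' : GL (Fin 2) O' := Matrix.nonsingInvUnit A hA
  let v' : GL (Fin 2) O' := Matrix.nonsingInvUnit B hB
  have key := h2 w₀ hw hG O' u' v'
  have e1 : (u'.1 * v'.1 - v'.1 * u'.1).det ^ 2 = Polynomial.eval₂ i ε (q4 u.1 v.1 ^ 2) :=
    det_eq i ε u.1 v.1
  rw [e1] at key
  have e2 : ∀ a b, π (((E w₀ u' v').1 - 1) a b) = 0 := by
    intro a b
    apply hann
    have := congrFun (congrFun key a) b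
    rw [Matrix.smul_apply, smul_eq_mul] at this
    exact this
  have e3 : Matrix.GeneralLinearGroup.map π u' = u := by
    apply Units.ext
    ext a b
    show π (A a b) = u.1 a b
    fin_cases a <;> fin_cases b <;> simp [A, hπi, hπε]
  have e4 : Matrix.GeneralLinearGroup.map π v' = v := by
    apply Units.ext
    ext a b
    show π (B a b) = v.1 a b
    fin_cases a <;> fin_cases b <;> simp [B, hπi, hπε]
  have e5 := map_E (Matrix.GeneralLinearGroup.map (n := Fin 2) π) w₀ u' v'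
  rw [e3, e4] at e5
  rw [← e5]
  apply Units.ext
  ext a b
  show π ((E w₀ u' v').1 a b) = (1 : Matrix (Fin 2) (Fin 2) O) a b
  have e6 := e2 a b
  rw [Matrix.sub_apply, map_sub, sub_eq_zero] at e6
  rw [e6, Matrix.one_apply, Matrix.one_apply]
  split_ifs
  · exact map_one π
  · exact map_zero π

end Pool.Agent.GTD
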