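import Mathlib

set_option autoImplicit false

/-!
# The profinite Grothendieck–Teichmüller group: definitions

`Comp G` is the profinite completion of a group `G` (compatible families of elements of the finite
quotients), `F2h = Comp (FreeGroup (Fin 2))` is the free profinite group on `X`, `Y`, `ZHat` the
ring of profinite integers, `Pair` the monoid of the pairs `(lam, f)` and `GT` the set of the pairs
which satisfy the relations (I), (II), (III) and define automorphisms.
-/

namespace Pool.Agent.GTD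

/-! ## Profinite completions -/

/-- The profinite completion of `G`: compatible families of elements of the finite quotients
`G ⧸ N`. -/
@[ext] structure Comp (G : Type) [Group G] where
  /-- the components -/
  val : (N : FiniteIndexNormalSubgroup G) → G ⧸ N.toSubgroup
  /-- compatibility -/
  prop : ∀ (M N : FiniteIndexNormalSubgroup G) (h : M.toSubgroup ≤ N.toSubgroup),
    QuotientGroup.map M.toSubgroup N.toSubgroup (MonoidHom.id G) h (val M) = val N

section CompGroup

variable {G : Type} [Group G]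

theorem Comp.mul_prop (a b : Comp G) (M N : FiniteIndexNormalSubgroup G)
    (h : M.toSubgroup ≤ N.toSubgroup) :
    QuotientGroup.map M.toSubgroup N.toSubgroup (MonoidHom.id G) h (a.val M * b.val M) =
      a.val N * b.val N := by
  rw [map_mul, a.prop M N h, b.prop M N h]

theorem Comp.inv_prop (a : Comp G) (M N : FiniteIndexNormalSubgroup G)
    (h : M.toSubgroup ≤ N.toSubgroup) :
    QuotientGroup.map M.toSubgroup N.toSubgroup (MonoidHom.id G) h (a.val M)⁻¹ =
      (a.val N)⁻¹ := by
  rw [map_inv, a.prop M N h]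

theorem Comp.one_prop (M N : FiniteIndexNormalSubgroup G)
    (h : M.toSubgroup ≤ N.toSubgroup) :
    QuotientGroup.map M.toSubgroup N.toSubgroup (MonoidHom.id G) h 1 = 1 := map_one _

instance : Mul (Comp G) := ⟨fun a b => ⟨fun N => a.val N * b.val N, Comp.mul_prop a b⟩⟩
instance : One (Comp G) := ⟨⟨fun _ => 1, Comp.one_prop⟩⟩
instance : Inv (Comp G) := ⟨fun a => ⟨fun N => (a.val N)⁻¹, Comp.inv_prop a⟩⟩

theorem Comp.assoc' (a b c : Comp G) : a * b * c = a * (b * c) :=
  Comp.ext (funext fun _ => mul_assoc _ _ _)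

theorem Comp.one_mul' (a : Comp G) : 1 * a = a := Comp.ext (funext fun _ => one_mul _)

theorem Comp.inv_mul' (a : Comp G) : a⁻¹ * a = 1 := Comp.ext (funext fun _ => inv_mul_cancel _)

instance : Group (Comp G) := Group.ofLeftAxioms Comp.assoc' Comp.one_mul' Comp.inv_mul'

end CompGroup

/-- The canonical homomorphism from a group to its profinite completion. -/
def eta {G : Type} [Group G] : G →* Comp G where
  toFun g := ⟨fun N => (QuotientGroup.mk g : G ⧸ N.toSubgroup), fun _ _ _ => rfl⟩
  map_one' := rfl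
  map_mul' _ _ := rfl

/-- The kernel of a homomorphism to a finite group. -/
def kerF {G H : Type} [Group G] [Group H] [Finite H] (φ : G →* H) :
    FiniteIndexNormalSubgroup G :=
  FiniteIndexNormalSubgroup.ofSubgroup φ.ker

/-- The homomorphism induced on the quotient by the kernel. -/
def kerLiftF {G H : Type} [Group G] [Group H] [Finite H] (φ : G →* H) :
    G ⧸ (kerF φ).toSubgroup →* H :=
  QuotientGroup.lift (kerF φ).toSubgroup φ (fun _ hx => hx)

/-- The continuous extension to the profinite completion of a homomorphism to a finite group. -/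
noncomputable def ev {G H : Type} [Group G] [Group H] [Finite H] (φ : G →* H) : Comp G →* H where
  toFun w := kerLiftF φ (w.1 (kerF φ))
  map_one' := map_one (kerLiftF φ)
  map_mul' a b := map_mul (kerLiftF φ) (a.1 (kerF φ)) (b.1 (kerF φ))

lemma ev_eq {G H : Type} [Group G] [Group H] [Finite H] (φ : G →* H) (w : Comp G)
    (M : FiniteIndexNormalSubgroup G) (hM : M.toSubgroup ≤ φ.ker) (g : G)
    (hg : w.1 M = (QuotientGroup.mk g : G ⧸ M.toSubgroup)) : ev φ w = φ g := by
  have h1 : w.1 (kerF φ) = (QuotientGroup.mk g : G ⧸ (kerF φ).toSubgroup) := by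
    have h2 := w.2 M (kerF φ) hM
    rw [← h2, hg]
    rfl
  change kerLiftF φ (w.1 (kerF φ)) = φ g
  rw [h1]
  rfl

lemma ev_eta {G H : Type} [Group G] [Group H] [Finite H] (φ : G →* H) (g : G) :
    ev φ (eta g) = φ g := rfl

/-- Naturality of `ev`. -/
lemma map_ev {G H K : Type} [Group G] [Group H] [Finite H] [Group K] [Finite K] (φ : G →* H)
    (ψ : H →* K) (w : Comp G) : ψ (ev φ w) = ev (ψ.comp φ) w := by
  obtain ⟨g, hg⟩ := QuotientGroup.mk_surjective (w.1 (kerF φ))
  rw [ev_eq φ w (kerF φ) le_rfl g hg.symm,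
    ev_eq (ψ.comp φ) w (kerF φ) (fun x hx => by
      have hx' : φ x = 1 := hx
      change ψ (φ x) = 1
      rw [hx', map_one]) g hg.symm]
  rfl

/-- The closed commutator subgroup of the profinite completion: the elements whose image in every
finite quotient lies in the commutator subgroup of this quotient. -/
def closedComm (G : Type) [Group G] : Subgroup (Comp G) where
  carrier := {w | ∀ N : FiniteIndexNormalSubgroup G, w.1 N ∈ commutator (G ⧸ N.toSubgroup)}
  mul_mem' ha hb N := mul_mem (ha N) (hb N)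
  one_mem' _ := one_mem _
  inv_mem' ha N := inv_mem (ha N)

lemma ev_mem_commutator {G H : Type} [Group G] [Group H] [Finite H] (φ : G →* H) (w : Comp G)
    (hw : w ∈ closedComm G) : ev φ w ∈ commutator H := by
  have h1 := Subgroup.mem_map_of_mem (kerLiftF φ) (hw (kerF φ))
  have h2 : Subgroup.map (kerLiftF φ) (commutator (G ⧸ (kerF φ).toSubgroup)) ≤
      commutator H := by
    rw [commutator_def, Subgroup.map_commutator]
    exact Subgroup.commutator_mono le_top le_top
  exact h2 h1

/-! ## Free profinite group of rank two -/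

/-- The free profinite group on two generators. -/
abbrev F2h : Type := Comp (FreeGroup (Fin 2))

/-- The first generator. -/
def X : F2h := eta (FreeGroup.of 0)

/-- The second generator. -/
def Y : F2h := eta (FreeGroup.of 1)

/-- The homomorphism `FreeGroup (Fin 2) → H` with `x ↦ a`, `y ↦ b`. -/
def lift2 {H : Type} [Group H] (a b : H) : FreeGroup (Fin 2) →* H := FreeGroup.lift ![a, b]

@[simp] lemma lift2_zero {H : Type} [Group H] (a b : H) : lift2 a b (FreeGroup.of 0) = a := by
  simp [lift2]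

@[simp] lemma lift2_one {H : Type} [Group H] (a b : H) : lift2 a b (FreeGroup.of 1) = b := by
  simp [lift2]

lemma lift2_unique {H : Type} [Group H] (φ : FreeGroup (Fin 2) →* H) :
    φ = lift2 (φ (FreeGroup.of 0)) (φ (FreeGroup.of 1)) := by
  apply FreeGroup.ext_hom
  intro i
  fin_cases i <;> simp

lemma comp_lift2 {H K : Type} [Group H] [Group K] (ψ : H →* K) (a b : H) :
    ψ.comp (lift2 a b) = lift2 (ψ a) (ψ b) := by
  apply FreeGroup.ext_hom
  intro i
  fin_cases i <;> simp

/-- The value `f(a,b)` of `f ∈ F2h` at two elements of a finite group. -/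
noncomputable def E {H : Type} [Group H] [Finite H] (f : F2h) (a b : H) : H := ev (lift2 a b) f

@[simp] lemma E_X {H : Type} [Group H] [Finite H] (a b : H) : E X a b = a := by
  rw [E, X, ev_eta, lift2_zero]

@[simp] lemma E_Y {H : Type} [Group H] [Finite H] (a b : H) : E Y a b = b := by
  rw [E, Y, ev_eta, lift2_one]

@[simp] lemma E_one {H : Type} [Group H] [Finite H] (a b : H) : E 1 a b = 1 := map_one _

@[simp] lemma E_mul {H : Type} [Group H] [Finite H] (f g : F2h) (a b : H) :
    E (f * g) a b = E f a b * E g a b := map_mul _ _ _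

@[simp] lemma E_inv {H : Type} [Group H] [Finite H] (f : F2h) (a b : H) :
    E f⁻¹ a b = (E f a b)⁻¹ := map_inv _ _

lemma map_E {H K : Type} [Group H] [Finite H] [Group K] [Finite K] (ψ : H →* K) (f : F2h)
    (a b : H) : ψ (E f a b) = E f (ψ a) (ψ b) := by
  rw [E, map_ev, comp_lift2, E]

/-- The value `f(u,v)` of `f ∈ F2h` at two elements of a profinite completion. -/
noncomputable def subst {G : Type} [Group G] (u v : Comp G) : F2h →* Comp G where
  toFun f := ⟨fun N => E f (u.1 N) (v.1 N), fun M N h => by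
    rw [map_E, u.2 M N h, v.2 M N h]⟩
  map_one' := Comp.ext (funext fun N => E_one _ _)
  map_mul' f g := Comp.ext (funext fun N => E_mul f g _ _)

lemma subst_apply {G : Type} [Group G] (u v : Comp G) (f : F2h)
    (N : FiniteIndexNormalSubgroup G) : (subst u v f).1 N = E f (u.1 N) (v.1 N) := rfl

lemma ev_subst {G H : Type} [Group G] [Group H] [Finite H] (φ : G →* H) (u v : Comp G)
    (f : F2h) : ev φ (subst u v f) = E f (ev φ u) (ev φ v) := by
  change kerLiftF φ (E f (u.1 (kerF φ)) (v.1 (kerF φ))) = _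
  rw [map_E]
  rfl

@[simp] lemma E_subst {H : Type} [Group H] [Finite H] (f u v : F2h) (a b : H) :
    E (subst u v f) a b = E f (E u a b) (E v a b) := ev_subst _ u v f

/-- Two elements of `F2h` with the same values in all finite groups are equal. -/
lemma ext_E {f g : F2h} (h : ∀ (H : Type) [Group H] [Finite H] (a b : H), E f a b = E g a b) :
    f = g := by
  apply Comp.ext
  funext N
  obtain ⟨p, hp⟩ := QuotientGroup.mk_surjective (f.1 N)
  obtain ⟨q, hq⟩ := QuotientGroup.mk_surjective (g.1 N)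
  have h1 := h (FreeGroup (Fin 2) ⧸ N.toSubgroup) (QuotientGroup.mk (FreeGroup.of 0))
    (QuotientGroup.mk (FreeGroup.of 1))
  have h2 : lift2 (QuotientGroup.mk (FreeGroup.of 0) : FreeGroup (Fin 2) ⧸ N.toSubgroup)
      (QuotientGroup.mk (FreeGroup.of 1)) = QuotientGroup.mk' N.toSubgroup :=
    (lift2_unique (QuotientGroup.mk' N.toSubgroup)).symm
  rw [E, E, h2, ev_eq (QuotientGroup.mk' N.toSubgroup) f N (by rw [QuotientGroup.ker_mk']) p
    hp.symm, ev_eq (QuotientGroup.mk' N.toSubgroup) g N (by rw [QuotientGroup.ker_mk']) q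
    hq.symm] at h1
  rw [← hp, ← hq]
  exact h1

/-! ## Profinite integers and powers -/

/-- The subring of the compatible families of the product of the rings `ZMod n`. -/
def ZHatS : Subring ((n : ℕ+) → ZMod n) where
  carrier := {a | ∀ (m n : ℕ+) (h : (m : ℕ) ∣ n), ZMod.castHom h (ZMod m) (a n) = a m}
  mul_mem' := by
    intro a b ha hb m n h
    simp only [Pi.mul_apply, map_mul, ha m n h, hb m n h]
  one_mem' := by
    intro m n h
    simp only [Pi.one_apply, map_one]
  add_mem' := by
    intro a b ha hb m n h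
    simp only [Pi.add_apply, map_add, ha m n h, hb m n h]
  zero_mem' := by
    intro m n h
    simp only [Pi.zero_apply, map_zero]
  neg_mem' := by
    intro a ha m n h
    simp only [Pi.neg_apply, map_neg, ha m n h]

/-- The ring of profinite integers: compatible families of elements of the rings `ZMod n`. -/
def ZHat : Type := ZHatS

instance : CommRing ZHat := Subring.toCommRing ZHatS

/-- The power `g ^ l` of an element of a finite group, `l ∈ ZHat`. -/
noncomputable def fpow {H : Type} [Group H] [Finite H] (g : H) (l : ZHat) : H :=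
  g ^ (l.1 ⟨Nat.card H, Nat.card_pos⟩).val

lemma fpow_eq {H : Type} [Group H] [Finite H] (g : H) (l : ZHat) (n : ℕ+)
    (hn : g ^ (n : ℕ) = 1) (k : ℤ) (hk : ((k : ℤ) : ZMod n) = l.1 n) : fpow g l = g ^ k := by
  set m : ℕ+ := ⟨Nat.card H, Nat.card_pos⟩ with hm
  have h1 : (orderOf g : ℤ) ∣ ((l.1 m).val : ℤ) - k := by
    have hd1 : orderOf g ∣ (m : ℕ) := orderOf_dvd_natCard g
    have hd2 : orderOf g ∣ (n : ℕ) := orderOf_dvd_of_pow_eq_one hn
    have hpos : 0 < orderOf g := orderOf_pos g
    have e1 := l.2 ⟨orderOf g, hpos⟩ m hd1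
    have e2 := l.2 ⟨orderOf g, hpos⟩ n hd2
    rw [← hk, map_intCast, ← e1] at e2
    have e3 : (ZMod.castHom hd1 (ZMod (orderOf g))) (l.1 m) =
        (((l.1 m).val : ℤ) : ZMod (orderOf g)) := by
      conv_lhs => rw [← ZMod.natCast_zmod_val (l.1 m)]
      rw [map_natCast]
      push_cast
      rfl
    have e4 : (((l.1 m).val : ℤ) : ZMod (orderOf g)) = ((k : ℤ) : ZMod (orderOf g)) := by
      rw [← e3]; exact e2.symm
    have e5 := (ZMod.intCast_eq_intCast_iff_dvd_sub _ _ _).1 e4.symm
    exact e5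
  have h2 : g ^ ((l.1 m).val : ℤ) = g ^ k := by
    rw [zpow_eq_zpow_iff_modEq]
    exact (Int.modEq_iff_dvd.2 h1).symm
  rw [← h2, zpow_natCast]
  rfl

lemma map_fpow {H K : Type} [Group H] [Finite H] [Group K] [Finite K] (ψ : H →* K) (g : H)
    (l : ZHat) : ψ (fpow g l) = fpow (ψ g) l := by
  have h1 : ψ (fpow g l) = ψ g ^ ((l.1 ⟨Nat.card H, Nat.card_pos⟩).val : ℤ) := by
    rw [fpow, map_pow, zpow_natCast]
  rw [h1]
  symm
  apply fpow_eq (ψ g) l ⟨Nat.card H, Nat.card_pos⟩
  · change ψ g ^ Nat.card H = 1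
    rw [← map_pow, pow_card_eq_one', map_one]
  · push_cast
    exact ZMod.natCast_zmod_val _

/-- The power `g ^ l` of an element of a profinite completion, `l ∈ ZHat`. -/
noncomputable def cpow {G : Type} [Group G] (g : Comp G) (l : ZHat) : Comp G :=
  ⟨fun N => fpow (g.1 N) l, fun M N h => by rw [map_fpow, g.2 M N h]⟩

lemma ev_cpow {G H : Type} [Group G] [Group H] [Finite H] (φ : G →* H) (g : Comp G) (l : ZHat) :
    ev φ (cpow g l) = fpow (ev φ g) l := by
  change kerLiftF φ (fpow (g.1 (kerF φ)) l) = _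
  rw [map_fpow]
  rfl

@[simp] lemma E_cpow {H : Type} [Group H] [Finite H] (g : F2h) (l : ZHat) (a b : H) :
    E (cpow g l) a b = fpow (E g a b) l := ev_cpow _ g l

@[simp] lemma fpow_one {H : Type} [Group H] [Finite H] (g : H) : fpow g 1 = g := by
  rw [fpow_eq g 1 ⟨Nat.card H, Nat.card_pos⟩ (pow_card_eq_one') 1 (Int.cast_one), zpow_one]

@[simp] lemma fpow_zero {H : Type} [Group H] [Finite H] (g : H) : fpow g 0 = 1 := by
  rw [fpow_eq g 0 ⟨Nat.card H, Nat.card_pos⟩ (pow_card_eq_one') 0 (Int.cast_zero), zpow_zero]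

@[simp] lemma fpow_neg_one {H : Type} [Group H] [Finite H] (g : H) : fpow g (-1) = g⁻¹ := by
  rw [fpow_eq g (-1) ⟨Nat.card H, Nat.card_pos⟩ (pow_card_eq_one') (-1)
    (by rw [Int.cast_neg, Int.cast_one]; rfl),
    zpow_neg_one]

lemma fpow_mul {H : Type} [Group H] [Finite H] (g : H) (l m : ZHat) :
    fpow g (l * m) = fpow (fpow g l) m := by
  set n : ℕ+ := ⟨Nat.card H, Nat.card_pos⟩ with hn
  have h0 : ∀ h : H, h ^ (n : ℕ) = 1 := fun h => pow_card_eq_one'
  rw [fpow_eq g l n (h0 g) ((l.1 n).val : ℤ) (by push_cast; exact ZMod.natCast_zmod_val _),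
    fpow_eq _ m n (h0 _) ((m.1 n).val : ℤ) (by push_cast; exact ZMod.natCast_zmod_val _),
    ← zpow_mul]
  apply fpow_eq g (l * m) n (h0 g)
  push_cast
  rw [ZMod.natCast_zmod_val, ZMod.natCast_zmod_val]
  rfl

lemma conj_fpow {H : Type} [Group H] [Finite H] (g h : H) (l : ZHat) :
    fpow (h⁻¹ * g * h) l = h⁻¹ * fpow g l * h := by
  have := map_fpow (MulAut.conj h⁻¹).toMonoidHom g l
  simpa using this.symm

/-! ## The pairs `(lam, f)` -/

/-- Pairs `(lam, f)` with `lam` a unit of `ZHat` and `f` in the closed commutator subgroup of the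
free profinite group on two generators. -/
@[ext] structure Pair where
  /-- the unit -/
  lam : ZHatˣ
  /-- the element of the free profinite group -/
  f : F2h
  /-- it lies in the closed commutator subgroup -/
  hf : f ∈ closedComm (FreeGroup (Fin 2))

/-- The endomorphism `x ↦ x ^ lam`, `y ↦ f⁻¹ y ^ lam f` of the free profinite group. -/
noncomputable def Pair.F (Φ : Pair) : F2h →* F2h :=
  subst (cpow X Φ.lam) (Φ.f⁻¹ * cpow Y Φ.lam * Φ.f)

lemma Pair.E_F {H : Type} [Group H] [Finite H] (Φ : Pair) (w : F2h) (a b : H) :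
    E (Φ.F w) a b =
      E w (fpow a Φ.lam) ((E Φ.f a b)⁻¹ * fpow b Φ.lam * E Φ.f a b) := by
  rw [Pair.F, E_subst]
  simp

lemma Pair.F_mem (Φ : Pair) (w : F2h) (hw : w ∈ closedComm (FreeGroup (Fin 2))) :
    Φ.F w ∈ closedComm (FreeGroup (Fin 2)) := fun _ => ev_mem_commutator _ w hw

noncomputable instance : Mul Pair :=
  ⟨fun Φ Ψ => ⟨Φ.lam * Ψ.lam, Φ.f * Φ.F Ψ.f, mul_mem Φ.hf (Φ.F_mem _ Ψ.hf)⟩⟩

instance : One Pair := ⟨⟨1, 1, one_mem _⟩⟩

@[simp] lemma Pair.mul_lam (Φ Ψ : Pair) : (Φ * Ψ).lam = Φ.lam * Ψ.lam := rfl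
@[simp] lemma Pair.mul_f (Φ Ψ : Pair) : (Φ * Ψ).f = Φ.f * Φ.F Ψ.f := rfl
@[simp] lemma Pair.one_lam : (1 : Pair).lam = 1 := rfl
@[simp] lemma Pair.one_f : (1 : Pair).f = 1 := rfl

lemma Pair.F_mul (Φ Ψ : Pair) (w : F2h) : (Φ * Ψ).F w = Φ.F (Ψ.F w) := by
  apply ext_E
  intro H _ _ a b
  rw [Pair.E_F, Pair.E_F, Pair.E_F]
  simp only [Pair.mul_lam, Pair.mul_f, Units.val_mul, E_mul, Pair.E_F, fpow_mul]
  congr 1
  rw [mul_inv_rev, conj_fpow]
  group

lemma Pair.F_one (w : F2h) : (1 : Pair).F w = w := by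
  apply ext_E
  intro H _ _ a b
  rw [Pair.E_F]
  simp

/-- The composition law `(lam, f) (mu, g) = (lam mu, f F(g))`. -/
noncomputable instance : Monoid Pair where
  mul_assoc Φ Ψ Θ := by
    ext1
    · simp [mul_assoc]
    · simp [mul_assoc, Pair.F_mul]
  one_mul Φ := by
    ext1
    · simp
    · simp [Pair.F_one]
  mul_one Φ := by
    ext1
    · simp
    · simp

end Pool.Agent.GTD
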