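import Pool.Agent.GTD.Stmts

set_option autoImplicit false

namespace Pool.Agent.GTD

namespace FIN

/-- For `lam = 1` a pair whose `f` is trivial on all two-dimensional representations acts
trivially. -/
lemma triv_of (Φ : Pair) (hl : Φ.lam = 1)
    (h : ∀ (O : Type) [CommRing O] [Finite O] (u v : GL (Fin 2) O), E Φ.f u v = 1) :
    TrivGL2 Φ := by
  intro O _ _ u v w
  rw [Pair.E_F, h O u v, hl]
  simp

lemma cj_cj (f : F2h) : cj (cj f) = f := by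
  apply ext_E
  intro H _ _ a b
  simp

lemma closed_F1 (f w : F2h) (hw : w ∈ closedComm (FreeGroup (Fin 2))) :
    F1 f w ∈ closedComm (FreeGroup (Fin 2)) := fun _ => ev_mem_commutator _ w hw

/-- The two-dimensional values of `f F(f^c)`. -/
lemma inv_part (h2 : Stmt_CONJ) (h3 : Stmt_GASS) (h4 : Stmt_DEFO) (f : F2h) (hf : IsGT1 f)
    (O : Type) [CommRing O] [Finite O] (u v : GL (Fin 2) O) :
    E (f * F1 f (cj f)) u v = 1 := by
  apply h4 _ (mul_mem hf.comm (closed_F1 f _ (h2.2 f hf).comm))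
  intro O _ _ T₁ T₂ T₃
  exact (h3 O T₁ T₂ T₃).1 f hf

lemma comm_part (h3 : Stmt_GASS) (h4 : Stmt_DEFO) (f g : F2h) (hf : IsGT1 f) (hg : IsGT1 g)
    (O : Type) [CommRing O] [Finite O] (u v : GL (Fin 2) O) :
    E (f * F1 f g) u v = E (g * F1 g f) u v := by
  have key := h4 ((f * F1 f g) * (g * F1 g f)⁻¹)
    (mul_mem (mul_mem hf.comm (closed_F1 f _ hg.comm))
      (inv_mem (mul_mem hg.comm (closed_F1 g _ hf.comm))))
    (by
      intro O _ _ T₁ T₂ T₃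
      rw [E_mul, E_inv, (h3 O T₁ T₂ T₃).2.1 f g hf hg, mul_inv_cancel]) O u v
  rw [E_mul, E_inv] at key
  exact mul_inv_eq_one.1 key

end FIN

open FIN in
theorem thm_FIN (h1 : Stmt_GT1) (h2 : Stmt_CONJ) (h3 : Stmt_GASS) (h4 : Stmt_DEFO)
    (h5 : Stmt_META) (h6 : Stmt_UNIT) : Stmt_final := by
  obtain ⟨hu, hc, hcc, hcf, hF⟩ := h6
  refine ⟨hu, ⟨ccp, ccp, hcc, hcc⟩, hc, rfl, rfl, ?_⟩
  set c : Pairˣ := ⟨ccp, ccp, hcc, hcc⟩ with hcdef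
  have hcinv : (((c⁻¹ : Pairˣ)) : Pair) = ccp := rfl
  have hcval : ((c : Pairˣ) : Pair) = ccp := rfl
  -- the main point
  have main1 : ∀ Φ : Pairˣ, (Φ : Pair) ∈ GT → (Φ : Pair).lam = 1 →
      TrivGL2 (c * Φ * c⁻¹ * Φ : Pairˣ) ∧ ((c * Φ * c⁻¹ * Φ : Pairˣ) : Pair).lam = 1 := by
    intro Φ hΦ hl
    have hg := h1 Φ hΦ hl
    have hgc := h2.2 _ hg
    have e1 : ((c * Φ * c⁻¹ * Φ : Pairˣ) : Pair) = (ccp * Φ * ccp) * Φ := by
      simp [hcinv, hcval]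
    have hl1 := (hcf Φ hl).1
    have hf1 := (hcf Φ hl).2
    have hlam : ((c * Φ * c⁻¹ * Φ : Pairˣ) : Pair).lam = 1 := by
      rw [e1, Pair.mul_lam, hl1, hl, one_mul]
    refine ⟨?_, hlam⟩
    apply triv_of _ hlam
    intro O _ _ u v
    rw [e1, Pair.mul_f, hf1, hF _ hl1, hf1]
    have := inv_part h2 h3 h4 (cj (Φ : Pair).f) hgc O u v
    rwa [cj_cj] at this
  have main2 : ∀ Φ Ψ : Pairˣ, (Φ : Pair) ∈ GT → (Ψ : Pair) ∈ GT → (Φ : Pair).lam = 1 →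
      (Ψ : Pair).lam = 1 → TrivGL2 (Φ * Ψ * Φ⁻¹ * Ψ⁻¹ : Pairˣ) := by
    intro Φ Ψ hΦ hΨ hl hm
    have hf := h1 Φ hΦ hl
    have hg := h1 Ψ hΨ hm
    have hlm : (Φ * Ψ : Pair).lam = 1 := by rw [Pair.mul_lam, hl, hm, one_mul]
    have hml : (Ψ * Φ : Pair).lam = 1 := by rw [Pair.mul_lam, hl, hm, one_mul]
    have key : ∀ (O : Type) [CommRing O] [Finite O] (u v : GL (Fin 2) O) (w : F2h),
        E ((Φ * Ψ : Pair).F w) u v = E ((Ψ * Φ : Pair).F w) u v := by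
      intro O _ _ u v w
      rw [Pair.E_F, Pair.E_F, hlm, hml, Pair.mul_f, Pair.mul_f, hF _ hl, hF _ hm,
        comm_part h3 h4 _ _ hf hg O u v]
    intro O _ _ u v w
    have e1 : ((Φ * Ψ * Φ⁻¹ * Ψ⁻¹ : Pairˣ) : Pair) = (Φ * Ψ : Pair) * ((Ψ * Φ)⁻¹ : Pairˣ) := by
      rw [mul_inv_rev]
      simp [mul_assoc]
    rw [e1, Pair.F_mul, key, ← Pair.F_mul]
    have e2 : (Ψ * Φ : Pair) * ((Ψ * Φ)⁻¹ : Pairˣ) = 1 := by
      have := (Ψ * Φ).mul_inv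
      simpa using this
    rw [e2, Pair.F_one]
  refine ⟨?_, ?_⟩
  · intro Φ Ψ hΦ hΨ hl hm
    refine ⟨(main1 Φ hΦ hl).1, main2 Φ Ψ hΦ hΨ hl hm, ?_, ?_⟩
    · intro hM
      have hf := h1 Φ hΦ hl
      have hP := h5 Φ hl hM
      have hE : ∀ (O : Type) [CommRing O] [Finite O] (u v : GL (Fin 2) O),
          E (Φ : Pair).f u v = 1 :=
        h4 _ hf.comm (fun O _ _ T₁ T₂ T₃ => (h3 O T₁ T₂ T₃).2.2 _ hf (hP O))
      exact ⟨triv_of _ hl hE, hE⟩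
    · refine ⟨Φ * c * Φ⁻¹ * c⁻¹, Subgroup.subset_closure ⟨Φ, c, hΦ, hc, rfl⟩,
        c * Φ * c⁻¹ * Φ, ?_, (main1 Φ hΦ hl).2, (main1 Φ hΦ hl).1, ?_⟩
      · have m1 : c ∈ genGT := Subgroup.subset_closure hc
        have m2 : Φ ∈ genGT := Subgroup.subset_closure hΦ
        exact mul_mem (mul_mem (mul_mem m1 m2) (inv_mem m1)) m2
      · rw [sq]
        group
  · intro A _ hA χ hχ Φ hΦ hl
    have m1 : c ∈ genGT := Subgroup.subset_closure hc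
    set C : genGT := ⟨c, m1⟩ with hC
    have e0 : χ (C * Φ * C⁻¹ * Φ) = 1 := hχ _ (main1 Φ hΦ hl).1
    apply hA
    have e1 : χ (C * Φ * C⁻¹ * Φ) = χ Φ ^ 2 := by
      simp only [map_mul, map_inv]
      rw [mul_comm (χ C) (χ Φ), mul_assoc (χ Φ) (χ C), mul_inv_cancel, mul_one, sq]
    rw [← e1, e0]

end Pool.Agent.GTD
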