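import Pool.Agent.GTD.Stmts2

set_option autoImplicit false

namespace Pool.Agent.GTD

namespace FIN2

/-- `Ψ` acts on the pair `(u,v)` as conjugation by `A`. -/
def By (Ψ : Pair) {H : Type} [Group H] [Finite H] (u v A : H) : Prop :=
  ∀ w : F2h, E (Ψ.F w) u v = A * E w u v * A⁻¹

variable {H : Type} [Group H] [Finite H] {u v A B : H}

lemma By.mul {Ψ Θ : Pair} (h1 : By Ψ u v A) (h2 : By Θ u v B) : By (Ψ * Θ) u v (A * B) := by
  intro w
  rw [Pair.F_mul, h1, h2]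
  group

lemma By.inv {Ψ : Pairˣ} (h : By (Ψ : Pair) u v A) : By ((Ψ⁻¹ : Pairˣ) : Pair) u v A⁻¹ := by
  intro w
  have h1 := h (((Ψ⁻¹ : Pairˣ) : Pair).F w)
  rw [← Pair.F_mul] at h1
  have h2 : (Ψ : Pair) * ((Ψ⁻¹ : Pairˣ) : Pair) = 1 := Ψ.mul_inv
  rw [h2, Pair.F_one] at h1
  rw [h1]
  group

lemma By.one : By (1 : Pair) u v (1 : H) := by
  intro w
  rw [Pair.F_one]
  group

lemma By.pow {Ψ : Pairˣ} (h : By (Ψ : Pair) u v A) (n : ℕ) :
    By ((Ψ ^ n : Pairˣ) : Pair) u v (A ^ n) := by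
  induction n with
  | zero =>
    rw [pow_zero, pow_zero]
    exact By.one
  | succ n ih =>
    rw [pow_succ, pow_succ, Units.val_mul]
    exact ih.mul h

end FIN2

open FIN2 in
theorem thm_FIN2 (hA : Stmt_API) (h1 : Stmt_GT1) (h6 : Stmt_UNIT)
    (hf : Stmt_final) (hR : Stmt_RIG) (hL : Stmt_RIGL) (hH : Stmt_HYP) : Stmt_A := by
  obtain ⟨hu, hc, hcc, hcf, hF⟩ := h6
  refine ⟨hL, fun K _ n u v hr hcop => hL K n u v (hH K n u v hr hcop).1 (hH K n u v hr hcop).2,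
    ?_⟩
  intro Φ hΦ hl
  obtain ⟨U, hU⟩ := hu Φ hΦ
  obtain ⟨c, hc1, hc2, hc3⟩ : ∃ c : Pairˣ, (c : Pair) = ccp ∧ ((c⁻¹ : Pairˣ) : Pair) = ccp ∧
      (c : Pair) ∈ GT := ⟨⟨ccp, ccp, hcc, hcc⟩, rfl, rfl, hc⟩
  have hUG : (U : Pair) ∈ GT := by rw [hU]; exact hΦ
  have hUl : (U : Pair).lam = 1 := by rw [hU]; exact hl
  -- the element `k`
  have hkval : ((c * U * c⁻¹ * U : Pairˣ) : Pair) = (ccp * Φ * ccp) * Φ := by
    simp [hc1, hc2, hU]
  have hl1 := (hcf Φ hl).1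
  have hf1 := (hcf Φ hl).2
  have hklam : ((c * U * c⁻¹ * U : Pairˣ) : Pair).lam = 1 := by
    rw [hkval, Pair.mul_lam, hl1, hl, one_mul]
  have hkf : ((c * U * c⁻¹ * U : Pairˣ) : Pair).f = cj Φ.f * F1 (cj Φ.f) Φ.f := by
    rw [hkval, Pair.mul_f, hf1, hF _ hl1, hf1]
  have hg := h1 Φ hΦ hl
  have hinv : ∀ (H : Type) [Group H] [Finite H] (u v : H), InvPair u v →
      TrivAt ((c * U * c⁻¹ * U : Pairˣ) : Pair) u v := by
    intro H _ _ u v hp w
    rw [Pair.E_F, hklam, hkf]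
    rw [Units.val_one, fpow_one, fpow_one, (hR Φ.f hg H u v hp.1).2 hp]
  refine ⟨U, c, c * U * c⁻¹ * U, hU, hc3, by rw [hc1]; rfl, by rw [hc1]; rfl, ?_, hklam, ?_, ?_,
    hinv, ?_⟩
  · have m1 : c ∈ genGT := Subgroup.subset_closure hc3
    have m2 : U ∈ genGT := Subgroup.subset_closure hUG
    exact mul_mem (mul_mem (mul_mem m1 m2) (inv_mem m1)) m2
  · rw [sq]
    group
  · -- two-dimensional representations
    obtain ⟨-, c', hc'G, hc'l, hc'f, hmain, -⟩ := hf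
    have hcc' : (c' : Pair) = ccp := by
      ext1
      · exact hc'l
      · exact hc'f
    have hcu : c' = c := Units.ext (by rw [hcc', hc1])
    have := (hmain U U hUG hUG hUl hUl).1
    rw [hcu] at this
    intro O _ _ u v w
    exact this O u v w
  · -- odd part
    intro N hN H _ _ u v hp hcen w
    obtain ⟨A, hA1, hA2⟩ := (hR Φ.f hg H u v hp.1).1
    have hAu : A * u * A⁻¹ = u := by rw [hA1]; group
    have hBy : By (U : Pair) u v A := by
      intro w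
      rw [hU, Pair.E_F, hl, Units.val_one, fpow_one, fpow_one, hA2]
      have := map_E (MulAut.conj A).toMonoidHom w u v
      have h3 : (MulAut.conj A).toMonoidHom u = A * u * A⁻¹ := rfl
      have h4 : (MulAut.conj A).toMonoidHom v = A * v * A⁻¹ := rfl
      rw [h3, h4, hAu] at this
      rw [← this]
      rfl
    have hByk : By ((c * U * c⁻¹ * U : Pairˣ) : Pair) u v (1 : H) := by
      intro w
      rw [hinv H u v hp w]
      group
    have hs : U * c * U⁻¹ * c⁻¹ = (U * U) * (c * U * c⁻¹ * U)⁻¹ := by group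
    have hBys : By ((U * c * U⁻¹ * c⁻¹ : Pairˣ) : Pair) u v (A ^ 2) := by
      rw [hs]
      have h5 := (hBy.mul hBy).mul hByk.inv
      have h6 : A * A * (1 : H)⁻¹ = A ^ 2 := by rw [inv_one, mul_one, sq]
      rw [h6] at h5
      exact h5
    have h7 := hBys.pow ((N + 1) / 2)
    rw [h7 w, ← pow_mul]
    have h8 : 2 * ((N + 1) / 2) = N + 1 := by
      obtain ⟨m, rfl⟩ := hN
      omega
    rw [h8]
    have h9 : A ^ N * E w u v = E w u v * A ^ N := by
      refine hA.1 H w u v (A ^ N) ?_ (hcen A hA1)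
      exact (Commute.pow_left (show Commute A u from hA1) N)
    have h10 := hBy w
    rw [hU] at h10
    rw [h10, pow_succ']
    have h11 : A * A ^ N * E w u v * (A * A ^ N)⁻¹ = A * (A ^ N * E w u v) * (A ^ N)⁻¹ * A⁻¹ := by
      group
    rw [h11, h9]
    group

theorem thm_FINB (h1 : Stmt_GT1) (h3 : Stmt_GASS) (h4 : Stmt_DEFO) (h5 : Stmt_META) :
    Stmt_B := by
  intro Φ hΦ hl hM O _ _ u v
  have hf := h1 Φ hΦ hl
  have hP := h5 Φ hl hM
  exact h4 _ hf.comm (fun O _ _ T₁ T₂ T₃ => (h3 O T₁ T₂ T₃).2.2 _ hf (hP O)) O u v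

end Pool.Agent.GTD
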