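import Mathlib

set_option autoImplicit false

/-!
# Project GTD (MP_6a6203_al): finite metabelian groups embed in `GL₂` of finite commutative rings

The embedding of Krasner and Kaloujnine: let `π : G → A` be the abelianization, `τ : A → G` a
section and `M` the commutator subgroup, which is abelian.  Embed `M` in the additive group of a
finite commutative ring `S`, `j : M → S`.  The matrices
`[[π(g), ∑ j(τ(x)⁻¹ g τ(π(g)⁻¹x)) x], [0, 1]]` over the group ring `S[A]` give an injective
homomorphism `G → GL₂(S[A])`.
-/

namespace Pool.Agent.GTD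

namespace KK

open MonoidAlgebra

/-- A finite abelian group embeds in the additive group of a finite commutative ring. -/
lemma exists_ring (B : Type) [AddCommGroup B] [Finite B] :
    ∃ (S : Type) (_ : CommRing S) (_ : Finite S) (_ : Nontrivial S) (j : B →+ S),
      Function.Injective j := by
  classical
  obtain ⟨ι, hι, n, hn, ⟨e⟩⟩ := AddCommGroup.equiv_directSum_zmod_of_finite' B
  have : ∀ i, NeZero (n i) := fun i => ⟨by have := hn i; omega⟩
  refine ⟨((i : ι) → ZMod (n i)) × ZMod 2, inferInstance, inferInstance, inferInstance,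
    (AddMonoidHom.inl ((i : ι) → ZMod (n i)) (ZMod 2)).comp
      (e.trans (DirectSum.addEquivProd fun i => ZMod (n i))).toAddMonoidHom, ?_⟩
  intro a b h
  have h1 := congrArg Prod.fst h
  exact (e.trans (DirectSum.addEquivProd fun i => ZMod (n i))).injective h1

section

variable {G A S : Type} [Group G] [CommGroup A] [Fintype A] [CommRing S]

/-- The cocycle `τ(x)⁻¹ g τ(π(g)⁻¹x)`. -/
def phi (π : G →* A) (τ : A → G) (g : G) (x : A) : G := (τ x)⁻¹ * g * τ ((π g)⁻¹ * x)

omit [Fintype A] in
lemma phi_mul (π : G →* A) (τ : A → G) (g h : G) (x : A) :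
    phi π τ (g * h) x = phi π τ g x * phi π τ h ((π g)⁻¹ * x) := by
  unfold phi
  have e : (π (g * h))⁻¹ * x = (π h)⁻¹ * ((π g)⁻¹ * x) := by
    rw [map_mul, mul_inv_rev, mul_assoc]
  rw [e]
  group

omit [Fintype A] in
lemma pi_phi (π : G →* A) (τ : A → G) (hτ : ∀ a, π (τ a) = a) (g : G) (x : A) :
    π (phi π τ g x) = 1 := by
  unfold phi
  rw [map_mul, map_mul, map_inv, hτ, hτ]
  rw [mul_assoc, mul_inv_cancel_left, inv_mul_cancel]

/-- The upper right entry. -/
noncomputable def beta (π : G →* A) (τ : A → G) (j : G → S) (g : G) : MonoidAlgebra S A :=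
  ∑ x : A, single x (j (phi π τ g x))

lemma beta_mul (π : G →* A) (τ : A → G) (j : G → S) (hτ : ∀ a, π (τ a) = a)
    (hj : ∀ a b, π a = 1 → π b = 1 → j (a * b) = j a + j b) (g h : G) :
    beta π τ j (g * h) = single (π g) 1 * beta π τ j h + beta π τ j g := by
  unfold beta
  rw [Finset.mul_sum]
  have h1 : ∑ x : A, single (π g) (1 : S) * single x (j (phi π τ h x)) =
      ∑ x : A, single x (j (phi π τ h ((π g)⁻¹ * x))) := by
    rw [← Equiv.sum_comp (Equiv.mulLeft (π g))
      (fun x => (single x (j (phi π τ h ((π g)⁻¹ * x))) : MonoidAlgebra S A))]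
    apply Finset.sum_congr rfl
    intro x _
    rw [single_mul_single, one_mul, Equiv.coe_mulLeft, inv_mul_cancel_left]
  rw [h1, ← Finset.sum_add_distrib]
  apply Finset.sum_congr rfl
  intro x _
  rw [phi_mul, hj _ _ (pi_phi π τ hτ g x) (pi_phi π τ hτ h _), ← single_add, add_comm]

/-- The homomorphism to the matrices. -/
noncomputable def rho0 (π : G →* A) (τ : A → G) (j : G → S) (hτ : ∀ a, π (τ a) = a)
    (hj : ∀ a b, π a = 1 → π b = 1 → j (a * b) = j a + j b) :
    G →* Matrix (Fin 2) (Fin 2) (MonoidAlgebra S A) where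
  toFun g := !![single (π g) 1, beta π τ j g; 0, 1]
  map_one' := by
    have h0 : j 1 = 0 := by
      have := hj 1 1 (map_one π) (map_one π)
      rw [mul_one] at this
      exact left_eq_add.1 this
    have h1 : beta π τ j (1 : G) = 0 := by
      unfold beta
      apply Finset.sum_eq_zero
      intro x _
      have : phi π τ 1 x = 1 := by
        unfold phi
        rw [map_one, inv_one, one_mul, mul_one, inv_mul_cancel]
      rw [this, h0, single_zero]
    rw [h1, map_one, ← one_def, Matrix.one_fin_two]
  map_mul' g h := by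
    rw [Matrix.mul_fin_two, beta_mul π τ j hτ hj]
    simp [single_mul_single]

lemma rho0_injective [Nontrivial S] (π : G →* A) (τ : A → G) (j : G → S)
    (hτ : ∀ a, π (τ a) = a) (hj : ∀ a b, π a = 1 → π b = 1 → j (a * b) = j a + j b)
    (hi : ∀ a, π a = 1 → j a = 0 → a = 1) : ∀ g : G, rho0 π τ j hτ hj g = 1 → g = 1 := by
  intro g hg
  have h1 : single (π g) (1 : S) = (1 : MonoidAlgebra S A) := by
    have := congrFun (congrFun hg 0) 0
    simpa [rho0] using this
  have h2 : beta π τ j g = 0 := by
    have := congrFun (congrFun hg 0) 1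
    simpa [rho0] using this
  have h3 : π g = 1 := by
    rw [one_def] at h1
    exact single_left_injective (R := S) (M := A) one_ne_zero h1
  have h4 : j (phi π τ g 1) = 0 := by
    classical
    have h5 := congrArg (fun y : MonoidAlgebra S A => y.coeff 1) h2
    simp only [beta, coeff_sum, Finsupp.coe_finsetSum, Finset.sum_apply, coeff_single] at h5
    rw [Finset.sum_eq_single (1 : A)] at h5
    · simpa using h5
    · intro b _ hb
      rw [Finsupp.single_apply, if_neg hb]
    · intro h
      exact absurd (Finset.mem_univ _) h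
  have h5 := hi _ (pi_phi π τ hτ g 1) h4
  unfold phi at h5
  rw [h3, inv_one, one_mul] at h5
  have h6 : g = τ 1 * ((τ 1)⁻¹ * g * τ 1) * (τ 1)⁻¹ := by group
  rw [h6, h5]
  group

end

end KK

open KK in
/-- A finite metabelian group embeds in `GL₂` of a finite commutative ring. -/
theorem metabelian_embeds (G : Type) [Group G] [Finite G] (hG : derivedSeries G 2 = ⊥) :
    ∃ (O : Type) (_ : CommRing O) (_ : Finite O) (ψ : G →* GL (Fin 2) O),
      Function.Injective ψ := by
  classical
  have hc : ∀ a ∈ commutator G, ∀ b ∈ commutator G, a * b = b * a := by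
    intro a ha b hb
    have h0 : a * b * a⁻¹ * b⁻¹ ∈ derivedSeries G 2 := by
      rw [derivedSeries_succ]
      exact Subgroup.commutator_mem_commutator ha hb
    rw [hG, Subgroup.mem_bot] at h0
    calc a * b = a * b * a⁻¹ * b⁻¹ * (b * a) := by group
      _ = b * a := by rw [h0, one_mul]
  let _ : CommGroup (commutator G) :=
    { (inferInstance : Group (commutator G)) with
      mul_comm := fun a b => Subtype.ext (hc a a.2 b b.2) }
  obtain ⟨S, hS1, hS2, hS3, j₀, hj₀⟩ := exists_ring (Additive (commutator G))
  let _ : Fintype (Abelianization G) := Fintype.ofFinite _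
  set π : G →* Abelianization G := Abelianization.of with hπ
  have hsurj : Function.Surjective π := QuotientGroup.mk_surjective
  choose τ hτ using hsurj
  have hker : ∀ a : G, π a = 1 → a ∈ commutator G := by
    intro a ha
    have : a ∈ (Abelianization.of : G →* Abelianization G).ker := ha
    rwa [Abelianization.ker_of] at this
  set j : G → S := fun g => if h : g ∈ commutator G then j₀ (Additive.ofMul ⟨g, h⟩) else 0 with hj
  have hj1 : ∀ (g : G) (h : g ∈ commutator G), j g = j₀ (Additive.ofMul ⟨g, h⟩) := by
    intro g h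
    rw [hj]
    simp only [h, dif_pos]
  have hadd : ∀ a b, π a = 1 → π b = 1 → j (a * b) = j a + j b := by
    intro a b ha hb
    rw [hj1 a (hker a ha), hj1 b (hker b hb), hj1 (a * b) (mul_mem (hker a ha) (hker b hb)),
      ← map_add]
    rfl
  have hinj : ∀ a, π a = 1 → j a = 0 → a = 1 := by
    intro a ha h0
    rw [hj1 a (hker a ha)] at h0
    have h1 := hj₀ (h0.trans (map_zero j₀).symm)
    exact congrArg (fun x : Additive (commutator G) => ((Additive.toMul x : commutator G) : G)) h1
  have : Finite (MonoidAlgebra S (Abelianization G)) := by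
    have : Finite (Abelianization G →₀ S) :=
      Finite.of_equiv (Abelianization G → S) Finsupp.equivFunOnFinite.symm
    exact Finite.of_equiv (Abelianization G →₀ S) MonoidAlgebra.coeffEquiv.symm
  refine ⟨MonoidAlgebra S (Abelianization G), inferInstance, inferInstance,
    (rho0 π τ j hτ hadd).toHomUnits, ?_⟩
  rw [injective_iff_map_eq_one]
  intro g hg
  apply rho0_injective π τ j hτ hadd hinj g
  have := congrArg Units.val hg
  simpa using this

end Pool.Agent.GTD
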