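import Pool.Agent.GTD.ODD

set_option autoImplicit false

/-!
# Project GTD (MP_6a6203_al): odd periods from normal nilpotent subgroups of odd order

If one of `u`, `v`, `u v` lies, up to a factor commuting with `u` and `v`, in a nilpotent group of
odd order normalized by `u` and `v`, then every `P = (1,f)` has an odd period at `(u,v)`.
-/

namespace Pool.Agent.GTD

namespace NOR

section

variable {H : Type} [Group H] [Finite H]

/-- The second component of the action of `P ^ n` on the pair `(u,v)`. -/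
noncomputable def Tn (P : Pairˣ) (n : ℕ) (u v : H) : H :=
  E (((P ^ n : Pairˣ) : Pair).F Y) u v

variable {P : Pairˣ}

lemma Tn_eq (hP : (P : Pair).lam = 1) (n : ℕ) (u v : H) :
    Tn P n u v = (E ((P ^ n : Pairˣ) : Pair).f u v)⁻¹ * v * E ((P ^ n : Pairˣ) : Pair).f u v := by
  rw [Tn, ODD.E_F_one (ODD.lam_pow P hP n), E_Y]

lemma E_pow (hP : (P : Pair).lam = 1) (n : ℕ) (w : F2h) (u v : H) :
    E (((P ^ n : Pairˣ) : Pair).F w) u v = E w u (Tn P n u v) := by
  rw [Tn_eq hP, ODD.E_F_one (ODD.lam_pow P hP n)]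

lemma Tn_zero (u v : H) : Tn P 0 u v = v := by
  rw [Tn, pow_zero, Units.val_one, Pair.F_one, E_Y]

lemma Tn_add (hP : (P : Pair).lam = 1) (m n : ℕ) (u v : H) :
    Tn P (m + n) u v = Tn P n u (Tn P m u v) := by
  rw [Tn, pow_add, ODD.F_mul, E_pow hP]
  rfl

lemma oddAt_iff (hP : (P : Pair).lam = 1) (u v : H) :
    OddAt P u v ↔ ∃ n, Odd n ∧ Tn P n u v = v := by
  constructor
  · rintro ⟨n, hn, h⟩
    refine ⟨n, hn, ?_⟩
    have := h Y
    rwa [E_Y] at this
  · rintro ⟨n, hn, h⟩
    refine ⟨n, hn, fun w => ?_⟩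
    rw [E_pow hP, h]

lemma Tn_mul (hP : (P : Pair).lam = 1) {n : ℕ} {u v : H} (h : Tn P n u v = v) (j : ℕ) :
    Tn P (n * j) u v = v := by
  induction j with
  | zero => rw [mul_zero, Tn_zero]
  | succ j ih => rw [mul_add, mul_one, Tn_add hP, ih, h]

lemma map_Tn {K : Type} [Group K] [Finite K] (ψ : H →* K) (n : ℕ) (u v : H) :
    ψ (Tn P n u v) = Tn P n (ψ u) (ψ v) := by
  rw [Tn, map_E]
  rfl

lemma Tn_conj (n : ℕ) (u v h : H) :
    Tn P n (h * u * h⁻¹) (h * v * h⁻¹) = h * Tn P n u v * h⁻¹ := by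
  rw [Tn, RIG.E_conj]
  rfl

lemma E_central_left (hA : Stmt_API) (f : F2h) (hf : f ∈ closedComm (FreeGroup (Fin 2)))
    (u v z : H) (h1 : z * u = u * z) (h2 : z * v = v * z) : E f (u * z) v = E f u v := by
  have := hA.2.1 H f hf u v z 1 h1 h2 (by simp) (by simp) (by simp)
  rwa [mul_one] at this

lemma E_central_right (hA : Stmt_API) (f : F2h) (hf : f ∈ closedComm (FreeGroup (Fin 2)))
    (u v z : H) (h1 : z * u = u * z) (h2 : z * v = v * z) : E f u (v * z) = E f u v := by
  have := hA.2.1 H f hf u v 1 z (by simp) (by simp) h1 h2 (by simp)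
  rwa [mul_one] at this

lemma Tn_central_left (hA : Stmt_API) (hP : (P : Pair).lam = 1) (n : ℕ) (u v z : H)
    (h1 : z * u = u * z) (h2 : z * v = v * z) : Tn P n (u * z) v = Tn P n u v := by
  rw [Tn_eq hP, Tn_eq hP, E_central_left hA _ ((P ^ n : Pairˣ) : Pair).hf u v z h1 h2]

lemma Tn_central_right (hA : Stmt_API) (hP : (P : Pair).lam = 1) (n : ℕ) (u v z : H)
    (h1 : z * u = u * z) (h2 : z * v = v * z) : Tn P n u (v * z) = Tn P n u v * z := by
  rw [Tn_eq hP, Tn_eq hP, E_central_right hA _ ((P ^ n : Pairˣ) : Pair).hf u v z h1 h2]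
  have h3 : z * E ((P ^ n : Pairˣ) : Pair).f u v = E ((P ^ n : Pairˣ) : Pair).f u v * z :=
    hA.1 H _ u v z h1 h2
  calc (E ((P ^ n : Pairˣ) : Pair).f u v)⁻¹ * (v * z) * E ((P ^ n : Pairˣ) : Pair).f u v
      = (E ((P ^ n : Pairˣ) : Pair).f u v)⁻¹ * v * (z * E ((P ^ n : Pairˣ) : Pair).f u v) := by
        group
    _ = (E ((P ^ n : Pairˣ) : Pair).f u v)⁻¹ * v * E ((P ^ n : Pairˣ) : Pair).f u v * z := by
        rw [h3]; group

/-- Values at pairs with `v` (or `u`) in a normal subgroup lie in this subgroup. -/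
lemma E_mem (hA : Stmt_API) (f : F2h) (hf : f ∈ closedComm (FreeGroup (Fin 2)))
    (N : Subgroup H) [N.Normal] (u v : H) (h : u ∈ N ∨ v ∈ N) : E f u v ∈ N := by
  rw [← QuotientGroup.eq_one_iff]
  have h1 : (QuotientGroup.mk' N) (E f u v) = 1 := by
    rw [map_E]
    apply hA.2.2.1 _ f hf
    rcases h with h | h
    · have h2 : (QuotientGroup.mk' N) u = 1 := (QuotientGroup.eq_one_iff u).2 h
      rw [h2, one_mul, mul_one]
    · have h2 : (QuotientGroup.mk' N) v = 1 := (QuotientGroup.eq_one_iff v).2 h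
      rw [h2, one_mul, mul_one]
  exact h1

end

/-- The case that `v` lies in a normal nilpotent subgroup of odd order. -/
lemma caseV (hA : Stmt_API) (P : Pairˣ) (hP : (P : Pair).lam = 1) (m : ℕ) :
    ∀ (G : Type) [Group G] [Finite G] (N : Subgroup G) [N.Normal] [Group.IsNilpotent N],
      Group.nilpotencyClass N ≤ m → Odd (Nat.card N) → ∀ u v : G, v ∈ N →
        ∃ n, Odd n ∧ Tn P n u v = v := by
  induction m with
  | zero =>
    intro G _ _ N _ _ hcl _ u v hv
    have h1 : Subsingleton N :=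
      Group.nilpotencyClass_zero_iff_subsingleton.1 (Nat.le_zero.1 hcl)
    have h2 : v = 1 := by
      have := Subsingleton.elim (⟨v, hv⟩ : N) 1
      exact congrArg Subtype.val this
    refine ⟨1, odd_one, ?_⟩
    rw [h2, Tn_eq hP, mul_one, inv_mul_cancel]
  | succ m ih =>
    intro G _ _ N hNn _ hcl hodd u v hv
    set Z : Subgroup G := (Subgroup.center N).map N.subtype with hZ
    have hZn : Z.Normal := ConjAct.normal_of_characteristic_of_normal
    have hZN : ∀ x ∈ Z, x ∈ N := by
      rintro _ ⟨x, -, rfl⟩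
      exact x.2
    have hZc : ∀ x ∈ Z, ∀ y ∈ N, x * y = y * x := by
      rintro _ ⟨x, hx, rfl⟩ y hy
      have := Subgroup.mem_center_iff.1 hx ⟨y, hy⟩
      exact (congrArg Subtype.val this).symm
    set π : G →* G ⧸ Z := QuotientGroup.mk' Z with hπ
    have hsurj : Function.Surjective π := QuotientGroup.mk'_surjective _
    have hN' : (N.map π).Normal := hNn.map π hsurj
    have hsN : Function.Surjective (π.subgroupMap N) := π.subgroupMap_surjective N
    have hnil : Group.IsNilpotent (N.map π) := Group.nilpotent_of_surjective _ hsN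
    have hker : ∀ x ∈ Subgroup.center N, π.subgroupMap N x = 1 := by
      intro x hx
      apply Subtype.ext
      change π (x : G) = 1
      exact (QuotientGroup.eq_one_iff (x : G)).2 ⟨x, hx, rfl⟩
    have hcl' : Group.nilpotencyClass (N.map π) ≤ m := by
      have h1 : Function.Surjective (QuotientGroup.lift (Subgroup.center N) (π.subgroupMap N)
          hker) := by
        intro y
        obtain ⟨x, hx⟩ := hsN y
        exact ⟨QuotientGroup.mk x, hx⟩
      have h2 := Group.nilpotencyClass_le_of_surjective _ h1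
      rw [Group.nilpotencyClass_quotient_center] at h2
      omega
    have hodd' : Odd (Nat.card (N.map π)) := hodd.of_dvd_nat (Subgroup.card_map_dvd N π)
    obtain ⟨n, hn, hT⟩ := ih (G ⧸ Z) (N.map π) hcl' hodd' (π u) (π v)
      (Subgroup.mem_map_of_mem π hv)
    set g : G := E ((P ^ n : Pairˣ) : Pair).f u v with hg
    have hgN : g ∈ N := E_mem hA _ ((P ^ n : Pairˣ) : Pair).hf N u v (Or.inr hv)
    set z : G := v⁻¹ * (g⁻¹ * v * g) with hz
    have hvz : g⁻¹ * v * g = v * z := by rw [hz]; group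
    have hzZ : z ∈ Z := by
      rw [← QuotientGroup.eq_one_iff]
      change π z = 1
      rw [← map_Tn, Tn_eq hP] at hT
      rw [hz, map_mul, map_inv, hT, inv_mul_cancel]
    have hord : Odd (orderOf z) := by
      have h1 : orderOf z ∣ Nat.card N := by
        have := orderOf_dvd_natCard (⟨z, hZN z hzZ⟩ : N)
        rwa [Subgroup.orderOf_mk] at this
      exact hodd.of_dvd_nat h1
    have key : ∀ j : ℕ, Tn P (n * j) u v = v * z ^ j := by
      intro j
      induction j with
      | zero => rw [mul_zero, pow_zero, Tn_zero, mul_one]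
      | succ j ihj =>
        rw [mul_add, mul_one, Tn_add hP, ihj, Tn_eq hP]
        set gj : G := E ((P ^ n : Pairˣ) : Pair).f u (v * z ^ j) with hgj
        have hzj : z ^ j ∈ Z := pow_mem hzZ j
        have h1 : π gj = π g := by
          rw [hgj, hg, map_E, map_E, map_mul]
          have h2 : π (z ^ j) = 1 := (QuotientGroup.eq_one_iff _).2 hzj
          rw [h2, mul_one]
        have hζ : g⁻¹ * gj ∈ Z := QuotientGroup.eq.1 h1.symm
        set ζ : G := g⁻¹ * gj with hζd
        have hgj' : gj = g * ζ := by rw [hζd]; group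
        have e1 : g⁻¹ * z ^ j * g = z ^ j := by
          rw [mul_assoc, hZc _ hzj g hgN]; group
        have e2 : ζ⁻¹ * (v * z ^ (j + 1)) * ζ = v * z ^ (j + 1) := by
          have h3 : v * z ^ (j + 1) ∈ N := mul_mem hv (hZN _ (pow_mem hzZ _))
          have h4 := hZc ζ hζ _ h3
          rw [mul_assoc, ← h4]
          group
        rw [hgj']
        calc (g * ζ)⁻¹ * (v * z ^ j) * (g * ζ)
            = ζ⁻¹ * ((g⁻¹ * v * g) * (g⁻¹ * z ^ j * g)) * ζ := by group
          _ = ζ⁻¹ * (v * z ^ (j + 1)) * ζ := by rw [hvz, e1, mul_assoc v, ← pow_succ']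
          _ = v * z ^ (j + 1) := e2
    refine ⟨n * orderOf z, hn.mul hord, ?_⟩
    rw [key, pow_orderOf_eq_one, mul_one]

section

variable {H : Type} [Group H] [Finite H] {P : Pairˣ}

/-- `T` commutes with `v ↦ u⁻¹ v⁻¹`. -/
lemma Tn_theta (hP : (P : Pair).lam = 1) (hf : IsGT1 (P : Pair).f) (n : ℕ) (u v : H) :
    Tn P n u (u⁻¹ * v⁻¹) = u⁻¹ * (Tn P n u v)⁻¹ := by
  induction n with
  | zero => rw [Tn_zero, Tn_zero]
  | succ n ih =>
    have h1 : ∀ a b : H, Tn P 1 a b = FIN3.T (P : Pair).f a b := by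
      intro a b
      rw [Tn_eq hP, pow_one]
      rfl
    rw [Tn_add hP, Tn_add hP, ih, h1, h1]
    exact FIN3.T_theta _ hf H _ _

/-- Exchange of `u` and `v`. -/
lemma Tn_swap (hA : Stmt_API) (hP : (P : Pair).lam = 1) (hf : IsGT1 (P : Pair).f)
    (N : Subgroup H) [N.Normal] (n : ℕ) (u v : H) (hu : u ∈ N) :
    ∃ h ∈ N, u = h⁻¹ * Tn P n v u * h ∧ Tn P n u v = h⁻¹ * v * h := by
  induction n with
  | zero => exact ⟨1, one_mem _, by rw [Tn_zero]; group, by rw [Tn_zero]; group⟩
  | succ n ih =>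
    obtain ⟨h, hh, h1, h2⟩ := ih
    set a : H := Tn P n v u with ha
    have haN : a ∈ N := by
      have h3 : a = h * u * h⁻¹ := by
        conv_rhs => rw [h1]
        group
      rw [h3]
      exact mul_mem (mul_mem hh hu) (inv_mem hh)
    set k : H := E (P : Pair).f a v with hk
    have hkN : k ∈ N := E_mem hA _ (P : Pair).hf N a v (Or.inl haN)
    have hk' : E (P : Pair).f v a = k⁻¹ := eq_inv_of_mul_eq_one_left (hf.I H v a)
    have h4 : Tn P (n + 1) v u = k * a * k⁻¹ := by
      rw [Tn_add hP, ← ha, Tn_eq hP, pow_one, hk', inv_inv]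
    refine ⟨k * h, mul_mem hkN hh, ?_, ?_⟩
    · rw [h4]
      conv_lhs => rw [h1]
      group
    · rw [Tn_add hP, h2, Tn_eq hP, pow_one]
      have h5 : E (P : Pair).f u (h⁻¹ * v * h) = h⁻¹ * k * h := by
        have := RIG.E_conj (P : Pair).f a v h⁻¹
        rw [inv_inv] at this
        rw [h1]
        exact this
      rw [h5]
      group

/-- Reduction to a normal subgroup. -/
lemma oddAt_of_normal (hA : Stmt_API) (hP : (P : Pair).lam = 1) (hf : IsGT1 (P : Pair).f)
    (N : Subgroup H) [N.Normal] (hnil : Group.IsNilpotent N) (hodd : Odd (Nat.card N)) (u v z : H)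
    (hz1 : z * u = u * z) (hz2 : z * v = v * z)
    (h : u * z ∈ N ∨ v * z ∈ N ∨ u * v * z ∈ N) : ∃ n, Odd n ∧ Tn P n u v = v := by
  have hV : ∀ a b : H, z * a = a * z → z * b = b * z → b * z ∈ N →
      ∃ n, Odd n ∧ Tn P n a b = b := by
    intro a b h1 h2 h3
    obtain ⟨n, hn, hT⟩ := caseV hA P hP (Group.nilpotencyClass N) H N le_rfl hodd a (b * z) h3
    refine ⟨n, hn, ?_⟩
    rw [Tn_central_right hA hP n a b z h1 h2] at hT
    exact mul_right_cancel hT
  rcases h with h | h | h
  · -- `u z ∈ N`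
    obtain ⟨n, hn, hT⟩ := caseV hA P hP (Group.nilpotencyClass N) H N le_rfl hodd v (u * z) h
    obtain ⟨g, hg, h1, h2⟩ := Tn_swap hA hP hf N n (u * z) v h
    rw [hT] at h1
    have hz3 : z * (u * z) = (u * z) * z := by rw [← mul_assoc, hz1]
    rw [Tn_central_left hA hP n u v z hz1 hz2] at h2
    -- `g` commutes with `u z`; conjugate
    have key : ∀ j : ℕ, Tn P (n * j) (u * z) v = (g ^ j)⁻¹ * v * g ^ j := by
      intro j
      induction j with
      | zero => rw [mul_zero, Tn_zero]; group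
      | succ j ihj =>
        have hgj : (g ^ j)⁻¹ * (u * z) * g ^ j = u * z := by
          have hc : Commute g (u * z) := by
            have h5 : g * (u * z) = u * z * g := by
              conv_lhs => rw [h1]
              group
            exact h5
          rw [mul_assoc, ← (hc.pow_left j).eq]
          group
        rw [mul_add, mul_one, Tn_add hP, ihj]
        have h6 : Tn P n (u * z) ((g ^ j)⁻¹ * v * g ^ j) =
            (g ^ j)⁻¹ * Tn P n (u * z) v * g ^ j := by
          have := Tn_conj (P := P) n (u * z) v (g ^ j)⁻¹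
          rw [inv_inv, hgj] at this
          exact this
        rw [h6, Tn_central_left hA hP n u v z hz1 hz2, h2, pow_succ']
        group
    have hord : Odd (orderOf g) := by
      have h7 : orderOf g ∣ Nat.card N := by
        have := orderOf_dvd_natCard (⟨g, hg⟩ : N)
        rwa [Subgroup.orderOf_mk] at this
      exact hodd.of_dvd_nat h7
    refine ⟨n * orderOf g, hn.mul hord, ?_⟩
    have h8 := key (orderOf g)
    rw [pow_orderOf_eq_one, Tn_central_left hA hP _ u v z hz1 hz2] at h8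
    rw [h8]
    group
  · exact hV u v hz1 hz2 h
  · -- `u v z ∈ N`
    have hN : (inferInstance : N.Normal) = (inferInstance : N.Normal) := rfl
    have e1 : (u⁻¹ * v⁻¹) * z⁻¹ ∈ N := by
      have e2 : u⁻¹ * (u * v * z)⁻¹ * u⁻¹⁻¹ ∈ N :=
        (inferInstance : N.Normal).conj_mem _ (inv_mem h) u⁻¹
      have e3 : u⁻¹ * (u * v * z)⁻¹ * u⁻¹⁻¹ = u⁻¹ * v⁻¹ * z⁻¹ := by
        have c1 : z * (u * v) = u * v * z := by rw [← mul_assoc, hz1, mul_assoc, hz2, mul_assoc]
        have c2 : Commute z u := hz1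
        have c3 : Commute z v := hz2
        rw [← c1]
        have c4 : (z * (u * v))⁻¹ = v⁻¹ * u⁻¹ * z⁻¹ := by group
        rw [c4, inv_inv]
        have c5 : z⁻¹ * u = u * z⁻¹ := (c2.inv_left).eq
        calc u⁻¹ * (v⁻¹ * u⁻¹ * z⁻¹) * u = u⁻¹ * v⁻¹ * u⁻¹ * (z⁻¹ * u) := by group
          _ = u⁻¹ * v⁻¹ * z⁻¹ := by rw [c5]; group
      rw [← e3]
      exact e2
    have c2 : Commute z u := hz1
    have c3 : Commute z v := hz2
    have c4 : Commute z⁻¹ u := c2.inv_left
    have c5 : Commute z⁻¹ (u⁻¹ * v⁻¹) := (c2.inv_left.inv_right).mul_right (c3.inv_left.inv_right)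
    obtain ⟨n, hn, hT⟩ := caseV hA P hP (Group.nilpotencyClass N) H N le_rfl hodd u
      ((u⁻¹ * v⁻¹) * z⁻¹) e1
    rw [Tn_central_right hA hP n u _ z⁻¹ c4.eq c5.eq] at hT
    have hT' := mul_right_cancel hT
    rw [Tn_theta hP hf] at hT'
    exact ⟨n, hn, inv_injective (mul_left_cancel hT')⟩

/-- The criterion. -/
theorem oddType (hA : Stmt_API) (hP : (P : Pair).lam = 1) (hf : IsGT1 (P : Pair).f) (u v : H)
    (h : OddType u v) : OddAt P u v := by
  obtain ⟨N, z, hnil, hodd, hnorm, hz1, hz2, hmem⟩ := h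
  rw [oddAt_iff hP]
  -- the group generated by `u`, `v`, `z` and `N`
  set M : Subgroup H := Subgroup.normalizer (N : Set H) with hM
  have hNM : N ≤ M := Subgroup.le_normalizer
  have hfin : Finite (N : Set H) := inferInstance
  have huM : u ∈ M := Subgroup.mem_normalizer_fintype fun x hx => (hnorm x hx).1
  have hvM : v ∈ M := Subgroup.mem_normalizer_fintype fun x hx => (hnorm x hx).2
  have hzM : z ∈ M := by
    have key : ∀ a : H, a ∈ M → a * z ∈ N → z ∈ M := by
      intro a ha h1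
      have : z = a⁻¹ * (a * z) := by group
      rw [this]
      exact mul_mem (inv_mem ha) (hNM h1)
    rcases hmem with h1 | h1 | h1
    · exact key u huM h1
    · exact key v hvM h1
    · exact key (u * v) (mul_mem huM hvM) h1
  have hnil' : Group.IsNilpotent (N.subgroupOf M) :=
    (Group.isNilpotent_congr (Subgroup.subgroupOfEquivOfLe hNM)).2 hnil
  have hodd' : Odd (Nat.card (N.subgroupOf M)) := by
    rw [Nat.card_congr (Subgroup.subgroupOfEquivOfLe hNM).toEquiv]
    exact hodd
  obtain ⟨n, hn, hT⟩ := oddAt_of_normal (P := P) hA hP hf (N.subgroupOf M) hnil' hodd'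
    (⟨u, huM⟩ : M) ⟨v, hvM⟩ ⟨z, hzM⟩ (Subtype.ext hz1) (Subtype.ext hz2) hmem
  refine ⟨n, hn, ?_⟩
  have := congrArg M.subtype hT
  rwa [map_Tn] at this

end

end NOR

/-- The conclusions together. -/
theorem exactAt_of_orbTriv (hA : Stmt_API) {H : Type} [Group H] [Finite H] {P C k s : Pairˣ}
    {u v : H} (hP : (P : Pair).lam = 1) (hf : IsGT1 (P : Pair).f) (hk : P ^ 2 = C * k)
    (h : ODD.OrbTriv P k u v) (hC : (C : Pair).lam = 1) (hs : (s : Pair).lam = 1)
    (hlim : ∀ᶠ m in Filter.atTop,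
      E ((C ^ LIM.ex m : Pairˣ) : Pair).f u v = E (s : Pair).f u v) :
    ExactAt P C s u v :=
  ⟨ODD.same_sq hk h, fun h' => ODD.same_of_odd hk h hC hs hlim
    (h'.elim (fun h'' => NOR.oddType hA hP hf u v h'') id)⟩

/-- Pull back along an injective homomorphism. -/
theorem exactAt_of_injective (hA : Stmt_API) {H : Type} [Group H] [Finite H] {P C s : Pairˣ}
    (hP : (P : Pair).lam = 1) (hf : IsGT1 (P : Pair).f) {K : Type} [Group K] [Finite K]
    (ψ : H →* K) (hψ : Function.Injective ψ) {u v : H} (h : ExactAt P C s (ψ u) (ψ v)) :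
    ExactAt P C s u v := by
  have key : ∀ (Φ Ψ : Pair), SameAt Φ Ψ (ψ u) (ψ v) → SameAt Φ Ψ u v := by
    intro Φ Ψ h w
    apply hψ
    rw [map_E, map_E]
    exact h w
  refine ⟨key _ _ h.1, fun h' => ?_⟩
  obtain ⟨n, hn, hT⟩ : OddAt P u v := h'.elim (fun h'' => NOR.oddType hA hP hf u v h'') id
  refine key _ _ (h.2 (Or.inr ⟨n, hn, ?_⟩))
  intro w
  rw [← map_E, ← map_E, hT]

end Pool.Agent.GTD
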