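import Pool.Agent.GTD.All2
import Pool.Agent.GTD.NOR
import Pool.Agent.GTD.KK

set_option autoImplicit false

/-!
# Project GTD (MP_6a6203_al): `GT¹` and `GT'` act in the same way where the periods are odd
-/

namespace Pool.Agent.GTD

open Matrix

/-- `M` is a scalar times a reflection: `a (1 + r φ)` with a unit `a`, a column `r`, a row `φ`. -/
def ScalRefl {O : Type} [CommRing O] {n : ℕ} (M : Matrix (Fin n) (Fin n) O) : Prop :=
  ∃ (a : Oˣ) (r φ : Fin n → O), M = (a : O) • (1 + Matrix.vecMulVec r φ)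

/-- `C` acts on the rigid pair `(u,v)` as `P ^ 2`, and `s` acts on it as `P` if for some odd `N` the
`N`-th powers of the elements commuting with `u` commute with `v`, or if `(u,v)` is of odd type, or
if an odd power of `P` acts trivially at `(u,v)`. -/
def RigidExactAt (P C s : Pairˣ) {H : Type} [Group H] [Finite H] (u v : H) : Prop :=
  SameAt (C : Pair) ((P ^ 2 : Pairˣ) : Pair) u v ∧
    ((∃ N : ℕ, Odd N ∧ ∀ a : H, a * u = u * a → a ^ N * v = v * a ^ N) ∨ OddType u v ∨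
      OddAt P u v → SameAt (s : Pair) (P : Pair) u v)

namespace FIN4

/-- `v` or `u v` is a scalar times a reflection. -/
def Refl {O : Type} [CommRing O] {n : ℕ} (u v : GL (Fin n) O) : Prop :=
  ScalRefl v.1 ∨ ScalRefl (u.1 * v.1)

lemma conj_refl {O : Type} [CommRing O] {n : ℕ} (g v : GL (Fin n) O) (h : ScalRefl v.1) :
    ScalRefl (g * v * g⁻¹).1 := by
  obtain ⟨a, r, φ, h⟩ := h
  refine ⟨a, g.1 *ᵥ r, φ ᵥ* (g⁻¹).1, ?_⟩
  have e : g.1 * (g⁻¹).1 = 1 := by rw [← Units.val_mul, mul_inv_cancel, Units.val_one]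
  rw [Units.val_mul, Units.val_mul, h, mul_smul_comm, smul_mul_assoc, mul_add, mul_one, add_mul,
    e, Matrix.mul_vecMulVec, Matrix.vecMulVec_mul]

lemma refl_stable {O : Type} [CommRing O] [Finite O] {n : ℕ} (f : F2h) (hf : IsGT1 f)
    (u v : GL (Fin n) O) (h : Refl u v) : Refl u ((E f u v)⁻¹ * v * E f u v) := by
  rcases h with h | h
  · have h' := conj_refl (E f u v)⁻¹ v h
    rw [inv_inv] at h'
    exact Or.inl h'
  · obtain ⟨g, hg⟩ := isConj_iff.1 (RIG.conj_prod f hf _ u v)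
    have h' := conj_refl g (u * v) h
    rw [hg] at h'
    exact Or.inr h'

lemma orbTriv_conj {H : Type} [Group H] [Finite H] (P k : Pairˣ) (hP : (P : Pair).lam = 1)
    (u v A : H) (hk : TrivAt (k : Pair) u v) (h1 : A * u = u * A)
    (h2 : (E (P : Pair).f u v)⁻¹ * v * E (P : Pair).f u v = A * v * A⁻¹) :
    ODD.OrbTriv P k u v := by
  refine ODD.orbTriv_of_pred P k hP
    (fun u' v' => ∃ B : H, u' = B * u * B⁻¹ ∧ v' = B * v * B⁻¹) ?_ ?_ u v ⟨1, by group, by group⟩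
  · rintro _ _ ⟨B, rfl, rfl⟩ w
    rw [RIG.E_conj, RIG.E_conj, hk]
  · rintro _ _ ⟨B, rfl, rfl⟩
    refine ⟨B * A, ?_, ?_⟩
    · have : A * u * A⁻¹ = u := by rw [h1]; group
      calc B * u * B⁻¹ = B * (A * u * A⁻¹) * B⁻¹ := by rw [this]
        _ = B * A * u * (B * A)⁻¹ := by group
    · rw [RIG.E_conj]
      calc (B * E (P : Pair).f u v * B⁻¹)⁻¹ * (B * v * B⁻¹) * (B * E (P : Pair).f u v * B⁻¹)
          = B * ((E (P : Pair).f u v)⁻¹ * v * E (P : Pair).f u v) * B⁻¹ := by group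
        _ = B * A * v * (B * A)⁻¹ := by rw [h2]; group

end FIN4

/-- First statement: pairs in central extensions of subgroups of `GL₂`, pairs with a reflection,
pairs in center-by-metabelian groups. -/
def Stmt_exact : Prop :=
  ∀ Φ : Pair, Φ ∈ GT → Φ.lam = 1 →
    ∃ U c s : Pairˣ, (U : Pair) = Φ ∧ (c : Pair) ∈ GT ∧ (c : Pair).lam = -1 ∧
      (c : Pair).f = 1 ∧ (s : Pair).lam = 1 ∧ InGT' (s : Pair) ∧
      (∀ (O : Type) [CommRing O] [Finite O] (H : Type) [Group H] [Finite H]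
        (ρ : H →* GL (Fin 2) O), ρ.ker ≤ Subgroup.center H → ∀ u v : H,
        ExactAt U (U * c * U⁻¹ * c⁻¹) s u v) ∧
      (∀ (O : Type) [CommRing O] [Finite O] (n : ℕ) (u v : GL (Fin n) O),
        ScalRefl v.1 ∨ ScalRefl (u.1 * v.1) →
        ExactAt U (U * c * U⁻¹ * c⁻¹) s u v) ∧
      (∀ (H : Type) [Group H] [Finite H], derivedSeries H 2 ≤ Subgroup.center H → ∀ u v : H,
        ExactAt U (U * c * U⁻¹ * c⁻¹) s u v)

/-- Second statement: rigid pairs. -/
def Stmt_rigid : Prop :=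
  ∀ Φ : Pair, Φ ∈ GT → Φ.lam = 1 →
    ∃ U c s : Pairˣ, (U : Pair) = Φ ∧ (c : Pair) ∈ GT ∧ (c : Pair).lam = -1 ∧
      (c : Pair).f = 1 ∧ (s : Pair).lam = 1 ∧ InGT' (s : Pair) ∧
      (∀ (H : Type) [Group H] [Finite H] (u v : H), InvPair u v →
        RigidExactAt U (U * c * U⁻¹ * c⁻¹) s u v) ∧
      (∀ (K : Type) [Field K] [Finite K] (n : ℕ) (u v : GL (Fin n) K),
        (RigidPair u v ∧ Nonderog u.1) ∨
          ((v.1 - 1).rank = 1 ∧ IsCoprime u.1.charpoly (u.1 * v.1).charpoly) →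
        RigidExactAt U (U * c * U⁻¹ * c⁻¹) s u v)

/-- Third statement: the metabelian action determines the two-dimensional one. -/
def Stmt_B2 : Prop :=
  ∀ Φ : Pair, Φ ∈ GT → Φ.lam = 1 →
    (TrivMetab Φ ↔
      ∀ (O : Type) [CommRing O] [Finite O] (u v : GL (Fin 2) O), E Φ.f u v = 1)

open FIN4 in
theorem thm_FIN4 : ∀ Φ : Pair, Φ ∈ GT → Φ.lam = 1 →
    ∃ U c s : Pairˣ, (U : Pair) = Φ ∧ (c : Pair) ∈ GT ∧ (c : Pair).lam = -1 ∧
      (c : Pair).f = 1 ∧ (s : Pair).lam = 1 ∧ InGT' (s : Pair) ∧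
      (∀ (O : Type) [CommRing O] [Finite O] (H : Type) [Group H] [Finite H]
        (ρ : H →* GL (Fin 2) O), ρ.ker ≤ Subgroup.center H → ∀ u v : H,
        ExactAt U (U * c * U⁻¹ * c⁻¹) s u v) ∧
      (∀ (O : Type) [CommRing O] [Finite O] (n : ℕ) (u v : GL (Fin n) O),
        ScalRefl v.1 ∨ ScalRefl (u.1 * v.1) →
        ExactAt U (U * c * U⁻¹ * c⁻¹) s u v) ∧
      (∀ (H : Type) [Group H] [Finite H], derivedSeries H 2 ≤ Subgroup.center H → ∀ u v : H,
        ExactAt U (U * c * U⁻¹ * c⁻¹) s u v) ∧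
      (∀ (H : Type) [Group H] [Finite H] (u v : H), InvPair u v →
        RigidExactAt U (U * c * U⁻¹ * c⁻¹) s u v) ∧
      (∀ (K : Type) [Field K] [Finite K] (n : ℕ) (u v : GL (Fin n) K),
        (RigidPair u v ∧ Nonderog u.1) ∨
          ((v.1 - 1).rank = 1 ∧ IsCoprime u.1.charpoly (u.1 * v.1).charpoly) →
        RigidExactAt U (U * c * U⁻¹ * c⁻¹) s u v) := by
  intro Φ hΦ hl
  obtain ⟨U, c, k, hU, hc, hcl, hcf, -, -, hUk, -, hb, hinv, hfin⟩ := all_main Φ hΦ hl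
  have hUG : (U : Pair) ∈ GT := by rw [hU]; exact hΦ
  have hUl : (U : Pair).lam = 1 := by rw [hU]; exact hl
  have hg : IsGT1 (U : Pair).f := thm_GT1 _ hUG hUl
  have hCl : ((U * c * U⁻¹ * c⁻¹ : Pairˣ) : Pair).lam = 1 := by
    have h1 : ((c * c⁻¹ : Pairˣ) : Pair).lam = 1 := by rw [mul_inv_cancel]; rfl
    rw [Units.val_mul, Pair.mul_lam] at h1
    simp only [Units.val_mul, Pair.mul_lam, hUl, ODD.lam_inv U hUl, one_mul, mul_one]
    exact h1
  obtain ⟨s, hsl, hlim⟩ := exists_limit (U * c * U⁻¹ * c⁻¹) hCl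
  have hexact : ∀ (H : Type) [Group H] [Finite H] (u v : H), ODD.OrbTriv U k u v →
      ExactAt U (U * c * U⁻¹ * c⁻¹) s u v := fun H _ _ u v h =>
    exactAt_of_orbTriv thm_API hUl hg hUk h hCl hsl (hlim H u v)
  have hrig : ∀ (H : Type) [Group H] [Finite H] (u v : H), RigidPair u v →
      TrivAt (k : Pair) u v → RigidExactAt U (U * c * U⁻¹ * c⁻¹) s u v := by
    intro H _ _ u v hr hk
    obtain ⟨A, hA1, hA2⟩ := (thm_RIG _ hg H u v hr).1
    have h0 := hexact H u v (orbTriv_conj U k hUl u v A hk hA1 hA2)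
    refine ⟨h0.1, ?_⟩
    rintro (⟨N, hN, hcen⟩ | h)
    · -- `U ^ N` acts trivially
      apply h0.2
      right
      have hAu : A * u * A⁻¹ = u := by rw [hA1]; group
      have hBy : FIN2.By (U : Pair) u v A := by
        intro w
        rw [ODD.E_F_one hUl, hA2]
        have h3 := RIG.E_conj w u v A
        rwa [hAu] at h3
      refine ⟨N, hN, fun w => ?_⟩
      rw [hBy.pow N w]
      have h9 : A ^ N * E w u v = E w u v * A ^ N :=
        thm_API.1 H w u v (A ^ N) ((show Commute A u from hA1).pow_left N).eq (hcen A hA1)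
      rw [h9]
      group
    · exact h0.2 h
  -- the value of `k`
  have hccp : (c : Pair) = ccp := by
    ext1
    · exact hcl
    · exact hcf
  obtain ⟨-, -, hcc, hcf', hF⟩ := thm_UNIT
  have hci : ((c⁻¹ : Pairˣ) : Pair) = ccp := by
    have e1 : (c : Pair) * ((c⁻¹ : Pairˣ) : Pair) = 1 := c.mul_inv
    rw [hccp] at e1
    calc ((c⁻¹ : Pairˣ) : Pair) = ccp * ccp * ((c⁻¹ : Pairˣ) : Pair) := by rw [hcc, one_mul]
      _ = ccp := by rw [mul_assoc, e1, mul_one]
  have hkeq : k = c * U * c⁻¹ * U := by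
    have e1 : k = (U * c * U⁻¹ * c⁻¹)⁻¹ * U ^ 2 := by rw [hUk]; group
    rw [e1, sq]
    group
  have hkval : (k : Pair) = (ccp * (U : Pair) * ccp) * (U : Pair) := by
    rw [hkeq]
    simp [hccp, hci]
  have hl1 := (hcf' (U : Pair) hUl).1
  have hf1 := (hcf' (U : Pair) hUl).2
  have hkl : (k : Pair).lam = 1 := by rw [hkval, Pair.mul_lam, hl1, hUl, one_mul]
  have hkf : (k : Pair).f = cj (U : Pair).f * F1 (cj (U : Pair).f) (U : Pair).f := by
    rw [hkval, Pair.mul_f, hf1, hF _ hl1, hf1]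
  have hkE : ∀ (O : Type) [CommRing O] [Finite O] (u v : GL (Fin 2) O),
      E (k : Pair).f u v = 1 := by
    intro O _ _ u v
    have := FIN.inv_part thm_CONJ all_GASS all_DEFO (cj (U : Pair).f) (thm_CONJ.2 _ hg) O u v
    rwa [FIN.cj_cj, ← hkf] at this
  have hGL2 : ∀ (O : Type) [CommRing O] [Finite O] (H : Type) [Group H] [Finite H]
      (ρ : H →* GL (Fin 2) O), ρ.ker ≤ Subgroup.center H → ∀ u v : H,
      ExactAt U (U * c * U⁻¹ * c⁻¹) s u v := by
    intro O _ _ H _ _ ρ hρ u v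
    refine hexact _ u v (ODD.orbTriv_of_pred U k hUl (fun _ _ => True) ?_ ?_ u v trivial)
    · intro u v _ w
      have h1 : E (k : Pair).f u v ∈ Subgroup.center H := by
        apply hρ
        change ρ (E (k : Pair).f u v) = 1
        rw [map_E, hkE]
      have h2 : v * E (k : Pair).f u v = E (k : Pair).f u v * v :=
        Subgroup.mem_center_iff.1 h1 v
      rw [ODD.E_F_one hkl, mul_assoc, h2, inv_mul_cancel_left]
    · intro _ _ _
      trivial
  refine ⟨U, c, s, hU, hc, hcl, hcf, hsl, ?_, hGL2, ?_, ?_, ?_, ?_⟩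
  · -- `s` lies in the closure of the group of commutators
    intro N
    obtain ⟨m, hm⟩ := (hlim (FreeGroup (Fin 2) ⧸ N.toSubgroup) (QuotientGroup.mk (FreeGroup.of 0))
      (QuotientGroup.mk (FreeGroup.of 1))).exists
    refine ⟨(U * c * U⁻¹ * c⁻¹) ^ LIM.ex m, ?_, ?_, ?_⟩
    · have h0 : U * c * U⁻¹ * c⁻¹ ∈ commGT := by
        unfold commGT
        exact Subgroup.subset_closure ⟨U, c, hUG, hc, rfl⟩
      exact pow_mem h0 _
    · rw [hsl, ODD.lam_pow _ hCl]
    · rw [LIM.val_eq_E, LIM.val_eq_E, hm]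
  · intro O _ _ n u v h
    refine hexact _ u v (ODD.orbTriv_of_pred U k hUl (fun u v => Refl u v) ?_ ?_ u v h)
    · rintro u v (⟨a, r, φ, h⟩ | ⟨a, r, φ, h⟩)
      · exact hb O n u v a r φ (Or.inl h)
      · exact hb O n u v a r φ (Or.inr h)
    · intro u v h
      exact refl_stable _ hg u v h
  · intro H _ _ hH u v
    have h1 : derivedSeries (H ⧸ Subgroup.center H) 2 = ⊥ := by
      rw [eq_bot_iff]
      refine (derivedSeries_le_map_derivedSeries
        (QuotientGroup.mk'_surjective (Subgroup.center H)) 2).trans ?_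
      rintro _ ⟨x, hx, rfl⟩
      exact (QuotientGroup.eq_one_iff x).2 (hH hx)
    obtain ⟨O, hO1, hO2, ψ, hψ⟩ := metabelian_embeds (H ⧸ Subgroup.center H) h1
    refine hGL2 O H (ψ.comp (QuotientGroup.mk' (Subgroup.center H))) ?_ u v
    intro x hx
    have h2 : ψ (QuotientGroup.mk' (Subgroup.center H) x) = 1 := hx
    exact (QuotientGroup.eq_one_iff x).1 (hψ (h2.trans (map_one ψ).symm))
  · intro H _ _ u v hp
    exact hrig H u v hp.1 (hinv H u v hp).1
  · rintro K _ _ n u v h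
    have hr : RigidPair u v := by
      rcases h with h | h
      · exact h.1
      · exact (thm_HYP K n u v h.1 h.2).1
    exact hrig _ u v hr (hfin K n u v h).1

theorem all_exact : Stmt_exact := by
  intro Φ hΦ hl
  obtain ⟨U, c, s, h1, h2, h3, h4, h5, h6, h7, h8, h9, -, -⟩ := thm_FIN4 Φ hΦ hl
  exact ⟨U, c, s, h1, h2, h3, h4, h5, h6, h7, h8, h9⟩

theorem all_rigid : Stmt_rigid := by
  intro Φ hΦ hl
  obtain ⟨U, c, s, h1, h2, h3, h4, h5, h6, -, -, -, h7, h8⟩ := thm_FIN4 Φ hΦ hl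
  exact ⟨U, c, s, h1, h2, h3, h4, h5, h6, h7, h8⟩

theorem all_B2 : Stmt_B2 := by
  intro Φ hΦ hl
  refine ⟨fun h O _ _ u v => all_B Φ hΦ hl h O u v, ?_⟩
  intro h H _ _ hH a b w
  obtain ⟨O, hO1, hO2, ψ, hψ⟩ := metabelian_embeds H hH
  have h1 : E Φ.f a b = 1 := by
    apply hψ
    rw [map_E, h O, map_one]
  rw [ODD.E_F_one hl, h1]
  simp

end Pool.Agent.GTD
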