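import Pool.Agent.GTD.Defs

set_option autoImplicit false

/-!
# The profinite Grothendieck–Teichmüller group: relations (I), (II), (III), rigid pairs
-/

namespace Pool.Agent.GTD

open Matrix

/-! ## The group `K(0,5)` and the relations (I), (II), (III) -/

/-- The generators of the free group on `x₁₂, x₂₃, x₃₄, x₄₅, x₅₁`, in this order. -/
def x5 (i : Fin 5) : FreeGroup (Fin 5) := FreeGroup.of i

/-- The commutator `a b a⁻¹ b⁻¹`. -/
def cm5 (a b : FreeGroup (Fin 5)) : FreeGroup (Fin 5) := a * b * a⁻¹ * b⁻¹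

/-- The relators of the standard presentation of the pure mapping class group `K(0,5)` of the
sphere with five marked points; the generators `0, 1, 2, 3, 4` are
`x₁₂, x₂₃, x₃₄, x₄₅, x₅₁`: generators with disjoint indices commute, and
`x₅₁ x₂₃⁻¹ x₁₂ x₃₄⁻¹ x₂₃ x₄₅⁻¹ x₃₄ x₅₁⁻¹ x₄₅ x₁₂⁻¹ = 1`. -/
def K05rels : Set (FreeGroup (Fin 5)) :=
  {cm5 (x5 0) (x5 2), cm5 (x5 1) (x5 3), cm5 (x5 2) (x5 4), cm5 (x5 3) (x5 0),
   cm5 (x5 4) (x5 1),
   x5 4 * (x5 1)⁻¹ * x5 0 * (x5 2)⁻¹ * x5 1 * (x5 3)⁻¹ * x5 2 * (x5 4)⁻¹ * x5 3 * (x5 0)⁻¹}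

/-- The group `K(0,5)`. -/
abbrev K05 : Type := PresentedGroup K05rels

/-- The generators `x₁₂, x₂₃, x₃₄, x₄₅, x₅₁` in the profinite completion of `K(0,5)`. -/
def gen5 (i : Fin 5) : Comp K05 := eta (PresentedGroup.of i)

/-- Relation (I): `f(x,y) f(y,x) = 1`. -/
def relI (f : F2h) : Prop := subst X Y f * subst Y X f = 1

/-- Relation (II): `f(z,x) z^m f(y,z) y^m f(x,y) x^m = 1`, with `z = (xy)⁻¹`, `m = (lam-1)/2`. -/
def relII (lam : ZHat) (f : F2h) : Prop :=
  ∃ m : ZHat, 2 * m + 1 = lam ∧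
    subst (X * Y)⁻¹ X f * cpow (X * Y)⁻¹ m * subst Y (X * Y)⁻¹ f * cpow Y m *
      subst X Y f * cpow X m = 1

/-- Relation (III):
`f(x₁₂,x₂₃) f(x₃₄,x₄₅) f(x₅₁,x₁₂) f(x₂₃,x₃₄) f(x₄₅,x₅₁) = 1` in the completion of `K(0,5)`. -/
def relIII (f : F2h) : Prop :=
  subst (gen5 0) (gen5 1) f * subst (gen5 2) (gen5 3) f * subst (gen5 4) (gen5 0) f *
    subst (gen5 1) (gen5 2) f * subst (gen5 3) (gen5 4) f = 1

/-- The profinite Grothendieck–Teichmüller group, as a set of pairs. -/
def GT : Set Pair :=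
  {Φ | relI Φ.f ∧ relII Φ.lam Φ.f ∧ relIII Φ.f ∧ Function.Bijective Φ.F}

/-! ## Actions on representations -/

/-- `Φ` acts trivially on all two-dimensional representations of the free profinite group of rank
two over finite commutative rings. -/
def TrivGL2 (Φ : Pair) : Prop :=
  ∀ (O : Type) [CommRing O] [Finite O] (u v : GL (Fin 2) O) (w : F2h),
    E (Φ.F w) u v = E w u v

/-- `Φ` acts trivially on the maximal metabelian quotient of the free profinite group. -/
def TrivMetab (Φ : Pair) : Prop :=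
  ∀ (H : Type) [Group H] [Finite H], derivedSeries H 2 = ⊥ →
    ∀ (a b : H) (w : F2h), E (Φ.F w) a b = E w a b

/-- The subgroup generated by `GT` (`GT` is known to be a group). -/
noncomputable def genGT : Subgroup Pairˣ := Subgroup.closure {g | (g : Pair) ∈ GT}

/-- The abstract subgroup generated by the commutators of elements of `GT`. -/
noncomputable def commGT : Subgroup Pairˣ :=
  Subgroup.closure {g | ∃ a b : Pairˣ, (a : Pair) ∈ GT ∧ (b : Pair) ∈ GT ∧ g = a * b * a⁻¹ * b⁻¹}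

/-- `Φ` acts trivially on the homomorphism `x ↦ u`, `y ↦ v` from the free profinite group to the
finite group `H`. -/
def TrivAt (Φ : Pair) {H : Type} [Group H] [Finite H] (u v : H) : Prop :=
  ∀ w : F2h, E (Φ.F w) u v = E w u v

/-! ## Rigid pairs -/

/-- The pair `(u,v)` is rigid in `H`: every pair with the same conjugacy classes of `u`, `v` and
`uv` is simultaneously conjugate to it.  (For `H = GL (Fin n) K`: linearly rigid.) -/
def RigidPair {H : Type} [Group H] (u v : H) : Prop :=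
  ∀ u' v' : H, IsConj u u' → IsConj v v' → IsConj (u * v) (u' * v') →
    ∃ g : H, u' = g * u * g⁻¹ ∧ v' = g * v * g⁻¹

/-- A rigid pair with an endomorphism of `H` which inverts `u`, `v` and every element of the
centralizer of `u`. -/
def InvPair {H : Type} [Group H] (u v : H) : Prop :=
  RigidPair u v ∧ ∃ ι : H →* H, ι u = u⁻¹ ∧ ι v = v⁻¹ ∧ ∀ a : H, a * u = u * a → ι a = a⁻¹

/-- `u` is nonderogatory: only polynomials in `u` commute with `u`. -/
def Nonderog {K : Type} [Field K] {n : ℕ} (u : Matrix (Fin n) (Fin n) K) : Prop :=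
  ∀ M : Matrix (Fin n) (Fin n) K, M * u = u * M → ∃ p : Polynomial K, M = Polynomial.aeval u p

/-- `k` acts trivially at `(u,v)`, and for every odd `N` such that the `N`-th powers of the elements
commuting with `u` commute with `v`, the power `s ^ ((N+1)/2)` acts at `(u,v)` as `Φ`. -/
def GoodAt (Φ s k : Pairˣ) {H : Type} [Group H] [Finite H] (u v : H) : Prop :=
  TrivAt (k : Pair) u v ∧
    ∀ N : ℕ, Odd N → (∀ a : H, a * u = u * a → a ^ N * v = v * a ^ N) →
      ∀ w : F2h, E ((Φ : Pair).F w) u v =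
        E (((s ^ ((N + 1) / 2) : Pairˣ) : Pair).F w) u v

end Pool.Agent.GTD
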