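import Pool.Agent.GTD.GTDefs

set_option autoImplicit false

/-!
# Project GTD (MP_6a6203_al): limits of powers in the monoid of pairs
-/

namespace Pool.Agent.GTD

namespace LIM

open Filter

/-- Sequences in `F2h` whose values in every finite group are eventually constant. -/
def Conv (F : ℕ → F2h) : Prop :=
  ∀ (H : Type) [Group H] [Finite H] (a b : H), ∃ h : H, ∀ᶠ m in atTop, E (F m) a b = h

/-- The eventual value. -/
noncomputable def limv (F : ℕ → F2h) (hF : Conv F) {H : Type} [Group H] [Finite H] (a b : H) :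
    H := (hF H a b).choose

lemma limv_spec (F : ℕ → F2h) (hF : Conv F) {H : Type} [Group H] [Finite H] (a b : H) :
    ∀ᶠ m in atTop, E (F m) a b = limv F hF a b := (hF H a b).choose_spec

lemma map_limv (F : ℕ → F2h) (hF : Conv F) {H K : Type} [Group H] [Finite H] [Group K] [Finite K]
    (ψ : H →* K) (a b : H) : ψ (limv F hF a b) = limv F hF (ψ a) (ψ b) := by
  obtain ⟨m, h1, h2⟩ := ((limv_spec F hF a b).and (limv_spec F hF (ψ a) (ψ b))).exists
  rw [← h1, ← h2, map_E]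

/-- The limit of a convergent sequence of the free profinite group. -/
noncomputable def lim (F : ℕ → F2h) (hF : Conv F) : F2h where
  val N := limv F hF (QuotientGroup.mk (FreeGroup.of 0) : FreeGroup (Fin 2) ⧸ N.toSubgroup)
    (QuotientGroup.mk (FreeGroup.of 1))
  prop M N h := by
    rw [map_limv]
    rfl

lemma E_lim (F : ℕ → F2h) (hF : Conv F) {H : Type} [Group H] [Finite H] (a b : H) :
    E (lim F hF) a b = limv F hF a b := by
  have h1 : E (lim F hF) a b = kerLiftF (lift2 a b) (limv F hF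
      (QuotientGroup.mk (FreeGroup.of 0) : FreeGroup (Fin 2) ⧸ (kerF (lift2 a b)).toSubgroup)
      (QuotientGroup.mk (FreeGroup.of 1))) := rfl
  have h2 : kerLiftF (lift2 a b) (QuotientGroup.mk (FreeGroup.of 0)) = a := lift2_zero a b
  have h3 : kerLiftF (lift2 a b) (QuotientGroup.mk (FreeGroup.of 1)) = b := lift2_one a b
  rw [h1, map_limv, h2, h3]

lemma lim_spec (F : ℕ → F2h) (hF : Conv F) {H : Type} [Group H] [Finite H] (a b : H) :
    ∀ᶠ m in atTop, E (F m) a b = E (lim F hF) a b := by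
  rw [E_lim]
  exact limv_spec F hF a b

/-- The component of `f` at `N` is the value of `f` at the generators of the quotient. -/
lemma val_eq_E (f : F2h) (N : FiniteIndexNormalSubgroup (FreeGroup (Fin 2))) :
    f.val N = E f (QuotientGroup.mk (FreeGroup.of 0) : FreeGroup (Fin 2) ⧸ N.toSubgroup)
      (QuotientGroup.mk (FreeGroup.of 1)) := by
  obtain ⟨p, hp⟩ := QuotientGroup.mk_surjective (f.1 N)
  have h2 : lift2 (QuotientGroup.mk (FreeGroup.of 0) : FreeGroup (Fin 2) ⧸ N.toSubgroup)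
      (QuotientGroup.mk (FreeGroup.of 1)) = QuotientGroup.mk' N.toSubgroup :=
    (lift2_unique (QuotientGroup.mk' N.toSubgroup)).symm
  rw [E, h2, ev_eq (QuotientGroup.mk' N.toSubgroup) f N (by rw [QuotientGroup.ker_mk']) p
    hp.symm]
  exact hp.symm

/-! ## Periodicity of powers -/

section

variable {H : Type} [Group H] [Finite H]

/-- The action of a pair on `H × H × H`: the last component is multiplied by the value of `f`. -/
noncomputable def S (Ψ : Pair) (x : H × H × H) : H × H × H :=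
  (fpow x.1 Ψ.lam, (E Ψ.f x.1 x.2.1)⁻¹ * fpow x.2.1 Ψ.lam * E Ψ.f x.1 x.2.1,
    x.2.2 * E Ψ.f x.1 x.2.1)

lemma S_mul (Ψ Θ : Pair) (x : H × H × H) : S (Ψ * Θ) x = S Θ (S Ψ x) := by
  unfold S
  simp only [Pair.mul_lam, Pair.mul_f, Units.val_mul, E_mul, Pair.E_F, fpow_mul]
  refine Prod.ext rfl (Prod.ext ?_ ?_)
  · simp only [mul_inv_rev]
    rw [conj_fpow]
    group
  · simp only [mul_assoc]

lemma S_one (x : H × H × H) : S (1 : Pair) x = x := by
  unfold S
  simp

/-- The permutation of `H × H × H` defined by an invertible pair. -/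
noncomputable def Se (H : Type) [Group H] [Finite H] (P : Pairˣ) : Equiv.Perm (H × H × H) where
  toFun := S (P : Pair)
  invFun := S ((P⁻¹ : Pairˣ) : Pair)
  left_inv x := by rw [← S_mul, P.mul_inv, S_one]
  right_inv x := by rw [← S_mul, P.inv_mul, S_one]

lemma Se_pow (P : Pairˣ) (n : ℕ) (x : H × H × H) :
    ((Se H P) ^ n) x = S ((P ^ n : Pairˣ) : Pair) x := by
  induction n generalizing x with
  | zero => simp [S_one]
  | succ n ih =>
    rw [pow_succ, Equiv.Perm.mul_apply, ih, pow_succ', Units.val_mul, S_mul]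
    rfl

end

lemma periodic (P : Pairˣ) (H : Type) [Group H] [Finite H] :
    ∃ D : ℕ, 0 < D ∧ ∀ i j : ℕ, i ≡ j [MOD D] → ∀ a b : H,
      E ((P ^ i : Pairˣ) : Pair).f a b = E ((P ^ j : Pairˣ) : Pair).f a b := by
  refine ⟨orderOf (Se H P), orderOf_pos _, ?_⟩
  intro i j hij a b
  have h1 : (Se H P) ^ i = (Se H P) ^ j := pow_eq_pow_iff_modEq.2 hij
  have h2 : ((Se H P) ^ i) (a, b, 1) = ((Se H P) ^ j) (a, b, 1) := by rw [h1]
  rw [Se_pow, Se_pow] at h2
  have h3 := congrArg (fun x => x.2.2) h2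
  simpa [S] using h3

/-! ## The exponents -/

/-- The exponents `2 ^ (m! - 1)`: they tend to `0` in `ℤ₂` and to `1/2` in `ℤ_l`, `l` odd. -/
def ex (m : ℕ) : ℕ := 2 ^ (m.factorial - 1)

lemma two_mul_ex (m : ℕ) : 2 * ex m = 2 ^ m.factorial := by
  unfold ex
  rw [← pow_succ']
  congr 1
  have := Nat.factorial_pos m
  omega

lemma two_mul_ex_mod (q m : ℕ) (hq : Odd q) (hm : q ≤ m) : 2 * ex m ≡ 1 [MOD q] := by
  rw [two_mul_ex]
  have hq0 : 0 < q := hq.pos
  have h1 : q.totient ∣ m.factorial :=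
    Nat.dvd_factorial (Nat.totient_pos.2 hq0) ((Nat.totient_le q).trans hm)
  obtain ⟨r, hr⟩ := h1
  rw [hr, pow_mul]
  have h2 : 2 ^ q.totient ≡ 1 [MOD q] :=
    Nat.ModEq.pow_totient (Nat.coprime_comm.1 (Nat.Coprime.symm
      ((Nat.coprime_two_left).2 hq)))
  simpa using h2.pow r

lemma ex_mod (D m m' : ℕ) (hD : 0 < D) (hm : D ≤ m) (hm' : D ≤ m') :
    ex m ≡ ex m' [MOD D] := by
  obtain ⟨a, q, hq, rfl⟩ := Nat.exists_eq_two_pow_mul_odd hD.ne'
  have h2 : 0 < 2 ^ a := by positivity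
  have hq1 : 0 < q := hq.pos
  have hqD : q ≤ 2 ^ a * q := Nat.le_mul_of_pos_left q h2
  have haD : 2 ^ a ≤ 2 ^ a * q := Nat.le_mul_of_pos_right _ hq1
  have ha : a < 2 ^ a := Nat.lt_two_pow_self
  have hcop : Nat.Coprime (2 ^ a) q := Nat.Coprime.pow_left a ((Nat.coprime_two_left).2 hq)
  refine (Nat.modEq_and_modEq_iff_modEq_mul hcop).1 ⟨?_, ?_⟩
  · have key : ∀ m : ℕ, 2 ^ a * q ≤ m → 2 ^ a ∣ ex m := by
      intro m hm
      apply pow_dvd_pow
      have := Nat.self_le_factorial m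
      omega
    rw [Nat.ModEq, Nat.mod_eq_zero_of_dvd (key m hm), Nat.mod_eq_zero_of_dvd (key m' hm')]
  · have e1 := two_mul_ex_mod q m hq (hqD.trans hm)
    have e2 := two_mul_ex_mod q m' hq (hqD.trans hm')
    have hc : Nat.gcd q 2 = 1 := Nat.coprime_comm.1 ((Nat.coprime_two_left).2 hq)
    exact Nat.ModEq.cancel_left_of_coprime hc (e1.trans e2.symm)

lemma conv_pow (P : Pairˣ) : Conv fun m => ((P ^ ex m : Pairˣ) : Pair).f := by
  intro H _ _ a b
  obtain ⟨D, hD, hper⟩ := periodic P H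
  refine ⟨E ((P ^ ex D : Pairˣ) : Pair).f a b, ?_⟩
  filter_upwards [eventually_ge_atTop D] with m hm
  exact hper _ _ (ex_mod D m D hD hm le_rfl) a b

end LIM

open LIM Filter in
/-- For an invertible pair `P` with `lam = 1` the powers `P ^ (2 ^ (m! - 1))` converge to an
invertible pair. -/
theorem exists_limit (P : Pairˣ) (hP : (P : Pair).lam = 1) :
    ∃ s : Pairˣ, (s : Pair).lam = 1 ∧
      ∀ (H : Type) [Group H] [Finite H] (a b : H), ∀ᶠ m in atTop,
        E ((P ^ ex m : Pairˣ) : Pair).f a b = E (s : Pair).f a b := by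
  have hlam : ∀ n : ℕ, ((P ^ n : Pairˣ) : Pair).lam = 1 := by
    intro n
    induction n with
    | zero => rw [pow_zero]; rfl
    | succ n ih => rw [pow_succ, Units.val_mul, Pair.mul_lam, ih, hP, one_mul]
  have hPi : ((P⁻¹ : Pairˣ) : Pair).lam = 1 := by
    have h1 : ((P * P⁻¹ : Pairˣ) : Pair).lam = 1 := by rw [mul_inv_cancel]; rfl
    rw [Units.val_mul, Pair.mul_lam, hP, one_mul] at h1
    exact h1
  have hlami : ∀ n : ℕ, ((P⁻¹ ^ n : Pairˣ) : Pair).lam = 1 := by
    intro n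
    induction n with
    | zero => rw [pow_zero]; rfl
    | succ n ih => rw [pow_succ, Units.val_mul, Pair.mul_lam, ih, hPi, one_mul]
  set f : F2h := lim _ (conv_pow P) with hf
  set g : F2h := lim _ (conv_pow P⁻¹) with hg
  have hfs : ∀ (H : Type) [Group H] [Finite H] (a b : H), ∀ᶠ m in atTop,
      E ((P ^ ex m : Pairˣ) : Pair).f a b = E f a b := fun H _ _ a b =>
    lim_spec _ (conv_pow P) a b
  have hgs : ∀ (H : Type) [Group H] [Finite H] (a b : H), ∀ᶠ m in atTop,
      E ((P⁻¹ ^ ex m : Pairˣ) : Pair).f a b = E g a b := fun H _ _ a b =>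
    lim_spec _ (conv_pow P⁻¹) a b
  have hcomm : ∀ (Q : ℕ → Pair) (h : F2h), (∀ (H : Type) [Group H] [Finite H] (a b : H),
      ∀ᶠ m in atTop, E (Q m).f a b = E h a b) → h ∈ closedComm (FreeGroup (Fin 2)) := by
    intro Q h hh N
    rw [val_eq_E]
    obtain ⟨m, hm⟩ := (hh (FreeGroup (Fin 2) ⧸ N.toSubgroup) (QuotientGroup.mk (FreeGroup.of 0))
      (QuotientGroup.mk (FreeGroup.of 1))).exists
    rw [← hm]
    exact ev_mem_commutator _ _ (Q m).hf
  have hmul : ∀ (Q R : ℕ → Pair) (f g : F2h) (hf : f ∈ closedComm (FreeGroup (Fin 2)))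
      (hg : g ∈ closedComm (FreeGroup (Fin 2))),
      (∀ m, Q m * R m = 1) → (∀ m, (Q m).lam = 1) →
      (∀ (H : Type) [Group H] [Finite H] (a b : H),
        ∀ᶠ m in atTop, E (Q m).f a b = E f a b) →
      (∀ (H : Type) [Group H] [Finite H] (a b : H),
        ∀ᶠ m in atTop, E (R m).f a b = E g a b) →
      (⟨1, f, hf⟩ : Pair) * ⟨1, g, hg⟩ = 1 := by
    intro Q R f g hf hg hQR hQ h1 h2
    apply Pair.ext
    · simp
    · apply ext_E
      intro H _ _ a b
      rw [Pair.mul_f, E_mul, Pair.E_F]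
      simp only [Units.val_one, fpow_one, Pair.one_f, E_one]
      obtain ⟨m, hm1, hm2⟩ := ((h1 H a b).and (h2 H a ((E f a b)⁻¹ * b * E f a b))).exists
      rw [← hm2]
      rw [← hm1]
      have h3 : E ((Q m * R m).f) a b = 1 := by rw [hQR m]; simp
      rw [Pair.mul_f, E_mul, Pair.E_F, hQ m] at h3
      simpa using h3
  refine ⟨⟨⟨1, f, hcomm _ f hfs⟩, ⟨1, g, hcomm _ g hgs⟩, ?_, ?_⟩, rfl, hfs⟩
  · refine hmul (fun m => ((P ^ ex m : Pairˣ) : Pair)) (fun m => ((P⁻¹ ^ ex m : Pairˣ) : Pair))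
      f g _ _ ?_ (fun m => hlam _) hfs hgs
    intro m
    change ((P ^ ex m : Pairˣ) : Pair) * ((P⁻¹ ^ ex m : Pairˣ) : Pair) = 1
    rw [← Units.val_mul, inv_pow, mul_inv_cancel]
    rfl
  · refine hmul (fun m => ((P⁻¹ ^ ex m : Pairˣ) : Pair)) (fun m => ((P ^ ex m : Pairˣ) : Pair))
      g f _ _ ?_ (fun m => hlami _) hgs hfs
    intro m
    change ((P⁻¹ ^ ex m : Pairˣ) : Pair) * ((P ^ ex m : Pairˣ) : Pair) = 1
    rw [← Units.val_mul, inv_pow, inv_mul_cancel]
    rfl

end Pool.Agent.GTD
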