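import Pool.Agent.GTD.Stmts3

set_option autoImplicit false

/-!
# Module MOM: moments
-/

namespace Pool.Agent.GTD

open Matrix

namespace MOM

variable {R : Type} [CommRing R] {n : ℕ}

/-- the embedding of a matrix in the matrices over power series -/
noncomputable def cm (u : Matrix (Fin n) (Fin n) R) : Matrix (Fin n) (Fin n) (PowerSeries R) :=
  u.map (PowerSeries.C (R := R))

/-- the inverse of `1 - T u` -/
noncomputable def WW (u : Matrix (Fin n) (Fin n) R) : Matrix (Fin n) (Fin n) (PowerSeries R) :=
  Matrix.of fun i j => PowerSeries.mk fun k => (u ^ k) i j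

theorem det_one_sub_vecMulVec {S : Type} [CommRing S] (x y : Fin n → S) :
    (1 - vecMulVec x y).det = 1 - y ⬝ᵥ x := by
  have h := Matrix.det_one_add_replicateCol_mul_replicateRow (ι := Unit) (-x) y
  have e : (1 : Matrix (Fin n) (Fin n) S) +
      replicateCol Unit (-x) * replicateRow Unit y = 1 - vecMulVec x y := by
    ext i j
    simp [Matrix.mul_apply, vecMulVec_apply, sub_eq_add_neg]
  rw [e] at h
  rw [h, dotProduct_neg, sub_eq_add_neg]

theorem inv_mul (u : Matrix (Fin n) (Fin n) R) :
    (1 - (PowerSeries.X : PowerSeries R) • cm u) * WW u = 1 := by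
  rw [sub_mul, one_mul, smul_mul_assoc]
  ext i j k
  rw [Matrix.sub_apply, Matrix.smul_apply, smul_eq_mul, map_sub]
  cases k with
  | zero =>
    rw [PowerSeries.coeff_zero_X_mul, sub_zero, WW, Matrix.of_apply, PowerSeries.coeff_mk, pow_zero]
    by_cases hij : i = j
    · subst hij
      simp
    · simp [Matrix.one_apply_ne hij]
  | succ k =>
    rw [PowerSeries.coeff_succ_X_mul, WW, Matrix.of_apply, PowerSeries.coeff_mk, pow_succ',
      Matrix.mul_apply, Matrix.mul_apply, map_sum]
    have e : ∀ l, PowerSeries.coeff k (cm u i l * (Matrix.of fun i j =>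
        PowerSeries.mk fun k => (u ^ k) i j) l j) = u i l * (u ^ k) l j := by
      intro l
      rw [cm, Matrix.map_apply, PowerSeries.coeff_C_mul, Matrix.of_apply, PowerSeries.coeff_mk]
    rw [Finset.sum_congr rfl fun l _ => e l, sub_self]
    by_cases hij : i = j
    · subst hij
      rw [Matrix.one_apply_eq, PowerSeries.coeff_one, if_neg (Nat.succ_ne_zero k)]
    · rw [Matrix.one_apply_ne hij, map_zero]

/-- the moment series -/
noncomputable def mo (u : Matrix (Fin n) (Fin n) R) (s φ : Fin n → R) : PowerSeries R :=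
  (fun i => PowerSeries.C (φ i)) ⬝ᵥ (WW u *ᵥ fun i => PowerSeries.C (s i))

theorem coeff_mo (u : Matrix (Fin n) (Fin n) R) (s φ : Fin n → R) (k : ℕ) :
    PowerSeries.coeff k (mo u s φ) = φ ⬝ᵥ ((u ^ k) *ᵥ s) := by
  rw [mo, dotProduct, map_sum, dotProduct]
  refine Finset.sum_congr rfl fun i _ => ?_
  rw [PowerSeries.coeff_C_mul, mulVec, mulVec, dotProduct, dotProduct, map_sum]
  congr 1
  refine Finset.sum_congr rfl fun j _ => ?_
  rw [WW, Matrix.of_apply, PowerSeries.coeff_mul_C, PowerSeries.coeff_mk]

theorem det_eq (u : Matrix (Fin n) (Fin n) R) (s φ : Fin n → R) :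
    (1 - (PowerSeries.X : PowerSeries R) • cm (u + vecMulVec s φ)).det =
      (1 - (PowerSeries.X : PowerSeries R) • cm u).det * (1 - PowerSeries.X * mo u s φ) := by
  set x : Fin n → PowerSeries R := (PowerSeries.X : PowerSeries R) •
    (WW u *ᵥ fun i => PowerSeries.C (s i)) with hx
  set y : Fin n → PowerSeries R := fun i => PowerSeries.C (φ i) with hy
  have e : (1 - (PowerSeries.X : PowerSeries R) • cm (u + vecMulVec s φ)) =
      (1 - (PowerSeries.X : PowerSeries R) • cm u) * (1 - vecMulVec x y) := by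
    have e1 : cm (u + vecMulVec s φ) = cm u + vecMulVec (fun i => PowerSeries.C (s i)) y := by
      ext1 i j
      simp [cm, hy, vecMulVec_apply]
    have e2 : vecMulVec x y = (PowerSeries.X : PowerSeries R) •
        (WW u * vecMulVec (fun i => PowerSeries.C (s i)) y) := by
      rw [Matrix.mul_vecMulVec]
      ext1 i j
      simp [hx, vecMulVec_apply, mul_assoc]
    rw [e1, e2, mul_sub, mul_one, mul_smul_comm, ← mul_assoc, inv_mul, one_mul, smul_add]
    abel
  rw [e, Matrix.det_mul, det_one_sub_vecMulVec]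
  have e3 : y ⬝ᵥ x = PowerSeries.X * mo u s φ := by
    rw [hx, dotProduct_smul, smul_eq_mul, mo]
  rw [e3]

end MOM

open MOM in
theorem thm_MOM : Stmt_MOM := by
  intro R _ n u D D' s φ s' φ' hD hc k
  have h1 : cm D * cm D' = 1 := by
    rw [cm, cm, ← Matrix.map_mul, hD]
    exact Matrix.map_one _ (map_zero _) (map_one _)
  have h2 : cm D * (1 - (PowerSeries.X : PowerSeries R) • cm (u + vecMulVec s φ)) * cm D' =
      1 - (PowerSeries.X : PowerSeries R) • cm (u + vecMulVec s' φ') := by
    rw [mul_sub, sub_mul, mul_one, h1, mul_smul_comm, smul_mul_assoc]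
    congr 2
    rw [cm, cm, cm, ← Matrix.map_mul, ← Matrix.map_mul, hc, cm]
  have h3 : (cm D).det * (cm D').det = 1 := by
    rw [← Matrix.det_mul, h1, Matrix.det_one]
  have h4 : (1 - (PowerSeries.X : PowerSeries R) • cm (u + vecMulVec s φ)).det =
      (1 - (PowerSeries.X : PowerSeries R) • cm (u + vecMulVec s' φ')).det := by
    rw [← h2, Matrix.det_mul, Matrix.det_mul]
    calc _ = ((cm D).det * (cm D').det) *
        (1 - (PowerSeries.X : PowerSeries R) • cm (u + vecMulVec s φ)).det := by rw [h3, one_mul]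
      _ = _ := by ring
  rw [det_eq, det_eq] at h4
  have h5 : (1 - (PowerSeries.X : PowerSeries R) • cm u).det * (WW u).det = 1 := by
    rw [← Matrix.det_mul, inv_mul, Matrix.det_one]
  have h6 : (1 : PowerSeries R) - PowerSeries.X * mo u s φ =
      1 - PowerSeries.X * mo u s' φ' := by
    calc (1 : PowerSeries R) - PowerSeries.X * mo u s φ
        = (WW u).det * ((1 - (PowerSeries.X : PowerSeries R) • cm u).det *
          (1 - PowerSeries.X * mo u s φ)) := by
          rw [← mul_assoc, mul_comm (WW u).det, h5, one_mul]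
      _ = (WW u).det * ((1 - (PowerSeries.X : PowerSeries R) • cm u).det *
          (1 - PowerSeries.X * mo u s' φ')) := by rw [h4]
      _ = _ := by rw [← mul_assoc, mul_comm (WW u).det, h5, one_mul]
  have h7 : (PowerSeries.X : PowerSeries R) * mo u s φ = PowerSeries.X * mo u s' φ' :=
    sub_right_injective h6
  have h8 := congrArg (PowerSeries.coeff (k + 1)) h7
  rw [PowerSeries.coeff_succ_X_mul, PowerSeries.coeff_succ_X_mul, coeff_mo, coeff_mo] at h8
  exact h8

end Pool.Agent.GTD
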