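import Pool.Agent.GTD.LIM
import Pool.Agent.GTD.FIN3

set_option autoImplicit false

/-!
# Project GTD (MP_6a6203_al), fourth part: exact equality for odd periods

`InGT' s`: `s` lies in the closed subgroup generated by the commutators of elements of `GT`.
`SameAt P Q u v`: `P` and `Q` act in the same way on the homomorphism `x ↦ u`, `y ↦ v`.
-/

namespace Pool.Agent.GTD

/-- `s` lies in the closed subgroup generated by the commutators of elements of `GT`: for every
open normal subgroup `N` of the free profinite group there is a product `t` of commutators (an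
element of `commGT`) with the same `lam` and with `f` in the same coset of `N`. -/
def InGT' (s : Pair) : Prop :=
  ∀ N : FiniteIndexNormalSubgroup (FreeGroup (Fin 2)), ∃ t ∈ commGT,
    (t : Pair).lam = s.lam ∧ (t : Pair).f.val N = s.f.val N

/-- `Φ` and `Ψ` act in the same way on the homomorphism `x ↦ u`, `y ↦ v` from the free profinite
group to the finite group `H`. -/
def SameAt (Φ Ψ : Pair) {H : Type} [Group H] [Finite H] (u v : H) : Prop :=
  ∀ w : F2h, E (Φ.F w) u v = E (Ψ.F w) u v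

/-- An odd power of `P` acts trivially on the homomorphism `x ↦ u`, `y ↦ v`. -/
def OddAt (P : Pairˣ) {H : Type} [Group H] [Finite H] (u v : H) : Prop :=
  ∃ n : ℕ, Odd n ∧ TrivAt ((P ^ n : Pairˣ) : Pair) u v

/-- One of `u`, `v`, `u v` lies, up to a factor `z` which commutes with `u` and `v`, in a nilpotent
group `N` of odd order normalized by `u` and `v`. -/
def OddType {H : Type} [Group H] (u v : H) : Prop :=
  ∃ (N : Subgroup H) (z : H), Group.IsNilpotent N ∧ Odd (Nat.card N) ∧
    (∀ x ∈ N, u * x * u⁻¹ ∈ N ∧ v * x * v⁻¹ ∈ N) ∧ z * u = u * z ∧ z * v = v * z ∧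
    (u * z ∈ N ∨ v * z ∈ N ∨ u * v * z ∈ N)

/-- `C` acts on the homomorphism `x ↦ u`, `y ↦ v` as `P ^ 2`, and if `(u,v)` is of odd type or an odd
power of `P` acts trivially on the homomorphism, then `s` acts on it as `P`. -/
def ExactAt (P C s : Pairˣ) {H : Type} [Group H] [Finite H] (u v : H) : Prop :=
  SameAt (C : Pair) ((P ^ 2 : Pairˣ) : Pair) u v ∧
    (OddType u v ∨ OddAt P u v → SameAt (s : Pair) (P : Pair) u v)

namespace ODD

section

variable {H : Type} [Group H] [Finite H]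

lemma lam_pow (P : Pairˣ) (hP : (P : Pair).lam = 1) (n : ℕ) :
    ((P ^ n : Pairˣ) : Pair).lam = 1 := by
  induction n with
  | zero => rw [pow_zero]; rfl
  | succ n ih => rw [pow_succ, Units.val_mul, Pair.mul_lam, ih, hP, one_mul]

lemma lam_inv (P : Pairˣ) (hP : (P : Pair).lam = 1) : ((P⁻¹ : Pairˣ) : Pair).lam = 1 := by
  have h1 : ((P * P⁻¹ : Pairˣ) : Pair).lam = 1 := by rw [mul_inv_cancel]; rfl
  rw [Units.val_mul, Pair.mul_lam, hP, one_mul] at h1
  exact h1

lemma F_mul (P Q : Pairˣ) (w : F2h) :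
    ((P * Q : Pairˣ) : Pair).F w = (P : Pair).F ((Q : Pair).F w) := by
  rw [Units.val_mul, Pair.F_mul]

lemma E_F_one {Φ : Pair} (h : Φ.lam = 1) (w : F2h) (a b : H) :
    E (Φ.F w) a b = E w a ((E Φ.f a b)⁻¹ * b * E Φ.f a b) := by
  rw [Pair.E_F, h, Units.val_one, fpow_one, fpow_one]

/-- `k` acts trivially on the whole orbit of `(u,v)` under `P`. -/
def OrbTriv (P k : Pairˣ) (u v : H) : Prop :=
  ∀ (j : ℕ) (w : F2h), E (((P ^ j * k : Pairˣ) : Pair).F w) u v =
    E (((P ^ j : Pairˣ) : Pair).F w) u v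

/-- A criterion for `OrbTriv`: a predicate which is preserved by `P`. -/
lemma orbTriv_of_pred (P k : Pairˣ) (hP : (P : Pair).lam = 1) (K : H → H → Prop)
    (h1 : ∀ u v, K u v → TrivAt (k : Pair) u v)
    (h2 : ∀ u v, K u v → K u ((E (P : Pair).f u v)⁻¹ * v * E (P : Pair).f u v)) (u v : H)
    (h : K u v) : OrbTriv P k u v := by
  intro j
  induction j generalizing v with
  | zero =>
    intro w
    rw [pow_zero, one_mul, Units.val_one, Pair.F_one]
    exact h1 u v h w
  | succ j ih =>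
    intro w
    have e1 : P ^ (j + 1) * k = P * (P ^ j * k) := by rw [pow_succ', mul_assoc]
    rw [e1, pow_succ', F_mul P (P ^ j * k), F_mul P (P ^ j), E_F_one hP, E_F_one hP]
    exact ih _ (h2 u v h) w

lemma orbTriv_inv {P k : Pairˣ} {u v : H} (h : OrbTriv P k u v) (j : ℕ) (w : F2h) :
    E (((P ^ j * k⁻¹ : Pairˣ) : Pair).F w) u v = E (((P ^ j : Pairˣ) : Pair).F w) u v := by
  have h1 := h j (((k⁻¹ : Pairˣ) : Pair).F w)
  rw [← F_mul, ← F_mul, mul_assoc, mul_inv_cancel, mul_one] at h1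
  exact h1.symm

lemma pow_mul_pow {P C k : Pairˣ} {u v : H} (hk : P ^ 2 = C * k) (h : OrbTriv P k u v) (i j : ℕ)
    (w : F2h) :
    E (((P ^ i * C ^ j : Pairˣ) : Pair).F w) u v =
      E (((P ^ (i + 2 * j) : Pairˣ) : Pair).F w) u v := by
  induction j generalizing i with
  | zero => rw [pow_zero, mul_one, mul_zero, add_zero]
  | succ j ih =>
    have e1 : C = P ^ 2 * k⁻¹ := by rw [hk]; group
    have e2 : P ^ i * C ^ (j + 1) = (P ^ (i + 2) * k⁻¹) * C ^ j := by
      rw [pow_succ' C, pow_add, mul_assoc (P ^ i), ← e1, mul_assoc]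
    have e3 : i + 2 + 2 * j = i + 2 * (j + 1) := by ring
    rw [e2, F_mul, orbTriv_inv h, ← F_mul, ih, e3]

/-- The commutator acts as the square. -/
lemma same_sq {P C k : Pairˣ} {u v : H} (hk : P ^ 2 = C * k) (h : OrbTriv P k u v) :
    SameAt (C : Pair) ((P ^ 2 : Pairˣ) : Pair) u v := by
  intro w
  have := pow_mul_pow hk h 0 1 w
  simpa using this

lemma trivAt_pow {P : Pairˣ} {u v : H} (n : ℕ) (h : TrivAt ((P ^ n : Pairˣ) : Pair) u v) (r : ℕ) :
    TrivAt ((P ^ (n * r) : Pairˣ) : Pair) u v := by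
  induction r with
  | zero =>
    intro w
    rw [mul_zero, pow_zero, Units.val_one, Pair.F_one]
  | succ r ih =>
    intro w
    have e1 : P ^ (n * (r + 1)) = P ^ n * P ^ (n * r) := by rw [← pow_add]; congr 1; ring
    rw [e1, F_mul, h, ih]

open Filter LIM in
/-- For an odd period the limit acts as `P`. -/
lemma same_of_odd {P C k s : Pairˣ} {u v : H} (hk : P ^ 2 = C * k) (h : OrbTriv P k u v)
    (hC : (C : Pair).lam = 1) (hs : (s : Pair).lam = 1)
    (hlim : ∀ᶠ m in atTop, E ((C ^ ex m : Pairˣ) : Pair).f u v = E (s : Pair).f u v)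
    (hodd : OddAt P u v) : SameAt (s : Pair) (P : Pair) u v := by
  obtain ⟨n, hn, hPn⟩ := hodd
  obtain ⟨m, hm, hmn⟩ := (hlim.and (eventually_ge_atTop n)).exists
  intro w
  have h1 : E ((s : Pair).F w) u v = E (((C ^ ex m : Pairˣ) : Pair).F w) u v := by
    rw [E_F_one hs, E_F_one (lam_pow C hC _), hm]
  have h2 := pow_mul_pow hk h 0 (ex m) w
  rw [pow_zero, one_mul, zero_add] at h2
  rw [h1, h2]
  have h3 := two_mul_ex_mod n m hn hmn
  have h4 : 1 ≤ 2 * ex m := by
    rw [two_mul_ex]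
    exact Nat.one_le_two_pow
  obtain ⟨r, hr⟩ := (Nat.modEq_iff_dvd' h4).1 h3.symm
  have h5 : 2 * ex m = n * r + 1 := by omega
  rw [h5, pow_succ, F_mul]
  exact trivAt_pow n hPn r _

end

end ODD

end Pool.Agent.GTD
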