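import Pool.Agent.GTD.GTDefs

set_option autoImplicit false

/-!
# Project GTD (MP_6a6203_al): statements of the modules

In the comments `f(a,b)` means `E f a b`.  All rings `O` are finite commutative rings.
Module `X` proves `theorem thm_X (h₁ : Stmt_Y) (h₂ : Stmt_Z) ... : Stmt_X`, where the `Stmt_Y`,
`Stmt_Z` are among the statements named at `Stmt_X` (needs ...).
-/

namespace Pool.Agent.GTD

open Matrix

/-- The main theorem. -/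
def Stmt_final : Prop :=
  -- the elements of `GT` are invertible pairs
  (∀ Φ : Pair, Φ ∈ GT → IsUnit Φ) ∧
  ∃ c : Pairˣ, (c : Pair) ∈ GT ∧ (c : Pair).lam = -1 ∧ (c : Pair).f = 1 ∧
  (∀ Φ Ψ : Pairˣ, (Φ : Pair) ∈ GT → (Ψ : Pair) ∈ GT → (Φ : Pair).lam = 1 →
    (Ψ : Pair).lam = 1 →
      -- complex conjugation acts by inversion
      TrivGL2 (c * Φ * c⁻¹ * Φ : Pairˣ) ∧
      -- the action is abelian
      TrivGL2 (Φ * Ψ * Φ⁻¹ * Ψ⁻¹ : Pairˣ) ∧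
      -- the action is determined by the metabelian one
      (TrivMetab Φ → TrivGL2 Φ ∧
        ∀ (O : Type) [CommRing O] [Finite O] (u v : GL (Fin 2) O), E (Φ : Pair).f u v = 1) ∧
      -- squares are products of commutators up to the kernel
      (∃ s ∈ commGT, ∃ k ∈ genGT, (k : Pair).lam = 1 ∧ TrivGL2 k ∧ Φ ^ 2 = s * k)) ∧
  -- characters
  (∀ (A : Type) [CommGroup A], (∀ a : A, a ^ 2 = 1 → a = 1) →
    ∀ χ : genGT →* A, (∀ k : genGT, TrivGL2 ((k : Pairˣ) : Pair) → χ k = 1) →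
    ∀ Φ : genGT, ((Φ : Pairˣ) : Pair) ∈ GT → ((Φ : Pairˣ) : Pair).lam = 1 → χ Φ = 1)

/-! ## Elements of `GT` with `lam = 1` -/

/-- The relations of `K(0,5)` for `(a,b,c,d,e) = (x₁₂,x₂₃,x₃₄,x₄₅,x₅₁)`. -/
structure Rel5 {H : Type} [Group H] (a b c d e : H) : Prop where
  ac : a * c = c * a
  bd : b * d = d * b
  ce : c * e = e * c
  da : d * a = a * d
  eb : e * b = b * e
  long : e * b⁻¹ * a * c⁻¹ * b * d⁻¹ * c * e⁻¹ * d * a⁻¹ = 1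

/-- The relations for `lam = 1`, evaluated in all finite groups. -/
structure IsGT1 (f : F2h) : Prop where
  comm : f ∈ closedComm (FreeGroup (Fin 2))
  I : ∀ (H : Type) [Group H] [Finite H] (a b : H), E f a b * E f b a = 1
  II : ∀ (H : Type) [Group H] [Finite H] (a b : H),
    E f (a * b)⁻¹ a * E f b (a * b)⁻¹ * E f a b = 1
  III : ∀ (H : Type) [Group H] [Finite H] (a b c d e : H), Rel5 a b c d e →
    E f a b * E f c d * E f e a * E f b c * E f d e = 1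

/-- The image of `f` under complex conjugation: `f(x⁻¹, y⁻¹)`. -/
noncomputable def cj (f : F2h) : F2h := subst X⁻¹ Y⁻¹ f

@[simp] lemma E_cj {H : Type} [Group H] [Finite H] (f : F2h) (a b : H) :
    E (cj f) a b = E f a⁻¹ b⁻¹ := by
  simp [cj]

/-- The endomorphism `x ↦ x`, `y ↦ f⁻¹ y f`. -/
noncomputable def F1 (f : F2h) : F2h →* F2h := subst X (f⁻¹ * Y * f)

lemma E_F1 {H : Type} [Group H] [Finite H] (f w : F2h) (a b : H) :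
    E (F1 f w) a b = E w a ((E f a b)⁻¹ * b * E f a b) := by
  simp [F1]

/-- MODULE GT1.  From the relations in the profinite completions to finite groups.
PROOF.  (I): apply `E · a b` to `relI` (`E_subst`, `E_X`, `E_Y`).  (II): `2 m + 1 = 1` in `ZHat`
gives `m = 0` (componentwise: the component `m_{2n}` satisfies `2 m_{2n} = 0` in `ZMod (2n)`, so it
is divisible by `n`, so `m_n = 0`), then `cpow _ 0 = 1` (`ext_E`, `E_cpow`, `fpow_zero`), apply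
`E · a b`.  (III): `Rel5` gives a homomorphism `φ : K05 → H` (`PresentedGroup.toGroup`) with
`x_i ↦ a, b, c, d, e`; apply `ev φ` (`ev_subst`, `ev_eta`). -/
def Stmt_GT1 : Prop := ∀ Φ : Pair, Φ ∈ GT → Φ.lam = 1 → IsGT1 Φ.f

/-- MODULE CONJ.  PROOF.  `comm`: `E`-values of elements of `closedComm` lie in the commutator
subgroup (`ev_mem_commutator`).  (I) clear.  (II) for `(a⁻¹,b⁻¹)`: take (II) of `f` for
`(b⁻¹, a⁻¹)`: with `z = (b⁻¹a⁻¹)⁻¹ = ab`: `f(z,b⁻¹) f(a⁻¹,z) f(b⁻¹,a⁻¹) = 1`; invert and use (I):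
`f(a⁻¹,b⁻¹) f(z,a⁻¹) f(b⁻¹,z) = 1`, rotate.  (III): `Rel5 a b c d e → Rel5 a⁻¹ b⁻¹ c⁻¹ d⁻¹ e⁻¹`: put
`q = a⁻¹c = c a⁻¹`; modulo the commutations the long relation says
`d⁻¹ e⁻¹ q d e = b⁻¹ q b`, equivalently (as `b` commutes with `d`, `e`)
`e d q e⁻¹ d⁻¹ = b q b⁻¹`, and the long relation of the inverses is the inverse of this. -/
def Stmt_CONJ : Prop :=
  (∀ (H : Type) [Group H] (a b c d e : H), Rel5 a b c d e → Rel5 a⁻¹ b⁻¹ c⁻¹ d⁻¹ e⁻¹) ∧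
  (∀ f : F2h, IsGT1 f → IsGT1 (cj f))

/-- MODULE API.  (1) values commute with everything that commutes with the arguments (`map_E`
for `MulAut.conj`); (2) central factors can be removed: approximate: choose a word `g` in
`commutator (FreeGroup (Fin 2))` with `f.1 N = mk g` for `N` = the intersection of the kernels of
`lift2 (a*z) (b*z')`, `lift2 a b` (image of the commutator subgroup under the quotient map is the
commutator subgroup; `ev_eq`); for words `lift2 (a*z) (b*z') g = lift2 a b g * lift2 z z' g` and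
`lift2 z z'` kills commutators; (3) special case; (4) intertwining: for words by induction,
then approximate (use `ev_eq` for the intersection of the two kernels). -/
def Stmt_API : Prop :=
  (∀ (H : Type) [Group H] [Finite H] (f : F2h) (a b h : H), h * a = a * h → h * b = b * h →
    h * E f a b = E f a b * h) ∧
  (∀ (H : Type) [Group H] [Finite H] (f : F2h), f ∈ closedComm (FreeGroup (Fin 2)) →
    ∀ a b z z' : H, z * a = a * z → z * b = b * z → z' * a = a * z' → z' * b = b * z' →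
      z * z' = z' * z → E f (a * z) (b * z') = E f a b) ∧
  (∀ (H : Type) [Group H] [Finite H] (f : F2h), f ∈ closedComm (FreeGroup (Fin 2)) →
    ∀ a b : H, a * b = b * a → E f a b = 1) ∧
  (∀ (A B : Type) [Finite A] [Finite B] (L : A → B) (a b : Equiv.Perm A) (a' b' : Equiv.Perm B),
    (∀ x, L (a x) = a' (L x)) → (∀ x, L (b x) = b' (L x)) →
    ∀ (f : F2h) (x : A), L (E f a b x) = E f a' b' (L x))

/-! ## Affine groups -/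

/-- Affine transformations `w ↦ g w + t` of `O²`. -/
@[ext] structure AG (O : Type) [CommRing O] where
  /-- linear part -/
  g : GL (Fin 2) O
  /-- translation part -/
  t : Fin 2 → O

section AGgroup

variable {O : Type} [CommRing O]

instance : Mul (AG O) := ⟨fun a b => ⟨a.g * b.g, a.t + a.g.1 *ᵥ b.t⟩⟩
instance : One (AG O) := ⟨⟨1, 0⟩⟩
instance : Inv (AG O) := ⟨fun a => ⟨a.g⁻¹, -(a.g⁻¹.1 *ᵥ a.t)⟩⟩

@[simp] lemma AG.mul_g (a b : AG O) : (a * b).g = a.g * b.g := rfl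
@[simp] lemma AG.mul_t (a b : AG O) : (a * b).t = a.t + a.g.1 *ᵥ b.t := rfl
@[simp] lemma AG.one_g : (1 : AG O).g = 1 := rfl
@[simp] lemma AG.one_t : (1 : AG O).t = 0 := rfl
@[simp] lemma AG.inv_g (a : AG O) : (a⁻¹).g = a.g⁻¹ := rfl
@[simp] lemma AG.inv_t (a : AG O) : (a⁻¹).t = -(a.g⁻¹.1 *ᵥ a.t) := rfl

instance : Group (AG O) :=
  Group.ofLeftAxioms
    (by
      intro a b c
      ext1
      · simp [mul_assoc]
      · simp only [AG.mul_t, AG.mul_g, Units.val_mul, Matrix.mulVec_add, Matrix.mulVec_mulVec,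
          add_assoc])
    (by
      intro a
      ext1
      · simp
      · simp)
    (by
      intro a
      ext1
      · simp
      · simp)

instance [Finite O] : Finite (AG O) := by
  have : Function.Injective (fun a : AG O => (a.g, a.t)) := by
    intro a b h
    have h1 := congrArg Prod.fst h
    have h2 := congrArg Prod.snd h
    exact AG.ext h1 h2
  exact Finite.of_injective _ this

/-- The linear part, as a homomorphism. -/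
def AG.lin : AG O →* GL (Fin 2) O where
  toFun a := a.g
  map_one' := rfl
  map_mul' _ _ := rfl

/-- Scalar matrices. -/
def sc (s : Oˣ) : GL (Fin 2) O :=
  ⟨Matrix.scalar (Fin 2) (s : O), Matrix.scalar (Fin 2) ((s⁻¹ : Oˣ) : O), by
    rw [← map_mul, Units.mul_inv, map_one], by rw [← map_mul, Units.inv_mul, map_one]⟩

/-- The affine transformation `w ↦ s w + t`. -/
def aff (s : Oˣ) (t : Fin 2 → O) : AG O := ⟨sc s, t⟩

variable [Finite O]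

/-- The function `P` attached to `f`: `f((s,e₀),(t,e₁))` is the translation by
`P(s,t) e₀ - Q(s,t) e₁`. -/
noncomputable def Pf (f : F2h) (s t : Oˣ) : O := (E f (aff s ![1, 0]) (aff t ![0, 1])).t 0

/-- The function `Q` attached to `f`. -/
noncomputable def Qf (f : F2h) (s t : Oˣ) : O := -(E f (aff s ![1, 0]) (aff t ![0, 1])).t 1

/-- The beta function attached to `f`. -/
noncomputable def bf (f : F2h) (s t : Oˣ) : O := 1 + (1 - (s : O)) * Pf f s t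

end AGgroup

/-- MODULE AFF (needs API).  The value at affine transformations with scalar linear part, for all
translation parts.  PROOF.  The linear part of `f((s,w₁),(t,w₂))` is `E f (sc s) (sc t) = 1`
(`map_E AG.lin`, API (3)).  The group `AG O` acts faithfully on `Fin 2 → O` by permutations
(`w ↦ g w + t`).  With `L x = x 0 • w₁ + x 1 • w₂` one has `L ∘ (s,e₀) = (s,w₁) ∘ L`,
`L ∘ (t,e₁) = (t,w₂) ∘ L`; the intertwining principle API (4) at `x = 0` gives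
`f((s,w₁),(t,w₂)) (0) = L (f((s,e₀),(t,e₁)) (0)) = P w₁ - Q w₂`.  Second: conjugate by the
translation by `w`, which commutes with `f((s,w₁),(t,w₂))` (a translation):
`(s, w₁ + (1-s) w)`, `(t, w₂ + (1-t) w)` have the same value, so `P (1-s) w = Q (1-t) w`.
Third: the map `AG O → AG O'` induced by `φ` is a homomorphism (`map_E`). -/
def Stmt_AFF : Prop :=
  ∀ f : F2h, f ∈ closedComm (FreeGroup (Fin 2)) → ∀ (O : Type) [CommRing O] [Finite O],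
    (∀ (s t : Oˣ) (w₁ w₂ : Fin 2 → O),
      E f (aff s w₁) (aff t w₂) = ⟨1, Pf f s t • w₁ - Qf f s t • w₂⟩) ∧
    (∀ s t : Oˣ, (1 - (s : O)) * Pf f s t = (1 - (t : O)) * Qf f s t) ∧
    (∀ (O' : Type) [CommRing O'] [Finite O'] (φ : O →+* O') (s t : Oˣ),
      Pf f (Units.map (φ : O →* O') s) (Units.map (φ : O →* O') t) = φ (Pf f s t) ∧
      Qf f (Units.map (φ : O →* O') s) (Units.map (φ : O →* O') t) = φ (Qf f s t))

/-- MODULE ANN.  The epsilon trick.  PROOF.  Take `O' = O[X]/(X^K)` (`AdjoinRoot (X^K)`), `ε` the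
class of `X`, `i` the structure map, `π` evaluation at `0`.  The ring `O[X]/(p)` is finite (`p` has
unit leading coefficient; after scaling `p` is monic), so in it two powers of `X` coincide:
`X^m (1 - X^n) ∈ (p)` in `O[X]` for some `m ≥ 0`, `n ≥ 1`.  Take `K = m + 1`.  In `O'` the element
`1 - ε^n` is a unit, so `ε^m` is a multiple of `p(ε)`, so `p(ε) y = 0` gives `ε^m y = 0` and
`X^m Y ∈ (X^{m+1})` for a representative `Y` of `y`, so `Y(0) = 0`.  An element `y` with `π y` a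
unit is a unit as the kernel of `π`, generated by `ε`, is nilpotent. -/
def Stmt_ANN : Prop :=
  ∀ (O : Type) [CommRing O] [Finite O] (p : Polynomial O), IsUnit p.leadingCoeff →
    ∃ (O' : Type) (_ : CommRing O') (_ : Finite O') (i : O →+* O') (π : O' →+* O) (ε : O'),
      (∀ x, π (i x) = x) ∧ π ε = 0 ∧ (∀ y : O', IsUnit (π y) → IsUnit y) ∧
      ∀ y : O', Polynomial.eval₂ i ε p * y = 0 → π y = 0

/-- MODULE PREL (needs AFF, ANN).  PROOF.  (I) at `(s,w₁)`, `(t,w₂)`: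
`P(s,t)w₁ - Q(s,t)w₂ + P(t,s)w₂ - Q(t,s)w₁ = 0`.  (II): with `r = (st)⁻¹` and
`((s,w₁)(t,w₂))⁻¹ = (r, w₃)`, `w₃ = -r(w₁ + s w₂)`, `Δ_r = P(r,s)-P(r,t)`, `Δ_s = P(s,t)-P(s,r)`,
`Δ_t = P(t,r)-P(t,s)`: `Δ_r w₃ + Δ_s w₁ + Δ_t w₂ = 0`, i.e. `Δ_s = r Δ_r`, `Δ_t = r s Δ_r`.  The same
for `(t,w₂)`, `(s,w₁)`: `Δ_s = r t Δ_r`, `Δ_t = r Δ_r`.  So `(1-t) Δ_r = 0`.  Apply this over the
ring `O'` of ANN for the polynomial `p = 1 - t(1+X)` to `s`, `t(1+ε)` and use the naturality of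
`P` under `π`. -/
def Stmt_PREL : Prop :=
  ∀ f : F2h, IsGT1 f → ∀ (O : Type) [CommRing O] [Finite O],
    (∀ s t : Oˣ, Qf f s t = Pf f t s) ∧
    (∀ r s t : Oˣ, r * s * t = 1 → Pf f r s = Pf f r t)

/-- MODULE CANC (needs AFF, ANN).  Cancellation of `1 - s` and of `1 - t`: if a combination holds
after multiplication by `1-s` for all rings, it holds.  Stated for functions `D` of a pair of units
which are natural in the ring.  PROOF.  Over the ring `O'` of ANN for `p = 1 - s(1+X)`: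
`(1 - s(1+ε)) D(s(1+ε), t) = 0`, so `π D(s(1+ε),t) = D(s,t) = 0`. -/
def Stmt_CANC : Prop :=
  ∀ D : (O : Type) → [CommRing O] → [Finite O] → Oˣ → Oˣ → O,
    (∀ (O O' : Type) [CommRing O] [Finite O] [CommRing O'] [Finite O'] (φ : O →+* O')
      (s t : Oˣ), D O' (Units.map (φ : O →* O') s) (Units.map (φ : O →* O') t) =
        φ (D O s t)) →
    ((∀ (O : Type) [CommRing O] [Finite O] (s t : Oˣ), (1 - (s : O)) * D O s t = 0) →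
      ∀ (O : Type) [CommRing O] [Finite O] (s t : Oˣ), D O s t = 0) ∧
    ((∀ (O : Type) [CommRing O] [Finite O] (s t : Oˣ), (1 - (t : O)) * D O s t = 0) →
      ∀ (O : Type) [CommRing O] [Finite O] (s t : Oˣ), D O s t = 0)

/-! ## The pentagon -/

/-- MODULE GRP.  A lemma on groups.  PROOF.  Write `M = n₂n₃`, `L = n₁n₂`; `X` commutes with `L`,
`n₃`, `n₄`, `Y` commutes with `M`, `n₁`, `n₄`.  First tuple: `X n₁ n₂` commutes with `n₁` (and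
`n₂`) since `X L n₁ L⁻¹ X⁻¹ = L (X n₁ X⁻¹) L⁻¹ = n₁`.  Long relation: with `q = X⁻¹ c = L`
(`c = X L`) it says `d⁻¹ e⁻¹ q d e = b⁻¹ q b` for `d = n₄`, `e = n₁`, `b = Y`:
`n₄⁻¹ n₁⁻¹ L n₄ n₁ = Y⁻¹ L Y`, i.e. (`Y` commutes with `n₁`, `n₄`) `Y (n₁⁻¹ L) Y⁻¹ = n₄ (…)`, which
is `Y n₂ Y⁻¹ = M⁻¹ n₂ M`, `M⁻¹ = n₄ n₁`.  Second tuple: `Y M` commutes with `n₃`, `n₂`, `Y`; the
long relation reduces to `n₄⁻¹ (X M⁻¹ X⁻¹) L⁻¹ M = n₃`, true by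
`X M X⁻¹ = L⁻¹ n₂ L n₃` and `n₁n₂n₃n₄ = 1`. -/
def Stmt_GRP : Prop :=
  ∀ (H : Type) [Group H] (x y n₁ n₂ n₃ n₄ : H), n₁ * n₂ * n₃ * n₄ = 1 →
    x * n₁ * x⁻¹ = (n₁ * n₂)⁻¹ * n₁ * (n₁ * n₂) →
    x * n₂ * x⁻¹ = (n₁ * n₂)⁻¹ * n₂ * (n₁ * n₂) →
    x * n₃ = n₃ * x → x * n₄ = n₄ * x → y * n₁ = n₁ * y →
    y * n₂ * y⁻¹ = (n₂ * n₃)⁻¹ * n₂ * (n₂ * n₃) →
    y * n₃ * y⁻¹ = (n₂ * n₃)⁻¹ * n₃ * (n₂ * n₃) →
    y * n₄ = n₄ * y →
    Rel5 x y (x * (n₁ * n₂)) n₄ n₁ ∧ Rel5 x y n₃ n₄ (y * (n₂ * n₃))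

section Gassner

variable {O : Type} [CommRing O]

/-- The first Gassner matrix: `v₁ ↦ (T₁T₂)⁻¹ v₁ + (1-T₁) v₃`, `v₃ ↦ v₃` in the basis
`v₁ = (1,0)`, `v₃ = (0,1)`. -/
def gu (T₁ T₂ : Oˣ) : GL (Fin 2) O :=
  ⟨!![(((T₁ * T₂)⁻¹ : Oˣ) : O), 0; 1 - (T₁ : O), 1],
   !![((T₁ * T₂ : Oˣ) : O), 0; -((1 - (T₁ : O)) * ((T₁ * T₂ : Oˣ) : O)), 1],
   by
    rw [Matrix.mul_fin_two, Matrix.one_fin_two]
    congr 1
    have h : (((T₁ * T₂)⁻¹ : Oˣ) : O) * ((T₁ * T₂ : Oˣ) : O) = 1 := Units.inv_mul _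
    simp only [h, mul_zero, add_zero, zero_add, mul_one, zero_mul, one_mul]
    simp,
   by
    rw [Matrix.mul_fin_two, Matrix.one_fin_two]
    congr 1
    have h : ((T₁ * T₂ : Oˣ) : O) * (((T₁ * T₂)⁻¹ : Oˣ) : O) = 1 := Units.mul_inv _
    simp only [h, mul_zero, add_zero, zero_add, mul_one, zero_mul, one_mul, neg_mul, mul_assoc]
    simp⟩

/-- The second Gassner matrix: `v₁ ↦ v₁`, `v₃ ↦ (T₂T₃)⁻¹ v₃ + (1-T₃) T₄ v₁`,
`T₄ = (T₁T₂T₃)⁻¹`. -/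
def gv (T₁ T₂ T₃ : Oˣ) : GL (Fin 2) O :=
  ⟨!![1, (1 - (T₃ : O)) * (((T₁ * T₂ * T₃)⁻¹ : Oˣ) : O); 0, (((T₂ * T₃)⁻¹ : Oˣ) : O)],
   !![1, -((1 - (T₃ : O)) * (((T₁ * T₂ * T₃)⁻¹ : Oˣ) : O) * ((T₂ * T₃ : Oˣ) : O));
     0, ((T₂ * T₃ : Oˣ) : O)],
   by
    rw [Matrix.mul_fin_two, Matrix.one_fin_two]
    congr 1
    have h : (((T₂ * T₃)⁻¹ : Oˣ) : O) * ((T₂ * T₃ : Oˣ) : O) = 1 := Units.inv_mul _
    simp only [h, mul_zero, add_zero, zero_add, mul_one, zero_mul, one_mul]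
    simp,
   by
    rw [Matrix.mul_fin_two, Matrix.one_fin_two]
    congr 1
    have h : ((T₂ * T₃ : Oˣ) : O) * (((T₂ * T₃)⁻¹ : Oˣ) : O) = 1 := Units.mul_inv _
    simp only [h, mul_zero, add_zero, zero_add, mul_one, zero_mul, one_mul, neg_mul, mul_assoc]
    simp⟩

/-- `n₁ = (T₁, v₁)`. -/
def en1 (T₁ : Oˣ) : AG O := aff T₁ ![1, 0]

/-- `n₂ = (T₂, v₂)`, `v₂ = -T₁⁻¹ v₁ - T₂ v₃`, so that `v₁ + T₁ v₂ + T₁ T₂ v₃ = 0`. -/
def en2 (T₁ T₂ : Oˣ) : AG O := aff T₂ ![-((T₁⁻¹ : Oˣ) : O), -(T₂ : O)]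

/-- `n₃ = (T₃, v₃)`. -/
def en3 (T₃ : Oˣ) : AG O := aff T₃ ![0, 1]

/-- `n₄ = (T₄, 0)`, `T₄ = (T₁T₂T₃)⁻¹`. -/
def en4 (T₁ T₂ T₃ : Oˣ) : AG O := aff (T₁ * T₂ * T₃)⁻¹ 0

variable [Finite O]

/-- The matrix `R`: `v₁ ↦ b(T₁,(T₁T₂)⁻¹) v₁ + σ v₃`, `v₃ ↦ b(T₃,T₄) v₃`,
`σ = -(1-T₁)(Q(T₁,(T₁T₂)⁻¹) + T₁T₂ P(T₁T₂,T₄))`. -/
noncomputable def Rm (f : F2h) (T₁ T₂ T₃ : Oˣ) : Matrix (Fin 2) (Fin 2) O :=
  !![bf f T₁ (T₁ * T₂)⁻¹, 0;
    -((1 - (T₁ : O)) * (Qf f T₁ (T₁ * T₂)⁻¹ +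
      ((T₁ * T₂ : Oˣ) : O) * Pf f (T₁ * T₂) (T₁ * T₂ * T₃)⁻¹)),
    bf f T₃ (T₁ * T₂ * T₃)⁻¹]

/-- The matrix `S`: `v₁ ↦ b(T₄,T₁) v₁`, `v₃ ↦ b((T₂T₃)⁻¹,T₃) v₃ + σ' v₁`,
`σ' = -(1-T₃)(T₄ P((T₂T₃)⁻¹,T₃) + T₁⁻¹ Q(T₄,T₂T₃))`. -/
noncomputable def Sm (f : F2h) (T₁ T₂ T₃ : Oˣ) : Matrix (Fin 2) (Fin 2) O :=
  !![bf f (T₁ * T₂ * T₃)⁻¹ T₁,
    -((1 - (T₃ : O)) * ((((T₁ * T₂ * T₃)⁻¹ : Oˣ) : O) * Pf f (T₂ * T₃)⁻¹ T₃ +
      ((T₁⁻¹ : Oˣ) : O) * Qf f (T₁ * T₂ * T₃)⁻¹ (T₂ * T₃)));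
    0, bf f (T₂ * T₃)⁻¹ T₃]

end Gassner

/-- MODULE GREL.  The hypotheses of `Stmt_GRP` for the affine transformations
`x = (gu, 0)`, `y = (gv, 0)`, `n_i`.  PROOF.  Components (`AG.ext`); the linear parts of the `n_i`
are scalar.  Conjugating `(T,v)` by `x` gives `(T, gu v)`, conjugating `(s,w)` by `(g,t)⁻¹` with
`g` a scalar gives `(s, g⁻¹ (w + s t - t))`; `n₁n₂ = (T₁T₂, -T₁T₂ v₃)`,
`n₂n₃ = (T₂T₃, -T₁⁻¹ v₁)`.  (Multiply out with entries; `field_simp` does not work over rings,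
use `Units.mul_inv` or `linear_combination` with the relations `T_i T_i⁻¹ = 1`.) -/
def Stmt_GREL : Prop :=
  ∀ (O : Type) [CommRing O] (T₁ T₂ T₃ : Oˣ),
    let x : AG O := ⟨gu T₁ T₂, 0⟩
    let y : AG O := ⟨gv T₁ T₂ T₃, 0⟩
    let n₁ : AG O := en1 T₁
    let n₂ : AG O := en2 T₁ T₂
    let n₃ : AG O := en3 T₃
    let n₄ : AG O := en4 T₁ T₂ T₃
    n₁ * n₂ * n₃ * n₄ = 1 ∧
    x * n₁ * x⁻¹ = (n₁ * n₂)⁻¹ * n₁ * (n₁ * n₂) ∧
    x * n₂ * x⁻¹ = (n₁ * n₂)⁻¹ * n₂ * (n₁ * n₂) ∧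
    x * n₃ = n₃ * x ∧ x * n₄ = n₄ * x ∧ y * n₁ = n₁ * y ∧
    y * n₂ * y⁻¹ = (n₂ * n₃)⁻¹ * n₂ * (n₂ * n₃) ∧
    y * n₃ * y⁻¹ = (n₂ * n₃)⁻¹ * n₃ * (n₂ * n₃) ∧
    y * n₄ = n₄ * y

/-- MODULE PENT (needs API, AFF, GRP, GREL).  The pentagon in the affine group:
`f(gu,gv) R = S`.  PROOF.  Let `G = f(gu,gv)`; `f(x,y) = (G,0)` (`map_E` for the homomorphism
`g ↦ (g,0)`).  FIRST TUPLE `(x, y, c, n₄, n₁)`, `c = x n₁ n₂` of GRP, (III):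
`f(x,y) f(c,n₄) f(n₁,x) f(y,c) f(n₄,n₁) = 1`.
`f(c,n₄) = f(n₁n₂,n₄)` since `x` commutes with `n₁n₂` and `n₄` (API (2)); it is `(1,A)`,
`A = P(T₁T₂,T₄) (-T₁T₂ v₃)`.  `f(n₁,x) = f(n₁,(n₁n₂)⁻¹)` since `x = (n₁n₂)⁻¹ c` and `c` commutes
with `n₁` and `n₁n₂`; it is `(1,B)`, `B = P(T₁,(T₁T₂)⁻¹) v₁ - Q(T₁,(T₁T₂)⁻¹) v₃`
(`(n₁n₂)⁻¹ = ((T₁T₂)⁻¹, v₃)`).  `f(n₄,n₁) = (1,D)`, `D = -Q(T₄,T₁) v₁`.  `f(y,c) = (G⁻¹, C)`: linear
part `f(gv, (T₁T₂) gu) = f(gv,gu) = G⁻¹` by (I) and API (2), and it commutes with `n₁` (API (1),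
`y` and `c` commute with `n₁`), so `(1-T₁) C = v₁ - G⁻¹ v₁`.  So `G(A+B+C) + D = 0`; multiply by
`1-T₁`: `G((1-T₁)(A+B) + v₁) = v₁ - (1-T₁) D = b(T₄,T₁) v₁`, the first column.
SECOND TUPLE `(x, y, n₃, n₄, e)`, `e = y n₂n₃`: `f(x,y) f(n₃,n₄) f(e,x) f(y,n₃) f(n₄,e) = 1`, with
`f(n₃,n₄) = (1, P(T₃,T₄) v₃)`, `f(e,x) = (G⁻¹, C)`, commuting with `n₃`:
`(1-T₃) C = v₃ - G⁻¹ v₃`; `f(y,n₃) = f((n₂n₃)⁻¹,n₃) = (1, P((T₂T₃)⁻¹,T₃) T₄ v₁ - Q((T₂T₃)⁻¹,T₃) v₃)`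
(`(n₂n₃)⁻¹ = ((T₂T₃)⁻¹, T₄ v₁)`), `f(n₄,e) = f(n₄,n₂n₃) = (1, T₁⁻¹ Q(T₄,T₂T₃) v₁)`.  Multiply by
`1-T₃`: the second column. -/
def Stmt_PENT : Prop :=
  ∀ f : F2h, IsGT1 f → ∀ (O : Type) [CommRing O] [Finite O] (T₁ T₂ T₃ : Oˣ),
    (E f (gu T₁ T₂) (gv T₁ T₂ T₃)).1 * Rm f T₁ T₂ T₃ = Sm f T₁ T₂ T₃

/-- MODULE BBC (needs API, AFF, PREL, CANC, PENT).  PROOF.  The determinant of `f(gu,gv)` is `1`
(`map_E` for the determinant `GL → Oˣ`, API (3)), so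
`b(T₁,(T₁T₂)⁻¹) b(T₃,T₄) = b(T₄,T₁) b((T₂T₃)⁻¹,T₃)`.  By PREL `b` is symmetric
(`1 + (1-s) P(s,t) = 1 + (1-t) Q(s,t)`), `b(r,s) = b(r,t)` for `rst = 1` and `b(s,1) = 1`.
For `(T₁,T₂,T₃) = (s, t, t⁻¹)`, `T₄ = s⁻¹`: the left side is `b(s,t) b(t⁻¹,s⁻¹)`, the right side
`b(s⁻¹,s) b(1,t⁻¹) = b(s⁻¹,1) = 1`.
Second: `(cj f)((s,w₁),(t,w₂)) = f((s⁻¹,-s⁻¹w₁),(t⁻¹,-t⁻¹w₂))`.  Third: from the second.  Fourth:
both sides agree after multiplication by `1-s` by the first, so CANC applies to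
`D = P(cj f) + b(cj f) P(f)` (natural by AFF). -/
def Stmt_BBC : Prop :=
  ∀ f : F2h, IsGT1 f → ∀ (O : Type) [CommRing O] [Finite O] (s t : Oˣ),
    bf f s t * bf f s⁻¹ t⁻¹ = 1 ∧
    Pf (cj f) s t = -(((s⁻¹ : Oˣ) : O) * Pf f s⁻¹ t⁻¹) ∧
    bf (cj f) s t = bf f s⁻¹ t⁻¹ ∧
    Pf (cj f) s t = -(bf (cj f) s t * Pf f s t)

/-- MODULE RS (needs AFF, PREL, CONJ, BBC).  Algebra of the matrices `R`, `S`.  PROOF.  Put
`q = Q(T₁,W⁻¹)`, `p = P(W,T₄)`, `W = T₁T₂`; `b(T₁,W⁻¹) = 1 + (1-W⁻¹) q` (AFF) and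
`b(T₃,T₄) = b(W,T₄) = 1 + (1-W) p` (PREL, `T₄ T₃ W = 1`, symmetry), so
`b(T₁,W⁻¹) - b(T₃,T₄) = (1-W⁻¹)(q + W p)`, `σ = -(1-T₁)(q + W p)`.  Commutation with `gu` is
`σ (W⁻¹-1) = (1-T₁)(b(T₁,W⁻¹) - b(T₃,T₄))`; two matrices `R_f`, `R_g` commute by the same formulas.
`R_f R_{cj f} = 1`: diagonal by BBC; off-diagonal `b'_B σ + σ' b_A` (dashes for `cj f`) with
`σ' = (1-T₁)(b'_B q + W b'_A p)` (BBC fourth formula) equals
`(1-T₁)(b'_B q (b_A - 1) + W p (1 - b'_B)) = (1-T₁) b'_B p q ((1-W) + W(1-W⁻¹)) = 0`.  The same for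
`S`: with `p₁ = P(W₁⁻¹,T₃)`, `q₁ = Q(T₄,W₁)`, `W₁ = T₂T₃`: `b(T₄,T₁) = b(T₄,W₁) = 1 + (1-W₁) q₁`,
`b(W₁⁻¹,T₃) = 1 + (1-W₁⁻¹) p₁`, `T₄ = T₁⁻¹W₁⁻¹`. -/
def Stmt_RS : Prop :=
  ∀ (O : Type) [CommRing O] [Finite O] (T₁ T₂ T₃ : Oˣ),
    (∀ f : F2h, IsGT1 f →
      (gu T₁ T₂).1 * Rm f T₁ T₂ T₃ = Rm f T₁ T₂ T₃ * (gu T₁ T₂).1 ∧
      (gv T₁ T₂ T₃).1 * Sm f T₁ T₂ T₃ = Sm f T₁ T₂ T₃ * (gv T₁ T₂ T₃).1 ∧
      Rm f T₁ T₂ T₃ * Rm (cj f) T₁ T₂ T₃ = 1 ∧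
      Sm f T₁ T₂ T₃ * Sm (cj f) T₁ T₂ T₃ = 1) ∧
    (∀ f g : F2h, IsGT1 f → IsGT1 g →
      Rm f T₁ T₂ T₃ * Rm g T₁ T₂ T₃ = Rm g T₁ T₂ T₃ * Rm f T₁ T₂ T₃ ∧
      Sm f T₁ T₂ T₃ * Sm g T₁ T₂ T₃ = Sm g T₁ T₂ T₃ * Sm f T₁ T₂ T₃)

/-- MODULE GASS (needs CONJ, PREL, PENT, RS).  PROOF.  Make units `R_f`, `S_f` of `GL (Fin 2) O`
from RS (inverse `R_{cj f}`, `S_{cj f}`; note `cj (cj f) = f` by `ext_E`).  `G_f = f(gu,gv)
= S_f R_f⁻¹` (PENT).  `E (F1 f g) gu gv = g(gu, G_f⁻¹ gv G_f)` (`E_F1`) and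
`G_f⁻¹ gv G_f = R_f gv R_f⁻¹`, `gu = R_f gu R_f⁻¹`, so it is `R_f G_g R_f⁻¹` (`map_E` for
conjugation).  So `E (f * F1 f g) gu gv = S_f S_g R_g⁻¹ R_f⁻¹`.  (a) `g = cj f`; (b) symmetric in
`f`, `g`; (c) `P = 0` gives `Q = 0` (PREL), `R = S = 1`. -/
def Stmt_GASS : Prop :=
  ∀ (O : Type) [CommRing O] [Finite O] (T₁ T₂ T₃ : Oˣ),
    (∀ f : F2h, IsGT1 f → E (f * F1 f (cj f)) (gu T₁ T₂) (gv T₁ T₂ T₃) = 1) ∧
    (∀ f g : F2h, IsGT1 f → IsGT1 g →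
      E (f * F1 f g) (gu T₁ T₂) (gv T₁ T₂ T₃) = E (g * F1 g f) (gu T₁ T₂) (gv T₁ T₂ T₃)) ∧
    (∀ f : F2h, IsGT1 f → (∀ s t : Oˣ, Pf f s t = 0) →
      E f (gu T₁ T₂) (gv T₁ T₂ T₃) = 1)

/-! ## Deformation -/

/-- MODULE SPLIT.  A quadratic extension in which the polynomial `X² - τ X + δ` has a root.
PROOF.  `AdjoinRoot (X² - τ X + δ)` (monic of degree `2`: free of rank `2`, so finite, and `O`
embeds), the root `e` is a unit since `e (τ - e) = δ`. -/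
def Stmt_SPLIT : Prop :=
  ∀ (O : Type) [CommRing O] [Finite O] (τ δ : O), IsUnit δ →
    ∃ (O' : Type) (_ : CommRing O') (_ : Finite O') (i : O →+* O') (e : O'ˣ),
      Function.Injective i ∧ (e : O') * e - i τ * e + i δ = 0

/-- MODULE INTG (needs API).  Vectors spanning a Gassner pair.  PROOF.  Here
`det (u-1) = det (v-1) = 0`, `a = det u`, `b = det v`, `c² - tr(uv) c + ab = 0`.  Put
`T₁ = c/a`, `T₂ = 1/c`, `T₃ = c/b` (so `T₄ = ab/c`, `(T₁T₂)⁻¹ = a`, `(T₂T₃)⁻¹ = b`).  For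
`y = (v - b) w` put `v₁ = (1-T₁) y`, `v₃ = (u - a) y`.  Then (Cayley-Hamilton
`(u-1)(u-a) = 0`, `(v-1)(v-b) = 0`) `u v₃ = v₃`, `u v₁ = a v₁ + (1-T₁) v₃`, `v v₁ = v₁`,
`v v₃ = b v₃ + (v-b)(u-a) y` and `(v-b)(u-a) y = (tr(uv) - a - b) y = T₄ (1-T₁)(1-T₃) y` for `y` in
the image of `v - b` (rank one computation: `(v-b)(u-a)(v-b) = (tr(uv)-a-b)(v-b)`, an identity of
`2 × 2` matrices given the determinant conditions), so `v v₃ = b v₃ + (1-T₃) T₄ v₁`.  So the linear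
map `L x = x 0 • v₁ + x 1 • v₃` intertwines `gu, gv` and `u, v`; by API (4) (permutations of
`Fin 2 → O` by `mulVec`) `w₀(u,v) (L x) = L (w₀(gu,gv) x) = L x`. -/
def Stmt_INTG : Prop :=
  ∀ w₀ : F2h, (∀ (O : Type) [CommRing O] [Finite O] (T₁ T₂ T₃ : Oˣ),
      E w₀ (gu T₁ T₂) (gv T₁ T₂ T₃) = 1) →
    ∀ (O : Type) [CommRing O] [Finite O] (u v : GL (Fin 2) O) (a b c : Oˣ),
      (a : O) = u.1.det → (b : O) = v.1.det → (u.1 - 1).det = 0 → (v.1 - 1).det = 0 →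
      (c : O) * c - (u.1 * v.1).trace * c + a * b = 0 →
      ((E w₀ u v).1 - 1) * (((1 - ((c * a⁻¹ : Oˣ) : O))) • (v.1 - (b : O) • 1)) = 0 ∧
      ((E w₀ u v).1 - 1) * ((u.1 - (a : O) • 1) * (v.1 - (b : O) • 1)) = 0

/-- MODULE DETC.  Pure algebra of `2 × 2` matrices.  PROOF.  Let `N = v - b`, `k = 1 - c/a`,
`M = W - 1`.  From `k M N = 0` and `M (u - a) N = 0`: `k M u N = 0`, `k M N u = 0`, so
`k M (u v - v u) = 0`; multiply by the adjugate: `k det(uv-vu) M = 0`.  And `k` divides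
`det(uv-vu)`: `c² det(uv - vu) = ± (c² - tr… )`, precisely
`det(uv-vu) = -(1+ab-t)(a+b-t)` with `t = tr(uv)` when `det(u-1) = det(v-1) = 0`, `a = det u`,
`b = det v`, and `a+b-t = (a-c)(c-b)/c` by `t = c + ab/c`.  So `det(uv-vu)² M = 0`. -/
def Stmt_DETC : Prop :=
  ∀ (O : Type) [CommRing O] (u v M : Matrix (Fin 2) (Fin 2) O) (a b c : Oˣ),
    (a : O) = u.det → (b : O) = v.det → (u - 1).det = 0 → (v - 1).det = 0 →
    (c : O) * c - (u * v).trace * c + a * b = 0 →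
    M * (((1 - ((c * a⁻¹ : Oˣ) : O))) • (v - (b : O) • 1)) = 0 →
    M * ((u - (a : O) • 1) * (v - (b : O) • 1)) = 0 →
    (u * v - v * u).det ^ 2 • M = 0

/-- MODULE DEF1 (needs API, SPLIT, INTG, DETC).  PROOF.  Embed `O` in `O₁` with an eigenvalue
`e` of `u` (SPLIT for `τ = tr u`, `δ = det u`), then in `O₂` with an eigenvalue `e'` of `v`, then
`u' = u/e`, `v' = v/e'` satisfy `det(u'-1) = det(v'-1) = 0`; embed in `O₃` with an eigenvalue `c` of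
`u'v'`.  The value of `w₀` does not change when `u`, `v` are multiplied by scalars (API (2)) and is
natural in the ring (`map_E` for `GL (Fin 2) O → GL (Fin 2) O₃`).  INTG and DETC give
`det(u'v'-v'u')² (w₀(u,v) - 1) = 0` in `O₃`, and `det(u'v'-v'u') = det(uv-vu)/(e e')²`. -/
def Stmt_DEF1 : Prop :=
  ∀ w₀ : F2h, w₀ ∈ closedComm (FreeGroup (Fin 2)) →
    (∀ (O : Type) [CommRing O] [Finite O] (T₁ T₂ T₃ : Oˣ),
      E w₀ (gu T₁ T₂) (gv T₁ T₂ T₃) = 1) →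
    ∀ (O : Type) [CommRing O] [Finite O] (u v : GL (Fin 2) O),
      (u.1 * v.1 - v.1 * u.1).det ^ 2 • ((E w₀ u v).1 - 1) = 0

/-- MODULE DEFO (needs ANN, DEF1).  PROOF.  For `u`, `v` over `O` let `p ∈ O[X]` be the square of
`det((u + X E₁₂)(v + X E₂₁) - (v + X E₂₁)(u + X E₁₂))`; the determinant has degree `4` with leading
coefficient `-1` (`[E₁₂,E₂₁] = diag(1,-1)`), so `p` has leading coefficient `1`.  Over the ring `O'` of ANN the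
matrices `u + ε E₁₂`, `v + ε E₂₁` are invertible (the determinant is a unit modulo the kernel of
`π`), DEF1 gives `p(ε) (w₀(u',v') - 1)_{ij} = 0`, so `π` of the entries of `w₀(u',v') - 1` is zero,
and `π` maps `w₀(u',v')` to `w₀(u,v)` (`map_E`). -/
def Stmt_DEFO : Prop :=
  ∀ w₀ : F2h, w₀ ∈ closedComm (FreeGroup (Fin 2)) →
    (∀ (O : Type) [CommRing O] [Finite O] (T₁ T₂ T₃ : Oˣ),
      E w₀ (gu T₁ T₂) (gv T₁ T₂ T₃) = 1) →
    ∀ (O : Type) [CommRing O] [Finite O] (u v : GL (Fin 2) O), E w₀ u v = 1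

/-! ## Metabelian groups, complex conjugation, assembly -/

/-- MODULE META (needs AFF, CANC).  PROOF.  The affine transformations with scalar linear part form
a subgroup of `AG O` whose second derived subgroup is trivial (the derived subgroup consists of
translations).  `TrivMetab` for this group and `w = Y` says that the translation
`f((s,w₁),(t,w₂))` by `P w₁ - Q w₂` commutes with `(t,w₂)`, so `(1-t) P(s,t) = 0` (take
`w₁ = (1,0)`, `w₂ = 0`) for all `O`, `s`, `t`; CANC. -/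
def Stmt_META : Prop :=
  ∀ Φ : Pair, Φ.lam = 1 → TrivMetab Φ →
    ∀ (O : Type) [CommRing O] [Finite O] (s t : Oˣ), Pf Φ.f s t = 0

/-- The pair `(-1, 1)`. -/
def ccp : Pair := ⟨-1, 1, one_mem _⟩

/-- MODULE UNIT.  PROOF.  (1) For `Φ ∈ GT` the inverse is `(lam⁻¹, F⁻¹(f⁻¹))`; `F⁻¹(f⁻¹)` lies in
`closedComm`: `F⁻¹` is a (bijective) endomorphism of `F2h`; alternatively: `F w ∈ closedComm` implies
`w ∈ closedComm`, since for a finite abelian group `A` and `a, b : A`, `E w a b = E (F w) a' b'` with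
`a' = a ^ (lam⁻¹)`, `b' = b ^ (lam⁻¹)`, and an element of `F2h` with trivial values in all finite
abelian groups is in `closedComm` (take `A = Abelianization (FreeGroup (Fin 2) ⧸ N)`).
(2) `f = 1`: (I), (III) are trivial, (II) with `m = -1`: `xy · y⁻¹ · x⁻¹ = 1`; `F` is an
involution.  (3) compute. -/
def Stmt_UNIT : Prop :=
  (∀ Φ : Pair, Φ ∈ GT → IsUnit Φ) ∧
  ccp ∈ GT ∧ ccp * ccp = 1 ∧
  (∀ Φ : Pair, Φ.lam = 1 → (ccp * Φ * ccp).lam = 1 ∧ (ccp * Φ * ccp).f = cj Φ.f) ∧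
  (∀ Φ : Pair, Φ.lam = 1 → Φ.F = F1 Φ.f)

end Pool.Agent.GTD
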