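import Pool.Agent.GTD.Stmts

set_option autoImplicit false

/-!
# Project GTD (MP_6a6203_al), second part: rigid pairs
-/

namespace Pool.Agent.GTD

open Matrix

/-- MODULE RIG.  PROOF.  Write `G = f(u,v)`.
(0) `u · G⁻¹vG` is conjugate to `uv`.  Let `x = u`, `y = v`, `x' = x⁻¹y⁻¹`, so `x x' y = 1`;
`x⁻¹ y x = x' y x'⁻¹ = (x' x)⁻¹`.  Relation (II) for `(x', x)`:
`f(x⁻¹yx, x') f(x, x⁻¹yx) f(x',x) = 1`, i.e. (`map_E` for conjugation)
`x' f(y,x') x'⁻¹ · x⁻¹ f(x,y) x · f(x',x) = 1`, so `x' f(x',y)⁻¹ y f(x,y) x f(x',x) = 1`; and (II) for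
`(x,x')` (`(xx')⁻¹ = y`) with (I) gives `f(x,y)⁻¹ f(x',y) = f(x',x)`.  Hence
`G⁻¹ (f(x',y) x' f(x',y)⁻¹) G = (G⁻¹ y G x)⁻¹`, so `G⁻¹yG x` is conjugate to `x'⁻¹ = y x`.
(1) So by rigidity there is `A` with `u = A u A⁻¹`, `G⁻¹ v G = A v A⁻¹`.
(2) Let `ι` be as in `InvPair`; `Gc = (cj f)(u,v) = f(ι u, ι v) = ι G`, and `ι A = A⁻¹`, so
`Gc⁻¹ v Gc = ι (G⁻¹ v⁻¹ G) = ι (A v⁻¹ A⁻¹) = A⁻¹ v A`.  Then for `κ = cj f * F1 (cj f) f`:
`κ(u,v) = Gc · f(u, Gc⁻¹vGc) = Gc · f(A⁻¹uA, A⁻¹vA) = Gc A⁻¹ G A`, and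
`κ(u,v)⁻¹ v κ(u,v) = A⁻¹G⁻¹A (A⁻¹ v A) A⁻¹ G A = A⁻¹ (G⁻¹ v G) A = v`. -/
def Stmt_RIG : Prop :=
  ∀ f : F2h, IsGT1 f → ∀ (H : Type) [Group H] [Finite H] (u v : H), RigidPair u v →
    (∃ A : H, A * u = u * A ∧ (E f u v)⁻¹ * v * E f u v = A * v * A⁻¹) ∧
    (InvPair u v → (E (cj f * F1 (cj f) f) u v)⁻¹ * v * E (cj f * F1 (cj f) f) u v = v)

/-- MODULE TRSP.  Every matrix over a field is similar to its transpose.  PROOF.  Equivalently
(`P M = Mᵀ P`) there is a nondegenerate bilinear form `β` on `V = Fin n → K` with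
`β (M x) y = β x (M y)`.  `V` is a torsion module over `K[X]` (`Module.AEval'` for the linear map
`M`), so `V ≃ ⨁ i, K[X] ⧸ (q_i)` with `q_i = p_i ^ e_i ≠ 0` (`Module.equiv_directSum_of_isTorsion`).
On `K[X] ⧸ (q)`, `d = deg q`, take `β x y = λ (x y)`, `λ` of the class of `g` the coefficient of
`X ^ (d-1)` of `g % q`; it is nondegenerate: for `g ≠ 0` of degree `e < d`, `λ (g X^(d-1-e)) ≠ 0`.
Multiplication by `X` is self-adjoint.  Take the orthogonal sum and transport to `V`.  (Other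
proofs are welcome, e.g. by induction on cyclic decompositions.) -/
def Stmt_TRSP : Prop :=
  ∀ (K : Type) [Field K] (n : ℕ) (M : Matrix (Fin n) (Fin n) K),
    ∃ P : GL (Fin n) K, P.1 * M = Mᵀ * P.1

/-- MODULE RIGL (needs TRSP).  Linearly rigid pairs with `u` nonderogatory.  PROOF.  By TRSP
`u`, `uᵀ` are conjugate in `GL`, also `v`, `vᵀ`, and `uᵀ vᵀ = (v u)ᵀ` is conjugate to `v u`, hence
to `u v`.  By rigidity there is `g` with `uᵀ = g u g⁻¹`, `vᵀ = g v g⁻¹`.  Put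
`ι(M) = g⁻¹ (M⁻¹)ᵀ g`, a homomorphism `GL → GL`: `ι u = g⁻¹ (uᵀ)⁻¹ g = u⁻¹`, `ι v = v⁻¹`.  If `a`
commutes with `u` then `a = p(u)` for a polynomial `p`, `aᵀ = p(uᵀ) = g a g⁻¹`, so
`ι a = a⁻¹`. -/
def Stmt_RIGL : Prop :=
  ∀ (K : Type) [Field K] (n : ℕ) (u v : GL (Fin n) K), RigidPair u v → Nonderog u.1 →
    InvPair u v

/-- MODULE HYP.  Hypergeometric pairs (Levelt).  PROOF.  Put `w = u v`; `w - u = u (v - 1)` has rank
`1`.  (1) There is a vector `e ≠ 0` with `w (u^j e) = u^(j+1) e` for `j ≤ n - 2`: the intersection of the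
`n - 1` subspaces `{x | (w - u) u^j x = 0}` of codimension `≤ 1` is not zero.  So `w^j e = u^j e` for
`j ≤ n - 1`.  (2) `e, u e, …, u^(n-1) e` are linearly independent: otherwise let `p ≠ 0` be a
polynomial of minimal degree `m < n` with `p(u) e = 0`; then `p(w) e = 0`, and `p` also has minimal
degree among the polynomials with `p(w) e = 0`; so `p` divides both characteristic polynomials
(Cayley-Hamilton), so `p` is a constant, `e = 0`.  (3) In the basis `u^j e` the matrices `u`, `w` are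
given by: `u (u^j e) = w (u^j e) = u^(j+1) e` (`j ≤ n-2`), `u^n e = -∑ a_j u^j e`,
`w (u^(n-1) e) = w^n e = -∑ b_j u^j e` with the coefficients of the characteristic polynomials `a`
of `u`, `b` of `w`.  Rigidity: `u'`, `v'` conjugate to `u`, `v`, `u'v'` conjugate to `uv` have the same
characteristic polynomials and `rank (v' - 1) = 1`, so the same matrices in the basis `u'^j e'`.
(4) Nonderogatory: if `M` commutes with `u`, `M e = p(u) e` for some `p`, so `M = p(u)` on the basis.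
(`n = 0` is excluded by the rank.) -/
def Stmt_HYP : Prop :=
  ∀ (K : Type) [Field K] (n : ℕ) (u v : GL (Fin n) K), (v.1 - 1).rank = 1 →
    IsCoprime u.1.charpoly (u.1 * v.1).charpoly → RigidPair u v ∧ Nonderog u.1

/-- First hand-in.  For `Φ = (1,f)` in `GT` and `c = (-1,1)`: `Φ² = [Φ,c] k` with `k` (in the group
generated by `GT`) acting trivially on all two-dimensional representations over finite commutative
rings and on all rigid pairs of finite groups with an inverting endomorphism; the latter contain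
the linearly rigid pairs of `GL_n` over finite fields with `u` nonderogatory, in particular the
hypergeometric pairs.  For `N` odd the product of commutators `[Φ,c]^((N+1)/2)` acts as `Φ` on the
rigid pairs for which the `N`-th powers of the elements commuting with `u` commute with `v`. -/
def Stmt_A : Prop :=
  (∀ (K : Type) [Field K] (n : ℕ) (u v : GL (Fin n) K), RigidPair u v → Nonderog u.1 →
    InvPair u v) ∧
  (∀ (K : Type) [Field K] (n : ℕ) (u v : GL (Fin n) K), (v.1 - 1).rank = 1 →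
    IsCoprime u.1.charpoly (u.1 * v.1).charpoly → InvPair u v) ∧
  ∀ Φ : Pair, Φ ∈ GT → Φ.lam = 1 →
    ∃ U c k : Pairˣ, (U : Pair) = Φ ∧ (c : Pair) ∈ GT ∧ (c : Pair).lam = -1 ∧
      (c : Pair).f = 1 ∧ k ∈ genGT ∧ (k : Pair).lam = 1 ∧
      U ^ 2 = (U * c * U⁻¹ * c⁻¹) * k ∧
      (∀ (O : Type) [CommRing O] [Finite O] (u v : GL (Fin 2) O), TrivAt (k : Pair) u v) ∧
      (∀ (H : Type) [Group H] [Finite H] (u v : H), InvPair u v → TrivAt (k : Pair) u v) ∧
      (∀ N : ℕ, Odd N → ∀ (H : Type) [Group H] [Finite H] (u v : H), InvPair u v →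
        (∀ a : H, a * u = u * a → a ^ N * v = v * a ^ N) →
        ∀ w : F2h, E (Φ.F w) u v =
          E ((((U * c * U⁻¹ * c⁻¹) ^ ((N + 1) / 2) : Pairˣ) : Pair).F w) u v)

/-- Second hand-in: on `GT¹` the action on two-dimensional representations over finite commutative
rings is determined by the metabelian one. -/
def Stmt_B : Prop :=
  ∀ Φ : Pair, Φ ∈ GT → Φ.lam = 1 → TrivMetab Φ →
    ∀ (O : Type) [CommRing O] [Finite O] (u v : GL (Fin 2) O), E Φ.f u v = 1

end Pool.Agent.GTD
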